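import Pool.Agent.NTN.Dual
import Pool.Agent.NTR.FreeNots

/-!
# The transfer principle for disjunctions and conjunctions of copies
-/

namespace Pool.Agent.NTN

open Pool.Agent.NegLim Pool.Agent.NTR Finset

theorem changesOn_pos' {ι W : Type} {U : Finset ι} {w : (ι → Bool) → W} {r : ℕ}
    (h : ChangesOn U w r) : 0 < r :=
  (Nat.zero_le _).trans_lt (h (fun _ _ => false) monotone_const (fun _ _ _ => rfl) 0)

/-- Classes of functions, disjunctions, for every monotone `g`. -/
theorem classes_or_all (K : Gen.MonoClass) {ι β : Type} (g : (β → Bool) → Bool)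
    (hg : Monotone g) {r : ℕ}
    (f : (ι → Bool) → Prop) (U : Finset ι) (φ : ι → (Fin r × β) ⊕ Bool)
    (hφU : ∀ v, v ∉ U → ∃ c, φ v = .inr c)
    (hφ : ∀ y : Fin r × β → Bool, f (fun v => Sum.elim y id (φ v)) ↔
      ∃ i, g (fun b => y (i, b)) = true)
    (ts : List ℕ) (hF : Finds K U ts r f) :
    ∃ Gs : List ((β → Bool) → Bool), Gs.length ≤ ts.sum + 1 ∧
      (∀ G ∈ Gs, K.mem β G) ∧ ∀ u, g u = true ↔ ∃ G ∈ Gs, G u = true := by
  by_cases h0 : g (fun _ => false) = true
  · have hone : ∀ u, g u = true := by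
      intro u
      have h1 : g (fun _ => false) ≤ g u := hg (fun _ => Bool.false_le _)
      rw [h0] at h1
      exact top_le_iff.mp h1
    obtain ⟨Q, P, -, -, hP, hch, hf⟩ := hF
    have hr : 0 < r := changesOn_pos' hch
    let x₀ : ι → Bool := fun v => Sum.elim (fun _ => false) id (φ v)
    have hx₀ : f x₀ := (hφ fun _ => false).2 ⟨⟨0, hr⟩, hone _⟩
    have h1 := (hf x₀).2 hx₀
    have h2 := K.subst _ β _ (fun v => Sum.inr (x₀ v)) (hP x₀ (answers x₀ (Q x₀) []))
    have h3 : (fun y : β → Bool => P x₀ (answers x₀ (Q x₀) [])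
        fun i => Sum.elim y id (Sum.inr (x₀ i) : β ⊕ Bool)) = fun _ => true := by
      funext y
      exact h1
    rw [h3] at h2
    refine ⟨[fun _ => true], by simp, ?_, fun u => by simp [hone u]⟩
    intro G hG
    rw [List.mem_singleton.1 hG]
    exact h2
  · exact classes_main K g (by simpa using h0) f U φ hφU hφ ts hF

/-- Classes of functions, conjunctions, for every monotone `g`. -/
theorem classes_and_all (K : Gen.MonoClass) {ι β : Type} (g : (β → Bool) → Bool)
    (hg : Monotone g) {r : ℕ}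
    (f : (ι → Bool) → Prop) (U : Finset ι) (φ : ι → (Fin r × β) ⊕ Bool)
    (hφU : ∀ v, v ∉ U → ∃ c, φ v = .inr c)
    (hφ : ∀ y : Fin r × β → Bool, f (fun v => Sum.elim y id (φ v)) ↔
      ∀ i, g (fun b => y (i, b)) = true)
    (ts : List ℕ) (hF : Finds K U ts r f) :
    ∃ Gs : List ((β → Bool) → Bool), Gs.length ≤ ts.sum + 1 ∧
      (∀ G ∈ Gs, K.mem β G) ∧ ∀ u, g u = true ↔ ∀ G ∈ Gs, G u = true := by
  by_cases h0 : g (fun _ => true) = true
  · exact classes_main_and K g h0 f U φ hφU hφ ts hF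
  · have hzero : ∀ u, g u = false := by
      intro u
      have h1 : g u ≤ g (fun _ => true) := hg (fun _ => Bool.le_true _)
      rw [Bool.eq_false_iff.2 h0] at h1
      exact le_bot_iff.mp h1
    obtain ⟨Q, P, -, -, hP, hch, hf⟩ := hF
    have hr : 0 < r := changesOn_pos' hch
    let x₀ : ι → Bool := fun v => Sum.elim (fun _ => false) id (φ v)
    have hx₀ : ¬ f x₀ := fun h => by
      have h4 := (hφ fun _ => false).1 h ⟨0, hr⟩
      rw [hzero] at h4
      exact Bool.false_ne_true h4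
    have h1 : P x₀ (answers x₀ (Q x₀) []) x₀ = false := by
      rw [Bool.eq_false_iff]
      exact fun h => hx₀ ((hf x₀).1 h)
    have h2 := K.subst _ β _ (fun v => Sum.inr (x₀ v)) (hP x₀ (answers x₀ (Q x₀) []))
    have h3 : (fun y : β → Bool => P x₀ (answers x₀ (Q x₀) [])
        fun i => Sum.elim y id (Sum.inr (x₀ i) : β ⊕ Bool)) = fun _ => false := by
      funext y
      exact h1
    rw [h3] at h2
    refine ⟨[fun _ => false], by simp, ?_, fun u => by simp [hzero u]⟩
    intro G hG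
    rw [List.mem_singleton.1 hG]
    exact h2

/-- **The transfer principle.** -/
theorem principle {ι β : Type} [Finite β] (g : (β → Bool) → Bool) (hg : Monotone g) {a : ℕ}
    (f : (ι → Bool) → Prop) (U : Finset ι) (φ : ι → (Fin a × β) ⊕ Bool)
    (hφU : ∀ v, v ∉ U → ∃ c, φ v = .inr c)
    (hφ : (∀ y : Fin a × β → Bool, f (fun v => Sum.elim y id (φ v)) ↔
      ∃ i, g (fun b => y (i, b)) = true) ∨
      ∀ y : Fin a × β → Bool, f (fun v => Sum.elim y id (φ v)) ↔
      ∀ i, g (fun b => y (i, b)) = true) :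
    (∀ (C : Circuit ι) (out : Wire ι), (∀ x : ι → Bool, C.val x out = true ↔ f x) →
      ChangesOn U (fun x => C.notVals x) a →
      ∃ (M : Circuit β) (o : Wire β), M.negs = 0 ∧ M.size ≤ C.size ∧
        ∀ u : β → Bool, M.val u o = g u) ∧
    ∀ (K : Gen.MonoClass) (ts : List ℕ), Finds K U ts a f →
      ∃ Gs : List ((β → Bool) → Bool), Gs.length ≤ ts.sum + 1 ∧ (∀ G ∈ Gs, K.mem β G) ∧
        ((∀ u, g u = true ↔ ∃ G ∈ Gs, G u = true) ∨ ∀ u, g u = true ↔ ∀ G ∈ Gs, G u = true) := by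
  rcases hφ with hφ | hφ
  · refine ⟨fun C out hf hC => circuits_main g hg f U φ hφU hφ C out hC hf, fun K ts hF => ?_⟩
    obtain ⟨Gs, h1, h2, h3⟩ := classes_or_all K g hg f U φ hφU hφ ts hF
    exact ⟨Gs, h1, h2, Or.inl h3⟩
  · refine ⟨fun C out hf hC => circuits_main_and g hg f U φ hφU hφ C out hC hf, fun K ts hF => ?_⟩
    obtain ⟨Gs, h1, h2, h3⟩ := classes_and_all K g hg f U φ hφU hφ ts hF
    exact ⟨Gs, h1, h2, Or.inr h3⟩

end Pool.Agent.NTN
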