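import Pool.Agent.NTN.AvgAnd
import Pool.Agent.NTN.Principle

/-!
# Average case for adaptive queries to a class of monotone functions
-/

set_option autoImplicit false

namespace Pool.Agent.NTN

open Pool.Agent.NegLim Pool.Agent.NTR Finset
open scoped BigOperators

/-- The Boolean function `A` is computed by an algorithm of unlimited power which knows the values
of the variables outside `U` and asks adaptive queries to functions of the class `K`, in rounds of
at most `t₁, t₂, ...` queries (`ts` is the list of these numbers), then `T` last queries, and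
applies an arbitrary function to all answers; the answers of the rounds change fewer than `b` times
along every increasing sequence of inputs which agree outside `U`. -/
def Tries (K : Gen.MonoClass) {ι : Type} (U : Finset ι) (ts : List ℕ) (T b : ℕ)
    (A : (ι → Bool) → Bool) : Prop :=
  ∃ (Q : (ι → Bool) → List (List Bool → List ((ι → Bool) → Bool)))
    (P : (ι → Bool) → List Bool → Fin T → (ι → Bool) → Bool)
    (h : (ι → Bool) → List Bool → (Fin T → Bool) → Bool),
    (∀ x y, (∀ v, v ∉ U → x v = y v) → Q x = Q y ∧ P x = P y ∧ h x = h y) ∧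
    (∀ x, List.Forall₂ (fun q t => ∀ v, (q v).length ≤ t ∧ ∀ F ∈ q v, K.mem ι F) (Q x) ts) ∧
    (∀ x v j, K.mem ι (P x v j)) ∧
    ChangesOn U (fun x => answers x (Q x) []) b ∧
    ∀ x, A x = h x (answers x (Q x) []) fun j => P x (answers x (Q x) []) j x

/-- The disjunctions of at most `q` functions of a class. -/
def orSet (K : Gen.MonoClass) (β : Type) (q : ℕ) : Set ((β → Bool) → Bool) :=
  {H | ∃ Gs : List ((β → Bool) → Bool), Gs.length ≤ q ∧ (∀ G ∈ Gs, K.mem β G) ∧
    ∀ u, H u = true ↔ ∃ G ∈ Gs, G u = true}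

/-- The conjunctions of at most `q` functions of a class. -/
def andSet (K : Gen.MonoClass) (β : Type) (q : ℕ) : Set ((β → Bool) → Bool) :=
  {H | ∃ Gs : List ((β → Bool) → Bool), Gs.length ≤ q ∧ (∀ G ∈ Gs, K.mem β G) ∧
    ∀ u, H u = true ↔ ∀ G ∈ Gs, G u = true}

open Classical in
/-- **Hard distributions for a set of functions.** -/
theorem hard_dist_set {β : Type} [Fintype β] (g : (β → Bool) → Bool) {δ : ℝ} (h0 : 0 < δ)
    (h1 : δ < 1) (k : ℕ) (hk : 3 * (Fintype.card β : ℝ) ≤ k * δ ^ 2)
    (S : Set ((β → Bool) → Bool)) (hne : ∃ Y Z, g Y = true ∧ g Z = false)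
    (hM : ∀ (L : List ((β → Bool) → Bool)) (θ : ℕ), L.length = k → (∀ H ∈ L, H ∈ S) →
      ¬ ∀ u, g u = true ↔ θ ≤ L.countP fun H => H u) :
    ∃ D₀ D₁ : (β → Bool) → ℝ, (∀ u, 0 ≤ D₀ u) ∧ ∑ u, D₀ u = 1 ∧
      (∀ u, D₀ u ≠ 0 → g u = false) ∧ (∀ u, 0 ≤ D₁ u) ∧ ∑ u, D₁ u = 1 ∧
      (∀ u, D₁ u ≠ 0 → g u = true) ∧
      ∀ H ∈ S, ∑ u with H u = true, D₁ u ≤ ∑ u with H u = true, D₀ u + δ := by
  by_contra hcon
  push Not at hcon
  have hAdv : Adv g S δ := by
    intro D₀ D₁ e1 e2 e3 e4 e5 e6
    obtain ⟨H, e7, e8⟩ := hcon D₀ D₁ e1 e2 e3 e4 e5 e6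
    refine ⟨H, e7, ?_⟩
    rw [← sum_filter_bv, ← sum_filter_bv]
    exact e8
  have hp : (prs g).Nonempty := by
    obtain ⟨Y, Z, hY, hZ⟩ := hne
    exact ⟨(Y, Z), mem_prs.mpr ⟨hY, hZ⟩⟩
  obtain ⟨L, θ, hL, hLS, hg⟩ := boosting h0 h1 hAdv hp k (boost_number g hp h0 h1 k hk)
  exact hM L θ hL hLS hg

theorem sum_filter_iff' {X : Type} [Fintype X] (μ : X → ℝ) (P Q : X → Prop)
    (_ : DecidablePred P) (_ : DecidablePred Q) (h : ∀ x, P x ↔ Q x) :
    ∑ x with P x, μ x = ∑ x with Q x, μ x :=
  Finset.sum_congr (Finset.filter_congr fun x _ => h x) fun _ _ => rfl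

/-- Changes of the state together with further monotone bits. -/
theorem changesOn_pair {ι W : Type} {U : Finset ι} {w : (ι → Bool) → W} {T b : ℕ}
    {o : (ι → Bool) → Fin T → Bool} (hw : ChangesOn U w b)
    (ho : ∀ x y, x ≤ y → (∀ v, v ∉ U → x v = y v) → w x = w y → o x ≤ o y) :
    ChangesOn U (fun x => (w x, o x)) ((T + 1) * b) := by
  classical
  intro x hx hU n
  have h1 := changes_pair (fun k => w (x k)) (fun k => o (x k))
    (fun k hk => ho _ _ (hx (Nat.le_succ k))
      (fun v hv => (hU k v hv).trans (hU (k + 1) v hv).symm) hk) n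
  have h2 := hw x hx hU n
  have h3 : {k | k < n ∧ w (x k) ≠ w (x (k + 1))}
      = ↑((range n).filter (fun k => w (x k) ≠ w (x (k + 1)))) := by
    ext k
    simp only [Set.mem_ofPred_eq, coe_filter, mem_range]
  have h4 : {k | k < n ∧ (w (x k), o (x k)) ≠ (w (x (k + 1)), o (x (k + 1)))}
      = ↑((range n).filter (fun k => (w (x k), o (x k)) ≠ (w (x (k + 1)), o (x (k + 1))))) := by
    ext k
    simp only [Set.mem_ofPred_eq, coe_filter, mem_range]
  rw [h3, Set.ncard_coe_finset] at h2
  rw [h4, Set.ncard_coe_finset]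
  have h5 : (univ.filter (fun i : Fin T => o (x n) i = true)).card ≤ T :=
    (card_le_univ _).trans (by simp)
  have h6 : (T + 1) * (((range n).filter (fun k => w (x k) ≠ w (x (k + 1)))).card + 1)
      ≤ (T + 1) * b := Nat.mul_le_mul_left _ h2
  have h7 : (T + 1) * (((range n).filter (fun k => w (x k) ≠ w (x (k + 1)))).card + 1)
      = (T + 1) * ((range n).filter (fun k => w (x k) ≠ w (x (k + 1)))).card + T + 1 := by ring
  omega

open Classical in
/-- **The transfer on `U`, average case, free of any model.** -/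
theorem push_core {ι β : Type} [Fintype ι] [DecidableEq ι] [Fintype β] {U : Finset ι} {r : ℕ}
    (hr : 1 ≤ r) (g : (β → Bool) → Bool) (hg : Monotone g) (f : (ι → Bool) → Prop)
    (φ : ι → (Fin r × β) ⊕ Bool) (hφ : ∀ v, v ∉ U → ∃ c, φ v = .inr c)
    (hf : ∀ y : Fin r × β → Bool, f (fun v => Sum.elim y id (φ v)) ↔
      ∃ i, g (fun b => y (i, b)) = true)
    (D₀ D₁ : (β → Bool) → ℝ) (h0 : ∀ u, 0 ≤ D₀ u) (h0s : ∑ u, D₀ u = 1)
    (h0z : ∀ u, D₀ u ≠ 0 → g u = false) (h1 : ∀ u, 0 ≤ D₁ u) (h1s : ∑ u, D₁ u = 1)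
    (h1z : ∀ u, D₁ u ≠ 0 → g u = true) :
    ∃ μ : (ι → Bool) → ℝ, (∀ x, 0 ≤ μ x) ∧ ∑ x, μ x = 1 ∧
      (∀ x, μ x ≠ 0 → ∀ v c, φ v = .inr c → x v = c) ∧
      ∀ (α : Type) (st : (ι → Bool) → α) (A : (ι → Bool) → Prop) (b : ℕ) (δ : ℝ),
        (∀ x y, (∀ v, v ∉ U → x v = y v) → st x = st y → (A x ↔ A y)) →
        ChangesOn U st b →
        (∀ (i : Fin r) (X : Fin r × β → Bool), (∀ e, X (i, e) = false) →
          ∑ u with st (fun v => Sum.elim (put X i u) id (φ v)) ≠
              st (fun v => Sum.elim X id (φ v)), D₁ u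
            ≤ ∑ u with st (fun v => Sum.elim (put X i u) id (φ v)) ≠
              st (fun v => Sum.elim X id (φ v)), D₀ u + δ) →
        ∑ x with (A x ↔ f x), μ x ≤ 1 / 2 + δ / 2 + b / (2 * r) := by
  have hpush : ∀ (P : (ι → Bool) → Prop) [DecidablePred P],
      ∑ x with P x, ∑ y, muAvg D₀ D₁ r y * ip ((fun v => Sum.elim y id (φ v)) = x)
        = ∑ y, muAvg D₀ D₁ r y * ip (P fun v => Sum.elim y id (φ v)) := by
    intro P _
    rw [Finset.sum_comm]
    refine Finset.sum_congr rfl fun y _ => ?_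
    rw [← Finset.mul_sum, sum_ip_eq]
  refine ⟨fun x => ∑ y, muAvg D₀ D₁ r y * ip ((fun v => Sum.elim y id (φ v)) = x), ?_, ?_, ?_, ?_⟩
  · intro x
    exact Finset.sum_nonneg fun y _ => mul_nonneg (muAvg_nonneg h0 h1 r y) (ip_nonneg _)
  · have h2 := hpush (fun _ => True)
    rw [Finset.filter_true] at h2
    rw [h2]
    simp only [ip_true trivial, mul_one]
    exact muAvg_total h0s h1s hr
  · intro x hx v c hc
    obtain ⟨y, -, hy⟩ := Finset.exists_ne_zero_of_sum_ne_zero hx
    by_cases h2 : (fun v => Sum.elim y id (φ v)) = x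
    · rw [← h2]
      simp only [hc, Sum.elim_inr, id]
    · exact absurd (by rw [ip_false h2, mul_zero]) hy
  · intro α st A b δ hA hC hδ
    have hout : ∀ (y z : Fin r × β → Bool) (v : ι), v ∉ U →
        Sum.elim y id (φ v) = Sum.elim z id (φ v) := by
      intro y z v hv
      obtain ⟨c, hc⟩ := hφ v hv
      rw [hc]
      rfl
    have h2 := avg_core g hg r hr D₀ D₁ h0 h0s h0z h1 h1s h1z
      (fun y => st fun v => Sum.elim y id (φ v)) (fun y => A fun v => Sum.elim y id (φ v)) b δ
      (fun y z hyz => hA _ _ (fun v hv => hout y z v hv) hyz)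
      (by
        intro x hx n
        have h3 := hC (fun k v => Sum.elim (x k) id (φ v))
          (fun i j hij v => LocE.sub_mono (hx hij) (φ v))
          (fun k v hv => hout (x k) (x 0) v hv) n
        have h4 : {k | k < n ∧ st (fun v => Sum.elim (x k) id (φ v))
            ≠ st (fun v => Sum.elim (x (k + 1)) id (φ v))}
            = ↑((range n).filter (fun k => st (fun v => Sum.elim (x k) id (φ v))
              ≠ st (fun v => Sum.elim (x (k + 1)) id (φ v)))) := by
          ext k
          simp only [Set.mem_ofPred_eq, coe_filter, mem_range]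
        rw [h4, Set.ncard_coe_finset] at h3
        exact h3)
      hδ
    refine le_trans (le_of_eq ?_) h2
    rw [hpush, Finset.sum_filter]
    refine Finset.sum_congr rfl fun y _ => ?_
    have h4 : (A (fun v => Sum.elim y id (φ v)) ↔ f fun v => Sum.elim y id (φ v)) ↔
        (A (fun v => Sum.elim y id (φ v)) ↔ OrCopies g y) := by
      rw [hf]
      exact Iff.rfl
    by_cases h5 : A (fun v => Sum.elim y id (φ v)) ↔ f fun v => Sum.elim y id (φ v)
    · rw [ip_true h5, if_pos (h4.mp h5), mul_one]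
    · rw [ip_false h5, if_neg (fun h6 => h5 (h4.mpr h6)), mul_zero]

/-- The event that the answers or the last answers change when a block of zeros is replaced by `u`
is a disjunction of functions of the class. -/
theorem event_queries {ι β : Type} {r T : ℕ} (K : Gen.MonoClass) (φ : ι → (Fin r × β) ⊕ Bool)
    (Q : List (List Bool → List ((ι → Bool) → Bool))) (ts : List ℕ)
    (hQ : List.Forall₂ (fun q t => ∀ v, (q v).length ≤ t ∧ ∀ F ∈ q v, K.mem ι F) Q ts)
    (P : List Bool → Fin T → (ι → Bool) → Bool) (hP : ∀ v j, K.mem ι (P v j))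
    (i : Fin r) (X : Fin r × β → Bool) (hX : ∀ e, X (i, e) = false) :
    ∃ H ∈ orSet K β (ts.sum + T), ∀ u : β → Bool,
      (H u = true ↔
        (answers (fun v => Sum.elim (put X i u) id (φ v)) Q [],
          fun j => P (answers (fun v => Sum.elim (put X i u) id (φ v)) Q []) j
            fun v => Sum.elim (put X i u) id (φ v))
        ≠ (answers (fun v => Sum.elim X id (φ v)) Q [],
          fun j => P (answers (fun v => Sum.elim X id (φ v)) Q []) j
            fun v => Sum.elim X id (φ v))) := by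
  classical
  have hQl : List.Forall₂ (fun q t => ∀ v, (q v).length ≤ t) Q ts :=
    hQ.imp fun q t h v => (h v).1
  have hQm : ∀ q ∈ Q, ∀ v, ∀ F ∈ q v, K.mem ι F := by
    clear hQl
    induction hQ with
    | nil => intro q hq; simp at hq
    | cons h _ ih =>
      intro q hq
      rcases List.mem_cons.mp hq with rfl | hq
      · exact fun v => (h v).2
      · exact ih q hq
  set x₀ : ι → Bool := fun v => Sum.elim X id (φ v) with hx₀
  set ans := answers x₀ Q [] with hans
  let σ : ι → β ⊕ Bool := fun v => Sum.elim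
    (fun p : Fin r × β => if p.1 = i then Sum.inl p.2 else Sum.inr (X p)) Sum.inr (φ v)
  have hσ : ∀ u : β → Bool, (fun v => Sum.elim u id (σ v))
      = fun v => Sum.elim (put X i u) id (φ v) := by
    intro u
    funext v
    simp only [σ]
    cases φ v with
    | inl p =>
      simp only [Sum.elim_inl, put]
      split_ifs with h <;> rfl
    | inr c => rfl
  let rs : ((ι → Bool) → Bool) → (β → Bool) → Bool := fun F u => F fun v => Sum.elim u id (σ v)
  have hrs : ∀ F, K.mem ι F → K.mem β (rs F) := fun F hF => K.subst ι β F σ hF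
  have hle : ∀ u : β → Bool, x₀ ≤ fun v => Sum.elim u id (σ v) := by
    intro u
    rw [hσ u]
    exact fun v => LocE.sub_mono (le_put hX u) (φ v)
  let js : List (Fin T) := (List.finRange T).filter fun j => !P ans j x₀
  refine ⟨fun u => decide (∃ G ∈ (falseQ x₀ Q []).map rs ++ js.map fun j => rs (P ans j),
    G u = true), ⟨(falseQ x₀ Q []).map rs ++ js.map fun j => rs (P ans j), ?_, ?_, fun u => ?_⟩,
    fun u => ?_⟩
  · rw [List.length_append, List.length_map, List.length_map]
    refine Nat.add_le_add (length_falseQ x₀ Q ts hQl []) ?_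
    exact (List.length_filter_le _ _).trans (by rw [List.length_finRange])
  · intro G hG
    rcases List.mem_append.1 hG with hG | hG
    · obtain ⟨F, hF, rfl⟩ := List.mem_map.1 hG
      exact hrs F (mem_falseQ (K.mem ι) x₀ Q hQm [] F hF)
    · obtain ⟨j, -, rfl⟩ := List.mem_map.1 hG
      exact hrs _ (hP ans j)
  · rw [decide_eq_true_eq]
  · rw [decide_eq_true_eq, ← hσ u]
    set x := fun v => Sum.elim u id (σ v) with hx
    have hmono : ∀ q ∈ Q, ∀ v, ∀ F ∈ q v, Monotone F := fun q hq v F hF =>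
      K.mono ι F (hQm q hq v F hF)
    constructor
    · rintro ⟨G, hG, hGu⟩ heq
      rw [Prod.mk.injEq] at heq
      rcases List.mem_append.1 hG with hG | hG
      · obtain ⟨F, hF, rfl⟩ := List.mem_map.1 hG
        have h1 := falseQ_of_answers_eq Q [] heq.1 F hF
        have h2 : F x = true := hGu
        rw [h1] at h2
        exact Bool.false_ne_true h2
      · obtain ⟨j, hj, rfl⟩ := List.mem_map.1 hG
        have h1 : P ans j x₀ = false := by simpa using (List.mem_filter.1 hj).2
        have h2 : P ans j x = true := hGu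
        have h3 : P (answers x Q []) j x = P ans j x₀ := congrFun heq.2 j
        rw [heq.1, h1] at h3
        rw [h3] at h2
        exact Bool.false_ne_true h2
    · intro hne
      by_cases hall : ∀ G ∈ falseQ x₀ Q [], G x = false
      · have h1 := answers_eq_of_falseQ (hle u) Q hmono [] hall
        have h2 : (fun j => P (answers x Q []) j x) ≠ fun j => P ans j x₀ := by
          intro h3
          exact hne (by rw [Prod.mk.injEq]; exact ⟨h1, h3⟩)
        obtain ⟨j, hj'⟩ := Function.ne_iff.1 h2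
        have hj : P (answers x Q []) j x ≠ P ans j x₀ := hj'
        rw [h1, ← hans] at hj
        have h4 : P ans j x₀ ≤ P ans j x := K.mono ι _ (hP ans j) (hle u)
        have h5 : P ans j x₀ = false ∧ P ans j x = true := by
          revert hj h4
          cases P ans j x₀ <;> cases P ans j x <;> decide
        exact ⟨rs (P ans j), List.mem_append_right _ (List.mem_map.2 ⟨j,
          List.mem_filter.2 ⟨List.mem_finRange j, by simp [h5.1]⟩, rfl⟩), h5.2⟩
      · push Not at hall
        obtain ⟨G, hG, hGx⟩ := hall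
        exact ⟨rs G, List.mem_append_left _ (List.mem_map.2 ⟨G, hG, rfl⟩), by
          show G x = true
          simpa using hGx⟩

open Classical in
/-- **Queries, average case, disjunctions.** -/
theorem queries_or {ι β : Type} [Fintype ι] [DecidableEq ι] [Fintype β] {U : Finset ι} {r : ℕ}
    (hr : 1 ≤ r) (g : (β → Bool) → Bool) (hg : Monotone g) (f : (ι → Bool) → Prop)
    (φ : ι → (Fin r × β) ⊕ Bool) (hφ : ∀ v, v ∉ U → ∃ c, φ v = .inr c)
    (hf : ∀ y : Fin r × β → Bool, f (fun v => Sum.elim y id (φ v)) ↔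
      ∃ i, g (fun b => y (i, b)) = true)
    (D₀ D₁ : (β → Bool) → ℝ) (h0 : ∀ u, 0 ≤ D₀ u) (h0s : ∑ u, D₀ u = 1)
    (h0z : ∀ u, D₀ u ≠ 0 → g u = false) (h1 : ∀ u, 0 ≤ D₁ u) (h1s : ∑ u, D₁ u = 1)
    (h1z : ∀ u, D₁ u ≠ 0 → g u = true) :
    ∃ μ : (ι → Bool) → ℝ, (∀ x, 0 ≤ μ x) ∧ ∑ x, μ x = 1 ∧
      (∀ x, μ x ≠ 0 → ∀ v c, φ v = .inr c → x v = c) ∧
      ∀ (K : Gen.MonoClass) (ts : List ℕ) (T b : ℕ) (A : (ι → Bool) → Bool) (δ : ℝ),
        (∀ H ∈ orSet K β (ts.sum + T),
          ∑ u with H u = true, D₁ u ≤ ∑ u with H u = true, D₀ u + δ) →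
        Tries K U ts T b A →
        ∑ x with (A x = true ↔ f x), μ x ≤ 1 / 2 + δ / 2 + (T + 1) * b / (2 * r) := by
  obtain ⟨μ, m1, m2, m3, m4⟩ := push_core hr g hg f φ hφ hf D₀ D₁ h0 h0s h0z h1 h1s h1z
  refine ⟨μ, m1, m2, m3, fun K ts T b A δ hδ hA => ?_⟩
  obtain ⟨Q, P, h, hQP, hts, hP, hch, hAx⟩ := hA
  have hmono : ∀ x v j, Monotone (P x v j) := fun x v j => K.mono ι _ (hP x v j)
  have h2 := m4 (List Bool × (Fin T → Bool))
    (fun x => (answers x (Q x) [], fun j => P x (answers x (Q x) []) j x))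
    (fun x => A x = true) ((T + 1) * b) δ
    (by
      intro x y hxy hst
      obtain ⟨e1, e2, e3⟩ := hQP x y hxy
      rw [hAx x, hAx y]
      have e4 := congrArg Prod.fst hst
      have e5 := congrArg Prod.snd hst
      simp only at e4 e5
      rw [e3, e5, e4])
    (changesOn_pair hch (by
      intro x y hxy hU hw
      obtain ⟨-, e2, -⟩ := hQP x y hU
      intro j
      rw [hw, e2]
      exact hmono y _ j hxy))
    (by
      intro i X hX
      have hagree : ∀ (y z : Fin r × β → Bool),
          Q (fun v => Sum.elim y id (φ v)) = Q (fun v => Sum.elim z id (φ v)) ∧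
          P (fun v => Sum.elim y id (φ v)) = P (fun v => Sum.elim z id (φ v)) := by
        intro y z
        have := hQP (fun v => Sum.elim y id (φ v)) (fun v => Sum.elim z id (φ v)) (by
          intro v hv
          obtain ⟨c, hc⟩ := hφ v hv
          simp only [hc, Sum.elim_inr])
        exact ⟨this.1, this.2.1⟩
      obtain ⟨H, hH, hHu⟩ := event_queries K φ (Q fun v => Sum.elim X id (φ v)) ts (hts _)
        (P fun v => Sum.elim X id (φ v)) (fun v j => hP _ v j) i X hX
      have h3 := hδ H hH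
      have h5 : ∀ u : β → Bool, H u = true ↔
          (answers (fun v => Sum.elim (put X i u) id (φ v))
              (Q fun v => Sum.elim (put X i u) id (φ v)) [],
            fun j => P (fun v => Sum.elim (put X i u) id (φ v))
              (answers (fun v => Sum.elim (put X i u) id (φ v))
                (Q fun v => Sum.elim (put X i u) id (φ v)) []) j
              fun v => Sum.elim (put X i u) id (φ v))
            ≠ (answers (fun v => Sum.elim X id (φ v)) (Q fun v => Sum.elim X id (φ v)) [],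
              fun j => P (fun v => Sum.elim X id (φ v))
                (answers (fun v => Sum.elim X id (φ v)) (Q fun v => Sum.elim X id (φ v)) []) j
                fun v => Sum.elim X id (φ v)) := by
        intro u
        rw [hHu u, (hagree (put X i u) X).1, (hagree (put X i u) X).2]
      exact (le_of_eq (sum_filter_iff' D₁ _ _ _ _ fun u => (h5 u).symm)).trans
        (h3.trans (le_of_eq (congrArg (· + δ) (sum_filter_iff' D₀ _ _ _ _ h5)))))
  push_cast at h2
  exact (le_of_eq (sum_filter_iff' μ _ _ _ _ fun x => Iff.rfl)).trans h2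

/-- The dual of an algorithm. -/
theorem tries_dual {K : Gen.MonoClass} {ι : Type} {U : Finset ι} {ts : List ℕ} {T b : ℕ}
    {A : (ι → Bool) → Bool} (h : Tries K U ts T b A) :
    Tries (dualClass K) U ts T b fun x => !A fun v => !x v := by
  obtain ⟨Q, P, h, hQP, hts, hP, hch, hA⟩ := h
  have hans : ∀ x : ι → Bool, answers x (dualQ (Q fun v => !x v)) []
      = (answers (fun v => !x v) (Q fun v => !x v) []).map not := fun x => by
    have := answers_dual x (Q fun v => !x v) []
    simpa using this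
  have hnn : ∀ l : List Bool, (l.map not).map not = l := by
    intro l
    rw [List.map_map]
    have h2 : (not ∘ not) = (id : Bool → Bool) := by funext b; simp
    rw [h2, List.map_id]
  refine ⟨fun x => dualQ (Q fun v => !x v),
    fun x v j z => !P (fun v => !x v) (v.map not) j fun i => !z i,
    fun x v o => !h (fun v => !x v) (v.map not) fun j => !o j, ?_, ?_, ?_, ?_, ?_⟩
  · intro x y hxy
    obtain ⟨h1, h2, h3⟩ := hQP (fun v => !x v) (fun v => !y v) fun v hv => by
      rw [hxy v hv]
    refine ⟨?_, ?_, ?_⟩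
    · show dualQ _ = dualQ _
      rw [h1]
    · show (fun (v : List Bool) (j : Fin T) (z : ι → Bool) =>
        !P (fun v => !x v) (v.map not) j fun i => !z i) = _
      rw [h2]
    · show (fun (v : List Bool) (o : Fin T → Bool) =>
        !h (fun v => !x v) (v.map not) fun j => !o j) = _
      rw [h3]
  · intro x
    unfold dualQ
    rw [List.forall₂_map_left_iff]
    refine (hts fun v => !x v).imp fun q t h v => ?_
    obtain ⟨h1, h2⟩ := h (v.map not)
    refine ⟨by rw [List.length_map]; exact h1, fun F hF => ?_⟩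
    obtain ⟨F', hF', rfl⟩ := List.mem_map.1 hF
    show K.mem ι fun x => !!F' fun v => !!x v
    simpa using h2 F' hF'
  · intro x v j
    show K.mem ι fun z => !!P (fun v => !x v) (v.map not) j fun i => !!z i
    simpa using hP (fun v => !x v) (v.map not) j
  · have h := changesOn_inj (changesOn_dual hch) (List.map not)
    intro x hx hU n
    have h4 := h x hx hU n
    simp only [hans]
    exact h4
  · intro x
    simp only [hans, hnn, Bool.not_not]
    rw [hA]

/-- The dual functions of the conjunctions are the disjunctions of the dual class. -/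
theorem orSet_dual {K : Gen.MonoClass} {β : Type} {q : ℕ} {H : (β → Bool) → Bool}
    (hH : H ∈ orSet (dualClass K) β q) : (fun u => !H fun v => !u v) ∈ andSet K β q := by
  obtain ⟨Gs, h1, h2, h3⟩ := hH
  refine ⟨Gs.map fun G u => !G fun v => !u v, by rw [List.length_map]; exact h1, ?_,
    fun u => ?_⟩
  · intro G hG
    obtain ⟨G', hG', rfl⟩ := List.mem_map.1 hG
    exact h2 G' hG'
  · have h4 := h3 fun v => !u v
    simp only [Bool.not_eq_true', List.mem_map, forall_exists_index, and_imp,
      forall_apply_eq_imp_iff₂]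
    rw [Bool.eq_false_iff, ne_eq, h4]
    simp

/-- Sums over a filter after the negation of all variables. -/
theorem sum_filter_not' {ι : Type} [Fintype ι] [DecidableEq ι] (μ : (ι → Bool) → ℝ)
    (P Q : (ι → Bool) → Prop) (_ : DecidablePred P) (_ : DecidablePred Q)
    (h : ∀ x, P x ↔ Q fun v => !x v) :
    ∑ x with P x, μ (fun v => !x v) = ∑ x with Q x, μ x :=
  sum_filter_not μ P Q h

open Classical in
/-- **Adaptive queries, worst case to average case, disjunctions.** -/
theorem average_queries_or {ι β : Type} [Fintype ι] [DecidableEq ι] [Fintype β] {U : Finset ι}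
    {r : ℕ} (hr : 1 ≤ r) (g : (β → Bool) → Bool) (hg : Monotone g) (f : (ι → Bool) → Prop)
    (φ : ι → (Fin r × β) ⊕ Bool) (hφ : ∀ v, v ∉ U → ∃ c, φ v = .inr c)
    (hf : ∀ y : Fin r × β → Bool, f (fun v => Sum.elim y id (φ v)) ↔
      ∃ i, g (fun b => y (i, b)) = true)
    {δ : ℝ} (h0 : 0 < δ) (h1 : δ < 1) (k : ℕ) (hk : 3 * (Fintype.card β : ℝ) ≤ k * δ ^ 2)
    (S : Set ((β → Bool) → Bool)) (hne : ∃ Y Z, g Y = true ∧ g Z = false)
    (hM : ∀ (L : List ((β → Bool) → Bool)) (θ : ℕ), L.length = k → (∀ H ∈ L, H ∈ S) →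
      ¬ ∀ u, g u = true ↔ θ ≤ L.countP fun H => H u) :
    ∃ μ : (ι → Bool) → ℝ, (∀ x, 0 ≤ μ x) ∧ ∑ x, μ x = 1 ∧
      (∀ x, μ x ≠ 0 → ∀ v c, φ v = .inr c → x v = c) ∧
      ∀ (K : Gen.MonoClass) (ts : List ℕ) (T b : ℕ) (A : (ι → Bool) → Bool),
        orSet K β (ts.sum + T) ⊆ S → Tries K U ts T b A →
        ∑ x with (A x = true ↔ f x), μ x ≤ 1 / 2 + δ / 2 + (T + 1) * b / (2 * r) := by
  obtain ⟨D₀, D₁, d1, d2, d3, d4, d5, d6, d7⟩ := hard_dist_set g h0 h1 k hk S hne hM
  obtain ⟨μ, m1, m2, m3, m4⟩ := queries_or (U := U) hr g hg f φ hφ hf D₀ D₁ d1 d2 d3 d4 d5 d6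
  exact ⟨μ, m1, m2, m3, fun K ts T b A hS hA => m4 K ts T b A δ (fun H hH => d7 H (hS hH)) hA⟩

open Classical in
/-- **Adaptive queries, worst case to average case, conjunctions.** -/
theorem average_queries_and {ι β : Type} [Fintype ι] [DecidableEq ι] [Fintype β] {U : Finset ι}
    {r : ℕ} (hr : 1 ≤ r) (g : (β → Bool) → Bool) (hg : Monotone g) (f : (ι → Bool) → Prop)
    (φ : ι → (Fin r × β) ⊕ Bool) (hφ : ∀ v, v ∉ U → ∃ c, φ v = .inr c)
    (hf : ∀ y : Fin r × β → Bool, f (fun v => Sum.elim y id (φ v)) ↔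
      ∀ i, g (fun b => y (i, b)) = true)
    {δ : ℝ} (h0 : 0 < δ) (h1 : δ < 1) (k : ℕ) (hk : 3 * (Fintype.card β : ℝ) ≤ k * δ ^ 2)
    (S : Set ((β → Bool) → Bool)) (hne : ∃ Y Z, g Y = true ∧ g Z = false)
    (hM : ∀ (L : List ((β → Bool) → Bool)) (θ : ℕ), L.length = k → (∀ H ∈ L, H ∈ S) →
      ¬ ∀ u, g u = true ↔ θ ≤ L.countP fun H => H u) :
    ∃ μ : (ι → Bool) → ℝ, (∀ x, 0 ≤ μ x) ∧ ∑ x, μ x = 1 ∧
      (∀ x, μ x ≠ 0 → ∀ v c, φ v = .inr c → x v = c) ∧
      ∀ (K : Gen.MonoClass) (ts : List ℕ) (T b : ℕ) (A : (ι → Bool) → Bool),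
        andSet K β (ts.sum + T) ⊆ S → Tries K U ts T b A →
        ∑ x with (A x = true ↔ f x), μ x ≤ 1 / 2 + δ / 2 + (T + 1) * b / (2 * r) := by
  obtain ⟨μ, m1, m2, m3, m4⟩ := average_queries_or (U := U) hr (fun u => !g fun b => !u b)
    (dual_mono hg) (fun x => ¬ f fun v => !x v) (fun v => Sum.map id not (φ v))
    (by
      intro v hv
      obtain ⟨c, hc⟩ := hφ v hv
      exact ⟨!c, by rw [hc]; rfl⟩)
    (dual_restriction g f φ hf) h0 h1 k hk {H | (fun u => !H fun v => !u v) ∈ S}
    (by
      obtain ⟨Y, Z, hY, hZ⟩ := hne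
      exact ⟨fun v => !Z v, fun v => !Y v, by simp [hZ], by simp [hY]⟩)
    (by
      intro L θ hL hLS hcon
      refine hM (L.map fun H u => !H fun v => !u v) (k + 1 - θ) (by rw [List.length_map, hL]) ?_ ?_
      · intro G hG
        obtain ⟨H, hH, rfl⟩ := List.mem_map.1 hG
        exact hLS H hH
      · intro u
        have h2 := hcon fun v => !u v
        simp only [Bool.not_not, Bool.not_eq_true'] at h2
        have h3 : (L.map fun (H : (β → Bool) → Bool) (u : β → Bool) => !H fun v => !u v).countP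
            (fun H => H u) + L.countP (fun H => H fun v => !u v) = k := by
          rw [List.countP_map, ← hL, List.length_eq_countP_add_countP (p := fun H => H fun v => !u v),
            add_comm]
          congr 1
          refine List.countP_congr fun H _ => ?_
          simp
        have h4 : g u = true ↔ ¬ g u = false := by simp
        rw [h4, h2]
        omega)
  refine ⟨fun x => μ fun v => !x v, fun x => m1 _, ?_, fun x hx v c hc => ?_,
    fun K ts T b A hS hA => ?_⟩
  · rw [← m2]
    exact Fintype.sum_equiv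
      (Equiv.mk (fun (x : ι → Bool) v => !x v) (fun x v => !x v) (fun x => by simp)
        (fun x => by simp)) _ _ fun x => rfl
  · have h2 := m3 _ hx v (!c) (by simp only [hc]; rfl)
    simpa using h2
  · have h2 := m4 (dualClass K) ts T b (fun x => !A fun v => !x v)
      (fun H hH => hS (orSet_dual hH)) (tries_dual hA)
    refine le_trans (le_of_eq ?_) h2
    refine sum_filter_not' μ _ _ _ _ fun x => ?_
    simp only [Bool.not_not, Bool.not_eq_true']
    cases A x <;> simp

end Pool.Agent.NTN
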