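import Pool.Agent.NTN.Maj

/-!
# Amplification of families of functions by majorities of three
-/

set_option autoImplicit false

namespace Pool.Agent.NTN

open Finset
open scoped BigOperators

/-- The number `1` if the value is wrong, else `0`. -/
def wr (a b : Bool) : ℝ := if a = b then 0 else 1

lemma wr_nonneg (a b : Bool) : 0 ≤ wr a b := by unfold wr; split_ifs <;> norm_num

lemma wr_maj (a b c d : Bool) : wr (maj3 a b c) d
    = wr a d * wr b d + wr b d * wr c d + wr a d * wr c d - 2 * (wr a d * wr b d * wr c d) := by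
  cases a <;> cases b <;> cases c <;> cases d <;> norm_num [wr, maj3]

/-- The number of wrong triples. -/
lemma sum_triples {J : Type} [Fintype J] (w : J → ℝ) :
    ∑ t : J × J × J, (w t.1 * w t.2.1 + w t.2.1 * w t.2.2 + w t.1 * w t.2.2
      - 2 * (w t.1 * w t.2.1 * w t.2.2))
      = 3 * (∑ j, w j) ^ 2 * (Fintype.card J : ℝ) - 2 * (∑ j, w j) ^ 3 := by
  set e := ∑ j, w j with he
  set n := (Fintype.card J : ℝ) with hn
  have h1 : ∑ t : J × J × J, w t.1 * w t.2.1 = e ^ 2 * n := by
    simp only [Fintype.sum_prod_type, Finset.sum_const, Finset.card_univ, nsmul_eq_mul]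
    simp only [← Finset.mul_sum, ← Finset.sum_mul]
    rw [← he, ← hn]
    ring
  have h2 : ∑ t : J × J × J, w t.2.1 * w t.2.2 = e ^ 2 * n := by
    simp only [Fintype.sum_prod_type, Finset.sum_const, Finset.card_univ, nsmul_eq_mul]
    simp only [← Finset.mul_sum, ← Finset.sum_mul]
    rw [← he, ← hn]
    ring
  have h3 : ∑ t : J × J × J, w t.1 * w t.2.2 = e ^ 2 * n := by
    simp only [Fintype.sum_prod_type, Finset.sum_const, Finset.card_univ, nsmul_eq_mul]
    simp only [← Finset.mul_sum, ← Finset.sum_mul]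
    rw [← he, ← hn]
    ring
  have h4 : ∑ t : J × J × J, w t.1 * w t.2.1 * w t.2.2 = e ^ 3 := by
    simp only [Fintype.sum_prod_type]
    simp only [← Finset.mul_sum, ← Finset.sum_mul]
    rw [← he]
    ring
  rw [Finset.sum_sub_distrib, Finset.sum_add_distrib, Finset.sum_add_distrib, h1, h2, h3,
    ← Finset.mul_sum, h4]
  ring

lemma phi_mono {p q : ℝ} (h0 : 0 ≤ p) (hpq : p ≤ q) (h1 : q ≤ 1) :
    3 * p ^ 2 - 2 * p ^ 3 ≤ 3 * q ^ 2 - 2 * q ^ 3 := by
  have e : 3 * q ^ 2 - 2 * q ^ 3 - (3 * p ^ 2 - 2 * p ^ 3)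
      = (q - p) * (3 * (q + p) - 2 * (q ^ 2 + q * p + p ^ 2)) := by ring
  have h2 : 0 ≤ 3 * (q + p) - 2 * (q ^ 2 + q * p + p ^ 2) := by nlinarith
  nlinarith [mul_nonneg (sub_nonneg.2 hpq) h2]

section

variable {X : Type}

/-- There is a family of functions of level `n` in which at every input at most the part `p` of the
members is wrong. -/
def Fam (g : X → Bool) (P : ℕ → (X → Bool) → Prop) (n : ℕ) (p : ℝ) : Prop :=
  ∃ (J : Type) (_ : Fintype J) (F : J → X → Bool), Nonempty J ∧ (∀ j, P n (F j)) ∧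
    ∀ u, ∑ j, wr (F j u) (g u) ≤ p * (Fintype.card J : ℝ)

lemma Fam.mono {g : X → Bool} {P : ℕ → (X → Bool) → Prop} {n : ℕ} {p q : ℝ}
    (h : Fam g P n p) (hpq : p ≤ q) : Fam g P n q := by
  obtain ⟨J, _, F, h1, h2, h3⟩ := h
  exact ⟨J, _, F, h1, h2, fun u => (h3 u).trans
    (mul_le_mul_of_nonneg_right hpq (Nat.cast_nonneg _))⟩

lemma Fam.step {g : X → Bool} {P : ℕ → (X → Bool) → Prop}
    (hmaj : ∀ n F G H, P n F → P n G → P n H → P (n + 1) fun u => maj3 (F u) (G u) (H u))
    {n : ℕ} {p : ℝ} (h1 : p ≤ 1) (h : Fam g P n p) :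
    Fam g P (n + 1) (3 * p ^ 2 - 2 * p ^ 3) := by
  obtain ⟨J, _, F, hJ, h2, h3⟩ := h
  refine ⟨J × J × J, inferInstance, fun t u => maj3 (F t.1 u) (F t.2.1 u) (F t.2.2 u),
    inferInstance, fun t => hmaj n _ _ _ (h2 _) (h2 _) (h2 _), fun u => ?_⟩
  have hn : (0 : ℝ) < Fintype.card J := by exact_mod_cast Fintype.card_pos
  simp only [wr_maj]
  rw [sum_triples fun j => wr (F j u) (g u)]
  set e := ∑ j, wr (F j u) (g u) with he
  have he0 : 0 ≤ e := Finset.sum_nonneg fun j _ => wr_nonneg _ _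
  have hx : e / Fintype.card J ≤ p := by
    rw [div_le_iff₀ hn]
    exact h3 u
  have h4 := phi_mono (div_nonneg he0 hn.le) hx h1
  have h5 : (Fintype.card (J × J × J) : ℝ) = (Fintype.card J : ℝ) ^ 3 := by
    simp only [Fintype.card_prod, Nat.cast_mul]
    ring
  rw [h5]
  have h6 : 3 * e ^ 2 * (Fintype.card J : ℝ) - 2 * e ^ 3
      = (3 * (e / Fintype.card J) ^ 2 - 2 * (e / Fintype.card J) ^ 3)
        * (Fintype.card J : ℝ) ^ 3 := by
    field_simp
  rw [h6]
  exact mul_le_mul_of_nonneg_right h4 (pow_nonneg hn.le 3)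

variable {g : X → Bool} {P : ℕ → (X → Bool) → Prop}
  (hmaj : ∀ n F G H, P n F → P n G → P n H → P (n + 1) fun u => maj3 (F u) (G u) (H u))

include hmaj

/-- One level in terms of the margin `x`. -/
lemma Fam.margin {n : ℕ} {x : ℝ} (h0 : 0 ≤ x) (h : Fam g P n ((1 - x) / 2)) :
    Fam g P (n + 1) ((1 - x * (3 - x ^ 2) / 2) / 2) := by
  have h2 := Fam.step hmaj (by linarith) h
  refine h2.mono (le_of_eq ?_)
  ring

/-- Two levels double a small margin. -/
lemma Fam.double {n : ℕ} {x : ℝ} (h0 : 0 ≤ x) (h1 : x ≤ 1 / 4) (h : Fam g P n ((1 - x) / 2)) :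
    Fam g P (n + 2) ((1 - 2 * x) / 2) := by
  have h2 := Fam.margin hmaj h0 h
  have e1 : 23 / 16 * x ≤ x * (3 - x ^ 2) / 2 := by nlinarith
  have h3 : Fam g P (n + 1) ((1 - 23 / 16 * x) / 2) := h2.mono (by linarith)
  have h4 := Fam.margin hmaj (x := 23 / 16 * x) (by linarith) h3
  refine h4.mono ?_
  have e2 : 2 * x ≤ 23 / 16 * x * (3 - (23 / 16 * x) ^ 2) / 2 := by
    have e3 : (23 / 16 * x) ^ 2 ≤ 1 / 6 := by nlinarith
    have e4 : 0 ≤ 23 / 16 * x := by linarith
    nlinarith [mul_le_mul_of_nonneg_left e3 e4]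
  linarith

lemma Fam.keep {n : ℕ} (h : Fam g P n ((1 - 1 / 4) / 2)) : Fam g P (n + 1) ((1 - 1 / 4) / 2) :=
  (Fam.margin hmaj (by norm_num) h).mono (by norm_num)

lemma Fam.doubles {n : ℕ} {x : ℝ} (h0 : 0 ≤ x) (h1 : x ≤ 1 / 4) (h : Fam g P n ((1 - x) / 2)) :
    ∀ i : ℕ, Fam g P (n + 2 * i) ((1 - min (1 / 4) (2 ^ i * x)) / 2) := by
  intro i
  induction i with
  | zero =>
    refine h.mono ?_
    rw [pow_zero, one_mul, min_eq_right h1]
  | succ i ih =>
    rcases le_total (1 / 4 : ℝ) (2 ^ i * x) with h2 | h2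
    · rw [min_eq_left h2] at ih
      have h3 : (1 / 4 : ℝ) ≤ 2 ^ (i + 1) * x := by
        rw [pow_succ]
        linarith
      rw [min_eq_left h3]
      exact Fam.keep hmaj (Fam.keep hmaj ih)
    · rw [min_eq_right h2] at ih
      have h3 := Fam.double hmaj (by positivity) h2 ih
      refine h3.mono ?_
      have h4 : min (1 / 4) (2 ^ (i + 1) * x) ≤ 2 * (2 ^ i * x) :=
        (min_le_right _ _).trans (le_of_eq (by ring))
      linarith

/-- From margin `1 / 4` to margin `1 / 2`. -/
lemma Fam.half {n : ℕ} (h : Fam g P n ((1 - 1 / 4) / 2)) : Fam g P (n + 2) (1 / 4) := by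
  have h1 := Fam.margin hmaj (by norm_num) h
  have h2 : Fam g P (n + 1) ((1 - 11 / 30) / 2) := h1.mono (by norm_num)
  have h3 := Fam.margin hmaj (by norm_num) h2
  exact h3.mono (by norm_num)

/-- The error is squared. -/
lemma Fam.square {n : ℕ} (h : Fam g P n (1 / 4)) :
    ∀ j : ℕ, Fam g P (n + j) (1 / 3 * (3 / 4) ^ 2 ^ j) := by
  intro j
  induction j with
  | zero => exact h.mono (by norm_num)
  | succ j ih =>
    have hp0 : (0 : ℝ) ≤ 1 / 3 * (3 / 4) ^ 2 ^ j := by positivity
    have hp1 : (3 / 4 : ℝ) ^ 2 ^ j ≤ 1 := pow_le_one₀ (by norm_num) (by norm_num)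
    have h1 := Fam.step hmaj (by linarith) ih
    refine h1.mono ?_
    have h2 : (1 / 3 * (3 / 4) ^ 2 ^ (j + 1) : ℝ) = 3 * (1 / 3 * (3 / 4) ^ 2 ^ j) ^ 2 := by
      rw [pow_succ 2 j, pow_mul]
      ring
    rw [h2]
    have h3 : 0 ≤ (1 / 3 * (3 / 4 : ℝ) ^ 2 ^ j) ^ 3 := by positivity
    linarith

omit hmaj in
/-- If fewer than one part in `|X|` is wrong, some member is right everywhere. -/
lemma Fam.exists_right [Fintype X] {n : ℕ} {p : ℝ} (h : Fam g P n p)
    (hp : p * Fintype.card X < 1) : P n g := by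
  classical
  obtain ⟨J, _, F, hJ, h2, h3⟩ := h
  have hn : (0 : ℝ) < Fintype.card J := by exact_mod_cast Fintype.card_pos
  by_contra hcon
  have h4 : ∀ j, 1 ≤ ∑ u, wr (F j u) (g u) := by
    intro j
    by_contra hlt
    apply hcon
    have h5 : ∀ u, F j u = g u := by
      intro u
      by_contra hne
      apply hlt
      have h6 : wr (F j u) (g u) = 1 := by unfold wr; rw [if_neg hne]
      rw [← h6]
      exact Finset.single_le_sum (f := fun u => wr (F j u) (g u)) (fun u _ => wr_nonneg _ _)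
        (Finset.mem_univ u)
    have h6 : F j = g := funext h5
    rw [← h6]
    exact h2 j
  have h7 : (Fintype.card J : ℝ) ≤ ∑ j, ∑ u, wr (F j u) (g u) := by
    calc (Fintype.card J : ℝ) = ∑ _j : J, (1 : ℝ) := by simp
      _ ≤ _ := Finset.sum_le_sum fun j _ => h4 j
  rw [Finset.sum_comm] at h7
  have h8 : ∑ u : X, ∑ j, wr (F j u) (g u) ≤ ∑ _u : X, p * (Fintype.card J : ℝ) :=
    Finset.sum_le_sum fun u _ => h3 u
  rw [Finset.sum_const, Finset.card_univ, nsmul_eq_mul] at h8
  have h9 := h7.trans h8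
  nlinarith

/-- **Amplification.** If `g` is a threshold of `k` functions of level `0`, then `g` is of level
`2 i + j + 2` if `2 k + 1 ≤ 4 * 2 ^ i` and `2 ^ j ≥ 3 b`, `|X| = 2 ^ b`. -/
theorem amplify [Fintype X] (L : List (X → Bool)) (θ : ℕ)
    (hg : ∀ u, g u = true ↔ θ ≤ L.countP fun H => H u) (hL : ∀ H ∈ L, P 0 H)
    (hzero : P 0 fun _ => false) (hone : P 0 fun _ => true) (b i j : ℕ)
    (hb : Fintype.card X = 2 ^ b) (hi : 2 * L.length + 1 ≤ 4 * 2 ^ i) (hj : 3 * b ≤ 2 ^ j) :
    P (2 * i + j + 2) g := by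
  classical
  set k := L.length with hk
  -- the family: the members of `L` and constants
  set θ' := min θ (k + 1) with hθ'
  have hθ : ∀ u, g u = true ↔ θ' ≤ L.countP fun H => H u := by
    intro u
    rw [hg]
    have h1 : L.countP (fun H => H u) ≤ k := List.countP_le_length
    omega
  set M : List (X → Bool) := L ++ (List.replicate (k + 1 - θ') (fun _ => true)
    ++ List.replicate θ' (fun _ => false)) with hM
  have hθk : θ' ≤ k + 1 := min_le_right _ _
  have hlen : M.length = 2 * k + 1 := by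
    rw [hM]
    simp only [List.length_append, List.length_replicate]
    omega
  have hcount : ∀ u, M.countP (fun H => H u) = L.countP (fun H => H u) + (k + 1 - θ') := by
    intro u
    rw [hM, List.countP_append, List.countP_append, List.countP_replicate, List.countP_replicate]
    simp
  have hmem : ∀ H ∈ M, P 0 H := by
    intro H hH
    rw [hM, List.mem_append, List.mem_append] at hH
    rcases hH with h | h | h
    · exact hL H h
    · rw [(List.mem_replicate.1 h).2]; exact hone
    · rw [(List.mem_replicate.1 h).2]; exact hzero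
  have hx0 : (0 : ℝ) < 2 * k + 1 := by positivity
  have hwrong : ∀ u, ∑ t : Fin M.length, wr (M.get t u) (g u)
      = if g u = true then ((M.length : ℝ) - M.countP (fun H => H u))
        else (M.countP (fun H => H u) : ℝ) := by
    intro u
    have gen : ∀ N : List (X → Bool), ∑ t : Fin N.length, wr (N.get t u) (g u)
        = if g u = true then ((N.length : ℝ) - N.countP (fun H => H u))
          else (N.countP (fun H => H u) : ℝ) := by
      intro N
      induction N with
      | nil => simp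
      | cons H N ih =>
        have e0 : ∑ t : Fin (H :: N).length, wr ((H :: N).get t u) (g u)
            = wr (H u) (g u) + ∑ t : Fin N.length, wr (N.get t u) (g u) :=
          Fin.sum_univ_succ (n := N.length) fun t => wr ((H :: N).get t u) (g u)
        rw [e0, ih, List.countP_cons, List.length_cons]
        cases hgu : g u <;> cases hHu : H u <;> simp [wr] <;> ring
    exact gen M
  have hfam : Fam g P 0 ((1 - 1 / (2 * k + 1)) / 2) := by
    refine ⟨Fin M.length, inferInstance, fun t => M.get t, ?_, fun t => hmem _ (List.get_mem _ _),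
      fun u => ?_⟩
    · rw [hlen]
      exact ⟨0⟩
    · rw [hwrong u, Fintype.card_fin]
      have e1 : ((1 : ℝ) - 1 / (2 * k + 1)) / 2 * (M.length : ℝ) = k := by
        rw [hlen]
        push_cast
        field_simp
        ring
      rw [e1]
      have e2 := hcount u
      have e3 := hθ u
      split_ifs with h
      · have h4 : k + 1 ≤ M.countP (fun H => H u) := by
          rw [e2]
          have := e3.1 h
          omega
        rw [hlen]
        push_cast
        have : ((k : ℝ) + 1) ≤ (M.countP (fun H => H u) : ℝ) := by exact_mod_cast h4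
        linarith
      · have h4 : M.countP (fun H => H u) ≤ k := by
          rw [e2]
          have h5 : ¬ θ' ≤ L.countP (fun H => H u) := fun h6 => h (e3.2 h6)
          omega
        exact_mod_cast h4
  -- the margin grows
  set x := min (1 / 4 : ℝ) (1 / (2 * k + 1)) with hx
  have hx1 : x ≤ 1 / 4 := min_le_left _ _
  have hxpos : 0 ≤ x := le_min (by norm_num) (by positivity)
  have h1 : Fam g P 0 ((1 - x) / 2) := hfam.mono (by
    have := min_le_right (1 / 4 : ℝ) (1 / (2 * k + 1))
    linarith)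
  have h2 := Fam.doubles hmaj hxpos hx1 h1 i
  have h3 : min (1 / 4 : ℝ) (2 ^ i * x) = 1 / 4 := by
    refine min_eq_left ?_
    rw [hx]
    rcases le_total (1 / 4 : ℝ) (1 / (2 * k + 1)) with h | h
    · rw [min_eq_left h]
      have : (1 : ℝ) ≤ 2 ^ i := one_le_pow₀ (by norm_num)
      linarith
    · rw [min_eq_right h, mul_one_div, div_le_div_iff₀ (by norm_num) hx0]
      have : ((2 * k + 1 : ℕ) : ℝ) ≤ ((4 * 2 ^ i : ℕ) : ℝ) := by exact_mod_cast hi
      push_cast at this
      linarith
  rw [h3] at h2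
  have h4 := Fam.square hmaj (Fam.half hmaj h2) j
  have h5 : P (0 + 2 * i + 2 + j) g := by
    refine h4.exists_right ?_
    rw [hb]
    have h6 : (3 / 4 : ℝ) ^ 2 ^ j ≤ (3 / 4) ^ (3 * b) :=
      pow_le_pow_of_le_one (by norm_num) (by norm_num) hj
    have h7 : (3 / 4 : ℝ) ^ (3 * b) * 2 ^ b ≤ 1 := by
      rw [pow_mul, ← mul_pow]
      exact pow_le_one₀ (by norm_num) (by norm_num)
    push_cast
    have h8 : (0 : ℝ) < 2 ^ b := by positivity
    nlinarith [mul_le_mul_of_nonneg_right h6 h8.le]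
  have h6 : 0 + 2 * i + 2 + j = 2 * i + j + 2 := by omega
  rw [h6] at h5
  exact h5

end

end Pool.Agent.NTN
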