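import Pool.Agent.NTN.AndNet
import Pool.Agent.NTR.Nets

/-!
# The majority of three monotone networks is a monotone network

For three networks with `S` nodes the majority of the functions computed is computed by a network
with `8 S + 14` nodes, for networks with undirected contacts and for networks with directed contacts.
-/

set_option autoImplicit false

namespace Pool.Agent.NTN

open Pool.Agent.TeleNeg Pool.Agent.NTR Relation

/-- the majority of three bits -/
def maj3 (a b c : Bool) : Bool := (a && b) || (c && (a || b))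

/-- reachability in an embedded copy -/
theorem lift_iff {α β : Type} (f : α → β) (hf : Function.Injective f) {T : α → α → Prop} {St : β → β → Prop}
    (h : ∀ p q, St p q ↔ ∃ a b, p = f a ∧ q = f b ∧ T a b) (s t : α) :
    ReflTransGen St (f s) (f t) ↔ ReflTransGen T s t := by
  constructor
  · intro hR
    have inv : ∀ q, ReflTransGen St (f s) q → ∃ b, q = f b ∧ ReflTransGen T s b := by
      intro q hq
      induction hq with
      | refl => exact ⟨s, rfl, ReflTransGen.refl⟩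
      | tail _ hs ih =>
        obtain ⟨b, rfl, hb⟩ := ih
        obtain ⟨a, c, e1, e2, e3⟩ := (h _ _).1 hs
        obtain rfl := hf e1
        exact ⟨c, e2, hb.tail e3⟩
    obtain ⟨b, e, hb⟩ := inv _ hR
    rw [hf e]
    exact hb
  · intro hR
    induction hR with
    | refl => exact ReflTransGen.refl
    | tail _ hs ih => exact ih.tail ((h _ _).2 ⟨_, _, rfl, rfl, hs⟩)

/-- a network with more nodes -/
def padNet {ι : Type} {S S' : ℕ} (h : S ≤ S') (N : Net ι S) : Net ι S' where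
  contacts := {c | ∃ a b, c.1 = Fin.castLE h a ∧ c.2.1 = Fin.castLE h b ∧ (a, b, c.2.2) ∈ N.contacts}
  src := Fin.castLE h N.src
  tgt := Fin.castLE h N.tgt

theorem padNet_dval {ι : Type} {S S' : ℕ} (h : S ≤ S') (N : Net ι S) (x : ι → Bool) :
    (padNet h N).dval x = N.dval x := by
  unfold Net.dval
  refine decide_eq_decide.mpr ?_
  refine lift_iff (Fin.castLE h) (Fin.castLE_injective h) (T := N.Step x) (St := (padNet h N).Step x)
    (fun p q => ?_) N.src N.tgt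
  constructor
  · rintro ⟨l, ⟨a, b, e1, e2, e3⟩, hx⟩
    exact ⟨a, b, e1, e2, l, e3, hx⟩
  · rintro ⟨a, b, e1, e2, l, e3, hx⟩
    exact ⟨l, ⟨a, b, e1, e2, e3⟩, hx⟩

theorem padNet_val {ι : Type} {S S' : ℕ} (h : S ≤ S') (N : Net ι S) (x : ι → Bool) :
    (padNet h N).val x = N.val x := by
  unfold Net.val
  refine decide_eq_decide.mpr ?_
  refine lift_iff (Fin.castLE h) (Fin.castLE_injective h) (T := N.Linked x) (St := (padNet h N).Linked x)
    (fun p q => ?_) N.src N.tgt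
  constructor
  · rintro ⟨l, (⟨a, b, e1, e2, e3⟩ | ⟨a, b, e1, e2, e3⟩), hx⟩
    · exact ⟨a, b, e1, e2, l, Or.inl e3, hx⟩
    · exact ⟨b, a, e2, e1, l, Or.inr e3, hx⟩
  · rintro ⟨a, b, e1, e2, l, (e3 | e3), hx⟩
    · exact ⟨l, Or.inl ⟨a, b, e1, e2, e3⟩, hx⟩
    · exact ⟨l, Or.inr ⟨b, a, e2, e1, e3⟩, hx⟩

/-- the conjunction of two networks -/
theorem exists_and2 {ι : Type} {S : ℕ} (N₁ N₂ : Net ι S) :
    ∃ M : Net ι (2 * S + 2), (∀ x, M.val x = (N₁.val x && N₂.val x)) ∧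
      ∀ x, M.dval x = (N₁.dval x && N₂.dval x) := by
  obtain ⟨M, h1, h2⟩ := exists_andNet ![N₁, N₂]
  refine ⟨M, fun x => ?_, fun x => ?_⟩
  · rw [Bool.eq_iff_iff, h1 x, Bool.and_eq_true]
    simp [Fin.forall_fin_two]
  · rw [Bool.eq_iff_iff, h2 x, Bool.and_eq_true]
    simp [Fin.forall_fin_two]

/-- the disjunction of two networks -/
theorem exists_or2 {ι : Type} {S : ℕ} (N₁ N₂ : Net ι S) :
    ∃ M : Net ι (2 * S + 2), (∀ x, M.val x = (N₁.val x || N₂.val x)) ∧
      ∀ x, M.dval x = (N₁.dval x || N₂.dval x) := by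
  obtain ⟨M, h1, h2⟩ := exists_orNet ![N₁, N₂]
  refine ⟨M, fun x => ?_, fun x => ?_⟩
  · rw [Bool.eq_iff_iff, h1 x, Bool.or_eq_true]
    simp [Fin.exists_fin_two]
  · rw [Bool.eq_iff_iff, h2 x, Bool.or_eq_true]
    simp [Fin.exists_fin_two]

/-- **The majority of three networks with `S` nodes** is a network with `8 S + 14` nodes. -/
theorem exists_maj {ι : Type} {S : ℕ} (N₁ N₂ N₃ : Net ι S) :
    ∃ M : Net ι (8 * S + 14), (∀ x, M.val x = maj3 (N₁.val x) (N₂.val x) (N₃.val x)) ∧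
      ∀ x, M.dval x = maj3 (N₁.dval x) (N₂.dval x) (N₃.dval x) := by
  obtain ⟨A, a1, a2⟩ := exists_and2 N₁ N₂
  obtain ⟨B, b1, b2⟩ := exists_or2 N₁ N₂
  obtain ⟨C, c1, c2⟩ := exists_and2 (padNet (show S ≤ 2 * S + 2 by omega) N₃) B
  obtain ⟨D, d1, d2⟩ := exists_or2 (padNet (show 2 * S + 2 ≤ 2 * (2 * S + 2) + 2 by omega) A) C
  refine ⟨padNet (show 2 * (2 * (2 * S + 2) + 2) + 2 ≤ 8 * S + 14 by omega) D, fun x => ?_, fun x => ?_⟩
  · rw [padNet_val, d1, padNet_val, a1, c1, padNet_val, b1]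
    rfl
  · rw [padNet_dval, d2, padNet_dval, a2, c2, padNet_dval, b2]
    rfl

theorem netClass_le {S S' : ℕ} (h : S ≤ S') {ι : Type} {F : (ι → Bool) → Bool}
    (hF : (Gen.netClass S).mem ι F) : (Gen.netClass S').mem ι F := by
  obtain ⟨N, hN⟩ := hF
  exact ⟨padNet h N, fun x => by rw [padNet_val, hN]⟩

theorem dnetClass_le {S S' : ℕ} (h : S ≤ S') {ι : Type} {F : (ι → Bool) → Bool}
    (hF : (Gen.dnetClass S).mem ι F) : (Gen.dnetClass S').mem ι F := by
  obtain ⟨N, hN⟩ := hF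
  exact ⟨padNet h N, fun x => by rw [padNet_dval, hN]⟩

theorem netClass_maj {S : ℕ} {ι : Type} {F₁ F₂ F₃ : (ι → Bool) → Bool}
    (h₁ : (Gen.netClass S).mem ι F₁) (h₂ : (Gen.netClass S).mem ι F₂) (h₃ : (Gen.netClass S).mem ι F₃) :
    (Gen.netClass (8 * S + 14)).mem ι (fun x => maj3 (F₁ x) (F₂ x) (F₃ x)) := by
  obtain ⟨N₁, hN₁⟩ := h₁
  obtain ⟨N₂, hN₂⟩ := h₂
  obtain ⟨N₃, hN₃⟩ := h₃
  obtain ⟨M, hM, -⟩ := exists_maj N₁ N₂ N₃
  exact ⟨M, fun x => by rw [hM, hN₁, hN₂, hN₃]⟩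

theorem dnetClass_maj {S : ℕ} {ι : Type} {F₁ F₂ F₃ : (ι → Bool) → Bool}
    (h₁ : (Gen.dnetClass S).mem ι F₁) (h₂ : (Gen.dnetClass S).mem ι F₂) (h₃ : (Gen.dnetClass S).mem ι F₃) :
    (Gen.dnetClass (8 * S + 14)).mem ι (fun x => maj3 (F₁ x) (F₂ x) (F₃ x)) := by
  obtain ⟨N₁, hN₁⟩ := h₁
  obtain ⟨N₂, hN₂⟩ := h₂
  obtain ⟨N₃, hN₃⟩ := h₃
  obtain ⟨M, -, hM⟩ := exists_maj N₁ N₂ N₃
  exact ⟨M, fun x => by rw [hM, hN₁, hN₂, hN₃]⟩

/-- a constant is computed by a network with two nodes or more -/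
theorem exists_constNet {ι : Type} {S : ℕ} (hS : 2 ≤ S) (c : Bool) :
    ∃ M : Net ι S, (∀ x, M.val x = c) ∧ ∀ x, M.dval x = c := by
  cases c with
  | true =>
    refine ⟨{ contacts := ∅, src := ⟨0, by omega⟩, tgt := ⟨0, by omega⟩ }, fun x => ?_, fun x => ?_⟩
    · simp only [Net.val, decide_eq_true_eq]
      exact ReflTransGen.refl
    · simp only [Net.dval, decide_eq_true_eq]
      exact ReflTransGen.refl
  | false =>
    refine ⟨{ contacts := ∅, src := ⟨0, by omega⟩, tgt := ⟨1, by omega⟩ }, fun x => ?_, fun x => ?_⟩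
    · simp only [Net.val, decide_eq_false_iff_not]
      intro h
      rcases ReflTransGen.cases_head h with h1 | ⟨b, ⟨l, (h1 | h1), -⟩, -⟩
      · exact absurd (congrArg Fin.val h1) (by simp)
      · exact h1
      · exact h1
    · simp only [Net.dval, decide_eq_false_iff_not]
      intro h
      rcases ReflTransGen.cases_head h with h1 | ⟨b, ⟨l, h1, -⟩, -⟩
      · exact absurd (congrArg Fin.val h1) (by simp)
      · exact h1

end Pool.Agent.NTN
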