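import Pool.Agent.NTR.Finds

/-!
# The outputs of algorithms with adaptive queries to a class of monotone functions
-/

namespace Pool.Agent.NTN

open Pool.Agent.NTR

/-- `A x` is the output at the input `x` of an algorithm of unlimited power which knows the values
of the variables outside `U` and asks adaptive queries to functions of the class `K`, in rounds of
at most `t₁, t₂, ...` queries (`ts` is the list of these numbers) followed by one last query whose
answer is the output `A x`; the answers of the rounds change fewer than `b` times along every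
increasing sequence of inputs which agree outside `U`. -/
def Runs (K : Gen.MonoClass) {ι : Type} (U : Finset ι) (ts : List ℕ) (b : ℕ)
    (A : (ι → Bool) → Bool) : Prop :=
  ∃ (Q : (ι → Bool) → List (List Bool → List ((ι → Bool) → Bool)))
    (P : (ι → Bool) → List Bool → (ι → Bool) → Bool),
    (∀ x y, (∀ v, v ∉ U → x v = y v) → Q x = Q y ∧ P x = P y) ∧
    (∀ x, List.Forall₂ (fun q t => ∀ v, (q v).length ≤ t ∧ ∀ F ∈ q v, K.mem ι F) (Q x) ts) ∧
    (∀ x v, K.mem ι (P x v)) ∧
    ChangesOn U (fun x => answers x (Q x) []) b ∧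
    ∀ x, A x = P x (answers x (Q x) []) x

/-- `f` is found by such an algorithm if some output function is `f`. -/
theorem finds_iff (K : Gen.MonoClass) {ι : Type} (U : Finset ι) (ts : List ℕ) (r : ℕ)
    (f : (ι → Bool) → Prop) :
    Finds K U ts r f ↔ ∃ A, Runs K U ts r A ∧ ∀ x, A x = true ↔ f x := by
  constructor
  · rintro ⟨Q, P, h1, h2, h3, h4, h5⟩
    exact ⟨fun x => P x (answers x (Q x) []) x, ⟨Q, P, h1, h2, h3, h4, fun _ => rfl⟩, h5⟩
  · rintro ⟨A, ⟨Q, P, h1, h2, h3, h4, h5⟩, h6⟩
    exact ⟨Q, P, h1, h2, h3, h4, fun x => by rw [← h5, h6]⟩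

end Pool.Agent.NTN
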