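import Pool.Agent.NTN.AvgClass
import Pool.Agent.NTN.Maj
import Pool.Agent.NTN.Runs

/-!
# Algorithms with one last query; disjunctions and conjunctions of networks
-/

set_option autoImplicit false

namespace Pool.Agent.NTN

open Pool.Agent.NegLim Pool.Agent.NTR Pool.Agent.TeleNeg Finset
open scoped BigOperators

theorem runs_tries {K : Gen.MonoClass} {ι : Type} {U : Finset ι} {ts : List ℕ} {b : ℕ}
    {A : (ι → Bool) → Bool} (h : Runs K U ts b A) : Tries K U ts 1 b A := by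
  obtain ⟨Q, P, h1, h2, h3, h4, h5⟩ := h
  refine ⟨Q, fun x v _ => P x v, fun _ _ o => o 0, fun x y hxy => ⟨(h1 x y hxy).1, ?_, rfl⟩, h2,
    fun x v _ => h3 x v, h4, h5⟩
  show (fun (v : List Bool) (_ : Fin 1) => P x v) = fun v _ => P y v
  rw [(h1 x y hxy).2]

theorem runs_pos {K : Gen.MonoClass} {ι : Type} {U : Finset ι} {ts : List ℕ} {b : ℕ}
    {A : (ι → Bool) → Bool} (h : Runs K U ts b A) : 0 < b := by
  obtain ⟨Q, P, h1, h2, h3, h4, h5⟩ := h
  exact changesOn_pos' h4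

/-! ### Disjunctions and conjunctions of networks -/

theorem orSet_net {β : Type} {S q S₀ : ℕ} (h : q * S + 2 ≤ S₀) {H : (β → Bool) → Bool}
    (hH : H ∈ orSet (Gen.netClass S) β q) : (Gen.netClass S₀).mem β H := by
  obtain ⟨Gs, h1, h2, h3⟩ := hH
  choose N hN using fun k : Fin Gs.length => h2 (Gs.get k) (List.get_mem _ _)
  obtain ⟨M, hM, -⟩ := exists_orNet N
  refine netClass_le (le_trans (Nat.add_le_add_right (Nat.mul_le_mul_right _ h1) 2) h)
    ⟨M, fun x => ?_⟩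
  rw [Bool.eq_iff_iff, hM, h3]
  constructor
  · rintro ⟨k, hk⟩
    rw [hN k] at hk
    exact ⟨_, List.get_mem _ _, hk⟩
  · rintro ⟨G, hG, hGx⟩
    obtain ⟨k, rfl⟩ := List.get_of_mem hG
    exact ⟨k, by rw [hN k]; exact hGx⟩

theorem andSet_dnet {β : Type} {S q S₀ : ℕ} (h : q * S + 2 ≤ S₀) {H : (β → Bool) → Bool}
    (hH : H ∈ andSet (Gen.dnetClass S) β q) : (Gen.dnetClass S₀).mem β H := by
  obtain ⟨Gs, h1, h2, h3⟩ := hH
  choose N hN using fun k : Fin Gs.length => h2 (Gs.get k) (List.get_mem _ _)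
  obtain ⟨M, -, hM⟩ := exists_andNet N
  refine dnetClass_le (le_trans (Nat.add_le_add_right (Nat.mul_le_mul_right _ h1) 2) h)
    ⟨M, fun x => ?_⟩
  rw [Bool.eq_iff_iff, hM, h3]
  constructor
  · intro hall G hG
    obtain ⟨k, rfl⟩ := List.get_of_mem hG
    rw [← hN k]
    exact hall k
  · intro hall k
    rw [hN k]
    exact hall _ (List.get_mem _ _)

end Pool.Agent.NTN
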