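import Pool.Agent.NTN.Amp
import Pool.Agent.NTR.HardDist

/-!
# Thresholds of monotone networks are monotone networks

If `g` is a threshold of `k` functions computed by monotone networks with `S` nodes, then `g` is
computed by a monotone network with at most `8 ^ l * (S + 2)` nodes, where
`l = 2 i + j + 2`, `2 k + 1 ≤ 4 * 2 ^ i`, `3 b ≤ 2 ^ j` (`b` is the number of variables).
The networks have undirected contacts (`netClass`) or directed contacts (`dnetClass`).
-/

set_option autoImplicit false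

namespace Pool.Agent.NTN

open Pool.Agent.TeleNeg Pool.Agent.NTR Finset
open scoped Classical

/-- The number of nodes after `l` levels of majorities. -/
def lsz (S : ℕ) : ℕ → ℕ
  | 0 => S
  | l + 1 => 8 * lsz S l + 14

theorem lsz_eq (S l : ℕ) : lsz S l + 2 = 8 ^ l * (S + 2) := by
  induction l with
  | zero => simp [lsz]
  | succ l ih =>
    have h : lsz S (l + 1) = 8 * lsz S l + 14 := rfl
    have h2 : 8 ^ (l + 1) * (S + 2) = 8 * (8 ^ l * (S + 2)) := by ring
    rw [h, h2, ← ih]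
    ring

theorem card_fun_eq {β : Type} [Fintype β] [Fintype (β → Bool)] :
    Fintype.card (β → Bool) = 2 ^ Fintype.card β := by
  rw [← Nat.card_eq_fintype_card, Nat.card_fun, Nat.card_eq_fintype_card, Nat.card_eq_fintype_card,
    Fintype.card_bool]

/-- **Thresholds of networks with undirected contacts.** -/
theorem netClass_thr {S : ℕ} (hS : 2 ≤ S) {β : Type} [Fintype β] {g : (β → Bool) → Bool}
    (L : List ((β → Bool) → Bool)) (θ : ℕ)
    (hg : ∀ u, g u = true ↔ θ ≤ L.countP fun H => H u)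
    (hL : ∀ H ∈ L, (Gen.netClass S).mem β H) (i j : ℕ)
    (hi : 2 * L.length + 1 ≤ 4 * 2 ^ i) (hj : 3 * Fintype.card β ≤ 2 ^ j) :
    (Gen.netClass (lsz S (2 * i + j + 2))).mem β g := by
  classical
  refine amplify (P := fun l F => (Gen.netClass (lsz S l)).mem β F)
    (fun n F G H hF hG hH => netClass_maj hF hG hH) L θ hg hL ?_ ?_ (Fintype.card β) i j
    card_fun_eq hi hj
  · obtain ⟨M, hM, -⟩ := exists_constNet (ι := β) hS false
    exact ⟨M, hM⟩
  · obtain ⟨M, hM, -⟩ := exists_constNet (ι := β) hS true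
    exact ⟨M, hM⟩

/-- **Thresholds of networks with directed contacts.** -/
theorem dnetClass_thr {S : ℕ} (hS : 2 ≤ S) {β : Type} [Fintype β] {g : (β → Bool) → Bool}
    (L : List ((β → Bool) → Bool)) (θ : ℕ)
    (hg : ∀ u, g u = true ↔ θ ≤ L.countP fun H => H u)
    (hL : ∀ H ∈ L, (Gen.dnetClass S).mem β H) (i j : ℕ)
    (hi : 2 * L.length + 1 ≤ 4 * 2 ^ i) (hj : 3 * Fintype.card β ≤ 2 ^ j) :
    (Gen.dnetClass (lsz S (2 * i + j + 2))).mem β g := by
  classical
  refine amplify (P := fun l F => (Gen.dnetClass (lsz S l)).mem β F)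
    (fun n F G H hF hG hH => dnetClass_maj hF hG hH) L θ hg hL ?_ ?_ (Fintype.card β) i j
    card_fun_eq hi hj
  · obtain ⟨M, -, hM⟩ := exists_constNet (ι := β) hS false
    exact ⟨M, hM⟩
  · obtain ⟨M, -, hM⟩ := exists_constNet (ι := β) hS true
    exact ⟨M, hM⟩

/-- The least numbers of levels for `k` members and `c` variables. -/
theorem exists_levels {k c : ℕ} (hk : 1 ≤ k) (hc : 1 ≤ c) :
    ∃ i j : ℕ, 2 * k + 1 ≤ 4 * 2 ^ i ∧ 3 * c ≤ 2 ^ j ∧ 2 * 2 ^ i ≤ 2 * k + 1 ∧ 2 ^ j ≤ 6 * c := by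
  have h1 : 1 ≤ Nat.log 2 (2 * k + 1) := Nat.log_pos (by norm_num) (by omega)
  have h2 : 2 * k + 1 < 2 ^ (Nat.log 2 (2 * k + 1) + 1) := Nat.lt_pow_succ_log_self (by norm_num) _
  have h3 : 2 ^ Nat.log 2 (2 * k + 1) ≤ 2 * k + 1 := Nat.pow_log_le_self 2 (by omega)
  obtain ⟨i, hi⟩ : ∃ i, Nat.log 2 (2 * k + 1) = i + 1 := ⟨Nat.log 2 (2 * k + 1) - 1, by omega⟩
  rw [hi] at h2 h3
  rw [pow_succ, pow_succ] at h2
  rw [pow_succ] at h3
  have h4 : 3 * c ≤ 2 ^ Nat.clog 2 (3 * c) := Nat.le_pow_clog (by norm_num) _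
  have h5 : 2 ^ (Nat.clog 2 (3 * c)).pred < 3 * c := Nat.pow_pred_clog_lt_self (by norm_num) (by omega)
  have h6 : 1 ≤ Nat.clog 2 (3 * c) := Nat.clog_pos (by norm_num) (by omega)
  obtain ⟨j, hj⟩ : ∃ j, Nat.clog 2 (3 * c) = j + 1 := ⟨Nat.clog 2 (3 * c) - 1, by omega⟩
  rw [hj, Nat.pred_succ] at h5
  rw [hj] at h4
  refine ⟨i, j + 1, by omega, h4, by omega, ?_⟩
  rw [pow_succ]
  omega

/-- **Hard distributions, networks with undirected contacts.** If `g` is not computed by a monotone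
network with `S'` nodes, where `S'` is the number of nodes after `2 i + j + 2` levels, then the
functions computed by monotone networks with `S` nodes do not have the advantage `δ` for all
pairs of distributions (`k ≥ 3 b / δ ^ 2`, `2 k + 1 ≤ 4 * 2 ^ i`, `3 b ≤ 2 ^ j`). -/
theorem not_adv_net {S S' k i j : ℕ} (hS : 2 ≤ S) {β : Type} [Fintype β] {g : (β → Bool) → Bool}
    {δ : ℝ} (h0 : 0 < δ) (h1 : δ < 1) (hk : 3 * (Fintype.card β : ℝ) ≤ k * δ ^ 2)
    (hne : (prs g).Nonempty) (hi : 2 * k + 1 ≤ 4 * 2 ^ i) (hj : 3 * Fintype.card β ≤ 2 ^ j)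
    (hS' : lsz S (2 * i + j + 2) ≤ S')
    (hM : ¬ (Gen.netClass S').mem β g) : ¬ Adv g {F | (Gen.netClass S).mem β F} δ := by
  intro hAdv
  obtain ⟨L, θ, hL, hLS, hg⟩ := boosting h0 h1 hAdv hne k (boost_number g hne h0 h1 k hk)
  subst hL
  exact hM (netClass_le hS' (netClass_thr hS L θ hg hLS i j hi hj))

/-- **Hard distributions, networks with directed contacts.** -/
theorem not_adv_dnet {S S' k i j : ℕ} (hS : 2 ≤ S) {β : Type} [Fintype β] {g : (β → Bool) → Bool}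
    {δ : ℝ} (h0 : 0 < δ) (h1 : δ < 1) (hk : 3 * (Fintype.card β : ℝ) ≤ k * δ ^ 2)
    (hne : (prs g).Nonempty) (hi : 2 * k + 1 ≤ 4 * 2 ^ i) (hj : 3 * Fintype.card β ≤ 2 ^ j)
    (hS' : lsz S (2 * i + j + 2) ≤ S')
    (hM : ¬ (Gen.dnetClass S').mem β g) : ¬ Adv g {F | (Gen.dnetClass S).mem β F} δ := by
  intro hAdv
  obtain ⟨L, θ, hL, hLS, hg⟩ := boosting h0 h1 hAdv hne k (boost_number g hne h0 h1 k hk)
  subst hL
  exact hM (dnetClass_le hS' (dnetClass_thr hS L θ hg hLS i j hi hj))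

end Pool.Agent.NTN
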