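import Pool.Agent.NTN.Markov

/-!
# Wide slices: few NOT gates for monotone functions

Let `F` be a monotone function of the literals such that `f x = F (lits x)` is monotone. If the
number of the true variables of `U` is known up to `d - 1`, then `f` is computed by a monotone
function of the variables: the negation of a variable is replaced by the same function for the input
with this variable added, at most `d` times. Therefore `⌊log₂ (|U| / d)⌋ + 1` NOT gates suffice for
the negated variables of `U`, for any class of monotone functions which contains weighted thresholds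
and these functions. The case `d = 1` is the method of Markov and Fischer and needs no monotonicity
of `f`.
-/

set_option autoImplicit false

namespace Pool.Agent.NTN

open Pool.Agent.TeleNeg Pool.Agent.NTR Pool.Agent.NWE Finset

variable {ι κ β : Type} [DecidableEq ι]

/-- The nested functions: the variables in `I` count as true, a negated variable `a` of `U` is
replaced by the same function for `insert a I`, at the end by `L`. -/
def nest (U : Finset ι) (F : (ι ⊕ ι → Bool) → Bool) (p q : ι → β → Bool)
    (L : Finset ι → β → Bool) : ℕ → Finset ι → β → Bool
  | 0, I, z => L I z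
  | r + 1, I, z => F (Sum.elim (fun a => if a ∈ I then true else p a z)
      fun a => if a ∈ I then false else if a ∈ U then nest U F p q L r (insert a I) z else q a z)

theorem nest_true {U : Finset ι} {F : (ι ⊕ ι → Bool) → Bool} {p q : ι → β → Bool}
    {L : Finset ι → β → Bool} {w : ℕ} {x : ι → Bool} {z : β} (hF : Monotone F)
    (hf : Monotone fun x => F (lits x)) (hp : ∀ a, p a z = x a) (hq : ∀ a, a ∉ U → q a z = !x a)
    (hL : ∀ I, w ≤ ((U.filter fun a => x a = true) \ I).card → L I z = true) :
    ∀ (r : ℕ) (I : Finset ι), I ⊆ U → w ≤ ((U.filter fun a => x a = true) \ I).card →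
      F (lits fun a => x a || decide (a ∈ I)) = true → nest U F p q L r I z = true := by
  intro r
  induction r with
  | zero => intro I _ h1 _; exact hL I h1
  | succ r ih =>
    intro I hI h1 h2
    rw [nest]
    refine Bool.le_iff_imp.1 (hF ?_) h2
    rintro (a | a) <;> rw [Bool.le_iff_imp] <;> intro h3
    · show (if a ∈ I then true else p a z) = true
      split_ifs with h4
      · rfl
      · rw [hp]
        simpa [lits, h4] using h3
    · show (if a ∈ I then false else if a ∈ U then nest U F p q L r (insert a I) z else q a z) = true
      have h3' : x a = false ∧ a ∉ I := by simpa [lits] using h3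
      rw [if_neg h3'.2]
      split_ifs with h4
      · refine ih (insert a I) (insert_subset h4 hI) ?_ ?_
        · have e : (U.filter fun a => x a = true) \ insert a I
              = (U.filter fun a => x a = true) \ I := by
            ext b
            simp only [mem_sdiff, mem_filter, mem_insert, not_or]
            constructor
            · rintro ⟨h5, h6⟩
              exact ⟨h5, h6.2⟩
            · rintro ⟨h5, h6⟩
              refine ⟨h5, ?_, h6⟩
              rintro rfl
              rw [h3'.1] at h5
              exact absurd h5.2 (by simp)
          rw [e]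
          exact h1
        · refine Bool.le_iff_imp.1 (hf ?_) h2
          intro b
          rw [Bool.le_iff_imp]
          intro h5
          rw [Bool.or_eq_true] at h5 ⊢
          rcases h5 with h5 | h5
          · exact Or.inl h5
          · exact Or.inr (by simpa using Or.inr (by simpa using h5))
      · rw [hq a h4, h3'.1]
        rfl

theorem nest_false {U : Finset ι} {F : (ι ⊕ ι → Bool) → Bool} {p q : ι → β → Bool}
    {L : Finset ι → β → Bool} {d w : ℕ} {x : ι → Bool} {z : β} (hF : Monotone F)
    (hp : ∀ a, p a z = x a) (hq : ∀ a, a ∉ U → q a z = !x a)
    (hL : ∀ I, ((U.filter fun a => x a = true) \ I).card < w → L I z = false)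
    (hw : (U.filter fun a => x a = true).card < w + d) (hx : F (lits x) = false) :
    ∀ (r : ℕ) (I : Finset ι), I ⊆ U.filter (fun a => x a = true) → I.card + r = d →
      nest U F p q L r I z = false := by
  intro r
  induction r with
  | zero =>
    intro I hI h1
    refine hL I ?_
    have h2 := card_sdiff_add_card_eq_card hI
    have h3 := card_le_card hI
    omega
  | succ r ih =>
    intro I hI h1
    rw [nest]
    by_contra h2
    rw [Bool.not_eq_false] at h2
    have h3 : F (lits x) = true := by
      refine Bool.le_iff_imp.1 (hF ?_) h2
      rintro (a | a) <;> rw [Bool.le_iff_imp] <;> intro h3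
      · have h3' : (if a ∈ I then true else p a z) = true := h3
        show x a = true
        split_ifs at h3' with h4
        · exact (mem_filter.1 (hI h4)).2
        · rwa [hp] at h3'
      · have h3' : (if a ∈ I then false else if a ∈ U then nest U F p q L r (insert a I) z
            else q a z) = true := h3
        show (!x a) = true
        split_ifs at h3' with h4 h5
        · by_contra h6
          have h7 : x a = true := by simpa using h6
          have h8 := ih (insert a I) (insert_subset (mem_filter.2 ⟨h5, h7⟩) hI) (by
            rw [card_insert_of_notMem h4]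
            omega)
          rw [h8] at h3'
          exact absurd h3' (by simp)
        · rwa [hq a h5] at h3'
    rw [hx] at h3
    exact absurd h3 (by simp)

/-- **The nested functions compute `f` on wide slices.** -/
theorem nest_eq {U : Finset ι} {F : (ι ⊕ ι → Bool) → Bool} {p q : ι → β → Bool}
    {L : Finset ι → β → Bool} {d w : ℕ} {x : ι → Bool} {z : β} (hF : Monotone F)
    (hf : 1 < d → Monotone fun x => F (lits x)) (hd : 1 ≤ d) (hp : ∀ a, p a z = x a)
    (hq : ∀ a, a ∉ U → q a z = !x a)
    (hL : ∀ I, L I z = decide (w ≤ ((U.filter fun a => x a = true) \ I).card))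
    (h1 : w ≤ (U.filter fun a => x a = true).card)
    (h2 : (U.filter fun a => x a = true).card < w + d) :
    nest U F p q L d ∅ z = F (lits x) := by
  rcases Nat.eq_or_lt_of_le hd with rfl | hd'
  · -- `d = 1`
    have h3 : w = (U.filter fun a => x a = true).card := by omega
    rw [nest]
    congr 1
    funext a
    rcases a with a | a
    · simp [lits, hp]
    · show (if a ∈ (∅ : Finset ι) then false else if a ∈ U then nest U F p q L 0 (insert a ∅) z
        else q a z) = !x a
      rw [if_neg (by simp)]
      split_ifs with h4
      · rw [nest, hL]
        by_cases h5 : x a = true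
        · rw [h5, Bool.not_true, decide_eq_false_iff_not]
          have h6 : a ∈ U.filter fun a => x a = true := mem_filter.2 ⟨h4, h5⟩
          have h7 : ((U.filter fun a => x a = true) \ insert a ∅).card
              < (U.filter fun a => x a = true).card :=
            card_lt_card ⟨sdiff_subset, fun h => by
              have := h h6
              simp at this⟩
          omega
        · have h6 : x a = false := by simpa using h5
          rw [h6, Bool.not_false, decide_eq_true_eq]
          have h7 : (U.filter fun a => x a = true) \ insert a ∅ = U.filter fun a => x a = true := by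
            ext b
            simp only [mem_sdiff, mem_filter, mem_insert, notMem_empty, or_false]
            constructor
            · exact fun h => h.1
            · intro h
              refine ⟨h, ?_⟩
              rintro rfl
              exact h5 h.2
          rw [h7]
          omega
      · exact hq a h4
  · rcases h : F (lits x) with _ | _
    · exact nest_false hF hp hq (fun I hI => by rw [hL, decide_eq_false_iff_not]; omega) h2 h d ∅
        (empty_subset _) (by simp)
    · refine nest_true hF (hf hd') hp hq (fun I hI => by rw [hL, decide_eq_true_eq]; exact hI) d ∅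
        (empty_subset _) (by simpa using h1) ?_
      have e : (fun a => x a || decide (a ∈ (∅ : Finset ι))) = x := by
        funext a
        simp
      rw [e]
      exact h

/-- The nested functions belong to a class if the class after one more substitution is the next. -/
theorem nest_mem (K : ℕ → Gen.MonoClass) {τ : Type} {U : Finset ι} {F : (ι ⊕ ι → Bool) → Bool}
    {p q : ι → (τ → Bool) → Bool} {L : Finset ι → (τ → Bool) → Bool}
    (hp : ∀ r a, (K r).mem τ (p a)) (hq : ∀ r a, a ∉ U → (K r).mem τ (q a))
    (hc : ∀ r c, (K r).mem τ fun _ => c) (hL : ∀ I, (K 0).mem τ (L I))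
    (hs : ∀ (r : ℕ) (G : ι ⊕ ι → (τ → Bool) → Bool), (∀ a, (K r).mem τ (G a)) →
      (K (r + 1)).mem τ fun z => F fun a => G a z) :
    ∀ (r : ℕ) (I : Finset ι), (K r).mem τ (nest U F p q L r I) := by
  intro r
  induction r with
  | zero => exact hL
  | succ r ih =>
    intro I
    have h := hs r (fun a => Sum.elim (fun a => if a ∈ I then fun _ => true else p a)
      (fun a => if a ∈ I then fun _ => false else
        if a ∈ U then nest U F p q L r (insert a I) else q a) a) (by
      rintro (a | a)
      · show (K r).mem τ (if a ∈ I then fun _ => true else p a)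
        split_ifs
        · exact hc r true
        · exact hp r a
      · show (K r).mem τ (if a ∈ I then fun _ => false else
          if a ∈ U then nest U F p q L r (insert a I) else q a)
        split_ifs with h1 h2
        · exact hc r false
        · exact ih _
        · exact hq r a h2)
    convert h using 1
    funext z
    rw [nest]
    congr 1
    funext a
    rcases a with a | a
    · show (if a ∈ I then true else p a z) = (if a ∈ I then (fun _ => true) else p a) z
      split_ifs <;> rfl
    · show (if a ∈ I then false else if a ∈ U then nest U F p q L r (insert a I) z else q a z)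
        = (if a ∈ I then (fun _ => false) else
          if a ∈ U then nest U F p q L r (insert a I) else q a) z
      split_ifs <;> rfl

/-- The weighted threshold of the variables in `A` and of the outputs of `t` NOT gates, each output
with `d` times the weight in `nwt`. -/
def thrW (t d θ : ℕ) (A : Finset κ) (z : κ ⊕ ℕ → Bool) : Bool :=
  decide (θ ≤ (A.filter fun a => z (Sum.inl a) = true).card +
    ∑ i ∈ range t, if z (Sum.inr i) = true then d * 2 ^ (t - 1 - i) else 0)

theorem thrW_labels (t d θ : ℕ) (A : Finset κ) (y : κ → Bool) (v : List Bool) :
    thrW t d θ A (Gen.seen y v) = decide (θ ≤ (A.filter fun a => y a = true).card + d * nwt t v) := by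
  have h : (∑ i ∈ range t, if Gen.seen y v (Sum.inr i) = true then d * 2 ^ (t - 1 - i) else 0)
      = d * nwt t v := by
    unfold nwt
    rw [mul_sum]
    refine sum_congr rfl fun i _ => ?_
    show (if v.getD i false = true then d * 2 ^ (t - 1 - i) else 0)
      = d * if v.getD i false = true then 2 ^ (t - 1 - i) else 0
    split_ifs <;> simp
  unfold thrW
  rw [h]
  rfl

/-- the levels of NOT gates -/
def lvW (A : Finset κ) (d t : ℕ) : ℕ → List (List ((κ ⊕ ℕ → Bool) → Bool))
  | 0 => []
  | r + 1 => [thrW t d (d * (2 ^ t - 2 ^ r)) A] :: lvW A d t r

theorem lvW_length (A : Finset κ) (d t r : ℕ) : (lvW A d t r).length = r := by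
  induction r with
  | zero => rfl
  | succ r ih => rw [lvW, List.length_cons, ih]

theorem lvW_mem (A : Finset κ) (d t r : ℕ) : ∀ l ∈ lvW A d t r, ∃ θ, l = [thrW t d θ A] := by
  induction r with
  | zero => simp [lvW]
  | succ r ih =>
    intro l hl
    rw [lvW, List.mem_cons] at hl
    rcases hl with rfl | hl
    · exact ⟨_, rfl⟩
    · exact ih l hl

theorem nots_lvW (A : Finset κ) (d t : ℕ) (y : κ → Bool) (r : ℕ) :
    ∀ v, Gen.nots y (lvW A d t r) v
      = runB (fun θ v => thrW t d (d * θ) A (Gen.seen y v)) t r v := by
  induction r with
  | zero => intro v; rfl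
  | succ r ih => intro v; exact ih _

/-- **Few NOT gates for monotone functions**, for any class of monotone functions which contains
weighted thresholds and the nested functions. -/
theorem wide_gen [DecidableEq κ] {U : Finset ι} {p q : ι → κ} (hp : Function.Injective p) {d t : ℕ} (hd : 1 ≤ d)
    (ht : U.card / d < 2 ^ t) (K : Gen.MonoClass)
    (hK : ∀ θ, K.mem (κ ⊕ ℕ) (thrW t d θ (U.image p))) {F : (ι ⊕ ι → Bool) → Bool}
    (hF : Monotone F) (hf : 1 < d → Monotone fun x => F (lits x))
    (hN : K.mem (κ ⊕ ℕ) (nest U F (fun a z => z (Sum.inl (p a))) (fun a z => z (Sum.inl (q a)))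
      (fun I => thrW t d (d * (2 ^ t - 1)) ((U \ I).image p)) d ∅)) :
    ∃ (ls : List (List ((κ ⊕ ℕ → Bool) → Bool))) (P : (κ ⊕ ℕ → Bool) → Bool),
      ls.length = t ∧ (∀ l ∈ ls, l.length = 1) ∧ (∀ l ∈ ls, ∀ G ∈ l, K.mem _ G) ∧ K.mem _ P ∧
        ∀ (x : ι → Bool) (y : κ → Bool), (∀ a, y (p a) = x a) → (∀ a, a ∉ U → y (q a) = !x a) →
          P (Gen.seen y (Gen.nots y ls [])) = F (lits x) := by
  refine ⟨lvW (U.image p) d t t, _, lvW_length _ _ _ _, fun l hl => ?_, fun l hl G hG => ?_, hN,
    fun x y hy hy' => ?_⟩
  · obtain ⟨θ, rfl⟩ := lvW_mem _ _ _ _ l hl
    rfl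
  · obtain ⟨θ, rfl⟩ := lvW_mem _ _ _ _ l hl
    rw [List.mem_singleton] at hG
    rw [hG]
    exact hK θ
  · have hcard : ∀ A : Finset ι, ((A.image p).filter fun a => y a = true).card
        = (A.filter fun a => x a = true).card := by
      intro A
      rw [filter_image, card_image_of_injective _ hp]
      congr 1
      refine filter_congr fun a _ => ?_
      rw [hy]
    set c := (U.filter fun a => x a = true).card with hc
    set v := Gen.nots y (lvW (U.image p) d t t) [] with hv
    have hw : c / d < 0 + 2 ^ t := by
      rw [zero_add]
      exact lt_of_le_of_lt (Nat.div_le_div_right (card_filter_le _ _)) ht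
    have h1 : nwt t v + c / d + 1 = 2 ^ t := by
      rw [hv, nots_lvW]
      refine runB_spec _ (fun θ v => ?_) t [] 0 le_rfl (by simp) (Nat.zero_le _) hw ?_
      · rw [thrW_labels, hcard, ← hc]
        have h2 : d * θ ≤ c + d * nwt t v ↔ θ ≤ c / d + nwt t v := by
          rw [← Nat.add_mul_div_left c (nwt t v) (show 0 < d by omega),
            Nat.le_div_iff_mul_le (show 0 < d by omega), mul_comm]
        rw [Bool.eq_iff_iff, decide_eq_true_eq, decide_eq_true_eq]
        exact h2
      · simp [nwt]
    have h3 : d * (c / d) ≤ c := Nat.mul_div_le c d
    have h4 : c < d * (c / d) + d := by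
      have := Nat.lt_mul_div_succ c (show 0 < d by omega)
      rw [mul_add, mul_one] at this
      exact this
    refine nest_eq (w := d * (c / d)) hF hf hd (fun a => hy a) hy' (fun I => ?_) h3 h4
    rw [thrW_labels, hcard]
    have e1 : (U \ I).filter (fun a => x a = true) = (U.filter fun a => x a = true) \ I := by
      ext b
      simp only [mem_filter, mem_sdiff]
      tauto
    rw [e1]
    have e2 : d * (2 ^ t - 1) = d * (c / d) + d * nwt t v := by
      rw [← h1, Nat.add_sub_cancel, mul_add, add_comm]
    rw [e2, Bool.eq_iff_iff, decide_eq_true_eq, decide_eq_true_eq]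
    omega

end Pool.Agent.NTN
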