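import Pool.Agent.NTN.CliqueRestr

/-!
# Clique restricted to a set of edges with many endpoints: conjunctions of clique functions
-/

set_option autoImplicit false

namespace Pool.Agent.NTN

open Pool.Agent.NegLim Finset

open Classical in
/-- The endpoints of the edges in `U`. -/
noncomputable def ends {N : ℕ} (U : Finset (Edge N)) : Finset (Fin N) :=
  univ.filter fun v => ∃ e ∈ U, e.1.1 = v ∨ e.1.2 = v

/-- **A star forest**: a set of edges with `2 k` endpoints contains at least `k` edges, each with
an endpoint which is no endpoint of the others. -/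
theorem exists_forest {N : ℕ} (U : Finset (Edge N)) :
    ∃ (F : Finset (Edge N)) (lf ct : Edge N → Fin N), F ⊆ U ∧ (ends U).card ≤ 2 * F.card ∧
      (∀ e ∈ F, (e.1.1 = ct e ∧ e.1.2 = lf e) ∨ (e.1.1 = lf e ∧ e.1.2 = ct e)) ∧
      (∀ e ∈ F, ∀ f ∈ F, lf e = lf f → e = f) ∧ ∀ e ∈ F, ∀ f ∈ F, lf e ≠ ct f := by
  classical
  -- a smallest cover of the endpoints
  obtain ⟨F, hF, hmin⟩ := Finset.exists_min_image
    (U.powerset.filter fun F => ∀ v ∈ ends U, ∃ e ∈ F, e.1.1 = v ∨ e.1.2 = v) Finset.card
    ⟨U, Finset.mem_filter.2 ⟨Finset.mem_powerset_self _, fun v hv => by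
      unfold ends at hv
      exact (Finset.mem_filter.1 hv).2⟩⟩
  rw [Finset.mem_filter, Finset.mem_powerset] at hF
  obtain ⟨hFU, hcov⟩ := hF
  -- every edge has a private endpoint
  have hpriv : ∀ e ∈ F, ∃ v : Fin N, (e.1.1 = v ∨ e.1.2 = v) ∧
      ∀ f ∈ F, (f.1.1 = v ∨ f.1.2 = v) → f = e := by
    intro e he
    by_contra hcon
    push Not at hcon
    have h1 : F.erase e ∈ U.powerset.filter fun F => ∀ v ∈ ends U, ∃ e ∈ F,
        e.1.1 = v ∨ e.1.2 = v := by
      rw [Finset.mem_filter, Finset.mem_powerset]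
      refine ⟨(Finset.erase_subset _ _).trans hFU, fun v hv => ?_⟩
      obtain ⟨f, hf, hfv⟩ := hcov v hv
      by_cases hfe : f = e
      · subst hfe
        obtain ⟨g, hg, hgv, hgf⟩ := hcon v hfv
        exact ⟨g, Finset.mem_erase.2 ⟨hgf, hg⟩, hgv⟩
      · exact ⟨f, Finset.mem_erase.2 ⟨hfe, hf⟩, hfv⟩
    have h2 := hmin _ h1
    have h3 := Finset.card_erase_lt_of_mem he
    omega
  -- the leaves and the centres
  have hlc : ∀ e : Edge N, ∃ p : Fin N × Fin N, e ∈ F →
      ((e.1.1 = p.2 ∧ e.1.2 = p.1) ∨ (e.1.1 = p.1 ∧ e.1.2 = p.2)) ∧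
      ∀ f ∈ F, (f.1.1 = p.1 ∨ f.1.2 = p.1) → f = e := by
    intro e
    by_cases he : e ∈ F
    · obtain ⟨v, hv, hv2⟩ := hpriv e he
      rcases hv with hv | hv
      · exact ⟨(v, e.1.2), fun _ => ⟨Or.inr ⟨hv, rfl⟩, hv2⟩⟩
      · exact ⟨(v, e.1.1), fun _ => ⟨Or.inl ⟨rfl, hv⟩, hv2⟩⟩
    · exact ⟨(e.1.1, e.1.1), fun h => absurd h he⟩
  choose p hp using hlc
  refine ⟨F, fun e => (p e).1, fun e => (p e).2, hFU, ?_, fun e he => (hp e he).1, ?_, ?_⟩
  · have h1 : ends U ⊆ F.biUnion fun e => {e.1.1, e.1.2} := by
      intro v hv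
      obtain ⟨e, he, hev⟩ := hcov v hv
      refine Finset.mem_biUnion.2 ⟨e, he, ?_⟩
      rw [Finset.mem_insert, Finset.mem_singleton]
      exact hev.imp Eq.symm Eq.symm
    refine (Finset.card_le_card h1).trans (Finset.card_biUnion_le.trans ?_)
    rw [mul_comm, ← smul_eq_mul]
    exact Finset.sum_le_card_nsmul _ _ _ fun e _ => Finset.card_le_two
  · intro e he f hf hef
    simp only at hef
    refine (hp f hf).2 e he ?_
    rcases (hp e he).1 with ⟨-, h⟩ | ⟨h, -⟩
    · exact Or.inr (h.trans hef)
    · exact Or.inl (h.trans hef)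
  · intro e he f hf hef
    simp only at hef
    have h1 : f = e := by
      refine (hp e he).2 f hf ?_
      rcases (hp f hf).1 with ⟨h, -⟩ | ⟨-, h⟩
      · exact Or.inl (h.trans hef.symm)
      · exact Or.inr (h.trans hef.symm)
    subst h1
    have h2 := f.2
    rcases (hp f hf).1 with ⟨h3, h4⟩ | ⟨h3, h4⟩
    · rw [h3, h4, hef] at h2
      exact lt_irrefl _ h2
    · rw [h3, h4, hef] at h2
      exact lt_irrefl _ h2

/-- Edges with the same endpoints. -/
theorem edge_of_ends {N : ℕ} {v w : Fin N} {e e' : Edge N}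
    (h : (e.1.1 = v ∧ e.1.2 = w) ∨ (e.1.1 = w ∧ e.1.2 = v))
    (h' : (e'.1.1 = v ∧ e'.1.2 = w) ∨ (e'.1.1 = w ∧ e'.1.2 = v)) : e' = e := by
  have h1 := e.2
  have h2 := e'.2
  rcases h with ⟨a1, a2⟩ | ⟨a1, a2⟩ <;> rcases h' with ⟨b1, b2⟩ | ⟨b1, b2⟩
  · exact Subtype.ext (Prod.ext (b1.trans a1.symm) (b2.trans a2.symm))
  · exfalso
    rw [a1, a2] at h1
    rw [b1, b2] at h2
    exact lt_asymm h1 h2
  · exfalso
    rw [a1, a2] at h1
    rw [b1, b2] at h2
    exact lt_asymm h1 h2
  · exact Subtype.ext (Prod.ext (b1.trans a1.symm) (b2.trans a2.symm))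

/-- `k` disjoint edges have `2 k` endpoints. -/
theorem DisjointPairs.card_ends {N k : ℕ} {U : Finset (Edge N)} (h : DisjointPairs k U) :
    2 * k ≤ (ends U).card := by
  classical
  obtain ⟨e, heU, he⟩ := h
  have h1 : Function.Injective fun p : Fin k × Bool => ept (e p.1) p.2 := by
    rintro ⟨i, s⟩ ⟨j, t⟩ h
    simp only at h
    by_cases hij : i = j
    · subst hij
      have h1 := (e i).2.ne
      cases s <;> cases t
      · rfl
      · exact absurd h (by simp only [ept]; exact h1.symm)
      · exact absurd h (by simp only [ept]; exact h1)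
      · rfl
    · exfalso
      obtain ⟨h1, h2, h3, h5⟩ := he i j hij
      cases s <;> cases t
      · exact h5 h
      · exact h3 h
      · exact h2 h
      · exact h1 h
  have h2 : (univ.image fun p : Fin k × Bool => ept (e p.1) p.2) ⊆ ends U := by
    intro v hv
    obtain ⟨⟨i, s⟩, -, rfl⟩ := Finset.mem_image.1 hv
    unfold ends
    refine Finset.mem_filter.2 ⟨Finset.mem_univ _, e i, heU i, ?_⟩
    cases s
    · exact Or.inr rfl
    · exact Or.inl rfl
  have h3 := Finset.card_le_card h2
  rw [Finset.card_image_of_injective _ h1, Finset.card_univ, Fintype.card_prod, Fintype.card_fin,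
    Fintype.card_bool] at h3
  omega

/-- Many edges have many endpoints. -/
theorem two_card_le_ends {N : ℕ} (U : Finset (Edge N)) : 2 * U.card ≤ (ends U).card ^ 2 := by
  classical
  have h1 : (U ×ˢ (univ : Finset Bool)).card ≤ (ends U ×ˢ ends U).card := by
    refine Finset.card_le_card_of_injOn
      (fun p => if p.2 then (p.1.1.1, p.1.1.2) else (p.1.1.2, p.1.1.1)) ?_ ?_
    · rintro ⟨e, s⟩ hp
      rw [Finset.mem_coe, Finset.mem_product] at hp
      have hA : e.1.1 ∈ ends U := by
        unfold ends
        exact Finset.mem_filter.2 ⟨Finset.mem_univ _, e, hp.1, Or.inl rfl⟩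
      have hB : e.1.2 ∈ ends U := by
        unfold ends
        exact Finset.mem_filter.2 ⟨Finset.mem_univ _, e, hp.1, Or.inr rfl⟩
      rw [Finset.mem_coe, Finset.mem_product]
      cases s
      · exact ⟨hB, hA⟩
      · exact ⟨hA, hB⟩
    · rintro ⟨p, s⟩ _ ⟨q, t⟩ _ h
      have hp := p.2
      have hq := q.2
      cases s <;> cases t <;>
        simp only [Bool.false_eq_true, if_true, if_false, Prod.mk.injEq] at h
      · exact Prod.ext (Subtype.ext (Prod.ext h.2 h.1)) rfl
      · exfalso
        rw [h.1, h.2] at hp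
        exact lt_asymm hp hq
      · exfalso
        rw [h.1, h.2] at hp
        exact lt_asymm hp hq
      · exact Prod.ext (Subtype.ext (Prod.ext h.1 h.2)) rfl
  rw [Finset.card_product, Finset.card_product, Finset.card_univ, Fintype.card_bool] at h1
  rw [sq]
  omega

/-- The vertices of the gadgets: centres, leaves, their substitutes, positions. -/
inductive FV (A : Type) (r n : ℕ) : Type
  | x (w : A) : FV A r n
  | b (z : Fin r × Edge n) : FV A r n
  | c (z : Fin r × Edge n) (s : Bool) : FV A r n
  | q (i : Fin r) (t : Fin (n / 2)) (u : Fin n) : FV A r n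

open Classical in
/-- The label of the edge between two vertices of the gadgets: a variable or a constant. -/
noncomputable def flit {A : Type} {r n : ℕ} (ct : Fin r × Edge n → A) :
    FV A r n → FV A r n → (Fin r × Edge n) ⊕ Bool
  | .x w, .b z => if ct z = w then .inl z else .inr true
  | .b z, .x w => if ct z = w then .inl z else .inr true
  | .b z, .c z' _ => .inr (decide (z ≠ z'))
  | .c z _, .b z' => .inr (decide (z ≠ z'))
  | .c z _, .c z' _ => .inr (decide (z ≠ z'))
  | .c z s, .q i _ u => .inr (decide ¬ (z.1 = i ∧ u = ept z.2 s))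
  | .q i _ u, .c z s => .inr (decide ¬ (z.1 = i ∧ u = ept z.2 s))
  | .q i t u, .q i' t' u' => .inr (decide (i = i' → (t ≠ t' ∧ u ≠ u')))
  | _, _ => .inr true

section

variable {A : Type} {r n : ℕ} {ct : Fin r × Edge n → A}

theorem flit_symm (g g' : FV A r n) : flit ct g g' = flit ct g' g := by
  cases g <;> cases g' <;> simp only [flit]
  · congr 1
    exact decide_eq_decide.mpr ne_comm
  · congr 1
    exact decide_eq_decide.mpr ne_comm
  · congr 1
    exact decide_eq_decide.mpr ne_comm
  · congr 1
    refine decide_eq_decide.mpr ⟨fun h h1 => ?_, fun h h1 => ?_⟩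
    · obtain ⟨h2, h3⟩ := h h1.symm
      exact ⟨h2.symm, h3.symm⟩
    · obtain ⟨h2, h3⟩ := h h1.symm
      exact ⟨h2.symm, h3.symm⟩

/-- The cells. -/
def fcell : FV A r n → A ⊕ (Fin r × Edge n) ⊕ (Fin r × Fin (n / 2))
  | .x w => .inl w
  | .b z => .inr (.inl z)
  | .c z _ => .inr (.inl z)
  | .q i t _ => .inr (.inr (i, t))

/-- Different vertices of a cell are not adjacent. -/
theorem fcell_inj {g g' : FV A r n} (h : fcell g = fcell g') (hne : g ≠ g') :
    flit ct g g' = .inr false := by
  cases g <;> cases g' <;> simp_all [fcell, flit]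

/-- The chosen vertices for the sets `σ i`. -/
def okF (σ : Fin r → Fin (n / 2) → Fin n) : FV A r n → Prop
  | .x _ => True
  | .b z => (∃ t, σ z.1 t = z.2.1.1) ∧ ∃ t, σ z.1 t = z.2.1.2
  | .c z true => ¬ ∃ t, σ z.1 t = z.2.1.1
  | .c z false => (∃ t, σ z.1 t = z.2.1.1) ∧ ¬ ∃ t, σ z.1 t = z.2.1.2
  | .q i t u => u = σ i t

theorem okF_ept {σ : Fin r → Fin (n / 2) → Fin n} {z : Fin r × Edge n} {s : Bool}
    (h : okF (A := A) σ (.c z s)) (t : Fin (n / 2)) : σ z.1 t ≠ ept z.2 s := by
  cases s with
  | true => exact fun h1 => h ⟨t, by simpa [ept] using h1⟩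
  | false => exact fun h1 => h.2 ⟨t, by simpa [ept] using h1⟩

theorem okF_adj {σ : Fin r → Fin (n / 2) → Fin n}
    (hσ : ∀ i, Function.Injective (σ i)) {y : Fin r × Edge n → Bool}
    (hy : ∀ z : Fin r × Edge n, (∃ t, σ z.1 t = z.2.1.1) → (∃ t, σ z.1 t = z.2.1.2) →
      y z = true) {g g' : FV A r n} (h : okF σ g) (h' : okF σ g') (hne : g ≠ g') :
    Sum.elim y id (flit ct g g') = true := by
  have key : ∀ z s, okF (A := A) σ (.b z) → okF (A := A) σ (.c z s) → False := by
    intro z s h1 h2
    cases s with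
    | true => exact h2 h1.1
    | false => exact h2.2 h1.2
  have key2 : ∀ z s s', okF (A := A) σ (.c z s) → okF (A := A) σ (.c z s') → s = s' := by
    intro z s s' h1 h2
    cases s <;> cases s'
    · rfl
    · exact absurd h1.1 h2
    · exact absurd h2.1 h1
    · rfl
  cases g with
  | x w =>
    cases g' with
    | x w' => rfl
    | b z' =>
      simp only [flit]
      split_ifs
      · exact hy z' h'.1 h'.2
      · rfl
    | c z' s => rfl
    | q i t u => rfl
  | b z =>
    cases g' with
    | x w =>
      simp only [flit]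
      split_ifs
      · exact hy z h.1 h.2
      · rfl
    | b z' => rfl
    | c z' s =>
      have h1 : z ≠ z' := by
        rintro rfl
        exact key z s h h'
      simp [flit, h1]
    | q i t u => rfl
  | c z s =>
    cases g' with
    | x w => rfl
    | b z' =>
      have h1 : z ≠ z' := by
        rintro rfl
        exact key z s h' h
      simp [flit, h1]
    | c z' s' =>
      have h1 : z ≠ z' := by
        rintro rfl
        exact hne (by rw [key2 z s s' h h'])
      simp [flit, h1]
    | q i t u =>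
      have h1 : ¬ (z.1 = i ∧ u = ept z.2 s) := by
        rintro ⟨rfl, h2⟩
        exact okF_ept h t (by rw [← h2]; exact h'.symm)
      simp only [flit, Sum.elim_inr, id, decide_eq_true_eq]
      exact h1
  | q i t u =>
    cases g' with
    | x w => rfl
    | b z' => rfl
    | c z s =>
      have h1 : ¬ (z.1 = i ∧ u = ept z.2 s) := by
        rintro ⟨rfl, h2⟩
        exact okF_ept h' t (by rw [← h2]; exact h.symm)
      simp only [flit, Sum.elim_inr, id, decide_eq_true_eq]
      exact h1
    | q i' t' u' =>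
      simp only [flit, Sum.elim_inr, id, decide_eq_true_eq]
      rintro rfl
      have h1 : u = σ i t := h
      have h2 : u' = σ i t' := h'
      have h3 : t ≠ t' := by
        rintro rfl
        exact hne (by rw [h1, h2])
      exact ⟨h3, by rw [h1, h2]; exact fun h4 => h3 (hσ i h4)⟩

end

/-! ### The graph on `N` vertices -/

section

variable {A : Type} {r n N : ℕ} (ct : Fin r × Edge n → A) (J : FV A r n → Fin N)
  (Un : Finset (Fin N))

open Classical in
/-- The vertices of the gadgets, the universal ones and the isolated ones. -/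
noncomputable def decF : Fin N → FV A r n ⊕ Bool :=
  Function.extend J Sum.inl fun x => Sum.inr (decide (x ∈ Un))

/-- The label of an edge between vertices of given kinds. -/
noncomputable def flitK : FV A r n ⊕ Bool → FV A r n ⊕ Bool → (Fin r × Edge n) ⊕ Bool
  | .inl g, .inl g' => flit ct g g'
  | .inl _, .inr t => .inr t
  | .inr t, .inl _ => .inr t
  | .inr t, .inr t' => .inr (t && t')

theorem flitK_symm (x y : FV A r n ⊕ Bool) : flitK ct x y = flitK ct y x := by
  cases x <;> cases y <;> simp only [flitK]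
  · exact flit_symm _ _
  · rw [Bool.and_comm]

/-- The substitution. -/
noncomputable def forestSub (v : Edge N) : (Fin r × Edge n) ⊕ Bool :=
  flitK ct (decF J Un v.1.1) (decF J Un v.1.2)

variable {ct} {J Un}

theorem decF_J (hJ : Function.Injective J) (g : FV A r n) : decF J Un (J g) = .inl g := by
  unfold decF
  exact hJ.extend_apply _ _ _

theorem decF_out {x : Fin N} (hx : ¬ ∃ g, J g = x) : decF J Un x = .inr (decide (x ∈ Un)) := by
  classical
  unfold decF
  rw [Function.extend_apply' _ _ _ hx]

theorem decF_cases (hJ : Function.Injective J) (x : Fin N) :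
    (∃ g, J g = x ∧ decF J Un x = .inl g) ∨
      ((¬ ∃ g, J g = x) ∧ decF J Un x = .inr (decide (x ∈ Un))) := by
  by_cases h : ∃ g, J g = x
  · obtain ⟨g, rfl⟩ := h
    exact Or.inl ⟨g, rfl, decF_J hJ g⟩
  · exact Or.inr ⟨h, decF_out h⟩

theorem flit_inl {g g' : FV A r n} {z : Fin r × Edge n} (h : flit ct g g' = .inl z) :
    (g = .x (ct z) ∧ g' = .b z) ∨ (g = .b z ∧ g' = .x (ct z)) := by
  cases g with
  | x w =>
    cases g' with
    | b z' =>
      simp only [flit] at h
      split_ifs at h with h1
      simp only [Sum.inl.injEq] at h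
      subst h
      subst h1
      exact Or.inl ⟨rfl, rfl⟩
    | x w' => (simp only [flit, reduceCtorEq] at h)
    | c z' s => (simp only [flit, reduceCtorEq] at h)
    | q i t u => (simp only [flit, reduceCtorEq] at h)
  | b z' =>
    cases g' with
    | x w =>
      simp only [flit] at h
      split_ifs at h with h1
      simp only [Sum.inl.injEq] at h
      subst h
      subst h1
      exact Or.inr ⟨rfl, rfl⟩
    | b z'' => (simp only [flit, reduceCtorEq] at h)
    | c z'' s => (simp only [flit, reduceCtorEq] at h)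
    | q i t u => (simp only [flit, reduceCtorEq] at h)
  | c z' s => cases g' <;> (simp only [flit, reduceCtorEq] at h)
  | q i t u => cases g' <;> (simp only [flit, reduceCtorEq] at h)

theorem forestSub_const (hJ : Function.Injective J) {U : Finset (Edge N)}
    (hU : ∀ z (v : Edge N), ((v.1.1 = J (.x (ct z)) ∧ v.1.2 = J (.b z)) ∨
      (v.1.1 = J (.b z) ∧ v.1.2 = J (.x (ct z)))) → v ∈ U) (v : Edge N) (hv : v ∉ U) :
    ∃ c, forestSub ct J Un v = .inr c := by
  rcases hc : forestSub ct J Un v with z | c
  · exfalso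
    unfold forestSub at hc
    rcases decF_cases (Un := Un) hJ v.1.1 with ⟨g, hg, e1⟩ | ⟨-, e1⟩
    · rcases decF_cases (Un := Un) hJ v.1.2 with ⟨g', hg', e2⟩ | ⟨-, e2⟩
      · rw [e1, e2] at hc
        rcases flit_inl hc with ⟨rfl, rfl⟩ | ⟨rfl, rfl⟩
        · exact hv (hU z v (Or.inl ⟨hg.symm, hg'.symm⟩))
        · exact hv (hU z v (Or.inr ⟨hg.symm, hg'.symm⟩))
      · rw [e1, e2] at hc
        simp [flitK] at hc
    · rcases decF_cases (Un := Un) hJ v.1.2 with ⟨g', hg', e2⟩ | ⟨-, e2⟩
      · rw [e1, e2] at hc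
        simp [flitK] at hc
      · rw [e1, e2] at hc
        simp [flitK] at hc
  · exact ⟨c, rfl⟩

/-- Cliques of the restricted graph. -/
theorem hasClique_forest_iff (K : ℕ) (y : Fin r × Edge n → Bool) :
    HasClique K (fun v => Sum.elim y id (forestSub ct J Un v)) ↔
      ∃ S : Finset (Fin N), S.card = K ∧ ∀ x ∈ S, ∀ x' ∈ S, x ≠ x' →
        Sum.elim y id (flitK ct (decF J Un x) (decF J Un x')) = true := by
  constructor
  · rintro ⟨S, hS, h⟩
    refine ⟨S, hS, fun x hx x' hx' hne => ?_⟩
    rcases lt_or_gt_of_ne hne with h1 | h1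
    · exact h x hx x' hx' h1
    · rw [flitK_symm]
      exact h x' hx' x hx h1
  · rintro ⟨S, hS, h⟩
    exact ⟨S, hS, fun x hx x' hx' h1 => h x hx x' hx' h1.ne⟩

/-- **The gadget.** -/
theorem gadgetF [Fintype A] (hJ : Function.Injective J) (hUn : ∀ x ∈ Un, ¬ ∃ g, J g = x)
    (hA1 : 1 ≤ Fintype.card A) (hr : 1 ≤ r) (hn : 2 ≤ n) (K : ℕ)
    (hK : Fintype.card A + r * (Fintype.card (Edge n) + n / 2) + Un.card = K)
    (y : Fin r × Edge n → Bool) :
    HasClique K (fun v => Sum.elim y id (forestSub ct J Un v)) ↔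
      ∀ i, HasClique (n / 2) fun e => y (i, e) := by
  classical
  have hcardC : Fintype.card (A ⊕ (Fin r × Edge n) ⊕ (Fin r × Fin (n / 2)))
      = Fintype.card A + r * (Fintype.card (Edge n) + n / 2) := by
    simp only [Fintype.card_sum, Fintype.card_prod, Fintype.card_fin]
    ring
  have : Finite (FV A r n) := Finite.of_injective J hJ
  let _ : Fintype (FV A r n) := Fintype.ofFinite _
  rw [hasClique_forest_iff]
  constructor
  · rintro ⟨S, hS, hadj⟩ i
    -- there are no isolated vertices
    have hK2 : 2 ≤ K := by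
      have h1 : 1 ≤ Fintype.card (Edge n) :=
        Fintype.card_pos_iff.2 ⟨⟨(⟨0, by omega⟩, ⟨1, by omega⟩), by simp [Fin.lt_def]⟩⟩
      have h2 : 1 * 1 ≤ r * (Fintype.card (Edge n) + n / 2) :=
        Nat.mul_le_mul hr (by omega)
      omega
    have hout : ∀ x ∈ S, (∃ g, J g = x) ∨ x ∈ Un := by
      intro x hx
      by_contra hcon
      push Not at hcon
      have h1 : decF J Un x = .inr false := by
        rw [decF_out (by push Not; exact hcon.1)]
        simp [hcon.2]
      obtain ⟨x', hx', hne⟩ : ∃ x' ∈ S, x' ≠ x := by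
        by_contra h2
        push Not at h2
        have h3 : S ⊆ {x} := fun w hw => by simp [h2 w hw]
        have h4 := Finset.card_le_card h3
        rw [Finset.card_singleton] at h4
        omega
      have h2 := hadj x hx x' hx' hne.symm
      rw [h1] at h2
      rcases decF_cases (Un := Un) hJ x' with ⟨g, -, e⟩ | ⟨-, e⟩
      · rw [e] at h2
        simp [flitK] at h2
      · rw [e] at h2
        simp [flitK] at h2
    set T : Finset (FV A r n) := univ.filter fun g => J g ∈ S with hT
    have hTadj : ∀ g ∈ T, ∀ g' ∈ T, g ≠ g' → Sum.elim y id (flit ct g g') = true := by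
      intro g hg g' hg' hne
      have h1 := hadj _ (Finset.mem_filter.1 hg).2 _ (Finset.mem_filter.1 hg').2
        (fun h => hne (hJ h))
      rw [decF_J hJ, decF_J hJ] at h1
      exact h1
    have hTcard : Fintype.card A + r * (Fintype.card (Edge n) + n / 2) ≤ T.card := by
      have h1 : S ⊆ T.image J ∪ Un := by
        intro x hx
        rcases hout x hx with ⟨g, rfl⟩ | h
        · exact Finset.mem_union_left _ (Finset.mem_image_of_mem _
            (Finset.mem_filter.2 ⟨Finset.mem_univ _, hx⟩))
        · exact Finset.mem_union_right _ h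
      have h2 := (Finset.card_le_card h1).trans (Finset.card_union_le _ _)
      have h3 : (T.image J).card ≤ T.card := Finset.card_image_le
      omega
    have hinj : Set.InjOn (fcell (A := A) (r := r) (n := n)) (T : Set (FV A r n)) := by
      intro g hg g' hg' h
      by_contra hne
      have h1 := hTadj g hg g' hg' hne
      rw [fcell_inj h hne] at h1
      exact Bool.false_ne_true h1
    have hsurj : T.image fcell = univ := by
      apply Finset.eq_univ_of_card
      rw [Finset.card_image_of_injOn hinj, hcardC]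
      refine le_antisymm ?_ hTcard
      rw [← hcardC, ← Finset.card_image_of_injOn hinj]
      exact Finset.card_le_univ _
    have hcell : ∀ c, ∃ g ∈ T, fcell g = c := by
      intro c
      have h1 : c ∈ T.image fcell := by rw [hsurj]; exact Finset.mem_univ _
      exact Finset.mem_image.1 h1
    have hA : ∀ w, FV.x w ∈ T := by
      intro w
      obtain ⟨g, hg, hc⟩ := hcell (.inl w)
      cases g <;> simp [fcell] at hc
      subst hc
      exact hg
    have hB : ∀ z, FV.b z ∈ T ∨ ∃ s, FV.c z s ∈ T := by
      intro z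
      obtain ⟨g, hg, hc⟩ := hcell (.inr (.inl z))
      cases g with
      | x w => simp [fcell] at hc
      | b z' =>
        simp [fcell] at hc
        subst hc
        exact Or.inl hg
      | c z' s =>
        simp [fcell] at hc
        subst hc
        exact Or.inr ⟨s, hg⟩
      | q i t u => simp [fcell] at hc
    have hQ : ∀ t, ∃ u, FV.q i t u ∈ T := by
      intro t
      obtain ⟨g, hg, hc⟩ := hcell (.inr (.inr (i, t)))
      cases g with
      | x w => simp [fcell] at hc
      | b z' => simp [fcell] at hc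
      | c z' s => simp [fcell] at hc
      | q i' t' u =>
        simp [fcell] at hc
        obtain ⟨rfl, rfl⟩ := hc
        exact ⟨u, hg⟩
    choose σ hσ using hQ
    have hσi : Function.Injective σ := by
      intro t t' h
      by_contra hne
      have h1 := hTadj _ (hσ t) _ (hσ t') (by
        intro h2
        simp only [FV.q.injEq] at h2
        exact hne h2.2.1)
      simp only [flit, Sum.elim_inr, id, decide_eq_true_eq] at h1
      exact (h1 trivial).2 h
    refine ⟨univ.image σ, ?_, ?_⟩
    · rw [Finset.card_image_of_injective _ hσi, Finset.card_univ, Fintype.card_fin]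
    · intro u hu v hv huv
      obtain ⟨t, -, rfl⟩ := Finset.mem_image.1 hu
      obtain ⟨t', -, rfl⟩ := Finset.mem_image.1 hv
      set z : Fin r × Edge n := (i, ⟨(σ t, σ t'), huv⟩) with hz
      rcases hB z with h | ⟨s, h⟩
      · have h1 := hTadj _ (hA (ct z)) _ h (by simp)
        simp only [flit, if_true, Sum.elim_inl] at h1
        exact h1
      · exfalso
        cases s with
        | true =>
          have h1 := hTadj _ h _ (hσ t) (by simp)
          simp [flit, ept, hz] at h1
        | false =>
          have h1 := hTadj _ h _ (hσ t') (by simp)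
          simp [flit, ept, hz] at h1
  · intro h
    choose R hR1 hR2 using h
    let σ : Fin r → Fin (n / 2) → Fin n := fun i => (R i).orderEmbOfFin (hR1 i)
    have hσ : ∀ i, Function.Injective (σ i) := fun i => ((R i).orderEmbOfFin (hR1 i)).injective
    have hσR : ∀ i t, σ i t ∈ R i := fun i t => Finset.orderEmbOfFin_mem _ _ _
    have hy : ∀ z : Fin r × Edge n, (∃ t, σ z.1 t = z.2.1.1) → (∃ t, σ z.1 t = z.2.1.2) →
        y z = true := by
      rintro ⟨i, p⟩ ⟨t, ht⟩ ⟨t', ht'⟩
      refine hR2 i p.1.1 ?_ p.1.2 ?_ p.2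
      · rw [← ht]; exact hσR i t
      · rw [← ht']; exact hσR i t'
    let pick : A ⊕ (Fin r × Edge n) ⊕ (Fin r × Fin (n / 2)) → FV A r n :=
      fun c => match c with
        | .inl w => .x w
        | .inr (.inl z) => if okF (A := A) σ (.b z) then .b z else
            if okF (A := A) σ (.c z true) then .c z true else .c z false
        | .inr (.inr (i, t)) => .q i t (σ i t)
    have hpick : ∀ c, fcell (pick c) = c := by
      rintro (z | z | ⟨i, t⟩)
      · rfl
      · simp only [pick]
        split_ifs <;> rfl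
      · rfl
    have hok : ∀ c, okF σ (pick c) := by
      rintro (z | z | ⟨i, t⟩)
      · trivial
      · simp only [pick]
        split_ifs with h1 h2
        · exact h1
        · exact h2
        · have h3 : ∃ t, σ z.1 t = z.2.1.1 := by
            by_contra h4
            exact h2 h4
          exact ⟨h3, fun h4 => h1 ⟨h3, h4⟩⟩
      · rfl
    have hpi : Function.Injective pick := fun c c' h => by
      rw [← hpick c, ← hpick c', h]
    refine ⟨(univ.image fun c => J (pick c)) ∪ Un, ?_, ?_⟩
    · rw [Finset.card_union_of_disjoint, Finset.card_image_of_injective _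
        (show Function.Injective (fun c => J (pick c)) from hJ.comp hpi),
        Finset.card_univ, hcardC, hK]
      rw [Finset.disjoint_left]
      intro x hx hxU
      obtain ⟨c, -, rfl⟩ := Finset.mem_image.1 hx
      exact hUn _ hxU ⟨_, rfl⟩
    · intro x hx x' hx' hne
      rcases Finset.mem_union.1 hx with hx | hx
      · obtain ⟨c, -, rfl⟩ := Finset.mem_image.1 hx
        rw [decF_J hJ]
        rcases Finset.mem_union.1 hx' with hx' | hx'
        · obtain ⟨c', -, rfl⟩ := Finset.mem_image.1 hx'
          rw [decF_J hJ]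
          exact okF_adj hσ hy (hok c) (hok c') fun h => hne (by rw [h])
        · rw [decF_out (hUn _ hx')]
          simp [flitK, hx']
      · rw [decF_out (hUn _ hx)]
        rcases Finset.mem_union.1 hx' with hx' | hx'
        · obtain ⟨c', -, rfl⟩ := Finset.mem_image.1 hx'
          rw [decF_J hJ]
          simp [flitK, hx]
        · rw [decF_out (hUn _ hx')]
          simp [flitK, hx, hx']

end

/-- Twice the number of edges of the complete graph. -/
theorem two_card_edge_le (n : ℕ) : 2 * Fintype.card (Edge n) ≤ n ^ 2 := by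
  have h := two_card_le_ends (univ : Finset (Edge n))
  rw [Finset.card_univ] at h
  refine h.trans (Nat.pow_le_pow_left ((Finset.card_le_univ _).trans ?_) 2)
  rw [Fintype.card_fin]

/-- **Clique**: the restriction to a set of edges with many endpoints. -/
theorem clique_forest_U {r n N k : ℕ} (hr : 1 ≤ r) (hn : 2 ≤ n) (h4 : 4 * (r * n ^ 2) ≤ k)
    (U : Finset (Edge N)) (hU : 2 * k ≤ (ends U).card) :
    ∃ φ : Edge N → (Fin r × Edge n) ⊕ Bool, (∀ v, v ∉ U → ∃ c, φ v = .inr c) ∧
      ∀ y : Fin r × Edge n → Bool, HasClique (N / 2) (fun v => Sum.elim y id (φ v)) ↔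
        ∀ i, HasClique (n / 2) fun e => y (i, e) := by
  classical
  obtain ⟨F, lf, ctr, hFU, hFc, hF, hlf, hlc⟩ := exists_forest U
  -- numbers
  have hN : 2 * k ≤ N := by
    refine hU.trans ((Finset.card_le_univ _).trans ?_)
    rw [Fintype.card_fin]
  have hkF : k ≤ F.card := by omega
  have hE := two_card_edge_le n
  set E := Fintype.card (Edge n) with hEdef
  have hA : r * (2 * E) ≤ r * n ^ 2 := Nat.mul_le_mul_left _ hE
  have hA' : r * (2 * E) = 2 * (r * E) := by ring
  have hB : r * (n / 2) ≤ r * n ^ 2 :=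
    Nat.mul_le_mul_left _ ((Nat.div_le_self _ _).trans (Nat.le_self_pow (by norm_num) _))
  have hC : 2 * (r * (n / 2 * n)) ≤ r * n ^ 2 := by
    have h1 : 2 * (n / 2 * n) ≤ n ^ 2 := by
      have h2 : 2 * (n / 2) ≤ n := Nat.mul_div_le n 2
      calc 2 * (n / 2 * n) = 2 * (n / 2) * n := by ring
        _ ≤ n * n := Nat.mul_le_mul_right _ h2
        _ = n ^ 2 := by ring
    calc 2 * (r * (n / 2 * n)) = r * (2 * (n / 2 * n)) := by ring
      _ ≤ r * n ^ 2 := Nat.mul_le_mul_left _ h1
  -- the edges used
  obtain ⟨κ⟩ : Nonempty ((Fin r × Edge n) ↪ {e : Edge N // e ∈ F}) := by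
    apply Function.Embedding.nonempty_of_card_le
    have h1 : Fintype.card (Fin r × Edge n) = r * E := by
      rw [Fintype.card_prod, Fintype.card_fin]
    rw [h1, Fintype.card_coe]
    omega
  set cen : Finset (Fin N) := univ.image fun z => ctr (κ z).1 with hcen
  set lea : Finset (Fin N) := univ.image fun z => lf (κ z).1 with hlea
  have hcard : Fintype.card (Fin r × Edge n) = r * E := by
    rw [Fintype.card_prod, Fintype.card_fin]
  have hcenc : cen.card ≤ r * E := by
    refine Finset.card_image_le.trans (le_of_eq ?_)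
    rw [Finset.card_univ, hcard]
  have hleac : lea.card ≤ r * E := by
    refine Finset.card_image_le.trans (le_of_eq ?_)
    rw [Finset.card_univ, hcard]
  set used : Finset (Fin N) := cen ∪ lea with hused
  have husedc : used.card ≤ cen.card + r * E := by
    refine (Finset.card_union_le _ _).trans ?_
    omega
  -- the other vertices of the gadgets
  obtain ⟨ρ⟩ : Nonempty ((((Fin r × Edge n) × Bool) ⊕ (Fin r × Fin (n / 2) × Fin n)) ↪
      {x : Fin N // x ∉ used}) := by
    apply Function.Embedding.nonempty_of_card_le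
    have h1 : Fintype.card {x : Fin N // x ∉ used} = N - used.card := by
      rw [Fintype.card_subtype_compl, Fintype.card_fin, Fintype.card_coe]
    rw [h1]
    simp only [Fintype.card_sum, Fintype.card_prod, Fintype.card_fin, Fintype.card_bool]
    have h2 : r * E * 2 = 2 * (r * E) := by ring
    rw [← hEdef]
    omega
  have hcm : ∀ z, ctr (κ z).1 ∈ cen := fun z => Finset.mem_image.2 ⟨z, Finset.mem_univ _, rfl⟩
  let ct : Fin r × Edge n → {x : Fin N // x ∈ cen} := fun z => ⟨ctr (κ z).1, hcm z⟩
  let J : FV {x : Fin N // x ∈ cen} r n → Fin N := fun g => match g with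
    | .x w => w.1
    | .b z => lf (κ z).1
    | .c z s => (ρ (.inl (z, s))).1
    | .q i t u => (ρ (.inr (i, t, u))).1
  have hmem0 : ∀ w : {x : Fin N // x ∈ cen}, w.1 ∈ used := fun w =>
    Finset.mem_union_left _ w.2
  have hmem : ∀ z, lf (κ z).1 ∈ used := fun z =>
    Finset.mem_union_right _ (Finset.mem_image.2 ⟨z, Finset.mem_univ _, rfl⟩)
  have hne0 : ∀ (v : {x : Fin N // x ∈ cen}) w, v.1 ≠ (ρ w).1 := fun v w h =>
    (ρ w).2 (by rw [← h]; exact hmem0 v)
  have hne : ∀ z w, lf (κ z).1 ≠ (ρ w).1 := fun z w h =>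
    (ρ w).2 (by rw [← h]; exact hmem z)
  have hbx : ∀ z (w : {x : Fin N // x ∈ cen}), lf (κ z).1 ≠ w.1 := by
    rintro z ⟨w, hw⟩ h
    obtain ⟨z', -, hz'⟩ := Finset.mem_image.1 hw
    exact hlc _ (κ z).2 _ (κ z').2 (h.trans hz'.symm)
  have hbb : ∀ z z', lf (κ z).1 = lf (κ z').1 → z = z' := by
    intro z z' h
    exact κ.injective (Subtype.ext (hlf _ (κ z).2 _ (κ z').2 h))
  have hρ : ∀ w w', (ρ w).1 = (ρ w').1 → w = w' := fun w w' h => ρ.injective (Subtype.ext h)
  have hJ : Function.Injective J := by
    intro g g' h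
    cases g with
    | x w =>
      cases g' with
      | x w' => rw [Subtype.ext h]
      | b z' => exact absurd h.symm (hbx z' w)
      | c z' s => exact absurd h (hne0 _ _)
      | q i t u => exact absurd h (hne0 _ _)
    | b z =>
      cases g' with
      | x w => exact absurd h (hbx z w)
      | b z' => rw [hbb _ _ h]
      | c z' s => exact absurd h (hne _ _)
      | q i t u => exact absurd h (hne _ _)
    | c z s =>
      cases g' with
      | x w => exact absurd h.symm (hne0 _ _)
      | b z' => exact absurd h.symm (hne _ _)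
      | c z' s' =>
        have h1 := hρ _ _ h
        simp only [Sum.inl.injEq, Prod.mk.injEq] at h1
        rw [h1.1, h1.2]
      | q i t u => exact absurd (hρ _ _ h) (by simp)
    | q i t u =>
      cases g' with
      | x w => exact absurd h.symm (hne0 _ _)
      | b z' => exact absurd h.symm (hne _ _)
      | c z' s' => exact absurd (hρ _ _ h) (by simp)
      | q i' t' u' =>
        have h1 := hρ _ _ h
        simp only [Sum.inr.injEq, Prod.mk.injEq] at h1
        rw [h1.1, h1.2.1, h1.2.2]
  -- the universal vertices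
  set W : Finset (Fin N) := used ∪ univ.image (fun w => (ρ w).1) with hW
  have hWc : W.card ≤ cen.card + 3 * (r * E) + r * (n / 2 * n) := by
    have h1 : (univ.image (fun w => (ρ w).1)).card ≤ 2 * (r * E) + r * (n / 2 * n) := by
      refine Finset.card_image_le.trans (le_of_eq ?_)
      rw [Finset.card_univ]
      simp only [Fintype.card_sum, Fintype.card_prod, Fintype.card_fin, Fintype.card_bool]
      ring
    have h2 : W.card ≤ used.card + (univ.image (fun w => (ρ w).1)).card :=
      Finset.card_union_le _ _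
    omega
  have hJW : ∀ g, J g ∈ W := by
    intro g
    cases g with
    | x w => exact Finset.mem_union_left _ (hmem0 w)
    | b z => exact Finset.mem_union_left _ (hmem z)
    | c z s => exact Finset.mem_union_right _ (Finset.mem_image.2 ⟨_, Finset.mem_univ _, rfl⟩)
    | q i t u => exact Finset.mem_union_right _ (Finset.mem_image.2 ⟨_, Finset.mem_univ _, rfl⟩)
  have hWcc : Wᶜ.card = N - W.card := by
    rw [Finset.card_compl, Fintype.card_fin]
  have hE1 : 1 ≤ E := Fintype.card_pos_iff.2 ⟨⟨(⟨0, by omega⟩, ⟨1, by omega⟩), by simp [Fin.lt_def]⟩⟩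
  have hA1 : 1 ≤ Fintype.card {x : Fin N // x ∈ cen} :=
    Fintype.card_pos_iff.2 ⟨ct (⟨0, hr⟩, ⟨(⟨0, by omega⟩, ⟨1, by omega⟩), by simp [Fin.lt_def]⟩)⟩
  have hcA : Fintype.card {x : Fin N // x ∈ cen} = cen.card := Fintype.card_coe _
  have h5 : cen.card + r * (E + n / 2) = cen.card + r * E + r * (n / 2) := by ring
  obtain ⟨Un, hUn1, hUn2⟩ := Finset.exists_subset_card_eq
    (s := Wᶜ) (n := N / 2 - (cen.card + r * (E + n / 2))) (by rw [hWcc, h5]; omega)
  have hUn : ∀ x ∈ Un, ¬ ∃ g, J g = x := by
    rintro x hx ⟨g, rfl⟩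
    exact (Finset.mem_compl.1 (hUn1 hx)) (hJW g)
  refine ⟨forestSub ct J Un, ?_, fun y => ?_⟩
  · refine fun v hv => forestSub_const (U := U) hJ (fun z v h => ?_) v hv
    rw [edge_of_ends (hF _ (κ z).2) h]
    exact hFU (κ z).2
  · refine gadgetF hJ hUn hA1 hr hn (N / 2) ?_ y
    rw [hcA, hUn2, ← hEdef, h5]
    omega

end Pool.Agent.NTN
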