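import Mathlib

/-!
# Numbers for the clique function with `nsz s` vertices
-/

set_option autoImplicit false

namespace Pool.Agent.NTN

/-- the number of vertices of a block -/
def nsz (s : ℕ) : ℕ := 2 ^ 60 * s ^ 2 * (Nat.log 2 s + 1) ^ 3

/-- the number of disjoint edges used for a block -/
def ccz (s : ℕ) : ℕ := 2 ^ 122 * s ^ 4 * (Nat.log 2 s + 1) ^ 6

theorem nsz_even (s : ℕ) : 2 ∣ nsz s :=
  ⟨2 ^ 59 * s ^ 2 * (Nat.log 2 s + 1) ^ 3, by unfold nsz; ring⟩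

theorem nsz_pos {s : ℕ} (hs : 1 ≤ s) : 2 ^ 60 ≤ nsz s := by
  unfold nsz
  have h1 : 1 ≤ s ^ 2 := Nat.one_le_pow _ _ hs
  have h2 : 1 ≤ (Nat.log 2 s + 1) ^ 3 := Nat.one_le_pow _ _ (Nat.succ_pos _)
  calc 2 ^ 60 = 2 ^ 60 * 1 * 1 := by ring
    _ ≤ _ := Nat.mul_le_mul (Nat.mul_le_mul_left _ h1) h2

theorem ccz_eq (s : ℕ) : ccz s = 4 * nsz s ^ 2 := by
  unfold nsz ccz
  ring

theorem three_nsz_le (s : ℕ) : 3 * nsz s ^ 2 ≤ ccz s := by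
  rw [ccz_eq]
  exact Nat.mul_le_mul_right _ (by norm_num)

theorem ccz_pos {s : ℕ} (hs : 1 ≤ s) : 1 ≤ ccz s := by
  have h1 := three_nsz_le s
  have h2 := nsz_pos hs
  have h3 : 1 ≤ nsz s ^ 2 := Nat.one_le_pow _ _ (by omega)
  omega

theorem nsz_le_two_pow {s : ℕ} (hs : 1 ≤ s) : nsz s ≤ 2 ^ (60 + 5 * (Nat.log 2 s + 1)) := by
  have h1 : s ≤ 2 ^ (Nat.log 2 s + 1) := (Nat.lt_pow_succ_log_self (by norm_num) s).le
  have h2 : Nat.log 2 s + 1 ≤ 2 ^ (Nat.log 2 s + 1) := Nat.lt_two_pow_self.le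
  unfold nsz
  calc 2 ^ 60 * s ^ 2 * (Nat.log 2 s + 1) ^ 3
      ≤ 2 ^ 60 * (2 ^ (Nat.log 2 s + 1)) ^ 2 * (2 ^ (Nat.log 2 s + 1)) ^ 3 :=
        Nat.mul_le_mul (Nat.mul_le_mul_left _ (Nat.pow_le_pow_left h1 2))
          (Nat.pow_le_pow_left h2 3)
    _ = 2 ^ (60 + 5 * (Nat.log 2 s + 1)) := by
        rw [← pow_mul, ← pow_mul, ← pow_add, ← pow_add]
        congr 1
        ring

theorem log_nsz_le {s : ℕ} (hs : 1 ≤ s) : Nat.log 2 (nsz s) ≤ 60 + 5 * (Nat.log 2 s + 1) := by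
  have h := Nat.log_mono_right (b := 2) (nsz_le_two_pow hs)
  rwa [Nat.log_pow (by norm_num)] at h

theorem succ_log_le' {s : ℕ} (hs : 1 ≤ s) : Nat.log 2 s + 1 ≤ s :=
  Nat.log_lt_self 2 (Nat.one_le_iff_ne_zero.1 hs)

theorem four_nsz_le {s : ℕ} (hs : 1 ≤ s) : 4 * nsz s ≤ 2 ^ (67 * s) := by
  have h1 := nsz_le_two_pow hs
  have h2 := succ_log_le' hs
  calc 4 * nsz s ≤ 2 ^ 2 * 2 ^ (60 + 5 * (Nat.log 2 s + 1)) := by
        norm_num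
        exact h1
    _ = 2 ^ (62 + 5 * (Nat.log 2 s + 1)) := by
        rw [← pow_add]
        congr 1
        ring
    _ ≤ 2 ^ (67 * s) := Nat.pow_le_pow_right (by norm_num) (by omega)

theorem log_nsz_le' {s : ℕ} (hs : 1 ≤ s) : Nat.log 2 (nsz s) ≤ 8 * (67 * s) := by
  have h1 := log_nsz_le hs
  have h2 := succ_log_le' hs
  omega

theorem nsz_big {s : ℕ} (hs : 1 ≤ s) :
    2 ^ 37 * (8 * (67 * s)) ^ 4 * (Nat.log 2 (nsz s) + 1) ^ 6 ≤ nsz s ^ 2 := by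
  have h1 : Nat.log 2 (nsz s) + 1 ≤ 66 * (Nat.log 2 s + 1) := by
    have := log_nsz_le hs
    omega
  calc 2 ^ 37 * (8 * (67 * s)) ^ 4 * (Nat.log 2 (nsz s) + 1) ^ 6
      ≤ 2 ^ 37 * (8 * (67 * s)) ^ 4 * (66 * (Nat.log 2 s + 1)) ^ 6 :=
        Nat.mul_le_mul_left _ (Nat.pow_le_pow_left h1 6)
    _ = (2 ^ 37 * 8 ^ 4 * 67 ^ 4 * 66 ^ 6) * (s ^ 4 * (Nat.log 2 s + 1) ^ 6) := by ring
    _ ≤ 2 ^ 120 * (s ^ 4 * (Nat.log 2 s + 1) ^ 6) :=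
        Nat.mul_le_mul_right _ (by norm_num)
    _ = nsz s ^ 2 := by
        unfold nsz
        ring

end Pool.Agent.NTN
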