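import Mathlib
import Pool.Agent.NegLim.Defs

/-!
# Clique restricted to disjoint edges: conjunctions of clique functions
-/

set_option autoImplicit false

namespace Pool.Agent.NTN

open Pool.Agent.NegLim Finset

/-- `U` contains `k` pairwise disjoint edges. -/
def DisjointPairs {N : ℕ} (k : ℕ) (U : Finset (Edge N)) : Prop :=
  ∃ e : Fin k → Edge N, (∀ i, e i ∈ U) ∧
    ∀ i j, i ≠ j → (e i).1.1 ≠ (e j).1.1 ∧ (e i).1.1 ≠ (e j).1.2 ∧
      (e i).1.2 ≠ (e j).1.1 ∧ (e i).1.2 ≠ (e j).1.2

/-- The vertices of the gadgets. -/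
inductive GV (r n : ℕ) : Type
  | a (z : Fin r × Edge n) : GV r n
  | b (z : Fin r × Edge n) : GV r n
  | c (z : Fin r × Edge n) (s : Bool) : GV r n
  | q (i : Fin r) (t : Fin (n / 2)) (u : Fin n) : GV r n

/-- The endpoints of an edge. -/
def ept {n : ℕ} (p : Edge n) (s : Bool) : Fin n := if s then p.1.1 else p.1.2

open Classical in
/-- The label of the edge between two vertices of the gadgets: a variable or a constant. -/
noncomputable def lit {r n : ℕ} : GV r n → GV r n → (Fin r × Edge n) ⊕ Bool
  | .a z, .b z' => if z = z' then .inl z else .inr true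
  | .b z, .a z' => if z = z' then .inl z else .inr true
  | .b z, .c z' _ => .inr (decide (z ≠ z'))
  | .c z _, .b z' => .inr (decide (z ≠ z'))
  | .c z _, .c z' _ => .inr (decide (z ≠ z'))
  | .c z s, .q i _ u => .inr (decide ¬ (z.1 = i ∧ u = ept z.2 s))
  | .q i _ u, .c z s => .inr (decide ¬ (z.1 = i ∧ u = ept z.2 s))
  | .q i t u, .q i' t' u' => .inr (decide (i = i' → (t ≠ t' ∧ u ≠ u')))
  | _, _ => .inr true

theorem lit_symm {r n : ℕ} (g g' : GV r n) : lit g g' = lit g' g := by
  cases g <;> cases g' <;> simp only [lit]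
  · split_ifs with h1 h2 h2
    · rw [h1]
    · exact absurd h1.symm h2
    · exact absurd h2.symm h1
    · rfl
  · split_ifs with h1 h2 h2
    · rw [h1]
    · exact absurd h1.symm h2
    · exact absurd h2.symm h1
    · rfl
  · congr 1
    exact decide_eq_decide.mpr ne_comm
  · congr 1
    exact decide_eq_decide.mpr ne_comm
  · congr 1
    exact decide_eq_decide.mpr ne_comm
  · congr 1
    refine decide_eq_decide.mpr ⟨fun h h1 => ?_, fun h h1 => ?_⟩
    · obtain ⟨h2, h3⟩ := h h1.symm
      exact ⟨h2.symm, h3.symm⟩
    · obtain ⟨h2, h3⟩ := h h1.symm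
      exact ⟨h2.symm, h3.symm⟩

/-- The cells. -/
def cellG {r n : ℕ} : GV r n → (Fin r × Edge n) ⊕ (Fin r × Edge n) ⊕ (Fin r × Fin (n / 2))
  | .a z => .inl z
  | .b z => .inr (.inl z)
  | .c z _ => .inr (.inl z)
  | .q i t _ => .inr (.inr (i, t))

/-- Different vertices of a cell are not adjacent. -/
theorem cell_inj {r n : ℕ} {g g' : GV r n} (h : cellG g = cellG g') (hne : g ≠ g') :
    lit g g' = .inr false := by
  cases g <;> cases g' <;> simp_all [cellG, lit]

/-- The chosen vertices for the sets `σ i`. -/
def okG {r n : ℕ} (σ : Fin r → Fin (n / 2) → Fin n) : GV r n → Prop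
  | .a _ => True
  | .b z => (∃ t, σ z.1 t = z.2.1.1) ∧ ∃ t, σ z.1 t = z.2.1.2
  | .c z true => ¬ ∃ t, σ z.1 t = z.2.1.1
  | .c z false => (∃ t, σ z.1 t = z.2.1.1) ∧ ¬ ∃ t, σ z.1 t = z.2.1.2
  | .q i t u => u = σ i t

theorem ok_ept {r n : ℕ} {σ : Fin r → Fin (n / 2) → Fin n} {z : Fin r × Edge n} {s : Bool}
    (h : okG σ (.c z s)) (t : Fin (n / 2)) : σ z.1 t ≠ ept z.2 s := by
  cases s with
  | true => exact fun h1 => h ⟨t, by simpa [ept] using h1⟩
  | false => exact fun h1 => h.2 ⟨t, by simpa [ept] using h1⟩

theorem ok_adj {r n : ℕ} {σ : Fin r → Fin (n / 2) → Fin n}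
    (hσ : ∀ i, Function.Injective (σ i)) {y : Fin r × Edge n → Bool}
    (hy : ∀ z : Fin r × Edge n, (∃ t, σ z.1 t = z.2.1.1) → (∃ t, σ z.1 t = z.2.1.2) →
      y z = true) {g g' : GV r n} (h : okG σ g) (h' : okG σ g') (hne : g ≠ g') :
    Sum.elim y id (lit g g') = true := by
  have key : ∀ z s, okG σ (.b z) → okG σ (.c z s) → False := by
    intro z s h1 h2
    cases s with
    | true => exact h2 h1.1
    | false => exact h2.2 h1.2
  have key2 : ∀ z s s', okG σ (.c z s) → okG σ (.c z s') → s = s' := by
    intro z s s' h1 h2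
    cases s <;> cases s'
    · rfl
    · exact absurd h1.1 h2
    · exact absurd h2.1 h1
    · rfl
  cases g with
  | a z =>
    cases g' with
    | b z' =>
      simp only [lit]
      split_ifs with h1
      · subst h1
        exact hy z h'.1 h'.2
      · rfl
    | a z' => rfl
    | c z' s => rfl
    | q i t u => rfl
  | b z =>
    cases g' with
    | a z' =>
      simp only [lit]
      split_ifs with h1
      · subst h1
        exact hy z h.1 h.2
      · rfl
    | b z' => rfl
    | c z' s =>
      have h1 : z ≠ z' := by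
        rintro rfl
        exact key z s h h'
      simp [lit, h1]
    | q i t u => rfl
  | c z s =>
    cases g' with
    | a z' => rfl
    | b z' =>
      have h1 : z ≠ z' := by
        rintro rfl
        exact key z s h' h
      simp [lit, h1]
    | c z' s' =>
      have h1 : z ≠ z' := by
        rintro rfl
        exact hne (by rw [key2 z s s' h h'])
      simp [lit, h1]
    | q i t u =>
      have h1 : ¬ (z.1 = i ∧ u = ept z.2 s) := by
        rintro ⟨rfl, h2⟩
        exact ok_ept h t (by rw [← h2]; exact h'.symm)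
      simp only [lit, Sum.elim_inr, id, decide_eq_true_eq]
      exact h1
  | q i t u =>
    cases g' with
    | a z' => rfl
    | b z' => rfl
    | c z s =>
      have h1 : ¬ (z.1 = i ∧ u = ept z.2 s) := by
        rintro ⟨rfl, h2⟩
        exact ok_ept h' t (by rw [← h2]; exact h.symm)
      simp only [lit, Sum.elim_inr, id, decide_eq_true_eq]
      exact h1
    | q i' t' u' =>
      simp only [lit, Sum.elim_inr, id, decide_eq_true_eq]
      rintro rfl
      have h1 : u = σ i t := h
      have h2 : u' = σ i t' := h'
      have h3 : t ≠ t' := by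
        rintro rfl
        exact hne (by rw [h1, h2])
      exact ⟨h3, by rw [h1, h2]; exact fun h4 => h3 (hσ i h4)⟩

/-! ### The graph on `N` vertices -/

section

variable {r n N : ℕ} (J : GV r n → Fin N) (Un : Finset (Fin N))

open Classical in
/-- The vertices of the gadgets, the universal ones and the isolated ones. -/
noncomputable def dec : Fin N → GV r n ⊕ Bool :=
  Function.extend J Sum.inl fun x => Sum.inr (decide (x ∈ Un))

/-- The label of an edge between vertices of given kinds. -/
noncomputable def litK : GV r n ⊕ Bool → GV r n ⊕ Bool → (Fin r × Edge n) ⊕ Bool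
  | .inl g, .inl g' => lit g g'
  | .inl _, .inr t => .inr t
  | .inr t, .inl _ => .inr t
  | .inr t, .inr t' => .inr (t && t')

theorem litK_symm (x y : GV r n ⊕ Bool) : litK x y = litK y x := by
  cases x <;> cases y <;> simp only [litK]
  · exact lit_symm _ _
  · rw [Bool.and_comm]

/-- The substitution. -/
noncomputable def cliqueSub (v : Edge N) : (Fin r × Edge n) ⊕ Bool :=
  litK (dec J Un v.1.1) (dec J Un v.1.2)

variable {J Un}

theorem dec_J (hJ : Function.Injective J) (g : GV r n) : dec J Un (J g) = .inl g := by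
  unfold dec
  exact hJ.extend_apply _ _ _

theorem dec_out {x : Fin N} (hx : ¬ ∃ g, J g = x) : dec J Un x = .inr (decide (x ∈ Un)) := by
  classical
  unfold dec
  rw [Function.extend_apply' _ _ _ hx]

theorem dec_cases (hJ : Function.Injective J) (x : Fin N) :
    (∃ g, J g = x ∧ dec J Un x = .inl g) ∨
      ((¬ ∃ g, J g = x) ∧ dec J Un x = .inr (decide (x ∈ Un))) := by
  by_cases h : ∃ g, J g = x
  · obtain ⟨g, rfl⟩ := h
    exact Or.inl ⟨g, rfl, dec_J hJ g⟩
  · exact Or.inr ⟨h, dec_out h⟩

theorem lit_inl {g g' : GV r n} {z : Fin r × Edge n} (h : lit g g' = .inl z) :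
    (g = .a z ∧ g' = .b z) ∨ (g = .b z ∧ g' = .a z) := by
  cases g <;> cases g' <;> simp only [lit] at h
  all_goals first
    | exact absurd h (by simp)
    | (split_ifs at h with h1
       · simp only [Sum.inl.injEq] at h
         subst h
         subst h1
         simp)

theorem sub_const (hJ : Function.Injective J) {U : Finset (Edge N)}
    (hab : ∀ z, J (.a z) < J (.b z)) (hU : ∀ z (h : J (.a z) < J (.b z)),
      (⟨(J (.a z), J (.b z)), h⟩ : Edge N) ∈ U) (v : Edge N) (hv : v ∉ U) :
    ∃ c, cliqueSub J Un v = .inr c := by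
  rcases hc : cliqueSub J Un v with z | c
  · exfalso
    unfold cliqueSub at hc
    rcases dec_cases (Un := Un) hJ v.1.1 with ⟨g, hg, e1⟩ | ⟨-, e1⟩
    · rcases dec_cases (Un := Un) hJ v.1.2 with ⟨g', hg', e2⟩ | ⟨-, e2⟩
      · rw [e1, e2] at hc
        rcases lit_inl hc with ⟨rfl, rfl⟩ | ⟨rfl, rfl⟩
        · apply hv
          have h1 := hU z (hab z)
          have h2 : (⟨(J (.a z), J (.b z)), hab z⟩ : Edge N) = v :=
            Subtype.ext (Prod.ext hg hg')
          rwa [h2] at h1
        · have h1 := v.2
          rw [← hg, ← hg'] at h1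
          exact absurd h1 (not_lt.2 (hab z).le)
      · rw [e1, e2] at hc
        simp [litK] at hc
    · rcases dec_cases (Un := Un) hJ v.1.2 with ⟨g', hg', e2⟩ | ⟨-, e2⟩
      · rw [e1, e2] at hc
        simp [litK] at hc
      · rw [e1, e2] at hc
        simp [litK] at hc
  · exact ⟨c, rfl⟩

/-- Cliques of the restricted graph. -/
theorem hasClique_sub_iff (K : ℕ) (y : Fin r × Edge n → Bool) :
    HasClique K (fun v => Sum.elim y id (cliqueSub J Un v)) ↔
      ∃ S : Finset (Fin N), S.card = K ∧ ∀ x ∈ S, ∀ x' ∈ S, x ≠ x' →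
        Sum.elim y id (litK (dec J Un x) (dec J Un x')) = true := by
  constructor
  · rintro ⟨S, hS, h⟩
    refine ⟨S, hS, fun x hx x' hx' hne => ?_⟩
    rcases lt_or_gt_of_ne hne with h1 | h1
    · exact h x hx x' hx' h1
    · rw [litK_symm]
      exact h x' hx' x hx h1
  · rintro ⟨S, hS, h⟩
    exact ⟨S, hS, fun x hx x' hx' h1 => h x hx x' hx' h1.ne⟩

/-- **The gadget.** -/
theorem gadget (hJ : Function.Injective J) (hUn : ∀ x ∈ Un, ¬ ∃ g, J g = x) (hr : 1 ≤ r)
    (hn : 2 ≤ n) (K : ℕ)
    (hK : r * (2 * Fintype.card (Edge n) + n / 2) + Un.card = K)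
    (y : Fin r × Edge n → Bool) :
    HasClique K (fun v => Sum.elim y id (cliqueSub J Un v)) ↔
      ∀ i, HasClique (n / 2) fun e => y (i, e) := by
  classical
  have hcardC : Fintype.card ((Fin r × Edge n) ⊕ (Fin r × Edge n) ⊕ (Fin r × Fin (n / 2)))
      = r * (2 * Fintype.card (Edge n) + n / 2) := by
    simp only [Fintype.card_sum, Fintype.card_prod, Fintype.card_fin]
    ring
  have : Finite (GV r n) := Finite.of_injective J hJ
  let _ : Fintype (GV r n) := Fintype.ofFinite _
  rw [hasClique_sub_iff]
  constructor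
  · rintro ⟨S, hS, hadj⟩ i
    -- there are no isolated vertices
    have hK2 : 2 ≤ K := by
      have h1 : 1 ≤ Fintype.card (Edge n) :=
        Fintype.card_pos_iff.2 ⟨⟨(⟨0, by omega⟩, ⟨1, by omega⟩), by simp [Fin.lt_def]⟩⟩
      have h2 : 1 * 2 ≤ r * (2 * Fintype.card (Edge n) + n / 2) :=
        Nat.mul_le_mul hr (by omega)
      omega
    have hout : ∀ x ∈ S, (∃ g, J g = x) ∨ x ∈ Un := by
      intro x hx
      by_contra hcon
      push Not at hcon
      have h1 : dec J Un x = .inr false := by
        rw [dec_out (by push Not; exact hcon.1)]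
        simp [hcon.2]
      obtain ⟨x', hx', hne⟩ : ∃ x' ∈ S, x' ≠ x := by
        by_contra h2
        push Not at h2
        have h3 : S ⊆ {x} := fun w hw => by simp [h2 w hw]
        have h4 := Finset.card_le_card h3
        rw [Finset.card_singleton] at h4
        omega
      have h2 := hadj x hx x' hx' hne.symm
      rw [h1] at h2
      rcases dec_cases (Un := Un) hJ x' with ⟨g, -, e⟩ | ⟨-, e⟩
      · rw [e] at h2
        simp [litK] at h2
      · rw [e] at h2
        simp [litK] at h2
    set T : Finset (GV r n) := univ.filter fun g => J g ∈ S with hT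
    have hTadj : ∀ g ∈ T, ∀ g' ∈ T, g ≠ g' → Sum.elim y id (lit g g') = true := by
      intro g hg g' hg' hne
      have h1 := hadj _ (Finset.mem_filter.1 hg).2 _ (Finset.mem_filter.1 hg').2
        (fun h => hne (hJ h))
      rw [dec_J hJ, dec_J hJ] at h1
      exact h1
    have hTcard : r * (2 * Fintype.card (Edge n) + n / 2) ≤ T.card := by
      have h1 : S ⊆ T.image J ∪ Un := by
        intro x hx
        rcases hout x hx with ⟨g, rfl⟩ | h
        · exact Finset.mem_union_left _ (Finset.mem_image_of_mem _
            (Finset.mem_filter.2 ⟨Finset.mem_univ _, hx⟩))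
        · exact Finset.mem_union_right _ h
      have h2 := (Finset.card_le_card h1).trans (Finset.card_union_le _ _)
      have h3 : (T.image J).card ≤ T.card := Finset.card_image_le
      omega
    have hinj : Set.InjOn (cellG (r := r) (n := n)) (T : Set (GV r n)) := by
      intro g hg g' hg' h
      by_contra hne
      have h1 := hTadj g hg g' hg' hne
      rw [cell_inj h hne] at h1
      exact Bool.false_ne_true h1
    have hsurj : T.image cellG = univ := by
      apply Finset.eq_univ_of_card
      rw [Finset.card_image_of_injOn hinj, hcardC]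
      refine le_antisymm ?_ hTcard
      rw [← hcardC, ← Finset.card_image_of_injOn hinj]
      exact Finset.card_le_univ _
    have hcell : ∀ c, ∃ g ∈ T, cellG g = c := by
      intro c
      have h1 : c ∈ T.image cellG := by rw [hsurj]; exact Finset.mem_univ _
      exact Finset.mem_image.1 h1
    have hA : ∀ z, GV.a z ∈ T := by
      intro z
      obtain ⟨g, hg, hc⟩ := hcell (.inl z)
      cases g <;> simp [cellG] at hc
      subst hc
      exact hg
    have hB : ∀ z, GV.b z ∈ T ∨ ∃ s, GV.c z s ∈ T := by
      intro z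
      obtain ⟨g, hg, hc⟩ := hcell (.inr (.inl z))
      cases g with
      | a z' => simp [cellG] at hc
      | b z' =>
        simp [cellG] at hc
        subst hc
        exact Or.inl hg
      | c z' s =>
        simp [cellG] at hc
        subst hc
        exact Or.inr ⟨s, hg⟩
      | q i t u => simp [cellG] at hc
    have hQ : ∀ t, ∃ u, GV.q i t u ∈ T := by
      intro t
      obtain ⟨g, hg, hc⟩ := hcell (.inr (.inr (i, t)))
      cases g with
      | a z' => simp [cellG] at hc
      | b z' => simp [cellG] at hc
      | c z' s => simp [cellG] at hc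
      | q i' t' u =>
        simp [cellG] at hc
        obtain ⟨rfl, rfl⟩ := hc
        exact ⟨u, hg⟩
    choose σ hσ using hQ
    have hσi : Function.Injective σ := by
      intro t t' h
      by_contra hne
      have h1 := hTadj _ (hσ t) _ (hσ t') (by
        intro h2
        simp only [GV.q.injEq] at h2
        exact hne h2.2.1)
      simp only [lit, Sum.elim_inr, id, decide_eq_true_eq] at h1
      exact (h1 trivial).2 h
    refine ⟨univ.image σ, ?_, ?_⟩
    · rw [Finset.card_image_of_injective _ hσi, Finset.card_univ, Fintype.card_fin]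
    · intro u hu v hv huv
      obtain ⟨t, -, rfl⟩ := Finset.mem_image.1 hu
      obtain ⟨t', -, rfl⟩ := Finset.mem_image.1 hv
      set z : Fin r × Edge n := (i, ⟨(σ t, σ t'), huv⟩) with hz
      rcases hB z with h | ⟨s, h⟩
      · have h1 := hTadj _ (hA z) _ h (by simp)
        simp only [lit, if_true, Sum.elim_inl] at h1
        exact h1
      · exfalso
        cases s with
        | true =>
          have h1 := hTadj _ h _ (hσ t) (by simp)
          simp [lit, ept, hz] at h1
        | false =>
          have h1 := hTadj _ h _ (hσ t') (by simp)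
          simp [lit, ept, hz] at h1
  · intro h
    choose R hR1 hR2 using h
    let σ : Fin r → Fin (n / 2) → Fin n := fun i => (R i).orderEmbOfFin (hR1 i)
    have hσ : ∀ i, Function.Injective (σ i) := fun i => ((R i).orderEmbOfFin (hR1 i)).injective
    have hσR : ∀ i t, σ i t ∈ R i := fun i t => Finset.orderEmbOfFin_mem _ _ _
    have hy : ∀ z : Fin r × Edge n, (∃ t, σ z.1 t = z.2.1.1) → (∃ t, σ z.1 t = z.2.1.2) →
        y z = true := by
      rintro ⟨i, p⟩ ⟨t, ht⟩ ⟨t', ht'⟩
      refine hR2 i p.1.1 ?_ p.1.2 ?_ p.2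
      · rw [← ht]; exact hσR i t
      · rw [← ht']; exact hσR i t'
    let pick : (Fin r × Edge n) ⊕ (Fin r × Edge n) ⊕ (Fin r × Fin (n / 2)) → GV r n :=
      fun c => match c with
        | .inl z => .a z
        | .inr (.inl z) => if okG σ (.b z) then .b z else
            if okG σ (.c z true) then .c z true else .c z false
        | .inr (.inr (i, t)) => .q i t (σ i t)
    have hpick : ∀ c, cellG (pick c) = c := by
      rintro (z | z | ⟨i, t⟩)
      · rfl
      · simp only [pick]
        split_ifs <;> rfl
      · rfl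
    have hok : ∀ c, okG σ (pick c) := by
      rintro (z | z | ⟨i, t⟩)
      · trivial
      · simp only [pick]
        split_ifs with h1 h2
        · exact h1
        · exact h2
        · have h3 : ∃ t, σ z.1 t = z.2.1.1 := by
            by_contra h4
            exact h2 h4
          exact ⟨h3, fun h4 => h1 ⟨h3, h4⟩⟩
      · rfl
    have hpi : Function.Injective pick := fun c c' h => by
      rw [← hpick c, ← hpick c', h]
    refine ⟨(univ.image fun c => J (pick c)) ∪ Un, ?_, ?_⟩
    · rw [Finset.card_union_of_disjoint, Finset.card_image_of_injective _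
        (show Function.Injective (fun c => J (pick c)) from hJ.comp hpi),
        Finset.card_univ, hcardC, hK]
      rw [Finset.disjoint_left]
      intro x hx hxU
      obtain ⟨c, -, rfl⟩ := Finset.mem_image.1 hx
      exact hUn _ hxU ⟨_, rfl⟩
    · intro x hx x' hx' hne
      rcases Finset.mem_union.1 hx with hx | hx
      · obtain ⟨c, -, rfl⟩ := Finset.mem_image.1 hx
        rw [dec_J hJ]
        rcases Finset.mem_union.1 hx' with hx' | hx'
        · obtain ⟨c', -, rfl⟩ := Finset.mem_image.1 hx'
          rw [dec_J hJ]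
          exact ok_adj hσ hy (hok c) (hok c') fun h => hne (by rw [h])
        · rw [dec_out (hUn _ hx')]
          simp [litK, hx']
      · rw [dec_out (hUn _ hx)]
        rcases Finset.mem_union.1 hx' with hx' | hx'
        · obtain ⟨c', -, rfl⟩ := Finset.mem_image.1 hx'
          rw [dec_J hJ]
          simp [litK, hx]
        · rw [dec_out (hUn _ hx')]
          simp [litK, hx, hx']

end

/-- **Clique**: the restriction to disjoint edges. -/
theorem clique_blocks_U {r n N k : ℕ} (hr : 1 ≤ r) (hn : 2 ≤ n) (h4 : 4 * (r * n ^ 2) ≤ k)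
    (U : Finset (Edge N)) (hU : DisjointPairs k U) :
    ∃ φ : Edge N → (Fin r × Edge n) ⊕ Bool, (∀ v, v ∉ U → ∃ c, φ v = .inr c) ∧
      ∀ y : Fin r × Edge n → Bool, HasClique (N / 2) (fun v => Sum.elim y id (φ v)) ↔
        ∀ i, HasClique (n / 2) fun e => y (i, e) := by
  classical
  obtain ⟨e, heU, he⟩ := hU
  -- the endpoints
  have hept : Function.Injective fun p : Fin k × Bool => ept (e p.1) p.2 := by
    rintro ⟨i, s⟩ ⟨j, t⟩ h
    simp only at h
    by_cases hij : i = j
    · subst hij
      have h1 := (e i).2.ne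
      cases s <;> cases t
      · rfl
      · exact absurd h (by simp only [ept]; exact h1.symm)
      · exact absurd h (by simp only [ept]; exact h1)
      · rfl
    · exfalso
      obtain ⟨h1, h2, h3, h5⟩ := he i j hij
      cases s <;> cases t
      · exact h5 h
      · exact h3 h
      · exact h2 h
      · exact h1 h
  have hN : 2 * k ≤ N := by
    have := Fintype.card_le_of_injective _ hept
    simp only [Fintype.card_prod, Fintype.card_fin, Fintype.card_bool] at this
    omega
  -- numbers
  have hE : Fintype.card (Edge n) ≤ n ^ 2 := by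
    refine (Fintype.card_subtype_le _).trans (le_of_eq ?_)
    simp [sq]
  set E := Fintype.card (Edge n) with hEdef
  have hA : r * E ≤ r * n ^ 2 := Nat.mul_le_mul_left _ hE
  have hB : r * (n / 2) ≤ r * n ^ 2 :=
    Nat.mul_le_mul_left _ ((Nat.div_le_self _ _).trans (Nat.le_self_pow (by norm_num) _))
  have hC : r * (n / 2 * n) ≤ r * n ^ 2 := by
    refine Nat.mul_le_mul_left _ ?_
    rw [sq]
    exact Nat.mul_le_mul_right _ (Nat.div_le_self _ _)
  -- the edges used
  obtain ⟨κ⟩ : Nonempty ((Fin r × Edge n) ↪ Fin k) := by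
    apply Function.Embedding.nonempty_of_card_le
    have h1 : Fintype.card (Fin r × Edge n) = r * E := by
      rw [Fintype.card_prod, Fintype.card_fin]
    rw [h1, Fintype.card_fin]
    omega
  set used : Finset (Fin N) :=
    univ.image fun p : (Fin r × Edge n) × Bool => ept (e (κ p.1)) p.2 with hused
  have husedc : used.card ≤ 2 * (r * E) := by
    refine Finset.card_image_le.trans (le_of_eq ?_)
    rw [Finset.card_univ]
    simp only [Fintype.card_prod, Fintype.card_fin, Fintype.card_bool]
    ring
  -- the other vertices of the gadgets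
  obtain ⟨ρ⟩ : Nonempty ((((Fin r × Edge n) × Bool) ⊕ (Fin r × Fin (n / 2) × Fin n)) ↪
      {x : Fin N // x ∉ used}) := by
    apply Function.Embedding.nonempty_of_card_le
    have h1 : Fintype.card {x : Fin N // x ∉ used} = N - used.card := by
      rw [Fintype.card_subtype_compl, Fintype.card_fin, Fintype.card_coe]
    rw [h1]
    simp only [Fintype.card_sum, Fintype.card_prod, Fintype.card_fin, Fintype.card_bool]
    have h2 : r * E * 2 = 2 * (r * E) := by ring
    rw [← hEdef]
    omega
  let J : GV r n → Fin N := fun g => match g with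
    | .a z => ept (e (κ z)) true
    | .b z => ept (e (κ z)) false
    | .c z s => (ρ (.inl (z, s))).1
    | .q i t u => (ρ (.inr (i, t, u))).1
  have hmem : ∀ z s, ept (e (κ z)) s ∈ used := fun z s =>
    Finset.mem_image.2 ⟨(z, s), Finset.mem_univ _, rfl⟩
  have hne : ∀ z s w, ept (e (κ z)) s ≠ (ρ w).1 := fun z s w h =>
    (ρ w).2 (by rw [← h]; exact hmem z s)
  have hab' : ∀ z z' s s', ept (e (κ z)) s = ept (e (κ z')) s' → z = z' ∧ s = s' := by
    intro z z' s s' h
    have h1 := hept (a₁ := (κ z, s)) (a₂ := (κ z', s')) h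
    rw [Prod.mk.injEq] at h1
    exact ⟨κ.injective h1.1, h1.2⟩
  have hρ : ∀ w w', (ρ w).1 = (ρ w').1 → w = w' := fun w w' h => ρ.injective (Subtype.ext h)
  have hJ : Function.Injective J := by
    intro g g' h
    cases g with
    | a z =>
      cases g' with
      | a z' => rw [(hab' _ _ _ _ h).1]
      | b z' => exact absurd (hab' _ _ _ _ h).2 (by simp)
      | c z' s => exact absurd h (hne _ _ _)
      | q i t u => exact absurd h (hne _ _ _)
    | b z =>
      cases g' with
      | a z' => exact absurd (hab' _ _ _ _ h).2 (by simp)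
      | b z' => rw [(hab' _ _ _ _ h).1]
      | c z' s => exact absurd h (hne _ _ _)
      | q i t u => exact absurd h (hne _ _ _)
    | c z s =>
      cases g' with
      | a z' => exact absurd h.symm (hne _ _ _)
      | b z' => exact absurd h.symm (hne _ _ _)
      | c z' s' =>
        have h1 := hρ _ _ h
        simp only [Sum.inl.injEq, Prod.mk.injEq] at h1
        rw [h1.1, h1.2]
      | q i t u => exact absurd (hρ _ _ h) (by simp)
    | q i t u =>
      cases g' with
      | a z' => exact absurd h.symm (hne _ _ _)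
      | b z' => exact absurd h.symm (hne _ _ _)
      | c z' s' => exact absurd (hρ _ _ h) (by simp)
      | q i' t' u' =>
        have h1 := hρ _ _ h
        simp only [Sum.inr.injEq, Prod.mk.injEq] at h1
        rw [h1.1, h1.2.1, h1.2.2]
  -- the universal vertices
  set W : Finset (Fin N) := used ∪ univ.image (fun w => (ρ w).1) with hW
  have hWc : W.card ≤ 4 * (r * E) + r * (n / 2 * n) := by
    have h1 : (univ.image (fun w => (ρ w).1)).card ≤ 2 * (r * E) + r * (n / 2 * n) := by
      refine Finset.card_image_le.trans (le_of_eq ?_)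
      rw [Finset.card_univ]
      simp only [Fintype.card_sum, Fintype.card_prod, Fintype.card_fin, Fintype.card_bool]
      ring
    have h2 : W.card ≤ used.card + (univ.image (fun w => (ρ w).1)).card :=
      Finset.card_union_le _ _
    omega
  have hJW : ∀ g, J g ∈ W := by
    intro g
    cases g with
    | a z => exact Finset.mem_union_left _ (hmem z true)
    | b z => exact Finset.mem_union_left _ (hmem z false)
    | c z s => exact Finset.mem_union_right _ (Finset.mem_image.2 ⟨_, Finset.mem_univ _, rfl⟩)
    | q i t u => exact Finset.mem_union_right _ (Finset.mem_image.2 ⟨_, Finset.mem_univ _, rfl⟩)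
  have hWcc : Wᶜ.card = N - W.card := by
    rw [Finset.card_compl, Fintype.card_fin]
  have h5 : r * (2 * E + n / 2) = 2 * (r * E) + r * (n / 2) := by ring
  obtain ⟨Un, hUn1, hUn2⟩ := Finset.exists_subset_card_eq
    (s := Wᶜ) (n := N / 2 - r * (2 * E + n / 2)) (by rw [hWcc, h5]; omega)
  have hUn : ∀ x ∈ Un, ¬ ∃ g, J g = x := by
    rintro x hx ⟨g, rfl⟩
    exact (Finset.mem_compl.1 (hUn1 hx)) (hJW g)
  refine ⟨cliqueSub J Un, ?_, fun y => ?_⟩
  · refine fun v hv => sub_const (U := U) hJ (fun z => (e (κ z)).2) (fun z h => ?_) v hv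
    have h1 : (⟨(J (.a z), J (.b z)), h⟩ : Edge N) = e (κ z) := Subtype.ext rfl
    rw [h1]
    exact heU _
  · refine gadget hJ hUn hr hn (N / 2) ?_ y
    rw [hUn2, ← hEdef, h5]
    omega

end Pool.Agent.NTN
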