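import Pool.Agent.NTR.OrNet

/-!
# The conjunction of monotone networks is a monotone network

For `K` networks with `S` nodes the conjunction of the functions computed is computed by a network with `K S + 2` nodes
(series composition), for networks with undirected contacts and for networks with directed contacts.
-/

set_option autoImplicit false

namespace Pool.Agent.NTN

open Pool.Agent.TeleNeg Pool.Agent.NTR Relation

section

variable {S K : ℕ} (src tgt : Fin K → Fin S)

/-- the node where the part `j` begins -/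
def inP (j : ℕ) : Fin (K * S + 2) := if h : j < K then nd ⟨j, h⟩ (src ⟨j, h⟩) else nTgt S K

/-- the node where the part before `j` ends -/
def outP : ℕ → Fin (K * S + 2)
  | 0 => nSrc S K
  | j + 1 => if h : j < K then nd ⟨j, h⟩ (tgt ⟨j, h⟩) else nSrc S K

/-- reachability in the series composition -/
theorem series {St : Fin (K * S + 2) → Fin (K * S + 2) → Prop} {T : Fin K → Fin S → Fin S → Prop}
    (h1 : ∀ p q, St p q → (∃ k a b, p = nd k a ∧ q = nd k b ∧ T k a b) ∨
      ∃ j, j ≤ K ∧ ((p = outP tgt j ∧ q = inP src j) ∨ (q = outP tgt j ∧ p = inP src j)))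
    (h2 : ∀ k a b, T k a b → St (nd k a) (nd k b)) (h3 : ∀ j, j ≤ K → St (outP tgt j) (inP src j)) :
    ReflTransGen St (nSrc S K) (nTgt S K) ↔ ∀ k, ReflTransGen (T k) (src k) (tgt k) := by
  constructor
  · intro h
    -- the points which are reached
    have inv : ∀ q, ReflTransGen St (nSrc S K) q → q = nSrc S K ∨
        (∃ k a, q = nd k a ∧ (∀ k' : Fin K, k' < k → ReflTransGen (T k') (src k') (tgt k')) ∧
          ReflTransGen (T k) (src k) a) ∨
        (q = nTgt S K ∧ ∀ k, ReflTransGen (T k) (src k) (tgt k)) := by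
      intro q hq
      induction hq with
      | refl => exact Or.inl rfl
      | @tail p q _ hs ih =>
        rcases h1 p q hs with ⟨k, a, b, e1, e2, e3⟩ | ⟨j, hj, (⟨e1, e2⟩ | ⟨e1, e2⟩)⟩
        · rcases ih with ih | ⟨k', a', ih, ih2, ih3⟩ | ⟨ih, _⟩
          · exact absurd (e1.symm.trans ih) (nd_ne_src k a)
          · obtain ⟨rfl, rfl⟩ := nd_inj (e1.symm.trans ih)
            exact Or.inr (Or.inl ⟨k, b, e2, ih2, ih3.tail e3⟩)
          · exact absurd (e1.symm.trans ih) (nd_ne_tgt k a)
        · -- forward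
          have hacc : ∀ k' : Fin K, (k' : ℕ) < j → ReflTransGen (T k') (src k') (tgt k') := by
            cases j with
            | zero => exact fun k' hk' => absurd hk' (Nat.not_lt_zero _)
            | succ j =>
              have hjK : j < K := hj
              have e3 : p = nd ⟨j, hjK⟩ (tgt ⟨j, hjK⟩) := by
                rw [e1]
                exact dif_pos hjK
              rcases ih with ih | ⟨k', a', ih, ih2, ih3⟩ | ⟨ih, _⟩
              · exact absurd (e3.symm.trans ih) (nd_ne_src _ _)
              · obtain ⟨rfl, rfl⟩ := nd_inj (e3.symm.trans ih)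
                intro k' hk'
                rcases Nat.lt_succ_iff_lt_or_eq.1 hk' with h4 | h4
                · exact ih2 k' h4
                · have h5 : k' = ⟨j, hjK⟩ := Fin.ext h4
                  rw [h5]
                  exact ih3
              · exact absurd (e3.symm.trans ih) (nd_ne_tgt _ _)
          rcases Nat.lt_or_ge j K with h4 | h4
          · have e3 : q = nd ⟨j, h4⟩ (src ⟨j, h4⟩) := by
              rw [e2]
              exact dif_pos h4
            exact Or.inr (Or.inl ⟨⟨j, h4⟩, _, e3, fun k' hk' => hacc k' hk', ReflTransGen.refl⟩)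
          · have e3 : q = nTgt S K := by
              rw [e2]
              exact dif_neg (by omega)
            exact Or.inr (Or.inr ⟨e3, fun k => hacc k (lt_of_lt_of_le k.2 h4)⟩)
        · -- backward
          have hacc : ∀ k' : Fin K, (k' : ℕ) < j → ReflTransGen (T k') (src k') (tgt k') := by
            rcases Nat.lt_or_ge j K with h4 | h4
            · have e3 : p = nd ⟨j, h4⟩ (src ⟨j, h4⟩) := by
                rw [e2]
                exact dif_pos h4
              rcases ih with ih | ⟨k', a', ih, ih2, ih3⟩ | ⟨ih, _⟩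
              · exact absurd (e3.symm.trans ih) (nd_ne_src _ _)
              · obtain ⟨rfl, rfl⟩ := nd_inj (e3.symm.trans ih)
                exact fun k' hk' => ih2 k' hk'
              · exact absurd (e3.symm.trans ih) (nd_ne_tgt _ _)
            · have e3 : p = nTgt S K := by
                rw [e2]
                exact dif_neg (by omega)
              rcases ih with ih | ⟨k', a', ih, ih2, ih3⟩ | ⟨_, ih⟩
              · exact absurd (ih.symm.trans e3) (src_ne_tgt S K)
              · exact absurd (ih.symm.trans e3) (nd_ne_tgt _ _)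
              · exact fun k' _ => ih k'
          cases j with
          | zero => exact Or.inl e1
          | succ j =>
            have hjK : j < K := hj
            have e3 : q = nd ⟨j, hjK⟩ (tgt ⟨j, hjK⟩) := by
              rw [e1]
              exact dif_pos hjK
            exact Or.inr (Or.inl ⟨⟨j, hjK⟩, _, e3, fun k' hk' => hacc k' (Nat.lt_succ_of_lt hk'),
              hacc ⟨j, hjK⟩ (Nat.lt_succ_self j)⟩)
    rcases inv _ h with h4 | ⟨k, a, h4, _⟩ | ⟨_, h4⟩
    · exact absurd h4.symm (src_ne_tgt S K)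
    · exact absurd h4.symm (nd_ne_tgt k a)
    · exact h4
  · intro h
    have inner : ∀ (k : Fin K) (a : Fin S), ReflTransGen (T k) (src k) a →
        ReflTransGen St (nd k (src k)) (nd k a) := by
      intro k a ha
      induction ha with
      | refl => exact ReflTransGen.refl
      | tail _ hs ih => exact ih.tail (h2 _ _ _ hs)
    have key : ∀ j, j ≤ K → ReflTransGen St (nSrc S K) (inP src j) := by
      intro j
      induction j with
      | zero => exact fun _ => ReflTransGen.single (h3 0 (Nat.zero_le K))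
      | succ j ih =>
        intro hj
        have hjK : j < K := hj
        have e1 : inP src j = nd ⟨j, hjK⟩ (src ⟨j, hjK⟩) := dif_pos hjK
        have e2 : outP tgt (j + 1) = nd ⟨j, hjK⟩ (tgt ⟨j, hjK⟩) := dif_pos hjK
        have h4 := ih hjK.le
        have h5 := h3 (j + 1) hj
        rw [e1] at h4
        rw [e2] at h5
        exact (h4.trans (inner _ _ (h ⟨j, hjK⟩))).tail h5
    have h4 := key K le_rfl
    have e1 : inP src K = nTgt S K := dif_neg (lt_irrefl K)
    rwa [e1] at h4

end

/-- the network of the conjunction -/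
def andNet {ι : Type} {S K : ℕ} (N : Fin K → Net ι S) : Net ι (K * S + 2) where
  contacts := {c | (∃ k a b, c.1 = nd k a ∧ c.2.1 = nd k b ∧ (a, b, c.2.2) ∈ (N k).contacts) ∨
    ∃ j, j ≤ K ∧ c.1 = outP (fun k => (N k).tgt) j ∧ c.2.1 = inP (fun k => (N k).src) j ∧ c.2.2 = none}
  src := nSrc S K
  tgt := nTgt S K

theorem andNet_daccepts {ι : Type} {S K : ℕ} (N : Fin K → Net ι S) (x : ι → Bool) :
    (andNet N).DAccepts x ↔ ∀ k, (N k).DAccepts x := by
  refine series (fun k => (N k).src) (fun k => (N k).tgt) (St := (andNet N).Step x) (T := fun k => (N k).Step x)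
    ?_ ?_ ?_
  · rintro p q ⟨l, hl, hx⟩
    rcases hl with ⟨k, a, b, e1, e2, e3⟩ | ⟨j, hj, e1, e2, e3⟩
    · exact Or.inl ⟨k, a, b, e1, e2, l, e3, hx⟩
    · exact Or.inr ⟨j, hj, Or.inl ⟨e1, e2⟩⟩
  · rintro k a b ⟨l, hl, hx⟩
    exact ⟨l, Or.inl ⟨k, a, b, rfl, rfl, hl⟩, hx⟩
  · intro j hj
    exact ⟨none, Or.inr ⟨j, hj, rfl, rfl, rfl⟩, by simp⟩

theorem andNet_accepts {ι : Type} {S K : ℕ} (N : Fin K → Net ι S) (x : ι → Bool) :
    (andNet N).Accepts x ↔ ∀ k, (N k).Accepts x := by
  refine series (fun k => (N k).src) (fun k => (N k).tgt) (St := (andNet N).Linked x) (T := fun k => (N k).Linked x)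
    ?_ ?_ ?_
  · rintro p q ⟨l, hl, hx⟩
    rcases hl with (⟨k, a, b, e1, e2, e3⟩ | ⟨j, hj, e1, e2, e3⟩) | (⟨k, a, b, e1, e2, e3⟩ | ⟨j, hj, e1, e2, e3⟩)
    · exact Or.inl ⟨k, a, b, e1, e2, l, Or.inl e3, hx⟩
    · exact Or.inr ⟨j, hj, Or.inl ⟨e1, e2⟩⟩
    · exact Or.inl ⟨k, b, a, e2, e1, l, Or.inr e3, hx⟩
    · exact Or.inr ⟨j, hj, Or.inr ⟨e1, e2⟩⟩
  · rintro k a b ⟨l, hl, hx⟩
    rcases hl with hl | hl
    · exact ⟨l, Or.inl (Or.inl ⟨k, a, b, rfl, rfl, hl⟩), hx⟩
    · exact ⟨l, Or.inr (Or.inl ⟨k, b, a, rfl, rfl, hl⟩), hx⟩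
  · intro j hj
    exact ⟨none, Or.inl (Or.inr ⟨j, hj, rfl, rfl, rfl⟩), by simp⟩

/-- **The conjunction of `K` networks with `S` nodes** is a network with `K S + 2` nodes. -/
theorem exists_andNet {ι : Type} {S K : ℕ} (N : Fin K → Net ι S) :
    ∃ M : Net ι (K * S + 2), (∀ x, M.val x = true ↔ ∀ k, (N k).val x = true) ∧
      ∀ x, M.dval x = true ↔ ∀ k, (N k).dval x = true := by
  refine ⟨andNet N, fun x => ?_, fun x => ?_⟩
  · simp only [Net.val, decide_eq_true_eq]
    exact andNet_accepts N x
  · simp only [Net.dval, decide_eq_true_eq]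
    exact andNet_daccepts N x

end Pool.Agent.NTN
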