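import Pool.Agent.NTN.Dual
import Pool.Agent.NTN.AndNet
import Pool.Agent.GB24.Num
import Pool.Agent.GB24.MatchU

/-!
# Matchings: NOT gates and queries change often on every set of edges with many disjoint ones
-/

set_option autoImplicit false

namespace Pool.Agent.NTN

open Pool.Agent.NegLim Pool.Agent.NTR Pool.Agent.TeleNeg Pool.Agent.PMB Pool.Agent.GB24 Finset

/-- The number of disjoint edges needed for one change. -/
def csz (s : ℕ) : ℕ := 2 ^ 302 * s ^ 10 * (Nat.log 2 s + 1) ^ 4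

theorem csz_eq (s : ℕ) : csz s = 4 * bsz s ^ 2 := by
  have h1 : (2 : ℕ) ^ 302 = 4 * (2 ^ 150) ^ 2 := by
    rw [show (4 : ℕ) = 2 ^ 2 from rfl, ← pow_mul, ← pow_add]
  unfold csz bsz
  rw [h1]
  generalize (2 : ℕ) ^ 150 = A
  ring

theorem blocks_le {s k m : ℕ} (hkm : k ≤ m) :
    k / csz s * bsz s ^ 2 ≤ k ∧ k / csz s * (bsz s + 2 * bsz s ^ 2) ≤ m := by
  have h1 : k / csz s * csz s ≤ k := Nat.div_mul_le_self _ _
  rw [csz_eq] at h1 ⊢
  set r := k / (4 * bsz s ^ 2) with hr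
  have h2 : bsz s ≤ bsz s ^ 2 := Nat.le_self_pow (by norm_num) _
  have h3 : r * bsz s ^ 2 ≤ r * (4 * bsz s ^ 2) := Nat.mul_le_mul_left _ (by omega)
  have h4 : r * (bsz s + 2 * bsz s ^ 2) ≤ r * (4 * bsz s ^ 2) := Nat.mul_le_mul_left _ (by omega)
  exact ⟨h3.trans h1, h4.trans (h1.trans hkm)⟩

/-- Perfect matching: the restriction. -/
theorem pm_restriction {s m k : ℕ} (U : Finset (Fin m × Fin m))
    (e : Fin k → Fin m × Fin m) (heU : ∀ i, e i ∈ U) (h1 : Function.Injective fun i => (e i).1)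
    (h2 : Function.Injective fun i => (e i).2) :
    ∃ φ : Fin m × Fin m → (Fin (k / csz s) × (Fin (bsz s) × Fin (bsz s))) ⊕ Bool,
      (∀ v, v ∉ U → ∃ c, φ v = .inr c) ∧
      ∀ x : Fin (k / csz s) × (Fin (bsz s) × Fin (bsz s)) → Bool,
        HasPM (fun v => Sum.elim x id (φ v)) ↔
          ∀ i, HasPM fun b => x (i, b) := by
  classical
  have hkm : k ≤ m := by
    have := Fintype.card_le_of_injective _ h1
    rwa [Fintype.card_fin, Fintype.card_fin] at this
  obtain ⟨h3, h4⟩ := blocks_le (s := s) hkm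
  obtain ⟨φ, h5, h6⟩ := pm_blocks_on e h1 h2 h3 h4
  refine ⟨φ, fun v hv => ?_, fun x => ?_⟩
  · rcases h7 : φ v with t | c
    · obtain ⟨i, rfl⟩ := h5 v t h7
      exact absurd (heU i) hv
    · exact ⟨c, rfl⟩
  · exact h6 x

/-- 3-dimensional matching: the restriction. -/
theorem tdm_restriction {s m k : ℕ} (U : Finset (Fin m × Fin m × Fin m))
    (e : Fin k → Fin m × Fin m × Fin m) (heU : ∀ i, e i ∈ U)
    (h1 : Function.Injective fun i => (e i).1) (h2 : Function.Injective fun i => (e i).2.1)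
    (h3 : Function.Injective fun i => (e i).2.2) :
    ∃ φ : Fin m × Fin m × Fin m → (Fin (k / csz s) × (Fin (bsz s) × Fin (bsz s))) ⊕ Bool,
      (∀ v, v ∉ U → ∃ c, φ v = .inr c) ∧
      ∀ x : Fin (k / csz s) × (Fin (bsz s) × Fin (bsz s)) → Bool,
        Has3DM (fun v => Sum.elim x id (φ v)) ↔
          ∀ i, HasPM fun b => x (i, b) := by
  classical
  have hkm : k ≤ m := by
    have := Fintype.card_le_of_injective _ h1
    rwa [Fintype.card_fin, Fintype.card_fin] at this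
  obtain ⟨h4, h5⟩ := blocks_le (s := s) hkm
  obtain ⟨φ, h6, h7⟩ := tdm_blocks_on e h1 h2 h3 h4 h5
  refine ⟨φ, fun v hv => ?_, fun x => ?_⟩
  · rcases h8 : φ v with t | c
    · obtain ⟨i, rfl⟩ := h6 v t h8
      exact absurd (heU i) hv
    · exact ⟨c, rfl⟩
  · exact h7 x

open Classical in
theorem decide_hasPM_mono {b : ℕ} :
    Monotone fun u : Fin b × Fin b → Bool => decide (HasPM u) := by
  intro u v huv
  rw [Bool.le_iff_imp]
  simp only [decide_eq_true_eq]
  exact hasPM_mono huv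

/-- **Circuits: the common part.** -/
theorem match_circuits {ι : Type} {s r : ℕ} (hs : 1 ≤ s) (f : (ι → Bool) → Prop) (U : Finset ι)
    (hφ : ∃ φ : ι → (Fin r × (Fin (bsz s) × Fin (bsz s))) ⊕ Bool,
      (∀ v, v ∉ U → ∃ c, φ v = .inr c) ∧
      ∀ x : Fin r × (Fin (bsz s) × Fin (bsz s)) → Bool,
        f (fun v => Sum.elim x id (φ v)) ↔ ∀ i, HasPM fun b => x (i, b))
    (C : Circuit ι) (out : Wire ι) (hf : ∀ x : ι → Bool, Circuit.val C x out = true ↔ f x)
    (hC : ChangesOn U (fun x => Circuit.notVals C x) r) : 2 ^ s ≤ Circuit.size C := by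
  classical
  obtain ⟨φ, h1, h2⟩ := hφ
  obtain ⟨M, o, h3, h4, h5⟩ := circuits_main_and (fun u => decide (HasPM u)) decide_hasPM_mono
    f U φ h1 (fun x => by rw [h2 x]; simp) C out hC hf
  refine le_trans ?_ h4
  refine match_circuit (bsz s) s hs ?_ M o h3 fun u => by rw [h5 u, decide_eq_true_eq]
  calc 2 ^ 29 * s ^ 5 * (Nat.log 2 (bsz s) + 1) ^ 2
      ≤ 2 ^ 29 * s ^ 5 * (2 ^ 15 * (Nat.log 2 s + 1) ^ 2) := Nat.mul_le_mul_left _ (sq_log hs)
    _ = 2 ^ 44 * (s ^ 5 * (Nat.log 2 s + 1) ^ 2) := by ring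
    _ ≤ 2 ^ 150 * (s ^ 5 * (Nat.log 2 s + 1) ^ 2) := Nat.mul_le_mul_right _ (by norm_num)
    _ = bsz s := by rw [bsz]; ring

/-- A directed network for perfect matching. -/
theorem net_match {m w Q S' : ℕ} (hw : 1 ≤ w) (hm : 2 ^ 80 * w ^ 5 * (Nat.log 2 m + 1) ^ 2 ≤ m)
    (N : Net (Fin m × Fin m) S') (hN : ∀ u, N.dval u = true ↔ HasPM u) (hS : S' ≤ Q + 2) :
    2 ^ w ≤ Q ^ 4 := by
  by_contra hcon
  rw [not_le] at hcon
  obtain ⟨m', hm', -, h2⟩ := exists_small hw hm
  obtain ⟨C, o, hC, hsize, hval⟩ := dnet_circuit (mapNet (pmPad m' m) N)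
  have h3 := match_circuit m' (w + 2 * Nat.log 2 m' + 10) (by omega) h2 C o hC
    (fun u => by
      rw [hval u, mapNet_dval, ← hasPM_pad hm' u, hN]
      exact Iff.rfl)
  have h4 := gates_lt (m := m') (S' := S') hcon hS
  rw [Fintype.card_prod, Fintype.card_fin] at hsize
  omega

/-- **Directed networks: the common part.** -/
theorem match_dnets {ι : Type} {s r S : ℕ} (hs : 1 ≤ s) (f : (ι → Bool) → Prop) (U : Finset ι)
    (hφ : ∃ φ : ι → (Fin r × (Fin (bsz s) × Fin (bsz s))) ⊕ Bool,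
      (∀ v, v ∉ U → ∃ c, φ v = .inr c) ∧
      ∀ x : Fin r × (Fin (bsz s) × Fin (bsz s)) → Bool,
        f (fun v => Sum.elim x id (φ v)) ↔ ∀ i, HasPM fun b => x (i, b))
    (ts : List ℕ) (hF : Finds (Gen.dnetClass S) U ts r f) : 2 ^ s ≤ (ts.sum + 1) * S := by
  classical
  obtain ⟨φ, h1, h2⟩ := hφ
  obtain ⟨Gs, h3, h4, h5⟩ := classes_main_and (Gen.dnetClass S) (fun u => decide (HasPM u))
    (by simpa using hasPM_ones) f U φ h1 (fun x => by rw [h2 x]; simp) ts hF
  choose N hN using fun k : Fin Gs.length => h4 (Gs.get k) (List.get_mem _ _)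
  obtain ⟨M, -, hM⟩ := exists_andNet N
  have h6 : ∀ u, M.dval u = true ↔ HasPM u := by
    intro u
    rw [hM, ← decide_eq_true_eq (p := HasPM u), h5]
    constructor
    · intro h G hG
      obtain ⟨k, rfl⟩ := List.get_of_mem hG
      rw [← hN k]
      exact h k
    · intro h k
      rw [hN k]
      exact h _ (List.get_mem _ _)
  have h7 : 2 ^ (4 * s) ≤ ((ts.sum + 1) * S) ^ 4 := by
    refine net_match (m := bsz s) (by omega) ?_ M h6
      (Nat.add_le_add_right (Nat.mul_le_mul_right _ h3) 2)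
    calc 2 ^ 80 * (4 * s) ^ 5 * (Nat.log 2 (bsz s) + 1) ^ 2
        ≤ 2 ^ 80 * (4 * s) ^ 5 * (2 ^ 15 * (Nat.log 2 s + 1) ^ 2) :=
          Nat.mul_le_mul_left _ (sq_log hs)
      _ = 2 ^ 105 * (s ^ 5 * (Nat.log 2 s + 1) ^ 2) := by ring
      _ ≤ 2 ^ 150 * (s ^ 5 * (Nat.log 2 s + 1) ^ 2) := Nat.mul_le_mul_right _ (by norm_num)
      _ = bsz s := by rw [bsz]; ring
  rw [mul_comm 4 s, pow_mul] at h7
  exact (Nat.pow_le_pow_iff_left (by norm_num)).1 h7

/-- **Perfect matching, circuits.** -/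
theorem pm_circuits {s m k : ℕ} (hs : 1 ≤ s) (U : Finset (Fin m × Fin m))
    (e : Fin k → Fin m × Fin m) (heU : ∀ i, e i ∈ U) (h1 : Function.Injective fun i => (e i).1)
    (h2 : Function.Injective fun i => (e i).2)
    (C : Circuit (Fin m × Fin m)) (out : Wire (Fin m × Fin m))
    (hf : ∀ x, Circuit.val C x out = true ↔ HasPM x)
    (hC : ChangesOn U (fun x => Circuit.notVals C x) (k / csz s)) : 2 ^ s ≤ Circuit.size C :=
  match_circuits hs HasPM U (pm_restriction U e heU h1 h2) C out hf hC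

/-- **3-dimensional matching, circuits.** -/
theorem tdm_circuits {s m k : ℕ} (hs : 1 ≤ s) (U : Finset (Fin m × Fin m × Fin m))
    (e : Fin k → Fin m × Fin m × Fin m) (heU : ∀ i, e i ∈ U)
    (h1 : Function.Injective fun i => (e i).1) (h2 : Function.Injective fun i => (e i).2.1)
    (h3 : Function.Injective fun i => (e i).2.2)
    (C : Circuit (Fin m × Fin m × Fin m)) (out : Wire (Fin m × Fin m × Fin m))
    (hf : ∀ x, Circuit.val C x out = true ↔ Has3DM x)
    (hC : ChangesOn U (fun x => Circuit.notVals C x) (k / csz s)) : 2 ^ s ≤ Circuit.size C :=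
  match_circuits hs Has3DM U (tdm_restriction U e heU h1 h2 h3) C out hf hC

/-- **Perfect matching, directed networks.** -/
theorem pm_dnets {s m k S : ℕ} (hs : 1 ≤ s) (U : Finset (Fin m × Fin m))
    (e : Fin k → Fin m × Fin m) (heU : ∀ i, e i ∈ U) (h1 : Function.Injective fun i => (e i).1)
    (h2 : Function.Injective fun i => (e i).2) (ts : List ℕ)
    (hF : Finds (Gen.dnetClass S) U ts (k / csz s) HasPM) : 2 ^ s ≤ (ts.sum + 1) * S :=
  match_dnets hs HasPM U (pm_restriction U e heU h1 h2) ts hF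

/-- **3-dimensional matching, directed networks.** -/
theorem tdm_dnets {s m k S : ℕ} (hs : 1 ≤ s) (U : Finset (Fin m × Fin m × Fin m))
    (e : Fin k → Fin m × Fin m × Fin m) (heU : ∀ i, e i ∈ U)
    (h1 : Function.Injective fun i => (e i).1) (h2 : Function.Injective fun i => (e i).2.1)
    (h3 : Function.Injective fun i => (e i).2.2) (ts : List ℕ)
    (hF : Finds (Gen.dnetClass S) U ts (k / csz s) Has3DM) : 2 ^ s ≤ (ts.sum + 1) * S :=
  match_dnets hs Has3DM U (tdm_restriction U e heU h1 h2 h3) ts hF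

end Pool.Agent.NTN
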