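import Pool.Agent.GB24.MatchU
import Pool.Agent.GB24.Conn

set_option autoImplicit false

/-!
# Restrictions of the standard functions to a set `U` of variables with `k` disjoint members

Perfect matching and 3-dimensional matching become conjunctions of small perfect matching functions,
reachability becomes a disjunction of small layered reachability functions.
-/

namespace Pool.Agent.NTN

open Pool.Agent.PMB Pool.Agent.GB24 Pool.Agent.TeleNeg Relation

/-- `U` contains `k` pairwise disjoint edges of the complete bipartite graph. -/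
def DisjointEdges {m : ℕ} (k : ℕ) (U : Finset (Fin m × Fin m)) : Prop :=
  ∃ e : Fin k → Fin m × Fin m, (∀ i, e i ∈ U) ∧
    ∀ i j, i ≠ j → (e i).1 ≠ (e j).1 ∧ (e i).2 ≠ (e j).2

/-- `U` contains `k` pairwise disjoint triples. -/
def DisjointTriples {m : ℕ} (k : ℕ) (U : Finset (Fin m × Fin m × Fin m)) : Prop :=
  ∃ e : Fin k → Fin m × Fin m × Fin m, (∀ i, e i ∈ U) ∧
    ∀ i j, i ≠ j → (e i).1 ≠ (e j).1 ∧ (e i).2.1 ≠ (e j).2.1 ∧ (e i).2.2 ≠ (e j).2.2

/-- `U` contains `k` pairwise disjoint arcs `(u, v)`, `u ≠ v`, which do not contain the vertices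
`0` and `N`. -/
def DisjointArcs {N : ℕ} (k : ℕ) (U : Finset (Fin (N + 1) × Fin (N + 1))) : Prop :=
  ∃ e : Fin k → Fin (N + 1) × Fin (N + 1), (∀ i, e i ∈ U) ∧
    (∀ i j, i ≠ j → (e i).1 ≠ (e j).1 ∧ (e i).2 ≠ (e j).2) ∧ (∀ i j, (e i).1 ≠ (e j).2) ∧
    ∀ i, (e i).1 ≠ 0 ∧ (e i).1 ≠ Fin.last N ∧ (e i).2 ≠ 0 ∧ (e i).2 ≠ Fin.last N

theorem blocks_room {r b k m : ℕ} (hkm : k ≤ m) (h : 3 * r * b ^ 2 ≤ k) :
    r * b ^ 2 ≤ k ∧ r * (b + 2 * b ^ 2) ≤ m := by
  have h1 : b ≤ b ^ 2 := Nat.le_self_pow (by norm_num) b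
  constructor
  · nlinarith [Nat.zero_le (r * b ^ 2)]
  · calc r * (b + 2 * b ^ 2) ≤ r * (b ^ 2 + 2 * b ^ 2) := by gcongr
      _ = 3 * r * b ^ 2 := by ring
      _ ≤ k := h
      _ ≤ m := hkm

/-- **Perfect matching.** -/
theorem pm_blocks_U {r b m k : ℕ} (U : Finset (Fin m × Fin m)) (hU : DisjointEdges k U)
    (h : 3 * r * b ^ 2 ≤ k) :
    ∃ φ : Fin m × Fin m → (Fin r × (Fin b × Fin b)) ⊕ Bool,
      (∀ v, v ∉ U → ∃ c, φ v = .inr c) ∧
      ∀ y : Fin r × (Fin b × Fin b) → Bool,
        HasPM (fun v => Sum.elim y id (φ v)) ↔ ∀ i, HasPM fun e => y (i, e) := by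
  obtain ⟨e, heU, he⟩ := hU
  have h1 : Function.Injective fun i => (e i).1 := fun i j hij => by
    by_contra hne
    exact (he i j hne).1 hij
  have h2 : Function.Injective fun i => (e i).2 := fun i j hij => by
    by_contra hne
    exact (he i j hne).2 hij
  have hkm : k ≤ m := by
    have := Fintype.card_le_of_injective _ h1
    simpa using this
  obtain ⟨φ, hφ, hf⟩ := pm_blocks_on e h1 h2 (blocks_room hkm h).1 (blocks_room hkm h).2
  refine ⟨φ, fun v hv => ?_, hf⟩
  rcases hv' : φ v with t | c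
  · obtain ⟨i, rfl⟩ := hφ v t hv'
    exact absurd (heU i) hv
  · exact ⟨c, rfl⟩

/-- **3-dimensional matching.** -/
theorem tdm_blocks_U {r b m k : ℕ} (U : Finset (Fin m × Fin m × Fin m))
    (hU : DisjointTriples k U) (h : 3 * r * b ^ 2 ≤ k) :
    ∃ φ : Fin m × Fin m × Fin m → (Fin r × (Fin b × Fin b)) ⊕ Bool,
      (∀ v, v ∉ U → ∃ c, φ v = .inr c) ∧
      ∀ y : Fin r × (Fin b × Fin b) → Bool,
        Has3DM (fun v => Sum.elim y id (φ v)) ↔ ∀ i, HasPM fun e => y (i, e) := by
  obtain ⟨e, heU, he⟩ := hU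
  have h1 : Function.Injective fun i => (e i).1 := fun i j hij => by
    by_contra hne
    exact (he i j hne).1 hij
  have h2 : Function.Injective fun i => (e i).2.1 := fun i j hij => by
    by_contra hne
    exact (he i j hne).2.1 hij
  have h3 : Function.Injective fun i => (e i).2.2 := fun i j hij => by
    by_contra hne
    exact (he i j hne).2.2 hij
  have hkm : k ≤ m := by
    have := Fintype.card_le_of_injective _ h1
    simpa using this
  obtain ⟨φ, hφ, hf⟩ := tdm_blocks_on e h1 h2 h3 (blocks_room hkm h).1 (blocks_room hkm h).2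
  refine ⟨φ, fun v hv => ?_, hf⟩
  rcases hv' : φ v with t | c
  · obtain ⟨i, rfl⟩ := hφ v t hv'
    exact absurd (heU i) hv
  · exact ⟨c, rfl⟩

/-! ### Reachability -/

section conn

/-- The vertices of `r` parallel copies with the common vertices `s` (`inl false`) and `t`
(`inl true`), the inner vertices, and two vertices for each arc. -/
abbrev CV (r k L M : ℕ) (T : Type) : Type :=
  Bool ⊕ (Fin r × (Fin k × Fin (L + 1) × Fin M)) ⊕ (T × Bool)

/-- The vertex `v` of the copy `j`. -/
def cv {r k L M : ℕ} {T : Type} (j : Fin r) : Vtx k L M → CV r k L M T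
  | .s => .inl false
  | .t => .inl true
  | .node κ i a => .inr (.inl (j, (κ, i, a)))

theorem cv_inj {r k L M : ℕ} {T : Type} {j j' : Fin r} {v w : Vtx k L M}
    (h : (cv j v : CV r k L M T) = cv j' w) (hv : v ≠ .s) (hv' : v ≠ .t) : j = j' ∧ v = w := by
  cases v with
  | s => exact absurd rfl hv
  | t => exact absurd rfl hv'
  | node κ i a =>
    cases w with
    | s => simp [cv] at h
    | t => simp [cv] at h
    | node κ' i' a' =>
      simp only [cv, Sum.inr.injEq, Sum.inl.injEq, Prod.mk.injEq] at h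
      obtain ⟨h1, h2, h3, h4⟩ := h
      subst h1 h2 h3 h4
      exact ⟨rfl, rfl⟩

theorem cv_eq_s {r k L M : ℕ} {T : Type} {j : Fin r} {v : Vtx k L M}
    (h : (cv j v : CV r k L M T) = .inl false) : v = .s := by
  cases v <;> simp_all [cv]

theorem cv_eq_t {r k L M : ℕ} {T : Type} {j : Fin r} {v : Vtx k L M}
    (h : (cv j v : CV r k L M T) = .inl true) : v = .t := by
  cases v <;> simp_all [cv]

theorem cv_ne_arc {r k L M : ℕ} {T : Type} {j : Fin r} {v : Vtx k L M} {t : T} {c : Bool}
    (h : (cv j v : CV r k L M T) = .inr (.inr (t, c))) : False := by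
  cases v <;> simp [cv] at h

theorem head_ne_s {k L M : ℕ} (a : Arc k L M) : a.head ≠ .s := by
  cases a <;> simp [Arc.head]

/-- The arcs present: the variable arcs between the two vertices of an arc, and the constant ones
which join them to its ends. -/
def Step {r k L M : ℕ} (x : Fin r × Arc k L M → Bool)
    (u v : CV r k L M (Fin r × Arc k L M)) : Prop :=
  (∃ t, u = .inr (.inr (t, false)) ∧ v = .inr (.inr (t, true)) ∧ x t = true) ∨
  (∃ t : Fin r × Arc k L M, u = cv t.1 t.2.tail ∧ v = .inr (.inr (t, false))) ∨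
  ∃ t : Fin r × Arc k L M, u = .inr (.inr (t, true)) ∧ v = cv t.1 t.2.head

theorem step_iff {r k L M : ℕ} (x : Fin r × Arc k L M → Bool) :
    ReflTransGen (Step x) (.inl false) (.inl true) ↔ ∃ j, Reach (fun a => x (j, a)) := by
  constructor
  · intro h
    let R : Fin r → Vtx k L M → Prop := fun j v =>
      ReflTransGen (fun u v => ∃ a : Arc k L M, x (j, a) = true ∧ a.tail = u ∧ a.head = v) .s v
    let P : CV r k L M (Fin r × Arc k L M) → Prop := fun u =>
      (∃ j, Reach (fun a => x (j, a))) ∨ u = .inl false ∨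
      (∃ j v, u = cv j v ∧ v ≠ .s ∧ v ≠ .t ∧ R j v) ∨
      (∃ t : Fin r × Arc k L M, u = .inr (.inr (t, false)) ∧ R t.1 t.2.tail) ∨
      ∃ t : Fin r × Arc k L M, u = .inr (.inr (t, true)) ∧ R t.1 t.2.head
    have hP : ∀ u, ReflTransGen (Step x) (.inl false) u → P u := by
      intro u hu
      induction hu with
      | refl => exact Or.inr (Or.inl rfl)
      | tail _ hbc ih =>
        rename_i b c
        rcases ih with hd | ih
        · exact Or.inl hd
        rcases hbc with ⟨t, h1, h2, h3⟩ | ⟨t, h1, h2⟩ | ⟨t, h1, h2⟩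
        · -- a variable arc
          subst h1 h2
          rcases ih with ih | ⟨j, v, h4, -⟩ | ⟨t', h4, h5⟩ | ⟨t', h4, -⟩
          · simp at ih
          · exact (cv_ne_arc h4.symm).elim
          · simp only [Sum.inr.injEq, Prod.mk.injEq, and_true] at h4
            subst h4
            exact Or.inr (Or.inr (Or.inr (Or.inr ⟨t, rfl, h5.tail ⟨t.2, h3, rfl, rfl⟩⟩)))
          · simp at h4
        · subst h2
          refine Or.inr (Or.inr (Or.inr (Or.inl ⟨t, rfl, ?_⟩)))
          rcases ih with ih | ⟨j, v, h4, h5, h6, h7⟩ | ⟨t', h4, -⟩ | ⟨t', h4, -⟩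
          · rw [h1] at ih
            have h8 := cv_eq_s ih
            show R t.1 t.2.tail
            exact h8 ▸ ReflTransGen.refl
          · obtain ⟨h8, h9⟩ := cv_inj (h4.symm.trans h1) h5 h6
            subst h8 h9
            exact h7
          · exact (cv_ne_arc (h1.symm.trans h4)).elim
          · exact (cv_ne_arc (h1.symm.trans h4)).elim
        · subst h1 h2
          rcases ih with ih | ⟨j, v, h4, -⟩ | ⟨t', h4, -⟩ | ⟨t', h4, h5⟩
          · simp at ih
          · exact (cv_ne_arc h4.symm).elim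
          · simp at h4
          · simp only [Sum.inr.injEq, Prod.mk.injEq, and_true] at h4
            subst h4
            by_cases ht : t.2.head = .t
            · left
              refine ⟨t.1, ?_⟩
              have h6 : R t.1 Vtx.t := ht ▸ h5
              exact h6
            · exact Or.inr (Or.inr (Or.inl ⟨t.1, t.2.head, rfl, head_ne_s _, ht, h5⟩))
    rcases hP _ h with h1 | h1 | ⟨j, v, h1, h2, h3, -⟩ | ⟨t, h1, -⟩ | ⟨t, h1, -⟩
    · exact h1
    · simp at h1
    · exact absurd (cv_eq_t h1.symm) h3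
    · simp at h1
    · simp at h1
  · rintro ⟨j, hj⟩
    have h1 : ReflTransGen (Step x) (cv j Vtx.s) (cv j Vtx.t) := by
      unfold Reach at hj
      generalize (Vtx.t : Vtx k L M) = w at hj ⊢
      induction hj with
      | refl => exact ReflTransGen.refl
      | tail _ hbc ih =>
        obtain ⟨a, ha, rfl, rfl⟩ := hbc
        exact ((ih.tail (Or.inr (Or.inl ⟨(j, a), rfl, rfl⟩))).tail
          (Or.inl ⟨(j, a), rfl, rfl, ha⟩)).tail (Or.inr (Or.inr ⟨(j, a), rfl, rfl⟩))
    exact h1

theorem card_arcs {k L M : ℕ} [Fintype (Arc k L M)] :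
    k * ((L + 1) * M) ≤ Fintype.card (Arc k L M) := by
  classical
  rcases Nat.eq_zero_or_pos M with hM | hM
  · subst hM
    simp
  · have h1 : Function.Injective (fun p : Fin k × (Fin (L + 1) × Fin M) =>
        (if h : (p.2.1 : ℕ) < L then Arc.mid p.1 ⟨p.2.1, h⟩ p.2.2 ⟨0, hM⟩ else Arc.last p.1 p.2.2 :
          Arc k L M)) := by
      rintro ⟨κ, i, a⟩ ⟨κ', i', a'⟩ h
      simp only at h
      by_cases h1 : (i : ℕ) < L <;> by_cases h2 : (i' : ℕ) < L
      · rw [dif_pos h1, dif_pos h2] at h
        simp only [Arc.mid.injEq, Fin.mk.injEq] at h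
        obtain ⟨h3, h4, h5, -⟩ := h
        rw [h3, h5, Fin.ext h4]
      · rw [dif_pos h1, dif_neg h2] at h
        simp at h
      · rw [dif_neg h1, dif_pos h2] at h
        simp at h
      · rw [dif_neg h1, dif_neg h2] at h
        simp only [Arc.last.injEq] at h
        have h3 := i.isLt
        have h4 := i'.isLt
        have h5 : i = i' := Fin.ext (by omega)
        rw [h.1, h.2, h5]
    have h2 := Fintype.card_le_of_injective _ h1
    simpa [Fintype.card_prod] using h2

/-- **Reachability**: a disjunction of `r` layered reachability functions. -/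
theorem conn_blocks_U {r k₀ L M N k : ℕ} [Fintype (Arc k₀ L M)]
    (U : Finset (Fin (N + 1) × Fin (N + 1))) (hU : DisjointArcs k U)
    (h : 2 * r * Fintype.card (Arc k₀ L M) ≤ k) (hN : 0 < N) :
    ∃ φ : Fin (N + 1) × Fin (N + 1) → (Fin r × Arc k₀ L M) ⊕ Bool,
      (∀ v, v ∉ U → ∃ c, φ v = .inr c) ∧
      ∀ y : Fin r × Arc k₀ L M → Bool,
        Conn (fun v => Sum.elim y id (φ v)) ↔ ∃ i, Reach fun a => y (i, a) := by
  classical
  obtain ⟨e, heU, he, hd, hne⟩ := hU
  set T := Fin r × Arc k₀ L M with hT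
  have hcT : Fintype.card T = r * Fintype.card (Arc k₀ L M) := by
    rw [Fintype.card_prod, Fintype.card_fin]
  -- the arcs of `U` used
  obtain ⟨ι⟩ : Nonempty (T ↪ Fin k) := by
    apply Function.Embedding.nonempty_of_card_le
    rw [hcT, Fintype.card_fin]
    nlinarith [Nat.zero_le (r * Fintype.card (Arc k₀ L M))]
  -- room for the vertices
  have hroom : 2 * k + 2 ≤ N + 1 := by
    have h1 : Function.Injective (fun s : (Fin k × Bool) ⊕ Bool =>
        (Sum.elim (fun p => if p.2 then (e p.1).2 else (e p.1).1)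
          (fun c => if c then Fin.last N else 0) s : Fin (N + 1))) := by
      have h0 : (Fin.last N : Fin (N + 1)) ≠ 0 := by
        intro h0
        have := congrArg Fin.val h0
        simp at this
        omega
      rintro (⟨i, c⟩ | c) (⟨j, c'⟩ | c') hij
      · simp only [Sum.elim_inl] at hij
        by_cases h2 : i = j
        · subst h2
          cases c <;> cases c' <;> simp at hij ⊢
          · exact absurd hij (hd i i)
          · exact absurd hij.symm (hd i i)
        · exfalso
          cases c <;> cases c' <;> simp at hij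
          · exact (he i j h2).1 hij
          · exact hd i j hij
          · exact hd j i hij.symm
          · exact (he i j h2).2 hij
      · exfalso
        simp only [Sum.elim_inl, Sum.elim_inr] at hij
        obtain ⟨h3, h4, h5, h6⟩ := hne i
        cases c <;> cases c' <;> simp at hij
        · exact h3 hij
        · exact h4 hij
        · exact h5 hij
        · exact h6 hij
      · exfalso
        simp only [Sum.elim_inl, Sum.elim_inr] at hij
        obtain ⟨h3, h4, h5, h6⟩ := hne j
        cases c <;> cases c' <;> simp at hij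
        · exact h3 hij.symm
        · exact h5 hij.symm
        · exact h4 hij.symm
        · exact h6 hij.symm
      · simp only [Sum.elim_inr] at hij
        cases c <;> cases c' <;> simp at hij ⊢
        · omega
        · omega
    have h2 := Fintype.card_le_of_injective _ h1
    simp only [Fintype.card_sum, Fintype.card_prod, Fintype.card_bool, Fintype.card_fin] at h2
    omega
  -- the embedding of the vertices
  have hcW : Fintype.card (CV r k₀ L M T) ≤ N + 1 := by
    simp only [Fintype.card_sum, Fintype.card_prod, Fintype.card_bool, Fintype.card_fin]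
    have h3 := card_arcs (k := k₀) (L := L) (M := M)
    have h4 : r * (k₀ * ((L + 1) * M)) ≤ r * Fintype.card (Arc k₀ L M) := Nat.mul_le_mul_left _ h3
    nlinarith
  set D := Fin (N + 1 - Fintype.card (CV r k₀ L M T)) with hD
  have hcard : Fintype.card (Fin (N + 1)) = Fintype.card (CV r k₀ L M T ⊕ D) := by
    rw [Fintype.card_sum (α := CV r k₀ L M T), Fintype.card_fin, Fintype.card_fin]
    omega
  let f : (T × Bool) ⊕ Bool → Fin (N + 1) :=
    Sum.elim (fun p => if p.2 then (e (ι p.1)).2 else (e (ι p.1)).1)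
      fun c => if c then Fin.last N else 0
  have hf : Function.Injective f := by
    rintro (⟨i, c⟩ | c) (⟨j, c'⟩ | c') hij
    · simp only [f, Sum.elim_inl] at hij
      by_cases h2 : i = j
      · subst h2
        cases c <;> cases c' <;> simp at hij ⊢
        · exact absurd hij (hd _ _)
        · exact absurd hij.symm (hd _ _)
      · exfalso
        have h3 : ι i ≠ ι j := fun h4 => h2 (ι.injective h4)
        cases c <;> cases c' <;> simp at hij
        · exact (he _ _ h3).1 hij
        · exact hd _ _ hij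
        · exact hd _ _ hij.symm
        · exact (he _ _ h3).2 hij
    · exfalso
      simp only [f, Sum.elim_inl, Sum.elim_inr] at hij
      obtain ⟨h3, h4, h5, h6⟩ := hne (ι i)
      cases c <;> cases c' <;> simp at hij
      · exact h3 hij
      · exact h4 hij
      · exact h5 hij
      · exact h6 hij
    · exfalso
      simp only [f, Sum.elim_inl, Sum.elim_inr] at hij
      obtain ⟨h3, h4, h5, h6⟩ := hne (ι j)
      cases c <;> cases c' <;> simp at hij
      · exact h3 hij.symm
      · exact h5 hij.symm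
      · exact h4 hij.symm
      · exact h6 hij.symm
    · simp only [f, Sum.elim_inr] at hij
      cases c <;> cases c' <;> simp at hij ⊢
      · omega
      · omega
  let g : (T × Bool) ⊕ Bool → CV r k₀ L M T ⊕ D := fun s =>
    .inl (Sum.elim (fun p => .inr (.inr p)) Sum.inl s)
  have hg : Function.Injective g := by
    rintro (p | c) (p' | c') hpq
    · simpa [g] using hpq
    · simp [g] at hpq
    · simp [g] at hpq
    · simpa [g] using hpq
  obtain ⟨E, hE⟩ := exists_equiv_extend hcard f hf g hg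
  have hEa : ∀ t, E (e (ι t)).1 = .inl (.inr (.inr (t, false))) := fun t => hE (.inl (t, false))
  have hEb : ∀ t, E (e (ι t)).2 = .inl (.inr (.inr (t, true))) := fun t => hE (.inl (t, true))
  have hE0 : E 0 = .inl (.inl false) := hE (.inr false)
  have hEN : E (Fin.last N) = .inl (.inl true) := hE (.inr true)
  let φ : Fin (N + 1) × Fin (N + 1) → T ⊕ Bool := fun v =>
    if h : ∃ t : T, E v.1 = .inl (.inr (.inr (t, false))) ∧ E v.2 = .inl (.inr (.inr (t, true)))
    then .inl h.choose
    else .inr (decide (∃ t : T, (E v.1 = .inl (cv t.1 t.2.tail) ∧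
        E v.2 = .inl (.inr (.inr (t, false)))) ∨
      (E v.1 = .inl (.inr (.inr (t, true))) ∧ E v.2 = .inl (cv t.1 t.2.head))))
  have hφ : ∀ (y : T → Bool) (u v : Fin (N + 1)), Sum.elim y id (φ (u, v)) = true ↔
      ∃ u' v' : CV r k₀ L M T, E u = .inl u' ∧ E v = .inl v' ∧ Step y u' v' := by
    intro y u v
    by_cases h1 : ∃ t : T, E u = .inl (.inr (.inr (t, false))) ∧
        E v = .inl (.inr (.inr (t, true)))
    · have h2 : φ (u, v) = .inl h1.choose := dif_pos h1
      rw [h2, Sum.elim_inl]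
      obtain ⟨h3, h4⟩ := h1.choose_spec
      constructor
      · intro hy
        exact ⟨_, _, h3, h4, Or.inl ⟨h1.choose, rfl, rfl, hy⟩⟩
      · rintro ⟨u', v', hu, hv, hs⟩
        rw [h3] at hu
        rw [h4] at hv
        obtain rfl := Sum.inl.inj hu
        obtain rfl := Sum.inl.inj hv
        rcases hs with ⟨t, h5, -, h7⟩ | ⟨t, h5, h6⟩ | ⟨t, h5, h6⟩
        · have h8 : h1.choose = t := by simpa using h5
          rw [h8]
          exact h7
        · exact (cv_ne_arc h5.symm).elim
        · exact (cv_ne_arc h6.symm).elim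
    · have h2 : φ (u, v) = .inr _ := dif_neg h1
      rw [h2, Sum.elim_inr, id, decide_eq_true_eq]
      constructor
      · rintro ⟨t, ⟨h3, h4⟩ | ⟨h3, h4⟩⟩
        · exact ⟨_, _, h3, h4, Or.inr (Or.inl ⟨t, rfl, rfl⟩)⟩
        · exact ⟨_, _, h3, h4, Or.inr (Or.inr ⟨t, rfl, rfl⟩)⟩
      · rintro ⟨u', v', hu, hv, ⟨t, rfl, rfl, -⟩ | ⟨t, rfl, rfl⟩ | ⟨t, rfl, rfl⟩⟩
        · exact absurd ⟨t, hu, hv⟩ h1
        · exact ⟨t, Or.inl ⟨hu, hv⟩⟩
        · exact ⟨t, Or.inr ⟨hu, hv⟩⟩
  refine ⟨φ, ?_, fun y => ?_⟩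
  · intro v hv
    by_cases h1 : ∃ t : T, E v.1 = .inl (.inr (.inr (t, false))) ∧
        E v.2 = .inl (.inr (.inr (t, true)))
    · exfalso
      obtain ⟨t, h2, h3⟩ := h1
      have h4 : v.1 = (e (ι t)).1 := E.injective (h2.trans (hEa t).symm)
      have h5 : v.2 = (e (ι t)).2 := E.injective (h3.trans (hEb t).symm)
      have h6 : v = e (ι t) := Prod.ext h4 h5
      rw [h6] at hv
      exact hv (heU _)
    · exact ⟨_, dif_neg h1⟩
  · rw [← step_iff]
    constructor
    · intro hc
      have key : ∀ w : Fin (N + 1), ReflTransGen (fun u v : Fin (N + 1) =>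
          Sum.elim y id (φ (u, v)) = true) 0 w →
          ∃ w', E w = .inl w' ∧ ReflTransGen (Step y) (.inl false) w' := by
        intro w hw
        induction hw with
        | refl => exact ⟨_, hE0, ReflTransGen.refl⟩
        | tail _ hbc ih =>
          obtain ⟨b', h1, h2⟩ := ih
          obtain ⟨u', v', h3, h4, h5⟩ := (hφ y _ _).1 hbc
          rw [h3] at h1
          obtain rfl := Sum.inl.inj h1
          exact ⟨v', h4, h2.tail h5⟩
      obtain ⟨w', h1, h2⟩ := key _ hc
      rw [hEN] at h1
      rwa [← Sum.inl.inj h1] at h2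
    · intro hs
      have h1 : ReflTransGen (fun u v : Fin (N + 1) => Sum.elim y id (φ (u, v)) = true)
          (E.symm (.inl (.inl false))) (E.symm (.inl (.inl true))) := by
        refine ReflTransGen.lift (fun v : CV r k₀ L M T => E.symm (.inl v)) ?_ _ _ hs
        intro u v huv
        exact (hφ y _ _).2 ⟨u, v, by simp, by simp, huv⟩
      rw [← hE0, ← hEN, Equiv.symm_apply_apply, Equiv.symm_apply_apply] at h1
      exact h1

/-- **Reachability**, in the form with the arcs used. -/
theorem conn_blocks_on {r k₀ L M N k : ℕ} [Fintype (Arc k₀ L M)]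
    (e : Fin k → Fin (N + 1) × Fin (N + 1))
    (he : ∀ i j, i ≠ j → (e i).1 ≠ (e j).1 ∧ (e i).2 ≠ (e j).2) (hd : ∀ i j, (e i).1 ≠ (e j).2)
    (hne : ∀ i, (e i).1 ≠ 0 ∧ (e i).1 ≠ Fin.last N ∧ (e i).2 ≠ 0 ∧ (e i).2 ≠ Fin.last N)
    (h : 2 * r * Fintype.card (Arc k₀ L M) ≤ k) (hN : 0 < N) :
    ∃ φ : Fin (N + 1) × Fin (N + 1) → (Fin r × Arc k₀ L M) ⊕ Bool,
      (∀ v t, φ v = .inl t → ∃ i, v = e i) ∧
      ∀ y : Fin r × Arc k₀ L M → Bool,
        Conn (fun v => Sum.elim y id (φ v)) ↔ ∃ i, Reach fun a => y (i, a) := by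
  classical
  obtain ⟨φ, h1, h2⟩ := conn_blocks_U (r := r) (k₀ := k₀) (L := L) (M := M) (k := k)
    (Finset.univ.image e)
    ⟨e, fun i => Finset.mem_image.2 ⟨i, Finset.mem_univ i, rfl⟩, he, hd, hne⟩ h hN
  refine ⟨φ, fun v t hv => ?_, h2⟩
  by_contra hcon
  push Not at hcon
  obtain ⟨c, hc⟩ := h1 v fun hmem => by
    obtain ⟨i, -, hi⟩ := Finset.mem_image.1 hmem
    exact hcon i hi.symm
  rw [hv] at hc
  exact absurd hc (by simp)

end conn

end Pool.Agent.NTN
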