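import Pool.Agent.NTN.AvgNet

/-!
# One distribution for circuits and for adaptive queries
-/

set_option autoImplicit false

namespace Pool.Agent.NTN

open Pool.Agent.NegLim Pool.Agent.NTR Finset
open scoped BigOperators

/-- The functions of circuits without NOT gates with at most `Z` gates. -/
def cSet (β : Type) (Z : ℕ) : Set ((β → Bool) → Bool) :=
  {H | ∃ (M : Circuit β) (o : Wire β), Circuit.negs M = 0 ∧ Circuit.size M ≤ Z ∧
    ∀ u, Circuit.val M u o = H u}

open Classical in
/-- **Circuits on `U`, from the model-free transfer.** -/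
theorem circuits_of_core {ι β : Type} [Fintype ι] [DecidableEq ι] [Fintype β] {U : Finset ι}
    {r : ℕ} (f : (ι → Bool) → Prop) (φ : ι → (Fin r × β) ⊕ Bool)
    (D₀ D₁ : (β → Bool) → ℝ) (μ : (ι → Bool) → ℝ)
    (m4 : ∀ (α : Type) (st : (ι → Bool) → α) (A : (ι → Bool) → Prop) (b : ℕ) (δ : ℝ),
        (∀ x y, (∀ v, v ∉ U → x v = y v) → st x = st y → (A x ↔ A y)) →
        ChangesOn U st b →
        (∀ (i : Fin r) (X : Fin r × β → Bool), (∀ e, X (i, e) = false) →
          ∑ u with st (fun v => Sum.elim (put X i u) id (φ v)) ≠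
              st (fun v => Sum.elim X id (φ v)), D₁ u
            ≤ ∑ u with st (fun v => Sum.elim (put X i u) id (φ v)) ≠
              st (fun v => Sum.elim X id (φ v)), D₀ u + δ) →
        ∑ x with (A x ↔ f x), μ x ≤ 1 / 2 + δ / 2 + b / (2 * r))
    (T b Z : ℕ) (δ : ℝ)
    (hδ : ∀ H ∈ cSet β Z, ∑ u with H u = true, D₁ u ≤ ∑ u with H u = true, D₀ u + δ)
    (C : Circuit ι) (out : Fin T → Wire ι) (h : (Fin T → Bool) → Bool)
    (hC : Circuit.size C + T ≤ Z) (hb : ChangesOn U (fun x => Circuit.notVals C x) b) :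
    ∑ x with (h (fun i => Circuit.val C x (out i)) = true ↔ f x), μ x
      ≤ 1 / 2 + δ / 2 + (T + 1) * b / (2 * r) := by
  have h2 := m4 (List Bool × (Fin T → Bool))
    (fun x => (Circuit.notVals C x, fun i => Circuit.val C x (out i)))
    (fun x => h (fun i => Circuit.val C x (out i)) = true) ((T + 1) * b) δ
    (by
      intro x y _ hst
      have e5 := congrArg Prod.snd hst
      simp only at e5
      rw [e5])
    (changesOn_pair hb fun x y hxy _ hw i => val_le_of_notVals C hxy hw.symm (out i))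
    (by
      intro i X hX
      -- the circuit on the inputs of the copies
      set σ : ι → Lit (Fin r × β) := fun v => LocE.subLit (φ v) with hσ
      have hσv : ∀ y : Fin r × β → Bool, (fun v => (σ v).val y)
          = fun v => Sum.elim y id (φ v) := fun y => funext fun v => LocE.subLit_val y (φ v)
      obtain ⟨M, o, hneg, hsize, hM⟩ := event_circuit (C.map (Gate.subst σ))
        (fun j => (out j).subst σ) i X hX
      have h3 := hδ (fun u => Circuit.val M u o) ⟨M, o, hneg, hsize.trans (by
        rw [Circuit.subst_size]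
        exact hC), fun _ => rfl⟩
      have h5 : ∀ u : β → Bool, Circuit.val M u o = true ↔
          (Circuit.notVals C (fun v => Sum.elim (put X i u) id (φ v)),
            fun j => Circuit.val C (fun v => Sum.elim (put X i u) id (φ v)) (out j))
          ≠ (Circuit.notVals C (fun v => Sum.elim X id (φ v)),
            fun j => Circuit.val C (fun v => Sum.elim X id (φ v)) (out j)) := by
        intro u
        rw [hM u]
        simp only [notVals_subst, Circuit.subst_val, hσv]
      exact (le_of_eq (sum_filter_iff' D₁ _ _ _ _ fun u => (h5 u).symm)).trans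
        (h3.trans (le_of_eq (congrArg (· + δ) (sum_filter_iff' D₀ _ _ _ _ h5)))))
  push_cast at h2
  exact (le_of_eq (sum_filter_iff' μ _ _ _ _ fun x => Iff.rfl)).trans h2

open Classical in
/-- **Queries on `U`, from the model-free transfer.** -/
theorem queries_of_core {ι β : Type} [Fintype ι] [DecidableEq ι] [Fintype β] {U : Finset ι}
    {r : ℕ} (f : (ι → Bool) → Prop) (φ : ι → (Fin r × β) ⊕ Bool)
    (hφ : ∀ v, v ∉ U → ∃ c, φ v = .inr c)
    (D₀ D₁ : (β → Bool) → ℝ) (μ : (ι → Bool) → ℝ)
    (m4 : ∀ (α : Type) (st : (ι → Bool) → α) (A : (ι → Bool) → Prop) (b : ℕ) (δ : ℝ),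
        (∀ x y, (∀ v, v ∉ U → x v = y v) → st x = st y → (A x ↔ A y)) →
        ChangesOn U st b →
        (∀ (i : Fin r) (X : Fin r × β → Bool), (∀ e, X (i, e) = false) →
          ∑ u with st (fun v => Sum.elim (put X i u) id (φ v)) ≠
              st (fun v => Sum.elim X id (φ v)), D₁ u
            ≤ ∑ u with st (fun v => Sum.elim (put X i u) id (φ v)) ≠
              st (fun v => Sum.elim X id (φ v)), D₀ u + δ) →
        ∑ x with (A x ↔ f x), μ x ≤ 1 / 2 + δ / 2 + b / (2 * r))
    (K : Gen.MonoClass) (ts : List ℕ) (T b : ℕ) (A : (ι → Bool) → Bool) (δ : ℝ)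
    (hδ : ∀ H ∈ orSet K β (ts.sum + T),
      ∑ u with H u = true, D₁ u ≤ ∑ u with H u = true, D₀ u + δ)
    (hA : Tries K U ts T b A) :
    ∑ x with (A x = true ↔ f x), μ x ≤ 1 / 2 + δ / 2 + (T + 1) * b / (2 * r) := by
  obtain ⟨Q, P, h, hQP, hts, hP, hch, hAx⟩ := hA
  have hmono : ∀ x v j, Monotone (P x v j) := fun x v j => K.mono ι _ (hP x v j)
  have h2 := m4 (List Bool × (Fin T → Bool))
    (fun x => (answers x (Q x) [], fun j => P x (answers x (Q x) []) j x))
    (fun x => A x = true) ((T + 1) * b) δ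
    (by
      intro x y hxy hst
      obtain ⟨e1, e2, e3⟩ := hQP x y hxy
      rw [hAx x, hAx y]
      have e4 := congrArg Prod.fst hst
      have e5 := congrArg Prod.snd hst
      simp only at e4 e5
      rw [e3, e5, e4])
    (changesOn_pair hch (by
      intro x y hxy hU hw
      obtain ⟨-, e2, -⟩ := hQP x y hU
      intro j
      rw [hw, e2]
      exact hmono y _ j hxy))
    (by
      intro i X hX
      have hagree : ∀ (y z : Fin r × β → Bool),
          Q (fun v => Sum.elim y id (φ v)) = Q (fun v => Sum.elim z id (φ v)) ∧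
          P (fun v => Sum.elim y id (φ v)) = P (fun v => Sum.elim z id (φ v)) := by
        intro y z
        have := hQP (fun v => Sum.elim y id (φ v)) (fun v => Sum.elim z id (φ v)) (by
          intro v hv
          obtain ⟨c, hc⟩ := hφ v hv
          simp only [hc, Sum.elim_inr])
        exact ⟨this.1, this.2.1⟩
      obtain ⟨H, hH, hHu⟩ := event_queries K φ (Q fun v => Sum.elim X id (φ v)) ts (hts _)
        (P fun v => Sum.elim X id (φ v)) (fun v j => hP _ v j) i X hX
      have h3 := hδ H hH
      have h5 : ∀ u : β → Bool, H u = true ↔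
          (answers (fun v => Sum.elim (put X i u) id (φ v))
              (Q fun v => Sum.elim (put X i u) id (φ v)) [],
            fun j => P (fun v => Sum.elim (put X i u) id (φ v))
              (answers (fun v => Sum.elim (put X i u) id (φ v))
                (Q fun v => Sum.elim (put X i u) id (φ v)) []) j
              fun v => Sum.elim (put X i u) id (φ v))
            ≠ (answers (fun v => Sum.elim X id (φ v)) (Q fun v => Sum.elim X id (φ v)) [],
              fun j => P (fun v => Sum.elim X id (φ v))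
                (answers (fun v => Sum.elim X id (φ v)) (Q fun v => Sum.elim X id (φ v)) []) j
                fun v => Sum.elim X id (φ v)) := by
        intro u
        rw [hHu u, (hagree (put X i u) X).1, (hagree (put X i u) X).2]
      exact (le_of_eq (sum_filter_iff' D₁ _ _ _ _ fun u => (h5 u).symm)).trans
        (h3.trans (le_of_eq (congrArg (· + δ) (sum_filter_iff' D₀ _ _ _ _ h5)))))
  push_cast at h2
  exact (le_of_eq (sum_filter_iff' μ _ _ _ _ fun x => Iff.rfl)).trans h2

open Classical in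
/-- **One distribution for circuits and queries, disjunctions.** -/
theorem both_or {ι β : Type} [Fintype ι] [DecidableEq ι] [Fintype β] {U : Finset ι} {r : ℕ}
    (hr : 1 ≤ r) (g : (β → Bool) → Bool) (hg : Monotone g) (f : (ι → Bool) → Prop)
    (φ : ι → (Fin r × β) ⊕ Bool) (hφ : ∀ v, v ∉ U → ∃ c, φ v = .inr c)
    (hf : ∀ y : Fin r × β → Bool, f (fun v => Sum.elim y id (φ v)) ↔
      ∃ i, g (fun b => y (i, b)) = true)
    {δ : ℝ} (h0 : 0 < δ) (h1 : δ < 1) (k Z : ℕ) (hk : 3 * (Fintype.card β : ℝ) ≤ k * δ ^ 2)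
    (hM : ∀ (M : Circuit β) (o : Wire β), Circuit.negs M = 0 → (∀ u, Circuit.val M u o = g u) →
      k * (Z + 2 * k) < Circuit.size M) :
    ∃ μ : (ι → Bool) → ℝ, (∀ x, 0 ≤ μ x) ∧ ∑ x, μ x = 1 ∧
      (∀ x, μ x ≠ 0 → ∀ v c, φ v = .inr c → x v = c) ∧
      (∀ (T b : ℕ) (C : Circuit ι) (out : Fin T → Wire ι) (h : (Fin T → Bool) → Bool),
        Circuit.size C + T ≤ Z → ChangesOn U (fun x => Circuit.notVals C x) b →
        ∑ x with (h (fun i => Circuit.val C x (out i)) = true ↔ f x), μ x
          ≤ 1 / 2 + δ / 2 + (T + 1) * b / (2 * r)) ∧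
      ∀ (K : Gen.MonoClass) (ts : List ℕ) (T b : ℕ) (A : (ι → Bool) → Bool),
        orSet K β (ts.sum + T) ⊆ cSet β Z → Tries K U ts T b A →
        ∑ x with (A x = true ↔ f x), μ x ≤ 1 / 2 + δ / 2 + (T + 1) * b / (2 * r) := by
  obtain ⟨D₀, D₁, d1, d2, d3, d4, d5, d6, d7⟩ := hard_dist g h0 h1 k Z hk hM
  have hδ : ∀ H ∈ cSet β Z, ∑ u with H u = true, D₁ u ≤ ∑ u with H u = true, D₀ u + δ := by
    rintro H ⟨M, o, e1, e2, e3⟩
    have h2 := d7 M o e1 e2
    simp only [e3] at h2
    exact h2
  obtain ⟨μ, m1, m2, m3, m4⟩ := push_core (U := U) hr g hg f φ hφ hf D₀ D₁ d1 d2 d3 d4 d5 d6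
  exact ⟨μ, m1, m2, m3, fun T b C out h hC hb =>
    circuits_of_core f φ D₀ D₁ μ m4 T b Z δ hδ C out h hC hb, fun K ts T b A hS hA =>
    queries_of_core f φ hφ D₀ D₁ μ m4 K ts T b A δ (fun H hH => hδ H (hS hH)) hA⟩

open Classical in
/-- **One distribution for circuits and queries, conjunctions.** -/
theorem both_and {ι β : Type} [Fintype ι] [DecidableEq ι] [Fintype β] {U : Finset ι} {r : ℕ}
    (hr : 1 ≤ r) (g : (β → Bool) → Bool) (hg : Monotone g) (f : (ι → Bool) → Prop)
    (φ : ι → (Fin r × β) ⊕ Bool) (hφ : ∀ v, v ∉ U → ∃ c, φ v = .inr c)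
    (hf : ∀ y : Fin r × β → Bool, f (fun v => Sum.elim y id (φ v)) ↔
      ∀ i, g (fun b => y (i, b)) = true)
    {δ : ℝ} (h0 : 0 < δ) (h1 : δ < 1) (k Z : ℕ) (hk : 3 * (Fintype.card β : ℝ) ≤ k * δ ^ 2)
    (hM : ∀ (M : Circuit β) (o : Wire β), Circuit.negs M = 0 → (∀ u, Circuit.val M u o = g u) →
      k * (Z + 2 * k) < Circuit.size M) :
    ∃ μ : (ι → Bool) → ℝ, (∀ x, 0 ≤ μ x) ∧ ∑ x, μ x = 1 ∧
      (∀ x, μ x ≠ 0 → ∀ v c, φ v = .inr c → x v = c) ∧
      (∀ (T b : ℕ) (C : Circuit ι) (out : Fin T → Wire ι) (h : (Fin T → Bool) → Bool),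
        Circuit.size C + T ≤ Z → ChangesOn U (fun x => Circuit.notVals C x) b →
        ∑ x with (h (fun i => Circuit.val C x (out i)) = true ↔ f x), μ x
          ≤ 1 / 2 + δ / 2 + (T + 1) * b / (2 * r)) ∧
      ∀ (K : Gen.MonoClass) (ts : List ℕ) (T b : ℕ) (A : (ι → Bool) → Bool),
        andSet K β (ts.sum + T) ⊆ cSet β Z → Tries K U ts T b A →
        ∑ x with (A x = true ↔ f x), μ x ≤ 1 / 2 + δ / 2 + (T + 1) * b / (2 * r) := by
  obtain ⟨μ, m1, m2, m3, m4, m5⟩ := both_or (U := U) hr (fun u => !g fun b => !u b)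
    (dual_mono hg) (fun x => ¬ f fun v => !x v) (fun v => Sum.map id not (φ v))
    (by
      intro v hv
      obtain ⟨c, hc⟩ := hφ v hv
      exact ⟨!c, by rw [hc]; rfl⟩)
    (dual_restriction g f φ hf) h0 h1 k Z hk
    (by
      intro M o h2 h3
      have h4 := hM (dualCirc 0 M) (dualWire M.length o) (by rw [dualCirc_negs, h2])
        (dual_computes g M o h3)
      have h5 : Circuit.size (dualCirc 0 M) = Circuit.size M := dualCirc_length M 0
      rwa [h5] at h4)
  refine ⟨fun x => μ fun v => !x v, fun x => m1 _, ?_, fun x hx v c hc => ?_,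
    fun T b C out h hs hC => ?_, fun K ts T b A hS hA => ?_⟩
  · rw [← m2]
    exact Fintype.sum_equiv
      (Equiv.mk (fun (x : ι → Bool) v => !x v) (fun x v => !x v) (fun x => by simp)
        (fun x => by simp)) _ _ fun x => rfl
  · have h2 := m3 _ hx v (!c) (by simp only [hc]; rfl)
    simpa using h2
  · have e2 : Circuit.size (dualCirc 0 C) = Circuit.size C := dualCirc_length C 0
    have h2 := m4 T b (dualCirc 0 C) (fun i => dualWire C.length (out i))
      (fun z => !h fun i => !z i) (by rw [e2]; exact hs) (by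
        have h4 := changesOn_inj (changesOn_dual hC) (List.map not)
        intro x hx hU n
        have h5 := h4 x hx hU n
        simp only [dual_notVals]
        exact h5)
    refine le_trans (le_of_eq ?_) h2
    refine sum_filter_not' μ _ _ _ _ fun x => ?_
    simp only [dual_val, Bool.not_not, Bool.not_eq_true']
    cases h fun i => Circuit.val C x (out i) <;> simp
  · have h2 := m5 (dualClass K) ts T b (fun x => !A fun v => !x v)
      (by
        intro H hH
        obtain ⟨M, o, e1, e2, e3⟩ := hS (orSet_dual hH)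
        refine ⟨dualCirc 0 M, dualWire M.length o, by rw [dualCirc_negs, e1], ?_, fun u => ?_⟩
        · have h5 : Circuit.size (dualCirc 0 M) = Circuit.size M := dualCirc_length M 0
          rw [h5]
          exact e2
        · rw [dual_val, e3]
          simp) (tries_dual hA)
    refine le_trans (le_of_eq ?_) h2
    refine sum_filter_not' μ _ _ _ _ fun x => ?_
    simp only [Bool.not_not, Bool.not_eq_true']
    cases A x <;> simp

end Pool.Agent.NTN
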