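import Pool.Agent.NTN.AvgClass

set_option autoImplicit false

/-!
# Devices with NOT gates are algorithms with adaptive queries
-/

namespace Pool.Agent.NTN

open Pool.Agent.NTR Finset

variable {ι : Type}

/-- The queries of a level of NOT gates, given the answers so far. -/
def levelQ (l : List ((ι ⊕ ℕ → Bool) → Bool)) (v : List Bool) : List ((ι → Bool) → Bool) :=
  l.map fun F x => F (Gen.seen x (v.map not))

theorem seen_eq (x : ι → Bool) (v : List Bool) :
    Gen.seen x v = fun i => Sum.elim x id (Sum.elim (fun e => (Sum.inl e : ι ⊕ Bool))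
      (fun j => Sum.inr (v.getD j false)) i) := by
  funext i
  rcases i with i | j <;> rfl

theorem mem_seen (K : Gen.MonoClass) {F : (ι ⊕ ℕ → Bool) → Bool} (hF : K.mem (ι ⊕ ℕ) F)
    (v : List Bool) : K.mem ι fun x => F (Gen.seen x v) := by
  have h := K.subst (ι ⊕ ℕ) ι F (Sum.elim (fun e => (Sum.inl e : ι ⊕ Bool))
    (fun j => Sum.inr (v.getD j false))) hF
  have h2 : (fun x : ι → Bool => F (Gen.seen x v)) = fun y : ι → Bool =>
      F fun i => Sum.elim y id (Sum.elim (fun e => (Sum.inl e : ι ⊕ Bool))
        (fun j => Sum.inr (v.getD j false)) i) := by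
    funext x
    rw [seen_eq]
  rw [h2]
  exact h

theorem answers_levels (x : ι → Bool) (ls : List (List ((ι ⊕ ℕ → Bool) → Bool))) :
    ∀ v : List Bool, (answers x (ls.map levelQ) v).map not = Gen.nots x ls (v.map not) := by
  induction ls with
  | nil => intro v; rfl
  | cons l ls ih =>
    intro v
    rw [List.map_cons, answers, ih, Gen.nots]
    congr 1
    rw [List.map_append, levelQ, List.map_map, List.map_map]
    rfl

/-- **A device with levels of NOT gates is an algorithm with rounds of queries** whose answers
change fewer than `(l₁ + 1) (l₂ + 1) ...` times. -/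
theorem tries_of_nots (K : Gen.MonoClass) (ls : List (List ((ι ⊕ ℕ → Bool) → Bool)))
    (hls : ∀ l ∈ ls, ∀ F ∈ l, K.mem (ι ⊕ ℕ) F) {P : (ι ⊕ ℕ → Bool) → Bool}
    (hP : K.mem (ι ⊕ ℕ) P) (U : Finset ι) :
    Tries K U (ls.map List.length) 1 ((ls.map fun l => l.length + 1).prod)
      (fun x => P (Gen.seen x (Gen.nots x ls []))) := by
  refine ⟨fun _ => ls.map levelQ, fun _ v _ x => P (Gen.seen x (v.map not)),
    fun _ _ o => o 0, fun _ _ _ => ⟨rfl, rfl, rfl⟩, fun _ => ?_, fun _ v _ => mem_seen K hP _,
    ?_, fun x => ?_⟩
  · clear hP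
    induction ls with
    | nil => exact List.Forall₂.nil
    | cons l ls ih =>
      rw [List.map_cons, List.map_cons]
      refine List.Forall₂.cons (fun v => ⟨by rw [levelQ, List.length_map], fun F hF => ?_⟩)
        (ih fun l' hl' => hls l' (List.mem_cons_of_mem _ hl'))
      rw [levelQ, List.mem_map] at hF
      obtain ⟨F', hF', rfl⟩ := hF
      exact mem_seen K (hls l List.mem_cons_self F' hF') _
  · intro x hx _ n
    have h1 := answers_changes (ls.map levelQ) (ls.map List.length) (by
      clear hls hP
      induction ls with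
      | nil => exact List.Forall₂.nil
      | cons l ls ih =>
        rw [List.map_cons, List.map_cons]
        exact List.Forall₂.cons (fun v => by rw [levelQ, List.length_map]) ih) (by
      intro q hq v F hF
      obtain ⟨l, hl, rfl⟩ := List.mem_map.1 hq
      rw [levelQ, List.mem_map] at hF
      obtain ⟨F', hF', rfl⟩ := hF
      exact K.mono ι _ (mem_seen K (hls l hl F' hF') _)) x hx n
    rw [List.map_map] at h1
    have h2 : 0 < (ls.map fun l => l.length + 1).prod := by
      apply List.prod_pos
      intro a ha
      obtain ⟨l, _, rfl⟩ := List.mem_map.1 ha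
      omega
    have h3 : (ls.map ((fun x => x + 1) ∘ List.length)).prod =
        (ls.map fun l => l.length + 1).prod := rfl
    rw [h3] at h1
    exact lt_of_le_of_lt h1 (Nat.sub_lt h2 one_pos)
  · have h := answers_levels x ls []
    rw [List.map_nil] at h
    simp only
    rw [h]

end Pool.Agent.NTN
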