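import Pool.Agent.NTN.NetSubst
import Pool.Agent.NTN.ThrNet
import Pool.Agent.NWE.Defs

/-!
# Networks on the literals and networks with `⌊log₂ n⌋ + 1` NOT gates

Every function of `n` variables which is computed by a network with `S` nodes whose contacts are
labelled by variables and negated variables is computed by monotone networks with at most
`2 ^ 34 n ^ 10 S ^ 2` nodes and `⌊log₂ n⌋ + 1` NOT gates: the inputs of the NOT gates and the
last network read the variables and the outputs of the NOT gates before. (The method of Markov and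
Fischer, with weighted thresholds.) This holds for undirected and for directed contacts.
-/

set_option autoImplicit false

namespace Pool.Agent.NTN

open Pool.Agent.TeleNeg Pool.Agent.NTR Pool.Agent.NWE Finset

/-- The weight of a list of outputs of NOT gates: the `i`-th has the weight `2 ^ (t - 1 - i)`. -/
def nwt (t : ℕ) (v : List Bool) : ℕ :=
  ∑ i ∈ range t, if v.getD i false = true then 2 ^ (t - 1 - i) else 0

theorem nwt_append {t : ℕ} {v : List Bool} (h : v.length < t) (b : Bool) :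
    nwt t (v ++ [b]) = nwt t v + if b = true then 2 ^ (t - 1 - v.length) else 0 := by
  unfold nwt
  have h1 : ∀ i ∈ range t, (if (v ++ [b]).getD i false = true then 2 ^ (t - 1 - i) else 0)
      = (if v.getD i false = true then 2 ^ (t - 1 - i) else 0) +
        if i = v.length then (if b = true then 2 ^ (t - 1 - v.length) else 0) else 0 := by
    intro i _
    rcases lt_trichotomy i v.length with hi | hi | hi
    · have h2 : (v ++ [b]).getD i false = v.getD i false := by
        simp [List.getD_eq_getElem?_getD, List.getElem?_append_left hi]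
      rw [h2, if_neg hi.ne, add_zero]
    · subst hi
      have h2 : (v ++ [b]).getD v.length false = b := by
        simp [List.getD_eq_getElem?_getD]
      have h3 : v.getD v.length false = false := by
        simp [List.getD_eq_getElem?_getD]
      rw [h2, h3]
      simp
    · have h2 : (v ++ [b]).getD i false = false := by
        rw [List.getD_eq_default]
        simp
        omega
      have h3 : v.getD i false = false := by
        rw [List.getD_eq_default]
        omega
      rw [h2, h3, if_neg hi.ne']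
      simp
  rw [sum_congr rfl h1, sum_add_distrib, sum_ite_eq', if_pos (mem_range.2 h)]

/-- The weighted threshold of the variables in `A` and of the outputs of `t` NOT gates. -/
def thrF (n t θ : ℕ) (A : Finset (Fin n)) (z : Fin n ⊕ ℕ → Bool) : Bool :=
  decide (θ ≤ (A.filter fun a => z (Sum.inl a) = true).card +
    ∑ i ∈ range t, if z (Sum.inr i) = true then 2 ^ (t - 1 - i) else 0)

theorem thrF_labels (n t θ : ℕ) (A : Finset (Fin n)) (x : Fin n → Bool) (v : List Bool) :
    thrF n t θ A (labels x v) = decide (θ ≤ (A.filter fun a => x a = true).card + nwt t v) := rfl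

/-- A class which contains the thresholds of variables with bounded parameters. -/
def HasThr (K : Gen.MonoClass) (i j : ℕ) : Prop :=
  ∀ (β : Type) [Fintype β] (g : (β → Bool) → Bool) (L : List ((β → Bool) → Bool)) (θ : ℕ),
    (∀ u, g u = true ↔ θ ≤ L.countP fun H => H u) → (∀ H ∈ L, ∃ b, H = fun u => u b) →
    2 * L.length + 1 ≤ 4 * 2 ^ i → 3 * Fintype.card β ≤ 2 ^ j → K.mem β g

/-- a single contact -/
def varNet {ι : Type} (b : ι) : Net ι 2 where
  contacts := {(0, 1, some b)}
  src := 0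
  tgt := 1

theorem varNet_val {ι : Type} (b : ι) (x : ι → Bool) :
    (varNet b).val x = x b ∧ (varNet b).dval x = x b := by
  have key : ∀ (R : Fin 2 → Fin 2 → Prop), (∀ p q, R p q → x b = true) →
      (x b = true → R 0 1) → (Relation.ReflTransGen R 0 1 ↔ x b = true) := by
    intro R h1 h2
    constructor
    · intro h
      rcases Relation.ReflTransGen.cases_head h with h3 | ⟨c, hc, -⟩
      · exact absurd h3 (by decide)
      · exact h1 _ _ hc
    · intro h
      exact Relation.ReflTransGen.single (h2 h)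
  constructor
  · rw [Bool.eq_iff_iff]
    simp only [Net.val, decide_eq_true_eq]
    refine key _ ?_ ?_
    · rintro p q ⟨l, hl | hl, hx⟩ <;>
      · have e : l = some b := congrArg (fun c => c.2.2) hl
        exact hx b (by rw [e]; rfl)
    · intro h
      refine ⟨some b, Or.inl rfl, ?_⟩
      intro c hc
      obtain rfl : b = c := by simpa using hc
      exact h
  · rw [Bool.eq_iff_iff]
    simp only [Net.dval, decide_eq_true_eq]
    refine key _ ?_ ?_
    · rintro p q ⟨l, hl, hx⟩
      have e : l = some b := congrArg (fun c => c.2.2) hl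
      exact hx b (by rw [e]; rfl)
    · intro h
      refine ⟨some b, rfl, ?_⟩
      intro c hc
      obtain rfl : b = c := by simpa using hc
      exact h

theorem hasThr_net (i j : ℕ) : HasThr (Gen.netClass (lsz 2 (2 * i + j + 2))) i j := by
  intro β _ g L θ hg hL hi hj
  refine netClass_thr (le_refl 2) L θ hg (fun H hH => ?_) i j hi hj
  obtain ⟨b, rfl⟩ := hL H hH
  exact ⟨varNet b, fun x => (varNet_val b x).1⟩

theorem hasThr_dnet (i j : ℕ) : HasThr (Gen.dnetClass (lsz 2 (2 * i + j + 2))) i j := by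
  intro β _ g L θ hg hL hi hj
  refine dnetClass_thr (le_refl 2) L θ hg (fun H hH => ?_) i j hi hj
  obtain ⟨b, rfl⟩ := hL H hH
  exact ⟨varNet b, fun x => (varNet_val b x).2⟩

theorem HasThr.var {K : Gen.MonoClass} {i j : ℕ} (hK : HasThr K i j) (hj : 2 ≤ j) {ι : Type}
    (b : ι) : K.mem ι fun z => z b := by
  have h1 : K.mem Unit fun u => u () := by
    refine hK Unit _ [fun u => u ()] 1 (fun u => ?_) (fun H hH => ?_) ?_ ?_
    · rw [List.countP_singleton]
      split_ifs with h <;> simp [h]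
    · rw [List.mem_singleton] at hH
      exact ⟨(), hH⟩
    · have : 1 ≤ 2 ^ i := Nat.one_le_two_pow
      simp only [List.length_singleton]
      omega
    · have : 2 ^ 2 ≤ 2 ^ j := Nat.pow_le_pow_right (by norm_num) hj
      simp only [Fintype.card_unit]
      omega
  exact K.subst Unit ι _ (fun _ => Sum.inl b) h1

theorem HasThr.thrF {K : Gen.MonoClass} {i j : ℕ} (hK : HasThr K i j) {n t : ℕ}
    (hi : 2 * (n + 2 ^ t) + 1 ≤ 4 * 2 ^ i) (hj : 3 * (n + t) ≤ 2 ^ j) (θ : ℕ)
    (A : Finset (Fin n)) : K.mem (Fin n ⊕ ℕ) (thrF n t θ A) := by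
  classical
  have h1 : K.mem (Fin n ⊕ Fin t) (fun u => decide (θ ≤
      (A.filter fun a => u (Sum.inl a) = true).card +
        ∑ i : Fin t, if u (Sum.inr i) = true then 2 ^ (t - 1 - i) else 0)) := by
    refine hK (Fin n ⊕ Fin t) _
      ((A.toList.map fun a => fun u : Fin n ⊕ Fin t → Bool => u (Sum.inl a)) ++
        (List.finRange t).flatMap fun i : Fin t =>
          List.replicate (2 ^ (t - 1 - (i : ℕ))) fun u : Fin n ⊕ Fin t → Bool => u (Sum.inr i))
      θ (fun u => ?_) (fun H hH => ?_) ?_ ?_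
    · rw [decide_eq_true_eq, List.countP_append, List.countP_map, List.countP_flatMap]
      have e1 : A.toList.countP ((fun H : (Fin n ⊕ Fin t → Bool) → Bool => H u) ∘
          fun a => fun u : Fin n ⊕ Fin t → Bool => u (Sum.inl a))
          = (A.filter fun a => u (Sum.inl a) = true).card := by
        rw [Finset.card_def, Finset.filter_val, ← Multiset.countP_eq_card_filter,
          ← Finset.coe_toList A, Multiset.coe_countP]
        refine List.countP_congr fun a _ => ?_
        simp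
      have e2 : (List.map (List.countP (fun H : (Fin n ⊕ Fin t → Bool) → Bool => H u) ∘
          fun i : Fin t => List.replicate (2 ^ (t - 1 - i)) fun u => u (Sum.inr i))
          (List.finRange t)).sum
          = ∑ i : Fin t, if u (Sum.inr i) = true then 2 ^ (t - 1 - i) else 0 := by
        rw [Fin.sum_univ_def]
        refine congrArg List.sum (List.map_congr_left fun i _ => ?_)
        simp only [Function.comp_apply, List.countP_replicate]
      rw [e1, e2]
    · rcases List.mem_append.1 hH with h | h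
      · obtain ⟨a, -, rfl⟩ := List.mem_map.1 h
        exact ⟨_, rfl⟩
      · obtain ⟨i, -, h⟩ := List.mem_flatMap.1 h
        exact ⟨_, List.eq_of_mem_replicate h⟩
    · refine le_trans ?_ hi
      rw [List.length_append, List.length_map, Finset.length_toList, List.length_flatMap]
      have e1 : A.card ≤ n := (card_le_univ A).trans (by simp)
      have e2 : (List.map (fun i : Fin t => (List.replicate (2 ^ (t - 1 - i))
          fun u : Fin n ⊕ Fin t → Bool => u (Sum.inr i)).length) (List.finRange t)).sum < 2 ^ t := by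
        have e3 : (List.map (fun i : Fin t => (List.replicate (2 ^ (t - 1 - i))
          fun u : Fin n ⊕ Fin t → Bool => u (Sum.inr i)).length) (List.finRange t)).sum
          = ∑ i ∈ range t, 2 ^ (t - 1 - i) := by
          rw [Finset.sum_range, Fin.sum_univ_def]
          refine congrArg List.sum (List.map_congr_left fun i _ => ?_)
          simp only [List.length_replicate]
        rw [e3, Finset.sum_range_reflect (fun i => 2 ^ i) t]
        have := Nat.geomSum_lt (m := 2) (n := t) (s := range t) (by norm_num)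
          (fun i hi => mem_range.1 hi)
        exact this
      omega
    · simp only [Fintype.card_sum, Fintype.card_fin]
      exact hj
  have h2 := K.subst (Fin n ⊕ Fin t) (Fin n ⊕ ℕ) _
    (Sum.elim (fun a => Sum.inl (Sum.inl a)) fun i => Sum.inl (Sum.inr (i : ℕ))) h1
  convert h2 using 1
  funext z
  unfold NTN.thrF
  rw [Finset.sum_range]
  rfl

/-- the outputs of the NOT gates, the gates with the numbers `t - r, …, t - 1` are still to come -/
def runB (B : ℕ → List Bool → Bool) (t : ℕ) : ℕ → List Bool → List Bool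
  | 0, v => v
  | r + 1, v => runB B t r (v ++ [!B (2 ^ t - 2 ^ r) v])

theorem runB_spec {t w : ℕ} (B : ℕ → List Bool → Bool)
    (hB : ∀ θ v, B θ v = decide (θ ≤ w + nwt t v)) :
    ∀ (r : ℕ) (v : List Bool) (m : ℕ), r ≤ t → v.length = t - r → m ≤ w → w < m + 2 ^ r →
      nwt t v + m + 2 ^ r = 2 ^ t → nwt t (runB B t r v) + w + 1 = 2 ^ t := by
  intro r
  induction r with
  | zero =>
    intro v m _ _ h1 h2 h3
    simp only [pow_zero] at h2 h3
    have : m = w := by omega
    subst this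
    exact h3
  | succ r ih =>
    intro v m hr hv h1 h2 h3
    show nwt t (runB B t r (v ++ [!B (2 ^ t - 2 ^ r) v])) + w + 1 = 2 ^ t
    have e1 : 2 ^ (r + 1) = 2 ^ r + 2 ^ r := by rw [pow_succ]; ring
    rw [e1] at h2 h3
    have hlt : v.length < t := by omega
    have e2 : t - 1 - v.length = r := by omega
    have h4 := nwt_append hlt (!B (2 ^ t - 2 ^ r) v)
    rw [e2, hB] at h4
    by_cases hc : m + 2 ^ r ≤ w
    · have h5 : (2 ^ t - 2 ^ r ≤ w + nwt t v) := by omega
      rw [hB] 
      rw [decide_eq_true h5] at h4 ⊢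
      simp only [Bool.not_true, Bool.false_eq_true, if_false, add_zero] at h4 ⊢
      refine ih _ (m + 2 ^ r) (by omega) (by simp; omega) hc (by omega) ?_
      rw [h4]
      omega
    · have h5 : ¬ (2 ^ t - 2 ^ r ≤ w + nwt t v) := by omega
      rw [hB]
      rw [decide_eq_false h5] at h4 ⊢
      simp only [Bool.not_false, if_true] at h4 ⊢
      refine ih _ m (by omega) (by simp; omega) h1 (by omega) ?_
      rw [h4]
      omega

/-- the levels of the device -/
def lvN {n S : ℕ} (G : ℕ → Net (Fin n ⊕ ℕ) S) (t : ℕ) : ℕ → List (List (Net (Fin n ⊕ ℕ) S))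
  | 0 => []
  | r + 1 => [G (2 ^ t - 2 ^ r)] :: lvN G t r

theorem lvN_length {n S : ℕ} (G : ℕ → Net (Fin n ⊕ ℕ) S) (t r : ℕ) : (lvN G t r).length = r := by
  induction r with
  | zero => rfl
  | succ r ih => rw [lvN, List.length_cons, ih]

theorem lvN_one {n S : ℕ} (G : ℕ → Net (Fin n ⊕ ℕ) S) (t r : ℕ) : ∀ l ∈ lvN G t r, l.length = 1 := by
  induction r with
  | zero => simp [lvN]
  | succ r ih =>
    intro l hl
    rw [lvN, List.mem_cons] at hl
    rcases hl with rfl | hl
    · rfl
    · exact ih l hl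

theorem notVals_lvN {n S : ℕ} (G : ℕ → Net (Fin n ⊕ ℕ) S) (t : ℕ) (x : Fin n → Bool) (r : ℕ) :
    ∀ v, notVals x (lvN G t r) v = runB (fun θ v => (G θ).val (labels x v)) t r v := by
  induction r with
  | zero => intro v; rfl
  | succ r ih => intro v; exact ih _

theorem dnotVals_lvN {n S : ℕ} (G : ℕ → Net (Fin n ⊕ ℕ) S) (t : ℕ) (x : Fin n → Bool) (r : ℕ) :
    ∀ v, dnotVals x (lvN G t r) v = runB (fun θ v => (G θ).dval (labels x v)) t r v := by
  induction r with
  | zero => intro v; rfl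
  | succ r ih => intro v; exact ih _

theorem thrF_erase {n t : ℕ} (x : Fin n → Bool) (v : List Bool)
    (hv : nwt t v + (univ.filter fun a => x a = true).card + 1 = 2 ^ t) (a : Fin n) :
    thrF n t (2 ^ t - 1) (univ.erase a) (labels x v) = !x a := by
  rw [thrF_labels]
  have h1 : ((univ.erase a).filter fun b => x b = true)
      = (univ.filter fun b => x b = true).erase a := by
    ext b
    simp [and_comm]
  rw [h1]
  cases h : x a with
  | true =>
    have h2 : a ∈ univ.filter fun b => x b = true := by simp [h]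
    have h3 := card_pos.2 ⟨a, h2⟩
    rw [card_erase_of_mem h2]
    simp only [Bool.not_true, decide_eq_false_iff_not]
    omega
  | false =>
    have h2 : a ∉ univ.filter fun b => x b = true := by simp [h]
    rw [erase_eq_of_notMem h2]
    simp only [Bool.not_false, decide_eq_true_eq]
    omega

theorem sizes {n : ℕ} (hn : 1 ≤ n) :
    2 * (n + 2 ^ (Nat.log 2 n + 1)) + 1 ≤ 4 * 2 ^ (Nat.log 2 n + 2) ∧
    3 * (n + (Nat.log 2 n + 1)) ≤ 2 ^ (Nat.log 2 n + 4) ∧
    lsz 2 (2 * (Nat.log 2 n + 2) + (Nat.log 2 n + 4) + 2) ≤ 2 ^ 32 * n ^ 9 := by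
  have h1 : n < 2 ^ (Nat.log 2 n + 1) := Nat.lt_pow_succ_log_self (by norm_num) n
  have h2 : 2 ^ Nat.log 2 n ≤ n := Nat.pow_log_le_self 2 (by omega)
  have h3 : Nat.log 2 n < n := Nat.log_lt_self 2 (by omega)
  have e1 : 2 ^ (Nat.log 2 n + 1) = 2 * 2 ^ Nat.log 2 n := by rw [pow_succ]; ring
  have e2 : 2 ^ (Nat.log 2 n + 2) = 4 * 2 ^ Nat.log 2 n := by rw [pow_add]; ring
  have e4 : 2 ^ (Nat.log 2 n + 4) = 16 * 2 ^ Nat.log 2 n := by rw [pow_add]; ring
  refine ⟨by omega, by omega, ?_⟩
  have h4 := lsz_eq 2 (2 * (Nat.log 2 n + 2) + (Nat.log 2 n + 4) + 2)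
  have h5 : 8 ^ (2 * (Nat.log 2 n + 2) + (Nat.log 2 n + 4) + 2) * (2 + 2)
      = 2 ^ 32 * (2 ^ Nat.log 2 n) ^ 9 := by
    have e5 : 2 * (Nat.log 2 n + 2) + (Nat.log 2 n + 4) + 2 = 3 * Nat.log 2 n + 10 := by ring
    have e6 : (8 : ℕ) = 2 ^ 3 := by norm_num
    rw [e5, e6, ← pow_mul, ← pow_mul, show (2 + 2 : ℕ) = 2 ^ 2 by norm_num, ← pow_add, ← pow_add]
    congr 1
    ring
  have h6 : (2 ^ Nat.log 2 n) ^ 9 ≤ n ^ 9 := Nat.pow_le_pow_left h2 9
  calc lsz 2 (2 * (Nat.log 2 n + 2) + (Nat.log 2 n + 4) + 2)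
      ≤ lsz 2 (2 * (Nat.log 2 n + 2) + (Nat.log 2 n + 4) + 2) + 2 := Nat.le_add_right _ _
    _ = 2 ^ 32 * (2 ^ Nat.log 2 n) ^ 9 := by rw [h4, h5]
    _ ≤ 2 ^ 32 * n ^ 9 := Nat.mul_le_mul_left _ h6

theorem final_size {n S T : ℕ} (hn : 1 ≤ n) (hS : 1 ≤ S) (hT : T ≤ 2 ^ 32 * n ^ 9) :
    S + S * (S * Fintype.card (Fin n ⊕ Fin n)) * T ≤ 2 ^ 34 * n ^ 10 * S ^ 2 := by
  rw [Fintype.card_sum, Fintype.card_fin]
  have h1 : S * (S * (n + n)) * T ≤ S * (S * (n + n)) * (2 ^ 32 * n ^ 9) :=
    Nat.mul_le_mul_left _ hT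
  have h2 : S * (S * (n + n)) * (2 ^ 32 * n ^ 9) = 2 ^ 33 * n ^ 10 * S ^ 2 := by ring
  have h3 : S ≤ 2 ^ 33 * n ^ 10 * S ^ 2 := by
    have e1 : 1 ≤ 2 ^ 33 * n ^ 10 := Nat.mul_pos (by norm_num) (Nat.pow_pos hn)
    calc S = 1 * (S * 1) := by ring
      _ ≤ 2 ^ 33 * n ^ 10 * (S * S) := Nat.mul_le_mul e1 (Nat.mul_le_mul_left _ hS)
      _ = 2 ^ 33 * n ^ 10 * S ^ 2 := by ring
  have h4 : 2 ^ 34 * n ^ 10 * S ^ 2 = 2 ^ 33 * n ^ 10 * S ^ 2 + 2 ^ 33 * n ^ 10 * S ^ 2 := by ring
  omega

theorem gate_size {n S T : ℕ} (hn : 1 ≤ n) (hS : 1 ≤ S) (hT : T ≤ 2 ^ 32 * n ^ 9) :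
    T ≤ 2 ^ 34 * n ^ 10 * S ^ 2 := by
  refine hT.trans ?_
  calc 2 ^ 32 * n ^ 9 = 2 ^ 32 * (n ^ 9 * 1) * 1 := by ring
    _ ≤ 2 ^ 34 * (n ^ 9 * n) * S ^ 2 :=
      Nat.mul_le_mul (Nat.mul_le_mul (by norm_num) (Nat.mul_le_mul_left _ hn)) (Nat.pow_pos hS)
    _ = 2 ^ 34 * n ^ 10 * S ^ 2 := by ring

/-- **`⌊log₂ n⌋ + 1` NOT gates suffice: switching networks.** -/
theorem markov_net {n S : ℕ} (hn : 1 ≤ n) (N : Net (Fin n ⊕ Fin n) S) :
    ∃ D : Device (Fin n) (2 ^ 34 * n ^ 10 * S ^ 2) 1, D.levels.length = Nat.log 2 n + 1 ∧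
      (∀ l ∈ D.levels, l.length = 1) ∧ ∀ x, D.val x 0 = N.val (lits x) := by
  classical
  obtain ⟨s1, s2, s3⟩ := sizes hn
  have hS : 1 ≤ S := Nat.succ_le_of_lt (Nat.lt_of_le_of_lt (Nat.zero_le _) N.src.isLt)
  set i := Nat.log 2 n + 2 with hi
  set j := Nat.log 2 n + 4 with hj
  set t := Nat.log 2 n + 1 with ht
  have hK := hasThr_net i j
  set T := lsz 2 (2 * i + j + 2) with hT
  have hgate := gate_size (S := S) hn hS s3
  have hG : ∀ θ, ∃ G : Net (Fin n ⊕ ℕ) T, ∀ z, G.val z = thrF n t θ univ z :=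
    fun θ => hK.thrF s1 s2 θ univ
  choose G hG using hG
  have hM : ∀ a : Fin n ⊕ Fin n, ∃ M : Net (Fin n ⊕ ℕ) T, ∀ z, M.val z =
      Sum.elim (fun a => z (Sum.inl a)) (fun a => thrF n t (2 ^ t - 1) (univ.erase a) z) a := by
    rintro (a | a)
    · exact hK.var (by omega) (Sum.inl a)
    · exact hK.thrF s1 s2 _ _
  choose M hM using hM
  obtain ⟨P, hP, -⟩ := exists_subst N M
  refine ⟨{ levels := lvN (fun θ => padNet hgate (G θ)) t t
            outs := fun _ => padNet (final_size hn hS s3) P }, lvN_length _ _ _, lvN_one _ _ _,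
    fun x => ?_⟩
  set c := notVals x (lvN (fun θ => padNet hgate (G θ)) t t) [] with hc
  have hw : (univ.filter fun a => x a = true).card < 0 + 2 ^ t := by
    rw [zero_add]
    refine lt_of_le_of_lt (card_le_univ _) ?_
    rw [Fintype.card_fin]
    exact Nat.lt_pow_succ_log_self (by norm_num) n
  have h1 : nwt t c + (univ.filter fun a => x a = true).card + 1 = 2 ^ t := by
    rw [hc, notVals_lvN]
    refine runB_spec _ (fun θ v => ?_) t [] 0 le_rfl (by simp) (Nat.zero_le _) hw ?_
    · rw [padNet_val, hG, thrF_labels]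
    · simp [nwt]
  show (padNet (final_size hn hS s3) P).val (labels x c) = N.val (lits x)
  rw [padNet_val, hP]
  congr 1
  funext a
  rw [hM]
  rcases a with a | a
  · rfl
  · exact thrF_erase x c h1 a

/-- **`⌊log₂ n⌋ + 1` NOT gates suffice: networks with directed contacts.** -/
theorem markov_dnet {n S : ℕ} (hn : 1 ≤ n) (N : Net (Fin n ⊕ Fin n) S) :
    ∃ D : Device (Fin n) (2 ^ 34 * n ^ 10 * S ^ 2) 1, D.levels.length = Nat.log 2 n + 1 ∧
      (∀ l ∈ D.levels, l.length = 1) ∧ ∀ x, D.dval x 0 = N.dval (lits x) := by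
  classical
  obtain ⟨s1, s2, s3⟩ := sizes hn
  have hS : 1 ≤ S := Nat.succ_le_of_lt (Nat.lt_of_le_of_lt (Nat.zero_le _) N.src.isLt)
  set i := Nat.log 2 n + 2 with hi
  set j := Nat.log 2 n + 4 with hj
  set t := Nat.log 2 n + 1 with ht
  have hK := hasThr_dnet i j
  set T := lsz 2 (2 * i + j + 2) with hT
  have hgate := gate_size (S := S) hn hS s3
  have hG : ∀ θ, ∃ G : Net (Fin n ⊕ ℕ) T, ∀ z, G.dval z = thrF n t θ univ z :=
    fun θ => hK.thrF s1 s2 θ univ
  choose G hG using hG
  have hM : ∀ a : Fin n ⊕ Fin n, ∃ M : Net (Fin n ⊕ ℕ) T, ∀ z, M.dval z =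
      Sum.elim (fun a => z (Sum.inl a)) (fun a => thrF n t (2 ^ t - 1) (univ.erase a) z) a := by
    rintro (a | a)
    · exact hK.var (by omega) (Sum.inl a)
    · exact hK.thrF s1 s2 _ _
  choose M hM using hM
  obtain ⟨P, -, hP⟩ := exists_subst N M
  refine ⟨{ levels := lvN (fun θ => padNet hgate (G θ)) t t
            outs := fun _ => padNet (final_size hn hS s3) P }, lvN_length _ _ _, lvN_one _ _ _,
    fun x => ?_⟩
  set c := dnotVals x (lvN (fun θ => padNet hgate (G θ)) t t) [] with hc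
  have hw : (univ.filter fun a => x a = true).card < 0 + 2 ^ t := by
    rw [zero_add]
    refine lt_of_le_of_lt (card_le_univ _) ?_
    rw [Fintype.card_fin]
    exact Nat.lt_pow_succ_log_self (by norm_num) n
  have h1 : nwt t c + (univ.filter fun a => x a = true).card + 1 = 2 ^ t := by
    rw [hc, dnotVals_lvN]
    refine runB_spec _ (fun θ v => ?_) t [] 0 le_rfl (by simp) (Nat.zero_le _) hw ?_
    · rw [padNet_dval, hG, thrF_labels]
    · simp [nwt]
  show (padNet (final_size hn hS s3) P).dval (labels x c) = N.dval (lits x)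
  rw [padNet_dval, hP]
  congr 1
  funext a
  rw [hM]
  rcases a with a | a
  · rfl
  · exact thrF_erase x c h1 a

/-- the levels of NOT gates as functions -/
def lvF {n : ℕ} (t : ℕ) : ℕ → List (List ((Fin n ⊕ ℕ → Bool) → Bool))
  | 0 => []
  | r + 1 => [thrF n t (2 ^ t - 2 ^ r) univ] :: lvF t r

theorem lvF_length {n : ℕ} (t r : ℕ) : (lvF (n := n) t r).length = r := by
  induction r with
  | zero => rfl
  | succ r ih => rw [lvF, List.length_cons, ih]

theorem lvF_mem {n : ℕ} (t r : ℕ) : ∀ l ∈ lvF (n := n) t r, ∃ θ, l = [thrF n t θ univ] := by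
  induction r with
  | zero => simp [lvF]
  | succ r ih =>
    intro l hl
    rw [lvF, List.mem_cons] at hl
    rcases hl with rfl | hl
    · exact ⟨_, rfl⟩
    · exact ih l hl

theorem nots_lvF {n : ℕ} (t : ℕ) (x : Fin n → Bool) (r : ℕ) :
    ∀ v, Gen.nots x (lvF t r) v = runB (fun θ v => thrF n t θ univ (labels x v)) t r v := by
  induction r with
  | zero => intro v; rfl
  | succ r ih => intro v; exact ih _

/-- **`⌊log₂ n⌋ + 1` NOT gates suffice**, for any class of monotone functions which contains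
weighted thresholds and the function on the literals with thresholds for the negated variables. -/
theorem markov_gen {n : ℕ} (K : Gen.MonoClass)
    (hK : ∀ θ, K.mem (Fin n ⊕ ℕ) (thrF n (Nat.log 2 n + 1) θ univ))
    (F : (Fin n ⊕ Fin n → Bool) → Bool)
    (hF : K.mem (Fin n ⊕ ℕ) fun z => F (Sum.elim (fun a => z (Sum.inl a))
      fun a => thrF n (Nat.log 2 n + 1) (2 ^ (Nat.log 2 n + 1) - 1) (univ.erase a) z)) :
    ∃ (ls : List (List ((Fin n ⊕ ℕ → Bool) → Bool))) (P : (Fin n ⊕ ℕ → Bool) → Bool),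
      ls.length = Nat.log 2 n + 1 ∧ (∀ l ∈ ls, l.length = 1) ∧ (∀ l ∈ ls, ∀ G ∈ l, K.mem _ G) ∧
        K.mem _ P ∧ ∀ x, P (Gen.seen x (Gen.nots x ls [])) = F (lits x) := by
  set t := Nat.log 2 n + 1 with ht
  refine ⟨lvF t t, _, lvF_length _ _, fun l hl => ?_, fun l hl G hG => ?_, hF, fun x => ?_⟩
  · obtain ⟨θ, rfl⟩ := lvF_mem _ _ l hl
    rfl
  · obtain ⟨θ, rfl⟩ := lvF_mem _ _ l hl
    rw [List.mem_singleton] at hG
    rw [hG]
    exact hK θ
  · have hw : (univ.filter fun a => x a = true).card < 0 + 2 ^ t := by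
      rw [zero_add]
      refine lt_of_le_of_lt (card_le_univ _) ?_
      rw [Fintype.card_fin]
      exact Nat.lt_pow_succ_log_self (by norm_num) n
    have h1 : nwt t (Gen.nots x (lvF t t) []) + (univ.filter fun a => x a = true).card + 1
        = 2 ^ t := by
      rw [nots_lvF]
      refine runB_spec _ (fun θ v => ?_) t [] 0 le_rfl (by simp) (Nat.zero_le _) hw ?_
      · rw [thrF_labels]
      · simp [nwt]
    show F _ = F _
    congr 1
    funext a
    rcases a with a | a
    · rfl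
    · exact thrF_erase x _ h1 a

/-- **`⌊log₂ n⌋ + 1` NOT gates suffice: switching networks.** -/
theorem markov_nots {n S : ℕ} (hn : 1 ≤ n) (N : Net (Fin n ⊕ Fin n) S) :
    ∃ (ls : List (List ((Fin n ⊕ ℕ → Bool) → Bool))) (P : (Fin n ⊕ ℕ → Bool) → Bool),
      ls.length = Nat.log 2 n + 1 ∧ (∀ l ∈ ls, l.length = 1) ∧
        (∀ l ∈ ls, ∀ G ∈ l, (Gen.netClass (2 ^ 34 * n ^ 10 * S ^ 2)).mem _ G) ∧
        (Gen.netClass (2 ^ 34 * n ^ 10 * S ^ 2)).mem _ P ∧
        ∀ x, P (Gen.seen x (Gen.nots x ls [])) = N.val (lits x) := by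
  classical
  obtain ⟨s1, s2, s3⟩ := sizes hn
  have hS : 1 ≤ S := Nat.succ_le_of_lt (Nat.lt_of_le_of_lt (Nat.zero_le _) N.src.isLt)
  have hK := hasThr_net (Nat.log 2 n + 2) (Nat.log 2 n + 4)
  refine markov_gen (Gen.netClass (2 ^ 34 * n ^ 10 * S ^ 2))
    (fun θ => netClass_le (gate_size hn hS s3) (hK.thrF s1 s2 θ univ)) N.val ?_
  have hM : ∀ a : Fin n ⊕ Fin n, ∃ M : Net (Fin n ⊕ ℕ)
      (lsz 2 (2 * (Nat.log 2 n + 2) + (Nat.log 2 n + 4) + 2)), ∀ z, M.val z =
      Sum.elim (fun a => z (Sum.inl a)) (fun a => thrF n (Nat.log 2 n + 1)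
        (2 ^ (Nat.log 2 n + 1) - 1) (univ.erase a) z) a := by
    rintro (a | a)
    · exact hK.var (by omega) (Sum.inl a)
    · exact hK.thrF s1 s2 _ _
  choose M hM using hM
  obtain ⟨P, hP, -⟩ := exists_subst N M
  refine ⟨padNet (final_size hn hS s3) P, fun z => ?_⟩
  rw [padNet_val, hP]
  congr 1
  funext a
  exact hM a z

/-- **`⌊log₂ n⌋ + 1` NOT gates suffice: networks with directed contacts.** -/
theorem markov_dnots {n S : ℕ} (hn : 1 ≤ n) (N : Net (Fin n ⊕ Fin n) S) :
    ∃ (ls : List (List ((Fin n ⊕ ℕ → Bool) → Bool))) (P : (Fin n ⊕ ℕ → Bool) → Bool),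
      ls.length = Nat.log 2 n + 1 ∧ (∀ l ∈ ls, l.length = 1) ∧
        (∀ l ∈ ls, ∀ G ∈ l, (Gen.dnetClass (2 ^ 34 * n ^ 10 * S ^ 2)).mem _ G) ∧
        (Gen.dnetClass (2 ^ 34 * n ^ 10 * S ^ 2)).mem _ P ∧
        ∀ x, P (Gen.seen x (Gen.nots x ls [])) = N.dval (lits x) := by
  classical
  obtain ⟨s1, s2, s3⟩ := sizes hn
  have hS : 1 ≤ S := Nat.succ_le_of_lt (Nat.lt_of_le_of_lt (Nat.zero_le _) N.src.isLt)
  have hK := hasThr_dnet (Nat.log 2 n + 2) (Nat.log 2 n + 4)
  refine markov_gen (Gen.dnetClass (2 ^ 34 * n ^ 10 * S ^ 2))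
    (fun θ => dnetClass_le (gate_size hn hS s3) (hK.thrF s1 s2 θ univ)) N.dval ?_
  have hM : ∀ a : Fin n ⊕ Fin n, ∃ M : Net (Fin n ⊕ ℕ)
      (lsz 2 (2 * (Nat.log 2 n + 2) + (Nat.log 2 n + 4) + 2)), ∀ z, M.dval z =
      Sum.elim (fun a => z (Sum.inl a)) (fun a => thrF n (Nat.log 2 n + 1)
        (2 ^ (Nat.log 2 n + 1) - 1) (univ.erase a) z) a := by
    rintro (a | a)
    · exact hK.var (by omega) (Sum.inl a)
    · exact hK.thrF s1 s2 _ _
  choose M hM using hM
  obtain ⟨P, -, hP⟩ := exists_subst N M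
  refine ⟨padNet (final_size hn hS s3) P, fun z => ?_⟩
  rw [padNet_dval, hP]
  congr 1
  funext a
  exact hM a z

end Pool.Agent.NTN
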