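import Pool.Agent.NTN.Dual
import Pool.Agent.NTR.HardDist
import Pool.Agent.LocE.Glue

/-!
# Average-case hardness of functions which become conjunctions of copies
-/

set_option autoImplicit false

namespace Pool.Agent.NTN

open Pool.Agent.NegLim Pool.Agent.NTR Finset
open scoped BigOperators

open Classical in
/-- **Average-case transfer on `U`.** If the variables outside `U` can be made constant and the
others be replaced by variables or constants such that `f` becomes the disjunction of `r` copies of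
`g`, then there is a distribution on the inputs for which `f` is hard for circuits whose NOT gates
change their values at most `a` times on `U`. -/
theorem glue_supp {ι β : Type} [Fintype ι] [DecidableEq ι] [Fintype β] {U : Finset ι} {r : ℕ}
    (hr : 1 ≤ r) (g : (β → Bool) → Bool) (hg : Monotone g) (f : (ι → Bool) → Bool)
    (φ : ι → (Fin r × β) ⊕ Bool) (hφ : ∀ v, v ∉ U → ∃ c, φ v = .inr c)
    (hf : ∀ y : Fin r × β → Bool, f (fun v => Sum.elim y id (φ v)) = true ↔ OrCopies g y)
    (D₀ D₁ : (β → Bool) → ℝ) (h0 : ∀ u, 0 ≤ D₀ u) (h0s : ∑ u, D₀ u = 1)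
    (h0z : ∀ u, D₀ u ≠ 0 → g u = false) (h1 : ∀ u, 0 ≤ D₁ u) (h1s : ∑ u, D₁ u = 1)
    (h1z : ∀ u, D₁ u ≠ 0 → g u = true) :
    ∃ μ : (ι → Bool) → ℝ, (∀ x, 0 ≤ μ x) ∧ ∑ x, μ x = 1 ∧
      (∀ x, μ x ≠ 0 → ∀ v c, φ v = .inr c → x v = c) ∧
      ∀ (T s a : ℕ) (δ : ℝ),
        (∀ (M : Circuit β) (o : Wire β), M.negs = 0 → M.size ≤ s + T →
          ∑ u with M.val u o = true, D₁ u ≤ ∑ u with M.val u o = true, D₀ u + δ) →
        ∀ (C : Circuit ι) (out : Fin T → Wire ι) (h : (Fin T → Bool) → Bool),
          C.size ≤ s → ChangesOn U C.notVals (a + 1) →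
          ∑ x with h (fun i => C.val x (out i)) = f x, μ x
            ≤ 1 / 2 + δ / 2 + (T + 1) * (a + 1) / (2 * r) := by
  obtain ⟨μ', hμ0, hμ1, hμ⟩ := transfer_average g hg r hr D₀ D₁ h0 h0s h0z h1 h1s h1z
  have hpush : ∀ (P : (ι → Bool) → Prop) [DecidablePred P],
      ∑ x with P x, ∑ y, μ' y * ip ((fun v => Sum.elim y id (φ v)) = x)
        = ∑ y, μ' y * ip (P fun v => Sum.elim y id (φ v)) := by
    intro P _
    rw [Finset.sum_comm]
    refine Finset.sum_congr rfl fun y _ => ?_
    rw [← Finset.mul_sum, sum_ip_eq]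
  refine ⟨fun x => ∑ y, μ' y * ip ((fun v => Sum.elim y id (φ v)) = x), ?_, ?_, ?_, ?_⟩
  · intro x
    exact Finset.sum_nonneg fun y _ => mul_nonneg (hμ0 y) (ip_nonneg _)
  · have h2 := hpush (fun _ => True)
    rw [Finset.filter_true] at h2
    rw [h2]
    simp only [ip_true trivial, mul_one]
    exact hμ1
  · intro x hx v c hc
    obtain ⟨y, -, hy⟩ := Finset.exists_ne_zero_of_sum_ne_zero hx
    by_cases h2 : (fun v => Sum.elim y id (φ v)) = x
    · rw [← h2]
      simp only [hc, Sum.elim_inr, id]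
    · exact absurd (by rw [ip_false h2, mul_zero]) hy
  · intro T s a δ hδ C out h hs hC
    set σ : ι → Lit (Fin r × β) := fun v => LocE.subLit (φ v) with hσ
    have hσv : ∀ y : Fin r × β → Bool, (fun v => (σ v).val y) = fun v => Sum.elim y id (φ v) :=
      fun y => funext fun v => LocE.subLit_val y (φ v)
    have hflips : Circuit.FlipsAtMost (C.map (Gate.subst σ)) a := by
      intro x hx n
      have h1 := hC (fun k v => Sum.elim (x k) id (φ v))
        (fun i j hij v => LocE.sub_mono (hx hij) (φ v)) (by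
          intro k v hv
          obtain ⟨c, hc⟩ := hφ v hv
          simp only [hc, Sum.elim_inr]) n
      have h2 : {k | k < n ∧ Circuit.notVals C (fun v => Sum.elim (x k) id (φ v))
          ≠ Circuit.notVals C (fun v => Sum.elim (x (k + 1)) id (φ v))}
          = ↑((range n).filter (fun k => Circuit.notVals (C.map (Gate.subst σ)) (x k)
            ≠ Circuit.notVals (C.map (Gate.subst σ)) (x (k + 1)))) := by
        ext k
        simp only [Set.mem_ofPred_eq, coe_filter, mem_range, notVals_subst, hσv]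
      rw [h2, Set.ncard_coe_finset] at h1
      omega
    have h2 := hμ T s a δ hδ (C.map (Gate.subst σ)) (fun i => (out i).subst σ) h
      ((Circuit.subst_size σ C).le.trans hs) hflips
    refine le_trans (le_of_eq ?_) h2
    rw [hpush, Finset.sum_filter]
    refine Finset.sum_congr rfl fun y _ => ?_
    have h3 : (fun i => Circuit.val (C.map (Gate.subst σ)) y ((out i).subst σ))
        = fun i => Circuit.val C (fun v => Sum.elim y id (φ v)) (out i) := by
      funext i
      rw [Circuit.subst_val, hσv]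
    rw [h3]
    have h4 : (h (fun i => Circuit.val C (fun v => Sum.elim y id (φ v)) (out i))
        = f fun v => Sum.elim y id (φ v)) ↔
        (h (fun i => Circuit.val C (fun v => Sum.elim y id (φ v)) (out i)) = true ↔
          OrCopies g y) := by
      rw [← hf, Bool.eq_iff_iff]
    by_cases h5 : h (fun i => Circuit.val C (fun v => Sum.elim y id (φ v)) (out i))
        = f fun v => Sum.elim y id (φ v)
    · rw [ip_true h5, if_pos (h4.mp h5), mul_one]
    · rw [ip_false h5, if_neg (fun h6 => h5 (h4.mpr h6)), mul_zero]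

open Classical in
/-- **Worst case to average case, disjunctions.** -/
theorem average_or {ι β : Type} [Fintype ι] [DecidableEq ι] [Fintype β] {U : Finset ι} {r : ℕ}
    (hr : 1 ≤ r) (g : (β → Bool) → Bool) (hg : Monotone g) {δ : ℝ} (h0 : 0 < δ) (h1 : δ < 1)
    (k s : ℕ) (hk : 3 * (Fintype.card β : ℝ) ≤ k * δ ^ 2)
    (hM : ∀ (M : Circuit β) (o : Wire β), Circuit.negs M = 0 → (∀ u, Circuit.val M u o = g u) →
      k * (s + 2 * k) < Circuit.size M)
    (f : (ι → Bool) → Bool) (φ : ι → (Fin r × β) ⊕ Bool) (hφ : ∀ v, v ∉ U → ∃ c, φ v = .inr c)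
    (hf : ∀ y : Fin r × β → Bool, f (fun v => Sum.elim y id (φ v)) = true ↔
      ∃ i, g (fun b => y (i, b)) = true) :
    ∃ μ : (ι → Bool) → ℝ, (∀ x, 0 ≤ μ x) ∧ ∑ x, μ x = 1 ∧
      (∀ x, μ x ≠ 0 → ∀ v c, φ v = .inr c → x v = c) ∧
      ∀ (T a : ℕ) (C : Circuit ι) (out : Fin T → Wire ι) (h : (Fin T → Bool) → Bool),
        Circuit.size C + T ≤ s → ChangesOn U (fun x => Circuit.notVals C x) (a + 1) →
        ∑ x with h (fun i => Circuit.val C x (out i)) = f x, μ x
          ≤ 1 / 2 + δ / 2 + (T + 1) * (a + 1) / (2 * r) := by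
  obtain ⟨D₀, D₁, d1, d2, d3, d4, d5, d6, d7⟩ := hard_dist g h0 h1 k s hk hM
  obtain ⟨μ, m1, m2, m4, m3⟩ := glue_supp hr g hg f φ hφ hf D₀ D₁ d1 d2 d3 d4 d5 d6
  exact ⟨μ, m1, m2, m4, fun T a C out h hs hC =>
    m3 T (Circuit.size C) a δ (fun M o hM' hsz => d7 M o hM' (hsz.trans hs)) C out h le_rfl hC⟩

theorem dual_computes {β : Type} (g : (β → Bool) → Bool) (M : Circuit β) (o : Wire β)
    (hM : ∀ u, Circuit.val M u o = !g fun b => !u b) (u : β → Bool) :
    Circuit.val (dualCirc 0 M) u (dualWire M.length o) = g u := by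
  rw [dual_val, hM]
  simp

/-- Sums over a filter after the negation of all variables. -/
theorem sum_filter_not {ι : Type} [Fintype ι] [DecidableEq ι] (μ : (ι → Bool) → ℝ)
    (P Q : (ι → Bool) → Prop) [DecidablePred P] [DecidablePred Q]
    (h : ∀ x, P x ↔ Q fun v => !x v) :
    ∑ x with P x, μ (fun v => !x v) = ∑ x with Q x, μ x := by
  rw [Finset.sum_filter, Finset.sum_filter]
  refine Fintype.sum_equiv
    (Equiv.mk (fun (x : ι → Bool) v => !x v) (fun x v => !x v) (fun x => by simp)
      (fun x => by simp)) _ _ fun x => ?_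
  simp only [Equiv.coe_fn_mk]
  by_cases hP : P x
  · rw [if_pos hP, if_pos ((h x).mp hP)]
  · rw [if_neg hP, if_neg fun hQ => hP ((h x).mpr hQ)]

open Classical in
/-- **Worst case to average case, conjunctions.** -/
theorem average_and {ι β : Type} [Fintype ι] [DecidableEq ι] [Fintype β] {U : Finset ι} {r : ℕ}
    (hr : 1 ≤ r) (g : (β → Bool) → Bool) (hg : Monotone g) {δ : ℝ} (h0 : 0 < δ) (h1 : δ < 1)
    (k s : ℕ) (hk : 3 * (Fintype.card β : ℝ) ≤ k * δ ^ 2)
    (hM : ∀ (M : Circuit β) (o : Wire β), Circuit.negs M = 0 → (∀ u, Circuit.val M u o = g u) →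
      k * (s + 2 * k) < Circuit.size M)
    (f : (ι → Bool) → Bool) (φ : ι → (Fin r × β) ⊕ Bool) (hφ : ∀ v, v ∉ U → ∃ c, φ v = .inr c)
    (hf : ∀ y : Fin r × β → Bool, f (fun v => Sum.elim y id (φ v)) = true ↔
      ∀ i, g (fun b => y (i, b)) = true) :
    ∃ μ : (ι → Bool) → ℝ, (∀ x, 0 ≤ μ x) ∧ ∑ x, μ x = 1 ∧
      (∀ x, μ x ≠ 0 → ∀ v c, φ v = .inr c → x v = c) ∧
      ∀ (T a : ℕ) (C : Circuit ι) (out : Fin T → Wire ι) (h : (Fin T → Bool) → Bool),
        Circuit.size C + T ≤ s → ChangesOn U (fun x => Circuit.notVals C x) (a + 1) →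
        ∑ x with h (fun i => Circuit.val C x (out i)) = f x, μ x
          ≤ 1 / 2 + δ / 2 + (T + 1) * (a + 1) / (2 * r) := by
  obtain ⟨μ, m1, m2, m4, m3⟩ := average_or hr (fun u => !g fun b => !u b) (dual_mono hg) h0 h1 k s hk
    (by
      intro M o h2 h3
      have h4 := hM (dualCirc 0 M) (dualWire M.length o) (by rw [dualCirc_negs, h2])
        (dual_computes g M o h3)
      have h5 : Circuit.size (dualCirc 0 M) = Circuit.size M := dualCirc_length M 0
      rwa [h5] at h4)
    (fun x => !f fun v => !x v) (fun v => Sum.map id not (φ v))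
    (by
      intro v hv
      obtain ⟨c, hc⟩ := hφ v hv
      exact ⟨!c, by rw [hc]; rfl⟩)
    (by
      intro y
      have h2 := dual_restriction g (fun x => f x = true) φ hf y
      rw [← h2]
      simp)
  refine ⟨fun x => μ fun v => !x v, fun x => m1 _, ?_, fun x hx v c hc => ?_,
    fun T a C out h hs hC => ?_⟩
  · rw [← m2]
    exact Fintype.sum_equiv
      (Equiv.mk (fun (x : ι → Bool) v => !x v) (fun x v => !x v) (fun x => by simp)
        (fun x => by simp)) _ _ fun x => rfl
  · have h2 := m4 _ hx v (!c) (by simp only [hc]; rfl)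
    simpa using h2
  · have e2 : Circuit.size (dualCirc 0 C) = Circuit.size C := dualCirc_length C 0
    have h2 := m3 T a (dualCirc 0 C) (fun i => dualWire C.length (out i))
      (fun z => !h fun i => !z i) (by rw [e2]; exact hs) (by
        have h4 := changesOn_inj (changesOn_dual hC) (List.map not)
        intro x hx hU n
        have h5 := h4 x hx hU n
        simp only [dual_notVals]
        exact h5)
    refine le_trans (le_of_eq ?_) h2
    refine sum_filter_not μ _ _ fun x => ?_
    simp only [dual_val, Bool.not_not]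
    simp

end Pool.Agent.NTN
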