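import Pool.Agent.NTR.Inst

/-!
# Numbers for directed reachability and switching networks on average
-/

set_option autoImplicit false

namespace Pool.Agent.NTN

open Pool.Agent.TeleNeg Pool.Agent.NTR Finset Gen

/-- The size after the amplification. -/
theorem amp_size {c s i j S' a : ℕ} (hs : 1 ≤ s) (hc : 6 * c ≤ 2 ^ a)
    (hi : 2 * 2 ^ i ≤ 2 * (3 * c * 4 ^ s) + 1) (hj : 2 ^ j ≤ 6 * c)
    (hS : S' + 2 ≤ 8 ^ (2 * i + j + 2) * (2 ^ s + 4)) :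
    S' + 2 ≤ 2 ^ (9 * a + 13 * s + 8) := by
  have h4 : (4 : ℕ) ^ s = 2 ^ (2 * s) := by rw [pow_mul]; norm_num
  have hcpos : 1 ≤ 2 ^ (2 * s) := Nat.one_le_two_pow
  -- `2 ^ i ≤ 2 ^ (a + 2 s)`
  have hi2 : 2 ^ i ≤ 2 ^ (a + 2 * s) := by
    have e1 : 2 * (3 * c * 4 ^ s) ≤ 2 ^ a * 2 ^ (2 * s) := by
      rw [h4]
      calc 2 * (3 * c * 2 ^ (2 * s)) = 6 * c * 2 ^ (2 * s) := by ring
        _ ≤ _ := Nat.mul_le_mul_right _ hc
    have e2 : 1 ≤ 2 ^ a * 2 ^ (2 * s) := Nat.one_le_iff_ne_zero.2 (by positivity)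
    rw [pow_add]
    omega
  have hi3 : i ≤ a + 2 * s := (Nat.pow_le_pow_iff_right (by norm_num)).1 hi2
  have hj2 : j ≤ a := (Nat.pow_le_pow_iff_right (by norm_num : 1 < 2)).1 (hj.trans hc)
  have h5 : 2 ^ s + 4 ≤ 2 ^ (s + 2) := by
    have : 2 ^ 1 ≤ 2 ^ s := Nat.pow_le_pow_right (by norm_num) hs
    rw [pow_add]
    omega
  calc S' + 2 ≤ 8 ^ (2 * i + j + 2) * (2 ^ s + 4) := hS
    _ ≤ 8 ^ (2 * (a + 2 * s) + a + 2) * 2 ^ (s + 2) :=
        Nat.mul_le_mul (Nat.pow_le_pow_right (by norm_num) (by omega)) h5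
    _ = 2 ^ (3 * (2 * (a + 2 * s) + a + 2)) * 2 ^ (s + 2) := by
        rw [show (8 : ℕ) = 2 ^ 3 by norm_num, ← pow_mul]
    _ = 2 ^ (9 * a + 13 * s + 8) := by
        rw [← pow_add]
        congr 1
        ring

/-- **Numbers for reachability.** A monotone switching network obtained by amplification from
networks with `2 ^ s + 2` nodes, `16 s ≤ p ^ 2`, `100 ≤ p`, does not compute directed connectivity
in six parallel layered digraphs with `2 ^ p` layers of `2 ^ (5 p)` vertices. -/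
theorem reach_not_net {s p c i j S' : ℕ} (hp : 100 ≤ p) (hs : 1 ≤ s) (hsp : 16 * s ≤ p ^ 2)
    (hc : c ≤ 6 * 2 ^ (11 * p)) (hi : 2 * 2 ^ i ≤ 2 * (3 * c * 4 ^ s) + 1) (hj : 2 ^ j ≤ 6 * c)
    (hS : S' + 2 ≤ 8 ^ (2 * i + j + 2) * (2 ^ s + 4))
    (F : (Arc 6 (2 ^ p - 1) (2 ^ (5 * p)) → Bool) → Bool) (hF : (Gen.netClass S').mem _ F) :
    ¬ ∀ u, F u = true ↔ Reach u := by
  intro h
  have h1 := inst_reach (p := p) (S := S') (q := 1) [F] (by simp) (by simpa using hF)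
    (fun u => by simp [h u])
  have hc6 : 6 * c ≤ 2 ^ (11 * p + 6) := by
    rw [pow_add]
    omega
  have h2 := amp_size hs hc6 hi hj hS
  rw [one_mul] at h1
  have h3 : 2 ^ (2 * p ^ 2) ≤ 2 ^ (4 * p + 6) * (2 ^ 3 * 2 ^ (9 * (11 * p + 6) + 13 * s + 8)) := by
    refine h1.trans ?_
    refine Nat.mul_le_mul_left _ ?_
    have : 6 * (S' + 2) ≤ 2 ^ 3 * (S' + 2) := Nat.mul_le_mul_right _ (by norm_num)
    exact this.trans (Nat.mul_le_mul_left _ h2)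
  rw [← pow_add, ← pow_add] at h3
  have h4 := (Nat.pow_le_pow_iff_right (by norm_num : 1 < 2)).1 h3
  nlinarith

end Pool.Agent.NTN
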