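import Pool.Agent.NTN.Principle
import Pool.Agent.NTN.Inst
import Pool.Agent.NTN.Restr
import Pool.Agent.NTR.Inst

/-!
# The standard functions: the parts of the final statement
-/

namespace Pool.Agent.NTN

open Pool.Agent.NegLim Pool.Agent.NTR Pool.Agent.TeleNeg Pool.Agent.PMB Pool.Agent.GB24 Finset

theorem pm_circuits_U {s m k : ℕ} (hs : 1 ≤ s) (U : Finset (Fin m × Fin m))
    (hU : DisjointEdges k U) (C : Circuit (Fin m × Fin m)) (out : Wire (Fin m × Fin m))
    (hf : ∀ x : Fin m × Fin m → Bool, Circuit.val C x out = true ↔ HasPM x)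
    (hC : ChangesOn U (fun x => Circuit.notVals C x) (k / csz s)) : 2 ^ s ≤ Circuit.size C := by
  obtain ⟨e, heU, he⟩ := hU
  exact pm_circuits hs U e heU (fun i j hij => by
    by_contra hne
    exact (he i j hne).1 hij) (fun i j hij => by
    by_contra hne
    exact (he i j hne).2 hij) C out hf hC

theorem pm_dnets_U {s m k S : ℕ} (hs : 1 ≤ s) (U : Finset (Fin m × Fin m))
    (hU : DisjointEdges k U) (ts : List ℕ)
    (hF : Finds (Gen.dnetClass S) U ts (k / csz s) HasPM) : 2 ^ s ≤ (ts.sum + 1) * S := by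
  obtain ⟨e, heU, he⟩ := hU
  exact pm_dnets hs U e heU (fun i j hij => by
    by_contra hne
    exact (he i j hne).1 hij) (fun i j hij => by
    by_contra hne
    exact (he i j hne).2 hij) ts hF

theorem tdm_circuits_U {s m k : ℕ} (hs : 1 ≤ s) (U : Finset (Fin m × Fin m × Fin m))
    (hU : DisjointTriples k U) (C : Circuit (Fin m × Fin m × Fin m))
    (out : Wire (Fin m × Fin m × Fin m))
    (hf : ∀ x : Fin m × Fin m × Fin m → Bool, Circuit.val C x out = true ↔ Has3DM x)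
    (hC : ChangesOn U (fun x => Circuit.notVals C x) (k / csz s)) : 2 ^ s ≤ Circuit.size C := by
  obtain ⟨e, heU, he⟩ := hU
  exact tdm_circuits hs U e heU (fun i j hij => by
    by_contra hne
    exact (he i j hne).1 hij) (fun i j hij => by
    by_contra hne
    exact (he i j hne).2.1 hij) (fun i j hij => by
    by_contra hne
    exact (he i j hne).2.2 hij) C out hf hC

theorem tdm_dnets_U {s m k S : ℕ} (hs : 1 ≤ s) (U : Finset (Fin m × Fin m × Fin m))
    (hU : DisjointTriples k U) (ts : List ℕ)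
    (hF : Finds (Gen.dnetClass S) U ts (k / csz s) Has3DM) : 2 ^ s ≤ (ts.sum + 1) * S := by
  obtain ⟨e, heU, he⟩ := hU
  exact tdm_dnets hs U e heU (fun i j hij => by
    by_contra hne
    exact (he i j hne).1 hij) (fun i j hij => by
    by_contra hne
    exact (he i j hne).2.1 hij) (fun i j hij => by
    by_contra hne
    exact (he i j hne).2.2 hij) ts hF

theorem reach_mono' {r L M : ℕ} {x y : Arc r L M → Bool} (h : x ≤ y) (hx : Reach x) :
    Reach y := by
  unfold Reach at hx ⊢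
  generalize Vtx.t = v at hx ⊢
  induction hx with
  | refl => exact Relation.ReflTransGen.refl
  | tail _ hst ih =>
    obtain ⟨e, he, h1, h2⟩ := hst
    exact ih.tail ⟨e, Bool.le_iff_imp.mp (h e) he, h1, h2⟩

theorem clean_bound' {p N : ℕ} (hp : 6 ≤ p)
    (h : 2 ^ (2 * p ^ 2) ≤ 2 ^ (4 * p + 6) * (6 * (N + 2))) : 2 ^ p ^ 2 ≤ N := by
  by_contra hcon
  have hN : N < 2 ^ p ^ 2 := not_le.mp hcon
  have h1 : N + 2 ≤ 2 ^ (p ^ 2 + 1) := by
    have : 1 ≤ 2 ^ p ^ 2 := Nat.one_le_two_pow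
    rw [pow_succ]
    omega
  have h2 : 2 ^ (2 * p ^ 2) < 2 ^ (4 * p + 6) * (2 ^ 3 * 2 ^ (p ^ 2 + 1)) := by
    refine h.trans_lt ?_
    refine Nat.mul_lt_mul_of_pos_left ?_ (by positivity)
    have h3 : 0 < 2 ^ (p ^ 2 + 1) := by positivity
    omega
  rw [← pow_add, ← pow_add] at h2
  have h3 := (Nat.pow_lt_pow_iff_right (by norm_num)).1 h2
  nlinarith

/-- **Reachability, switching networks.** -/
theorem conn_nets {p k N S : ℕ} (hp : 6 ≤ p) (U : Finset (Fin (N + 1) × Fin (N + 1)))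
    (hU : DisjointArcs k U) (ts : List ℕ)
    (hF : Finds (Gen.netClass S) U ts (k / 2 ^ (11 * p + 4)) Conn) :
    2 ^ p ^ 2 ≤ (ts.sum + 1) * S := by
  classical
  have hpos : 0 < k / 2 ^ (11 * p + 4) := by
    obtain ⟨Q, P, -, -, -, h, -⟩ := hF
    exact changesOn_pos' h
  have hN : 0 < N := by
    by_contra hcon
    obtain ⟨e, heU, he, hd, hne⟩ := hU
    have hk : 0 < k := by
      by_contra h0
      rw [show k = 0 by omega, Nat.zero_div] at hpos
      exact absurd hpos (lt_irrefl _)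
    have h1 := (hne ⟨0, hk⟩).1
    apply h1
    apply Fin.ext
    have h2 := (e ⟨0, hk⟩).1.2
    simp only [Fin.val_zero]
    omega
  have : Finite (Arc 6 (2 ^ p - 1) (2 ^ (5 * p))) :=
    Finite.of_equiv _ (arcEquiv 6 (2 ^ p - 1) (2 ^ (5 * p))).symm
  let _ : Fintype (Arc 6 (2 ^ p - 1) (2 ^ (5 * p))) := Fintype.ofFinite _
  have hcard : Fintype.card (Arc 6 (2 ^ p - 1) (2 ^ (5 * p))) ≤ 6 * 2 ^ (11 * p) := by
    rw [← Nat.card_eq_fintype_card]
    exact card_arc_le 6 p (by omega)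
  have hroom : 2 * (k / 2 ^ (11 * p + 4)) * Fintype.card (Arc 6 (2 ^ p - 1) (2 ^ (5 * p))) ≤ k := by
    calc 2 * (k / 2 ^ (11 * p + 4)) * Fintype.card (Arc 6 (2 ^ p - 1) (2 ^ (5 * p)))
        ≤ 2 * (k / 2 ^ (11 * p + 4)) * (6 * 2 ^ (11 * p)) := Nat.mul_le_mul_left _ hcard
      _ = 12 * (k / 2 ^ (11 * p + 4) * 2 ^ (11 * p)) := by ring
      _ ≤ 16 * (k / 2 ^ (11 * p + 4) * 2 ^ (11 * p)) := Nat.mul_le_mul_right _ (by norm_num)
      _ = k / 2 ^ (11 * p + 4) * 2 ^ (11 * p + 4) := by rw [pow_add]; ring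
      _ ≤ k := Nat.div_mul_le_self _ _
  obtain ⟨φ, h1, h2⟩ := conn_blocks_U U hU hroom hN
  obtain ⟨Gs, h3, h4, h5⟩ := classes_or_all (Gen.netClass S)
    (fun u : Arc 6 (2 ^ p - 1) (2 ^ (5 * p)) → Bool => decide (Reach u)) (by
      intro u v huv
      rw [Bool.le_iff_imp]
      simp only [decide_eq_true_eq]
      exact reach_mono' huv) Conn U φ h1 (fun y => by rw [h2 y]; simp) ts hF
  exact clean_bound' hp (inst_reach Gs h3 h4 fun u => by rw [← h5 u]; simp)

end Pool.Agent.NTN
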