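import Pool.Agent.NTN.AvgNet
import Pool.Agent.NTN.ThrNet
import Pool.Agent.NTN.AvgNumR
import Pool.Agent.NTN.Final

/-!
# Reachability on average: queries to switching networks
-/

set_option autoImplicit false

namespace Pool.Agent.NTN

open Pool.Agent.NegLim Pool.Agent.NTR Pool.Agent.TeleNeg Pool.Agent.GB24 Finset
open scoped BigOperators

theorem reach_ones {r L M : ℕ} [NeZero r] [NeZero M] :
    Reach (fun _ : Arc r L M => true) := by
  have h1 : ∀ i : ℕ, ∀ hi : i < L + 1, Relation.ReflTransGen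
      (fun u v => ∃ e : Arc r L M, (fun _ : Arc r L M => true) e = true ∧ e.tail = u ∧ e.head = v)
      Vtx.s (Vtx.node 0 ⟨i, hi⟩ 0) := by
    intro i
    induction i with
    | zero =>
      intro hi
      exact Relation.ReflTransGen.single ⟨.first 0 0, rfl, rfl, rfl⟩
    | succ i ih =>
      intro hi
      exact (ih (by omega)).tail ⟨.mid 0 ⟨i, by omega⟩ 0 0, rfl, rfl, rfl⟩
  exact (h1 L (by omega)).tail ⟨.last 0 0, rfl, rfl, rfl⟩

theorem not_reach_zeros {r L M : ℕ} : ¬ Reach (fun _ : Arc r L M => false) := by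
  intro h
  unfold Reach at h
  rcases Relation.ReflTransGen.cases_tail h with h1 | ⟨c, -, e, he, -⟩
  · exact absurd h1 (by simp)
  · exact Bool.false_ne_true he

open Classical in
/-- **Reachability, average case, switching networks.** -/
theorem conn_average {s p N k : ℕ} (hp : 100 ≤ p) (hs : 1 ≤ s) (hsp : 16 * s ≤ p ^ 2)
    (hk : 1 ≤ k) (U : Finset (Fin (N + 1) × Fin (N + 1))) (hU : DisjointArcs k U) :
    ∃ μ : (Fin (N + 1) × Fin (N + 1) → Bool) → ℝ, (∀ x, 0 ≤ μ x) ∧ ∑ x, μ x = 1 ∧
      (∀ x x', μ x ≠ 0 → μ x' ≠ 0 → ∀ v, v ∉ U → x v = x' v) ∧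
      ∀ (S : ℕ) (ts : List ℕ) (T b : ℕ) (A : (Fin (N + 1) × Fin (N + 1) → Bool) → Bool),
        (ts.sum + T) * S ≤ 2 ^ s → Tries (Gen.netClass S) U ts T b A →
        ∑ x with (A x = true ↔ Conn x), μ x
          ≤ 1 / 2 + (1 / 2) ^ s + (T + 1) * b * 2 ^ (11 * p + 4) / k := by
  have hk' : (0 : ℝ) < k := by exact_mod_cast hk
  set c : ℕ := 2 ^ (11 * p + 4) with hc
  have hc0 : 0 < c := by positivity
  have hcR : ((2 : ℝ) ^ (11 * p + 4)) = (c : ℝ) := by
    rw [hc]
    push_cast
    rfl
  rw [hcR]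
  have hc' : (0 : ℝ) < c := by exact_mod_cast hc0
  rcases Nat.lt_or_ge k c with hlt | hge
  · -- the trivial case
    have h2 : (1 : ℝ) ≤ c / k := by
      rw [one_le_div hk']
      exact_mod_cast hlt.le
    have h5 : (0 : ℝ) ≤ (1 / 2) ^ s := by positivity
    refine ⟨fun x => if x = (fun _ => false) then 1 else 0, fun x => ?_, ?_, ?_, ?_⟩
    · dsimp only
      split_ifs <;> norm_num
    · rw [Finset.sum_ite_eq' Finset.univ]
      simp
    · intro x x' hx hx' v _
      have e1 : x = fun _ => false := by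
        by_contra h
        exact hx (if_neg h)
      have e2 : x' = fun _ => false := by
        by_contra h
        exact hx' (if_neg h)
      rw [e1, e2]
    · intro S ts T b A hS hA
      obtain ⟨Q, P, h, -, -, -, hch, -⟩ := hA
      have hb : 0 < b := changesOn_pos' hch
      have h1 : ∑ x with (A x = true ↔ Conn x),
          (if x = (fun _ => false) then (1 : ℝ) else 0)
          ≤ ∑ x : Fin (N + 1) × Fin (N + 1) → Bool,
            (if x = (fun _ => false) then (1 : ℝ) else 0) :=
        Finset.sum_le_sum_of_subset_of_nonneg (Finset.filter_subset _ _) (by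
          intro x _ _
          split_ifs <;> norm_num)
      rw [Finset.sum_ite_eq' Finset.univ] at h1
      simp only [Finset.mem_univ, if_true] at h1
      refine h1.trans ?_
      have h3 : (1 : ℝ) ≤ (T + 1) * b := by
        have e1 : (1 : ℝ) ≤ b := by exact_mod_cast hb
        have e2 : (0 : ℝ) ≤ T := by positivity
        nlinarith
      have h4 : (1 : ℝ) ≤ (T + 1) * b * c / k := by
        rw [mul_div_assoc]
        exact one_le_mul_of_one_le_of_one_le h3 h2
      linarith
  · have hr : 1 ≤ k / c := (Nat.one_le_div_iff hc0).2 hge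
    have hN : 0 < N := by
      by_contra hcon
      obtain ⟨e, heU, he, hd, hne⟩ := hU
      have h1 := (hne ⟨0, hk⟩).1
      apply h1
      apply Fin.ext
      have h2 := (e ⟨0, hk⟩).1.2
      simp only [Fin.val_zero]
      omega
    have : Finite (Arc 6 (2 ^ p - 1) (2 ^ (5 * p))) :=
      Finite.of_equiv _ (arcEquiv 6 (2 ^ p - 1) (2 ^ (5 * p))).symm
    let _ : Fintype (Arc 6 (2 ^ p - 1) (2 ^ (5 * p))) := Fintype.ofFinite _
    set cd := Fintype.card (Arc 6 (2 ^ p - 1) (2 ^ (5 * p))) with hcd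
    have hcard : cd ≤ 6 * 2 ^ (11 * p) := by
      rw [hcd, ← Nat.card_eq_fintype_card]
      exact card_arc_le 6 p (by omega)
    have hcd1 : 1 ≤ cd := by
      rw [hcd]
      exact Fintype.card_pos_iff.2 ⟨.first 0 ⟨0, by positivity⟩⟩
    have hroom : 2 * (k / c) * cd ≤ k := by
      calc 2 * (k / c) * cd ≤ 2 * (k / c) * (6 * 2 ^ (11 * p)) := Nat.mul_le_mul_left _ hcard
        _ = 12 * (k / c * 2 ^ (11 * p)) := by ring
        _ ≤ 16 * (k / c * 2 ^ (11 * p)) := Nat.mul_le_mul_right _ (by norm_num)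
        _ = k / c * c := by
            have : c = 2 ^ (11 * p) * 2 ^ 4 := by rw [hc, pow_add]
            rw [this]
            ring
        _ ≤ k := Nat.div_mul_le_self _ _
    obtain ⟨φ, h1, h2⟩ := conn_blocks_U U hU hroom hN
    have h5 : (0 : ℝ) < (1 / 2) ^ s := by positivity
    have h6 : ((1 / 2 : ℝ)) ^ s < 1 := pow_lt_one₀ (by norm_num) (by norm_num) (by omega)
    have hk1 : 1 ≤ 3 * cd * 4 ^ s := by
      have : 1 ≤ 4 ^ s := Nat.one_le_pow _ _ (by norm_num)
      nlinarith
    obtain ⟨i, j, e1, e2, e3, e4⟩ := exists_levels hk1 hcd1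
    obtain ⟨μ, m1, m2, m3, m4⟩ := average_queries_or (U := U) hr
      (fun u : Arc 6 (2 ^ p - 1) (2 ^ (5 * p)) → Bool => decide (Reach u)) (by
        intro u v huv
        rw [Bool.le_iff_imp]
        simp only [decide_eq_true_eq]
        exact reach_mono' huv) Conn φ h1 (fun y => by rw [h2 y]; simp) h5 h6 (3 * cd * 4 ^ s) (by
        have h7 : ((1 / 2 : ℝ) ^ s) ^ 2 = 1 / 4 ^ s := by
          rw [← pow_mul, mul_comm, pow_mul, show (1 / 2 : ℝ) ^ 2 = 1 / 4 by norm_num, one_div_pow]
        rw [h7]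
        push_cast
        have h8 : (3 * (cd : ℝ) * 4 ^ s) * (1 / 4 ^ s) = 3 * (cd : ℝ) := by
          field_simp
        rw [h8])
      {H | (Gen.netClass (2 ^ s + 2)).mem _ H} (by
        refine ⟨fun _ => true, fun _ => false, ?_, ?_⟩
        · rw [decide_eq_true_eq]
          exact reach_ones
        · rw [decide_eq_false_iff_not]
          exact not_reach_zeros) (by
        intro L θ hL hLS hcon
        have h7 := netClass_thr (S := 2 ^ s + 2) (Nat.le_add_left 2 _) L θ hcon hLS i j
          (by rw [hL]; exact e1) e2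
        refine reach_not_net hp hs hsp hcard e3 e4 (S' := lsz (2 ^ s + 2) (2 * i + j + 2)) ?_ _ h7
          fun u => by rw [decide_eq_true_eq]
        rw [lsz_eq])
    refine ⟨μ, m1, m2, fun x x' hx hx' v hv => ?_, fun S ts T b A hS hA => ?_⟩
    · obtain ⟨c', hc'⟩ := h1 v hv
      rw [m3 x hx v c' hc', m3 x' hx' v c' hc']
    · have h11 := m4 (Gen.netClass S) ts T b A
        (fun H hH => orSet_net (Nat.add_le_add_right hS 2) hH) hA
      refine h11.trans ?_
      have hr' : (0 : ℝ) < (k / c : ℕ) := by exact_mod_cast hr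
      have h12 : (k : ℝ) ≤ 2 * c * (k / c : ℕ) := by
        have h2 : k < c * (k / c + 1) := Nat.lt_mul_div_succ k hc0
        rw [mul_add, mul_one] at h2
        have h3 : c ≤ c * (k / c) := Nat.le_mul_of_pos_right _ hr
        have h4 : k ≤ 2 * c * (k / c) := by
          rw [mul_assoc]
          omega
        exact_mod_cast h4
      have h13 : ((T : ℝ) + 1) * b / (2 * (k / c : ℕ)) ≤ (T + 1) * b * c / k := by
        rw [div_le_div_iff₀ (by positivity) hk']
        have h6 : (0 : ℝ) ≤ (T + 1) * b := by positivity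
        calc ((T : ℝ) + 1) * b * k ≤ (T + 1) * b * (2 * c * (k / c : ℕ)) :=
              mul_le_mul_of_nonneg_left h12 h6
          _ = (T + 1) * b * c * (2 * (k / c : ℕ)) := by ring
      linarith

end Pool.Agent.NTN
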