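import Pool.Agent.NTN.AvgAnd
import Pool.Agent.NTN.Inst
import Pool.Agent.NTN.Principle
import Pool.Agent.NTN.Restr
import Pool.Agent.NTR.AvgPlain

/-!
# Matchings: average-case instances
-/

set_option autoImplicit false

namespace Pool.Agent.NTN

open Pool.Agent.NegLim Pool.Agent.NTR Pool.Agent.TeleNeg Pool.Agent.PMB Pool.Agent.GB24 Finset
open scoped BigOperators

theorem log_succ_le {s : ℕ} (hs : 1 ≤ s) : Nat.log 2 s + 1 ≤ s :=
  Nat.log_lt_self 2 (by omega)

/-- The exponent used in the average-case instances. -/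
theorem four_bsz {s : ℕ} (hs : 1 ≤ s) : 4 * bsz s ≤ 2 ^ (160 * s) := by
  have h1 := log_succ_le hs
  have h2 : s ≤ 2 ^ s := Nat.lt_two_pow_self.le
  calc 4 * bsz s = 2 ^ 152 * (s ^ 5 * (Nat.log 2 s + 1) ^ 2) := by
        unfold bsz
        rw [show (2 : ℕ) ^ 152 = 4 * 2 ^ 150 by norm_num]
        ring
    _ ≤ 2 ^ 152 * (s ^ 5 * s ^ 2) :=
        Nat.mul_le_mul_left _ (Nat.mul_le_mul_left _ (Nat.pow_le_pow_left h1 2))
    _ = 2 ^ 152 * s ^ 7 := by rw [← pow_add]
    _ ≤ 2 ^ 152 * (2 ^ s) ^ 7 := Nat.mul_le_mul_left _ (Nat.pow_le_pow_left h2 7)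
    _ = 2 ^ (152 + s * 7) := by rw [← pow_mul, ← pow_add]
    _ ≤ 2 ^ (160 * s) := Nat.pow_le_pow_right (by norm_num) (by omega)

theorem bsz_big {s : ℕ} (hs : 1 ≤ s) :
    2 ^ 29 * (8 * (160 * s)) ^ 5 * (Nat.log 2 (bsz s) + 1) ^ 2 ≤ bsz s := by
  calc 2 ^ 29 * (8 * (160 * s)) ^ 5 * (Nat.log 2 (bsz s) + 1) ^ 2
      ≤ 2 ^ 29 * (8 * (160 * s)) ^ 5 * (2 ^ 15 * (Nat.log 2 s + 1) ^ 2) :=
        Nat.mul_le_mul_left _ (sq_log hs)
    _ = 2 ^ 59 * 160 ^ 5 * (s ^ 5 * (Nat.log 2 s + 1) ^ 2) := by ring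
    _ ≤ 2 ^ 150 * (s ^ 5 * (Nat.log 2 s + 1) ^ 2) := Nat.mul_le_mul_right _ (by norm_num)
    _ = bsz s := by rw [bsz]; ring

open Classical in
/-- **Average case: the common part.** -/
theorem match_average {ι : Type} [Fintype ι] [DecidableEq ι] {s r : ℕ} (hs : 1 ≤ s)
    (hr : 1 ≤ r) (f : (ι → Bool) → Prop) (U : Finset ι)
    (hφ : ∃ φ : ι → (Fin r × (Fin (bsz s) × Fin (bsz s))) ⊕ Bool,
      (∀ v, v ∉ U → ∃ c, φ v = .inr c) ∧
      ∀ x : Fin r × (Fin (bsz s) × Fin (bsz s)) → Bool,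
        f (fun v => Sum.elim x id (φ v)) ↔ ∀ i, HasPM fun b => x (i, b)) :
    ∃ μ : (ι → Bool) → ℝ, (∀ x, 0 ≤ μ x) ∧ ∑ x, μ x = 1 ∧
      (∀ x x', μ x ≠ 0 → μ x' ≠ 0 → ∀ v, v ∉ U → x v = x' v) ∧
      ∀ (T b : ℕ) (C : Circuit ι) (out : Fin T → Wire ι) (h : (Fin T → Bool) → Bool),
        C.size + T ≤ 2 ^ s → ChangesOn U (fun x => C.notVals x) b →
        ∑ x with (h (fun i => C.val x (out i)) = true ↔ f x), μ x
          ≤ 1 / 2 + (1 / 2) ^ s + (T + 1) * b / (2 * r) := by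
  obtain ⟨φ, h1, h2⟩ := hφ
  set w := 160 * s with hw
  have h5 : (0 : ℝ) < (1 / 2) ^ w := by positivity
  have h6 : ((1 / 2 : ℝ)) ^ w < 1 := pow_lt_one₀ (by norm_num) (by norm_num) (by omega)
  obtain ⟨μ, m1, m2, m3, m4⟩ := average_and (U := U) hr (fun u => decide (HasPM u))
    decide_hasPM_mono h5 h6 (3 * bsz s ^ 2 * 4 ^ w) (2 ^ (4 * w)) (by
      have h7 : ((1 / 2 : ℝ) ^ w) ^ 2 = 1 / 4 ^ w := by
        rw [← pow_mul, mul_comm, pow_mul, show (1 / 2 : ℝ) ^ 2 = 1 / 4 by norm_num, one_div_pow]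
      rw [h7, Fintype.card_prod, Fintype.card_fin]
      push_cast
      have h8 : (3 * (bsz s : ℝ) ^ 2 * 4 ^ w) * (1 / 4 ^ w) = 3 * (bsz s : ℝ) ^ 2 := by
        field_simp
      rw [h8, sq]) (by
      intro M o h7 h8
      refine (inst_numbers (bsz s) w (four_bsz hs)).trans_le ?_
      exact match_circuit (bsz s) (8 * w) (by omega) (bsz_big hs) M o h7 fun u => by
        rw [h8 u, decide_eq_true_eq]) (fun x => decide (f x)) φ h1
    (fun x => by rw [decide_eq_true_eq, h2 x]; simp)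
  refine ⟨μ, m1, m2, fun x x' hx hx' v hv => ?_, fun T b C out h hC hb => ?_⟩
  · obtain ⟨c, hc⟩ := h1 v hv
    rw [m3 x hx v c hc, m3 x' hx' v c hc]
  obtain ⟨a, rfl⟩ : ∃ a, b = a + 1 := ⟨b - 1, by have := changesOn_pos' hb; omega⟩
  have h11 := m4 T a C out h (hC.trans (Nat.pow_le_pow_right (by norm_num) (by omega))) hb
  have h12 : ∑ x with (h (fun i => Circuit.val C x (out i)) = true ↔ f x), μ x
      = ∑ x with h (fun i => Circuit.val C x (out i)) = decide (f x), μ x :=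
    sum_filter_iff μ _ _ fun x => by
      by_cases hfx : f x
      · simp only [hfx, iff_true, decide_true]
      · simp only [hfx, iff_false, decide_false, Bool.not_eq_true]
  rw [h12]
  refine h11.trans ?_
  have h9 : ((1 / 2 : ℝ)) ^ w ≤ (1 / 2) ^ s :=
    pow_le_pow_of_le_one (by norm_num) (by norm_num) (by omega)
  have h10 : (0 : ℝ) ≤ (1 / 2) ^ s := by positivity
  push_cast
  linarith

open Classical in
/-- **Average case, all `k`.** -/
theorem match_average_all {ι : Type} [Fintype ι] [DecidableEq ι] {s k : ℕ} (hs : 1 ≤ s)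
    (hk : 1 ≤ k) (f : (ι → Bool) → Prop) (U : Finset ι)
    (hφ : ∃ φ : ι → (Fin (k / csz s) × (Fin (bsz s) × Fin (bsz s))) ⊕ Bool,
      (∀ v, v ∉ U → ∃ c, φ v = .inr c) ∧
      ∀ x : Fin (k / csz s) × (Fin (bsz s) × Fin (bsz s)) → Bool,
        f (fun v => Sum.elim x id (φ v)) ↔ ∀ i, HasPM fun b => x (i, b)) :
    ∃ μ : (ι → Bool) → ℝ, (∀ x, 0 ≤ μ x) ∧ ∑ x, μ x = 1 ∧
      (∀ x x', μ x ≠ 0 → μ x' ≠ 0 → ∀ v, v ∉ U → x v = x' v) ∧
      ∀ (T b : ℕ) (C : Circuit ι) (out : Fin T → Wire ι) (h : (Fin T → Bool) → Bool),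
        C.size + T ≤ 2 ^ s → ChangesOn U (fun x => C.notVals x) b →
        ∑ x with (h (fun i => C.val x (out i)) = true ↔ f x), μ x
          ≤ 1 / 2 + (1 / 2) ^ s + (T + 1) * b * csz s / k := by
  have hc : 0 < csz s := by
    unfold csz
    positivity
  have hc' : (0 : ℝ) < csz s := by exact_mod_cast hc
  have hk' : (0 : ℝ) < k := by exact_mod_cast hk
  rcases Nat.lt_or_ge k (csz s) with hlt | hge
  · refine ⟨fun x => if x = (fun _ => false) then 1 else 0, fun x => ?_, ?_, ?_, ?_⟩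
    · dsimp only
      split_ifs <;> norm_num
    · rw [Finset.sum_ite_eq' Finset.univ]
      simp
    · intro x x' hx hx' v _
      have e1 : x = fun _ => false := by
        by_contra h
        exact hx (if_neg h)
      have e2 : x' = fun _ => false := by
        by_contra h
        exact hx' (if_neg h)
      rw [e1, e2]
    · intro T b C out h hC hb
      have hb1 : 0 < b := changesOn_pos' hb
      have h1 : ∑ x with (h (fun i => C.val x (out i)) = true ↔ f x),
          (if x = (fun _ => false) then (1 : ℝ) else 0)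
          ≤ ∑ x : ι → Bool, (if x = (fun _ => false) then (1 : ℝ) else 0) :=
        Finset.sum_le_sum_of_subset_of_nonneg (Finset.filter_subset _ _) (by
          intro x _ _
          split_ifs <;> norm_num)
      rw [Finset.sum_ite_eq' Finset.univ] at h1
      simp only [Finset.mem_univ, if_true] at h1
      refine h1.trans ?_
      have h2 : (1 : ℝ) ≤ csz s / k := by
        rw [one_le_div hk']
        exact_mod_cast hlt.le
      have h3 : (1 : ℝ) ≤ (T + 1) * b := by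
        have e1 : (1 : ℝ) ≤ b := by exact_mod_cast hb1
        have e2 : (0 : ℝ) ≤ T := by positivity
        nlinarith
      have h4 : (1 : ℝ) ≤ (T + 1) * b * csz s / k := by
        rw [mul_div_assoc]
        exact one_le_mul_of_one_le_of_one_le h3 h2
      have h5 : (0 : ℝ) ≤ (1 / 2) ^ s := by positivity
      linarith
  · have hr : 1 ≤ k / csz s := (Nat.one_le_div_iff hc).2 hge
    obtain ⟨μ, m1, m2, m3, m4⟩ := match_average hs hr f U hφ
    refine ⟨μ, m1, m2, m3, fun T b C out h hC hb => (m4 T b C out h hC hb).trans ?_⟩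
    have hr' : (0 : ℝ) < (k / csz s : ℕ) := by exact_mod_cast hr
    have h1 : (k : ℝ) ≤ 2 * csz s * (k / csz s : ℕ) := by
      have h2 : k < csz s * (k / csz s + 1) := Nat.lt_mul_div_succ k hc
      rw [mul_add, mul_one] at h2
      have h3 : csz s ≤ csz s * (k / csz s) := Nat.le_mul_of_pos_right _ hr
      have h4 : k ≤ 2 * csz s * (k / csz s) := by
        rw [mul_assoc]
        omega
      exact_mod_cast h4
    have h5 : ((T : ℝ) + 1) * b / (2 * (k / csz s : ℕ)) ≤ (T + 1) * b * csz s / k := by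
      rw [div_le_div_iff₀ (by positivity) hk']
      have h6 : (0 : ℝ) ≤ (T + 1) * b := by positivity
      calc ((T : ℝ) + 1) * b * k ≤ (T + 1) * b * (2 * csz s * (k / csz s : ℕ)) :=
            mul_le_mul_of_nonneg_left h1 h6
        _ = (T + 1) * b * csz s * (2 * (k / csz s : ℕ)) := by ring
    linarith

open Classical in
/-- **Perfect matching, average case.** -/
theorem pm_average {s m k : ℕ} (hs : 1 ≤ s) (hk : 1 ≤ k) (U : Finset (Fin m × Fin m))
    (hU : DisjointEdges k U) :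
    ∃ μ : (Fin m × Fin m → Bool) → ℝ, (∀ x, 0 ≤ μ x) ∧ ∑ x, μ x = 1 ∧
      (∀ x x', μ x ≠ 0 → μ x' ≠ 0 → ∀ v, v ∉ U → x v = x' v) ∧
      ∀ (T b : ℕ) (C : Circuit (Fin m × Fin m)) (out : Fin T → Wire (Fin m × Fin m))
        (h : (Fin T → Bool) → Bool),
        C.size + T ≤ 2 ^ s → ChangesOn U (fun x => C.notVals x) b →
        ∑ x with (h (fun i => C.val x (out i)) = true ↔ HasPM x), μ x
          ≤ 1 / 2 + (1 / 2) ^ s + (T + 1) * b * csz s / k := by
  obtain ⟨e, heU, he⟩ := hU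
  exact match_average_all hs hk HasPM U (pm_restriction U e heU
    (fun i j hij => by by_contra hne; exact (he i j hne).1 hij)
    (fun i j hij => by by_contra hne; exact (he i j hne).2 hij))

open Classical in
/-- **3-dimensional matching, average case.** -/
theorem tdm_average {s m k : ℕ} (hs : 1 ≤ s) (hk : 1 ≤ k) (U : Finset (Fin m × Fin m × Fin m))
    (hU : DisjointTriples k U) :
    ∃ μ : (Fin m × Fin m × Fin m → Bool) → ℝ, (∀ x, 0 ≤ μ x) ∧ ∑ x, μ x = 1 ∧
      (∀ x x', μ x ≠ 0 → μ x' ≠ 0 → ∀ v, v ∉ U → x v = x' v) ∧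
      ∀ (T b : ℕ) (C : Circuit (Fin m × Fin m × Fin m))
        (out : Fin T → Wire (Fin m × Fin m × Fin m)) (h : (Fin T → Bool) → Bool),
        C.size + T ≤ 2 ^ s → ChangesOn U (fun x => C.notVals x) b →
        ∑ x with (h (fun i => C.val x (out i)) = true ↔ Has3DM x), μ x
          ≤ 1 / 2 + (1 / 2) ^ s + (T + 1) * b * csz s / k := by
  obtain ⟨e, heU, he⟩ := hU
  exact match_average_all hs hk Has3DM U (tdm_restriction U e heU
    (fun i j hij => by by_contra hne; exact (he i j hne).1 hij)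
    (fun i j hij => by by_contra hne; exact (he i j hne).2.1 hij)
    (fun i j hij => by by_contra hne; exact (he i j hne).2.2 hij))

end Pool.Agent.NTN
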