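import Pool.Agent.NTN.Inst
import Pool.Agent.NTN.AvgNumR

/-!
# Average case for directed networks: numbers
-/

set_option autoImplicit false

namespace Pool.Agent.NTN

open Pool.Agent.NegLim Pool.Agent.NTR Pool.Agent.TeleNeg Pool.Agent.PMB Pool.Agent.GB24 Finset

theorem log_sixteen {s : ℕ} (hs : 1 ≤ s) : Nat.log 2 (16 * s) ≤ Nat.log 2 s + 4 := by
  have h1 : s < 2 ^ (Nat.log 2 s + 1) := Nat.lt_pow_succ_log_self (by norm_num) s
  have h2 : 16 * s < 2 ^ (Nat.log 2 s + 5) := by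
    rw [show Nat.log 2 s + 5 = (Nat.log 2 s + 1) + 4 by ring, pow_add]
    omega
  have h3 := Nat.log_lt_of_lt_pow (by omega) h2
  omega

/-- The number of disjoint edges for one change, networks. -/
theorem csz16_le {s : ℕ} (hs : 1 ≤ s) :
    csz (16 * s) ≤ 2 ^ 352 * s ^ 10 * (Nat.log 2 s + 1) ^ 4 := by
  have h1 := log_sixteen hs
  have h2 : Nat.log 2 (16 * s) + 1 ≤ 5 * (Nat.log 2 s + 1) := by omega
  have h3 : (2 : ℕ) ^ 302 * 16 ^ 10 * 5 ^ 4 ≤ 2 ^ 352 := by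
    rw [show (352 : ℕ) = 302 + 50 from rfl, pow_add, mul_assoc]
    exact Nat.mul_le_mul_left _ (by norm_num)
  unfold csz
  calc 2 ^ 302 * (16 * s) ^ 10 * (Nat.log 2 (16 * s) + 1) ^ 4
      ≤ 2 ^ 302 * (16 * s) ^ 10 * (5 * (Nat.log 2 s + 1)) ^ 4 :=
        Nat.mul_le_mul_left _ (Nat.pow_le_pow_left h2 4)
    _ = 2 ^ 302 * 16 ^ 10 * 5 ^ 4 * (s ^ 10 * (Nat.log 2 s + 1) ^ 4) := by ring
    _ ≤ 2 ^ 352 * (s ^ 10 * (Nat.log 2 s + 1) ^ 4) := Nat.mul_le_mul_right _ h3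
    _ = 2 ^ 352 * s ^ 10 * (Nat.log 2 s + 1) ^ 4 := by ring

/-- **Numbers for perfect matching.** A directed network obtained by amplification from networks
with `2 ^ s + 2` nodes does not compute perfect matching on `b + b` vertices,
`b = bsz (16 * s)`. -/
theorem pm_not_net {s i j S' b : ℕ} (hs : 1 ≤ s) (hb : b = bsz (16 * s))
    (hi : 2 * 2 ^ i ≤ 2 * (3 * (b * b) * 4 ^ s) + 1) (hj : 2 ^ j ≤ 6 * (b * b))
    (hS : S' + 2 ≤ 8 ^ (2 * i + j + 2) * (2 ^ s + 4)) (F : (Fin b × Fin b → Bool) → Bool)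
    (hF : (Gen.dnetClass S').mem (Fin b × Fin b) F) : ¬ ∀ u, F u = true ↔ HasPM u := by
  intro hFu
  obtain ⟨N, hN⟩ := hF
  have hs' : 1 ≤ 16 * s := by omega
  have hLb : Nat.log 2 b ≤ 182 + 7 * Nat.log 2 s := by
    have h1 := log_bsz hs'
    rw [← hb] at h1
    have h2 := log_sixteen hs
    omega
  have hls : Nat.log 2 s + 1 ≤ s := log_le_self' hs
  have hb1 : b < 2 ^ (Nat.log 2 b + 1) := Nat.lt_pow_succ_log_self (by norm_num) b
  set Lb := Nat.log 2 b with hLbdef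
  have hbb : 6 * (b * b) ≤ 2 ^ (2 * Lb + 5) := by
    have h1 : b * b < 2 ^ (2 * Lb + 2) := by
      rw [show 2 * Lb + 2 = (Lb + 1) + (Lb + 1) by ring, pow_add]
      exact Nat.mul_lt_mul'' hb1 hb1
    rw [show 2 * Lb + 5 = (2 * Lb + 2) + 3 by ring, pow_add]
    omega
  have hQ := amp_size hs hbb hi hj hS
  have h1 : 2 ^ (2 ^ 15 * s) ≤ (2 ^ (9 * (2 * Lb + 5) + 13 * s + 8)) ^ 4 := by
    refine net_match (m := b) (w := 2 ^ 15 * s) (by omega) ?_ N (fun u => by rw [hN u, hFu u])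
      (by omega)
    have h2 := sq_log hs'
    rw [← hb, ← hLbdef] at h2
    calc 2 ^ 80 * (2 ^ 15 * s) ^ 5 * (Lb + 1) ^ 2
        ≤ 2 ^ 80 * (2 ^ 15 * s) ^ 5 * (2 ^ 15 * (Nat.log 2 (16 * s) + 1) ^ 2) :=
          Nat.mul_le_mul_left _ h2
      _ = 2 ^ 150 * (16 * s) ^ 5 * (Nat.log 2 (16 * s) + 1) ^ 2 := by
          rw [show (16 : ℕ) = 2 ^ 4 by norm_num]
          ring
      _ = b := by rw [hb, bsz]
  rw [← pow_mul] at h1
  have h2 := (Nat.pow_le_pow_iff_right (by norm_num : 1 < 2)).1 h1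
  omega

end Pool.Agent.NTN
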