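import Pool.Agent.NTN.AvgMatch
import Pool.Agent.NTN.CliqueNum
import Pool.Agent.NTN.CliqueRestr
import Pool.Agent.NTR.CliqueBound

/-!
# Cliques on average: one distribution for circuits and for queries to directed networks
-/

set_option autoImplicit false

namespace Pool.Agent.NTN

open Pool.Agent.NegLim Pool.Agent.NTR Pool.Agent.TeleNeg Finset
open scoped BigOperators

theorem card_edge_le (n : ℕ) : Fintype.card (Edge n) ≤ n ^ 2 := by
  refine (Fintype.card_subtype_le _).trans (le_of_eq ?_)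
  simp [sq]

/-- Directed networks with `2 ^ s + 2` nodes over few variables are small circuits. -/
theorem dnet_gates_card {s w c : ℕ} (hw : s + 4 ≤ w) (hc : c ≤ 2 ^ (2 * w)) :
    3 * ((2 ^ s + 2) ^ 2 * c + (2 ^ s + 2) ^ 3) ≤ 2 ^ (4 * w) := by
  have h2 : (2 : ℕ) ^ s + 2 ≤ 2 ^ (s + 2) := by
    have : 1 ≤ 2 ^ s := Nat.one_le_two_pow
    rw [pow_add]
    omega
  calc 3 * ((2 ^ s + 2) ^ 2 * c + (2 ^ s + 2) ^ 3)
      ≤ 3 * ((2 ^ (s + 2)) ^ 2 * 2 ^ (2 * w) + (2 ^ (s + 2)) ^ 3) := by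
        refine Nat.mul_le_mul_left _ (Nat.add_le_add ?_ (Nat.pow_le_pow_left h2 3))
        exact Nat.mul_le_mul (Nat.pow_le_pow_left h2 2) hc
    _ = 3 * (2 ^ (2 * s + 4 + 2 * w) + 2 ^ (3 * s + 6)) := by
        rw [← pow_mul, ← pow_mul, ← pow_add]
        congr 3 <;> ring
    _ ≤ 3 * (2 ^ (4 * w - 3) + 2 ^ (4 * w - 3)) := by
        refine Nat.mul_le_mul_left _ (Nat.add_le_add ?_ ?_) <;>
          exact Nat.pow_le_pow_right (by norm_num) (by omega)
    _ ≤ 2 ^ 3 * 2 ^ (4 * w - 3) := by omega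
    _ = 2 ^ (4 * w) := by rw [← pow_add]; congr 1; omega

/-- Conjunctions of directed networks are small circuits without NOT gates. -/
theorem andSet_cSet_card {β : Type} [Fintype β] {s w S q : ℕ} (hw : s + 4 ≤ w)
    (hc : Fintype.card β ≤ 2 ^ (2 * w)) (h : q * S ≤ 2 ^ s) :
    andSet (Gen.dnetClass S) β q ⊆ cSet β (2 ^ (4 * w)) := by
  intro H hH
  obtain ⟨N, hN⟩ := andSet_dnet (S₀ := 2 ^ s + 2) (Nat.add_le_add_right h 2) hH
  obtain ⟨C, o, h1, h2, h3⟩ := dnet_circuit N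
  exact ⟨C, o, h1, h2.trans (dnet_gates_card hw hc), fun u => by rw [h3, hN]⟩

open Classical in
/-- **Average case, one distribution, cliques: the common part.** -/
theorem clique_both {ι : Type} [Fintype ι] [DecidableEq ι] {s n w r : ℕ} (hw : s + 4 ≤ w)
    (h4 : 4 * n ≤ 2 ^ w) (hbig : 2 ^ 37 * (8 * w) ^ 4 * (Nat.log 2 n + 1) ^ 6 ≤ n ^ 2)
    (hr : 1 ≤ r) (f : (ι → Bool) → Prop) (U : Finset ι)
    (hφ : ∃ φ : ι → (Fin r × Edge n) ⊕ Bool,
      (∀ v, v ∉ U → ∃ c, φ v = .inr c) ∧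
      ∀ x : Fin r × Edge n → Bool,
        f (fun v => Sum.elim x id (φ v)) ↔ ∀ i, HasClique (n / 2) fun e => x (i, e)) :
    ∃ μ : (ι → Bool) → ℝ, (∀ x, 0 ≤ μ x) ∧ ∑ x, μ x = 1 ∧
      (∀ x x', μ x ≠ 0 → μ x' ≠ 0 → ∀ v, v ∉ U → x v = x' v) ∧
      (∀ (T b : ℕ) (C : Circuit ι) (out : Fin T → Wire ι) (h : (Fin T → Bool) → Bool),
        C.size + T ≤ 2 ^ s → ChangesOn U (fun x => C.notVals x) b →
        ∑ x with (h (fun i => C.val x (out i)) = true ↔ f x), μ x
          ≤ 1 / 2 + (1 / 2) ^ s + (T + 1) * b / (2 * r)) ∧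
      ∀ (S : ℕ) (ts : List ℕ) (T b : ℕ) (A : (ι → Bool) → Bool),
        (ts.sum + T) * S ≤ 2 ^ s → Tries (Gen.dnetClass S) U ts T b A →
        ∑ x with (A x = true ↔ f x), μ x
          ≤ 1 / 2 + (1 / 2) ^ s + (T + 1) * b / (2 * r) := by
  obtain ⟨φ, h1, h2⟩ := hφ
  have h5 : (0 : ℝ) < (1 / 2) ^ w := by positivity
  have h6 : ((1 / 2 : ℝ)) ^ w < 1 := pow_lt_one₀ (by norm_num) (by norm_num) (by omega)
  have hlog : Nat.log 2 n ≤ 8 * w := by
    have h7 : n ≤ 2 ^ w := by omega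
    have h8 : Nat.log 2 n ≤ Nat.log 2 (2 ^ w) := Nat.log_mono_right h7
    rw [Nat.log_pow (by norm_num)] at h8
    omega
  have hmono : Monotone fun u : Edge n → Bool => decide (HasClique (n / 2) u) := by
    intro u v huv hu
    rw [decide_eq_true_eq] at hu ⊢
    exact hasClique_mono huv hu
  have hcardR : (Fintype.card (Edge n) : ℝ) ≤ (n : ℝ) ^ 2 := by exact_mod_cast card_edge_le n
  obtain ⟨μ, m1, m2, m3, m4, m5⟩ := both_and (U := U) hr
    (fun u : Edge n → Bool => decide (HasClique (n / 2) u))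
    hmono f φ h1 (fun x => by rw [h2 x]; simp) h5 h6 (3 * n ^ 2 * 4 ^ w)
    (2 ^ (4 * w)) (by
      have h7 : ((1 / 2 : ℝ) ^ w) ^ 2 = 1 / 4 ^ w := by
        rw [← pow_mul, mul_comm, pow_mul, show (1 / 2 : ℝ) ^ 2 = 1 / 4 by norm_num, one_div_pow]
      rw [h7]
      push_cast
      have h8 : (3 * (n : ℝ) ^ 2 * 4 ^ w) * (1 / 4 ^ w) = 3 * (n : ℝ) ^ 2 := by
        field_simp
      rw [h8]
      linarith) (by
      intro M o h7 h8
      refine (inst_numbers n w h4).trans_le ?_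
      exact clique_bound n (8 * w) (by omega) hlog hbig M o h7 fun u => by
        rw [h8 u, decide_eq_true_eq])
  have h9 : ((1 / 2 : ℝ)) ^ w ≤ (1 / 2) ^ s :=
    pow_le_pow_of_le_one (by norm_num) (by norm_num) (by omega)
  have h10 : (0 : ℝ) ≤ (1 / 2) ^ s := by positivity
  refine ⟨μ, m1, m2, fun x x' hx hx' v hv => ?_, fun T b C out h hC hb => ?_,
    fun S ts T b A hS hA => ?_⟩
  · obtain ⟨c, hc⟩ := h1 v hv
    rw [m3 x hx v c hc, m3 x' hx' v c hc]
  · have h11 := m4 T b C out h (hC.trans (Nat.pow_le_pow_right (by norm_num) (by omega))) hb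
    refine h11.trans ?_
    linarith
  · have h12 : Fintype.card (Edge n) ≤ 2 ^ (2 * w) := by
      have h13 : n ≤ 2 ^ w := by omega
      calc Fintype.card (Edge n) ≤ n ^ 2 := card_edge_le n
        _ ≤ (2 ^ w) ^ 2 := Nat.pow_le_pow_left h13 2
        _ = 2 ^ (2 * w) := by rw [← pow_mul, mul_comm]
    have h11 := m5 (Gen.dnetClass S) ts T b A (andSet_cSet_card hw h12 hS) hA
    refine h11.trans ?_
    linarith

open Classical in
/-- **Average case, one distribution, cliques, all `k`.** The restriction has `k / c` copies. -/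
theorem clique_both_all {ι : Type} [Fintype ι] [DecidableEq ι] {s n w k c : ℕ}
    (hw : s + 4 ≤ w) (h4 : 4 * n ≤ 2 ^ w)
    (hbig : 2 ^ 37 * (8 * w) ^ 4 * (Nat.log 2 n + 1) ^ 6 ≤ n ^ 2) (hc : 0 < c) (hk : 1 ≤ k)
    (f : (ι → Bool) → Prop) (U : Finset ι)
    (hφ : 1 ≤ k / c → ∃ φ : ι → (Fin (k / c) × Edge n) ⊕ Bool,
      (∀ v, v ∉ U → ∃ c, φ v = .inr c) ∧
      ∀ x : Fin (k / c) × Edge n → Bool,
        f (fun v => Sum.elim x id (φ v)) ↔ ∀ i, HasClique (n / 2) fun e => x (i, e)) :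
    ∃ μ : (ι → Bool) → ℝ, (∀ x, 0 ≤ μ x) ∧ ∑ x, μ x = 1 ∧
      (∀ x x', μ x ≠ 0 → μ x' ≠ 0 → ∀ v, v ∉ U → x v = x' v) ∧
      (∀ (T b : ℕ) (C : Circuit ι) (out : Fin T → Wire ι) (h : (Fin T → Bool) → Bool),
        C.size + T ≤ 2 ^ s → ChangesOn U (fun x => C.notVals x) b →
        ∑ x with (h (fun i => C.val x (out i)) = true ↔ f x), μ x
          ≤ 1 / 2 + (1 / 2) ^ s + (T + 1) * b * c / k) ∧
      ∀ (S : ℕ) (ts : List ℕ) (T b : ℕ) (A : (ι → Bool) → Bool),
        (ts.sum + T) * S ≤ 2 ^ s → Tries (Gen.dnetClass S) U ts T b A →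
        ∑ x with (A x = true ↔ f x), μ x
          ≤ 1 / 2 + (1 / 2) ^ s + (T + 1) * b * c / k := by
  have hk' : (0 : ℝ) < k := by exact_mod_cast hk
  rcases Nat.lt_or_ge k c with hlt | hge
  · -- the trivial case
    have h2 : (1 : ℝ) ≤ c / k := by
      rw [one_le_div hk']
      exact_mod_cast hlt.le
    have h5 : (0 : ℝ) ≤ (1 / 2) ^ s := by positivity
    have key : ∀ (T b : ℕ), 0 < b → (1 : ℝ) ≤ 1 / 2 + (1 / 2) ^ s + (T + 1) * b * c / k := by
      intro T b hb
      have h3 : (1 : ℝ) ≤ (T + 1) * b := by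
        have e1 : (1 : ℝ) ≤ b := by exact_mod_cast hb
        have e2 : (0 : ℝ) ≤ T := by positivity
        nlinarith
      have h4 : (1 : ℝ) ≤ (T + 1) * b * c / k := by
        rw [mul_div_assoc]
        exact one_le_mul_of_one_le_of_one_le h3 h2
      linarith
    have hμ : ∀ (P : (ι → Bool) → Prop) [DecidablePred P],
        ∑ x with P x, (if x = (fun _ => false) then (1 : ℝ) else 0) ≤ 1 := by
      intro P _
      have h1 : ∑ x with P x, (if x = (fun _ => false) then (1 : ℝ) else 0)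
          ≤ ∑ x : ι → Bool, (if x = (fun _ => false) then (1 : ℝ) else 0) :=
        Finset.sum_le_sum_of_subset_of_nonneg (Finset.filter_subset _ _) (by
          intro x _ _
          split_ifs <;> norm_num)
      rw [Finset.sum_ite_eq' Finset.univ] at h1
      simpa using h1
    refine ⟨fun x => if x = (fun _ => false) then 1 else 0, fun x => ?_, ?_, ?_, ?_, ?_⟩
    · dsimp only
      split_ifs <;> norm_num
    · rw [Finset.sum_ite_eq' Finset.univ]
      simp
    · intro x x' hx hx' v _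
      have e1 : x = fun _ => false := by
        by_contra h
        exact hx (if_neg h)
      have e2 : x' = fun _ => false := by
        by_contra h
        exact hx' (if_neg h)
      rw [e1, e2]
    · intro T b C out h hC hb
      exact (hμ _).trans (key T b (changesOn_pos' hb))
    · intro S ts T b A hS hA
      obtain ⟨Q, P, h, -, -, -, hch, -⟩ := hA
      exact (hμ _).trans (key T b (changesOn_pos' hch))
  · have hr : 1 ≤ k / c := (Nat.one_le_div_iff hc).2 hge
    obtain ⟨μ, m1, m2, m3, m4, m5⟩ := clique_both hw h4 hbig hr f U (hφ hr)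
    have hr' : (0 : ℝ) < (k / c : ℕ) := by exact_mod_cast hr
    have h1 : (k : ℝ) ≤ 2 * c * (k / c : ℕ) := by
      have h2 : k < c * (k / c + 1) := Nat.lt_mul_div_succ k hc
      rw [mul_add, mul_one] at h2
      have h3 : c ≤ c * (k / c) := Nat.le_mul_of_pos_right _ hr
      have h4 : k ≤ 2 * c * (k / c) := by
        rw [mul_assoc]
        omega
      exact_mod_cast h4
    have h5 : ∀ T b : ℕ, 1 / 2 + (1 / 2) ^ s + ((T : ℝ) + 1) * b / (2 * (k / c : ℕ))
        ≤ 1 / 2 + (1 / 2) ^ s + (T + 1) * b * c / k := by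
      intro T b
      refine add_le_add le_rfl ?_
      rw [div_le_div_iff₀ (by positivity) hk']
      have h6 : (0 : ℝ) ≤ (T + 1) * b := by positivity
      calc ((T : ℝ) + 1) * b * k ≤ (T + 1) * b * (2 * c * (k / c : ℕ)) :=
            mul_le_mul_of_nonneg_left h1 h6
        _ = (T + 1) * b * c * (2 * (k / c : ℕ)) := by ring
    exact ⟨μ, m1, m2, m3, fun T b C out h hC hb => (m4 T b C out h hC hb).trans (h5 T b),
      fun S ts T b A hS hA => (m5 S ts T b A hS hA).trans (h5 T b)⟩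

open Classical in
/-- **Clique, average case, circuits and directed networks.** -/
theorem clique_average_both {s N k : ℕ} (hs : 1 ≤ s) (hk : 1 ≤ k) (U : Finset (Edge N))
    (hU : DisjointPairs k U) :
    ∃ μ : (Edge N → Bool) → ℝ, (∀ x, 0 ≤ μ x) ∧ ∑ x, μ x = 1 ∧
      (∀ x x', μ x ≠ 0 → μ x' ≠ 0 → ∀ v, v ∉ U → x v = x' v) ∧
      (∀ (T b : ℕ) (C : Circuit (Edge N)) (out : Fin T → Wire (Edge N))
        (h : (Fin T → Bool) → Bool),
        C.size + T ≤ 2 ^ s → ChangesOn U (fun x => C.notVals x) b →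
        ∑ x with (h (fun i => C.val x (out i)) = true ↔ HasClique (N / 2) x), μ x
          ≤ 1 / 2 + (1 / 2) ^ s + (T + 1) * b * ccz s / k) ∧
      ∀ (S : ℕ) (ts : List ℕ) (T b : ℕ) (A : (Edge N → Bool) → Bool),
        (ts.sum + T) * S ≤ 2 ^ s → Tries (Gen.dnetClass S) U ts T b A →
        ∑ x with (A x = true ↔ HasClique (N / 2) x), μ x
          ≤ 1 / 2 + (1 / 2) ^ s + (T + 1) * b * ccz s / k :=
  clique_both_all (n := nsz s) (w := 67 * s) (by omega) (four_nsz_le hs) (nsz_big hs)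
    (ccz_pos hs) hk (HasClique (N / 2)) U fun hr =>
      clique_blocks_U hr ((by norm_num : 2 ≤ 2 ^ 60).trans (nsz_pos hs)) (by
        have h1 := Nat.mul_div_le k (ccz s)
        calc 4 * (k / ccz s * nsz s ^ 2) = ccz s * (k / ccz s) := by rw [ccz_eq]; ring
          _ ≤ k := h1) U hU

end Pool.Agent.NTN
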