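import Pool.Agent.NTR.Nets
import Pool.Agent.NTN.Maj

/-!
# Composition of monotone networks

If `F` is computed by a network with `S` nodes on the variables `κ`, and every `G k` by a network
with `T` nodes, then `x ↦ F (k ↦ G k x)` is computed by a network with `S + S * S * |κ| * T` nodes,
for undirected contacts (`netClass`) and for directed contacts (`dnetClass`).
-/

set_option autoImplicit false

namespace Pool.Agent.NTN

open Pool.Agent.TeleNeg Pool.Agent.NTR Relation

/-- Joined by a closed contact, in one of the two directions. -/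
def LinkedIn {V ι : Type} (C : Set (V × V × Option ι)) (x : ι → Bool) (a b : V) : Prop :=
  ∃ l : Option ι, ((a, b, l) ∈ C ∨ (b, a, l) ∈ C) ∧ ∀ e ∈ l, x e = true

/-- Joined by a closed contact. -/
def StepIn {V ι : Type} (C : Set (V × V × Option ι)) (x : ι → Bool) (a b : V) : Prop :=
  ∃ l : Option ι, (a, b, l) ∈ C ∧ ∀ e ∈ l, x e = true

theorem val_iff {ι : Type} {S : ℕ} (N : Net ι S) (x : ι → Bool) :
    N.val x = true ↔ ReflTransGen (N.Linked x) N.src N.tgt := by
  simp only [Net.val, decide_eq_true_eq]
  rfl

theorem dval_iff {ι : Type} {S : ℕ} (N : Net ι S) (x : ι → Bool) :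
    N.dval x = true ↔ ReflTransGen (N.Step x) N.src N.tgt := by
  simp only [Net.dval, decide_eq_true_eq]
  rfl

/-- A network whose nodes are the elements of a finite type. -/
theorem exists_net {V ι : Type} [Fintype V] (C : Set (V × V × Option ι)) (s t : V) {S : ℕ}
    (hS : Fintype.card V ≤ S) :
    ∃ M : Net ι S, (∀ x, M.val x = true ↔ ReflTransGen (LinkedIn C x) s t) ∧
      ∀ x, M.dval x = true ↔ ReflTransGen (StepIn C x) s t := by
  classical
  let e := Fintype.equivFin V
  let M : Net ι (Fintype.card V) :=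
    { contacts := {c | (e.symm c.1, e.symm c.2.1, c.2.2) ∈ C}
      src := e s
      tgt := e t }
  have hL : ∀ (x : ι → Bool) p q, M.Linked x p q ↔
      ∃ a b, p = e a ∧ q = e b ∧ LinkedIn C x a b := by
    intro x p q
    constructor
    · rintro ⟨l, h1, h2⟩
      exact ⟨e.symm p, e.symm q, (e.apply_symm_apply p).symm, (e.apply_symm_apply q).symm,
        l, h1, h2⟩
    · rintro ⟨a, b, rfl, rfl, l, h1, h2⟩
      refine ⟨l, ?_, h2⟩
      show (e.symm (e a), e.symm (e b), l) ∈ C ∨ (e.symm (e b), e.symm (e a), l) ∈ C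
      rwa [e.symm_apply_apply, e.symm_apply_apply]
  have hD : ∀ (x : ι → Bool) p q, M.Step x p q ↔
      ∃ a b, p = e a ∧ q = e b ∧ StepIn C x a b := by
    intro x p q
    constructor
    · rintro ⟨l, h1, h2⟩
      exact ⟨e.symm p, e.symm q, (e.apply_symm_apply p).symm, (e.apply_symm_apply q).symm,
        l, h1, h2⟩
    · rintro ⟨a, b, rfl, rfl, l, h1, h2⟩
      refine ⟨l, ?_, h2⟩
      show (e.symm (e a), e.symm (e b), l) ∈ C
      rwa [e.symm_apply_apply, e.symm_apply_apply]
  refine ⟨padNet hS M, fun x => ?_, fun x => ?_⟩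
  · rw [padNet_val, val_iff]
    exact lift_iff e e.injective (hL x) s t
  · rw [padNet_dval, dval_iff]
    exact lift_iff e e.injective (hD x) s t

section

variable {ι κ : Type} {S T : ℕ} (N : Net κ S) (M : κ → Net ι T)

/-- The nodes of the composed network. -/
abbrev CNode (κ : Type) (S T : ℕ) : Type := Fin S ⊕ ((Fin S × Fin S × κ) × Fin T)

/-- The contacts of the composed network. -/
def compC : Set (CNode κ S T × CNode κ S T × Option ι) :=
  {c | (∃ a b, (a, b, none) ∈ N.contacts ∧ c = (.inl a, .inl b, none)) ∨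
    (∃ a b k, (a, b, some k) ∈ N.contacts ∧ c = (.inl a, .inr ((a, b, k), (M k).src), none)) ∨
    (∃ a b k, (a, b, some k) ∈ N.contacts ∧ c = (.inr ((a, b, k), (M k).tgt), .inl b, none)) ∨
    ∃ a b k p q l, (a, b, some k) ∈ N.contacts ∧ (p, q, l) ∈ (M k).contacts ∧
      c = (.inr ((a, b, k), p), .inr ((a, b, k), q), l)}

theorem comp_dval (x : ι → Bool) :
    ReflTransGen (StepIn (compC N M) x) (.inl N.src) (.inl N.tgt) ↔
      ReflTransGen (N.Step fun k => (M k).dval x) N.src N.tgt := by
  constructor
  · intro h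
    have inv : ∀ v, ReflTransGen (StepIn (compC N M) x) (.inl N.src) v →
        match v with
        | .inl a => ReflTransGen (N.Step fun k => (M k).dval x) N.src a
        | .inr ((a, b, k), p) => (a, b, some k) ∈ N.contacts ∧
            ReflTransGen (N.Step fun k => (M k).dval x) N.src a ∧
            ReflTransGen ((M k).Step x) (M k).src p := by
      intro v hv
      induction hv with
      | refl => exact ReflTransGen.refl
      | tail _ hs ih =>
        obtain ⟨l, hl, hx⟩ := hs
        rcases hl with ⟨a, b, hc, he⟩ | ⟨a, b, k, hc, he⟩ | ⟨a, b, k, hc, he⟩ |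
          ⟨a, b, k, p, q, l', hc, hc', he⟩
        · simp only [Prod.mk.injEq] at he
          obtain ⟨rfl, rfl, rfl⟩ := he
          exact ReflTransGen.tail ih ⟨none, hc, by simp⟩
        · simp only [Prod.mk.injEq] at he
          obtain ⟨rfl, rfl, rfl⟩ := he
          exact ⟨hc, ih, ReflTransGen.refl⟩
        · simp only [Prod.mk.injEq] at he
          obtain ⟨rfl, rfl, rfl⟩ := he
          refine ReflTransGen.tail ih.2.1 ⟨some k, hc, ?_⟩
          intro e he
          rw [Option.mem_def, Option.some.injEq] at he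
          subst he
          exact (dval_iff _ _).2 ih.2.2
        · simp only [Prod.mk.injEq] at he
          obtain ⟨rfl, rfl, rfl⟩ := he
          exact ⟨hc, ih.2.1, ih.2.2.tail ⟨l, hc', hx⟩⟩
    exact inv _ h
  · intro h
    have key : ∀ b, ReflTransGen (N.Step fun k => (M k).dval x) N.src b →
        ReflTransGen (StepIn (compC N M) x) (.inl N.src) (.inl b) := by
      intro b hb
      induction hb with
      | refl => exact ReflTransGen.refl
      | @tail b c _ hs ih =>
        obtain ⟨l, hl, hx⟩ := hs
        rcases l with _ | k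
        · exact ih.tail ⟨none, Or.inl ⟨b, c, hl, rfl⟩, by simp⟩
        · have h1 : ReflTransGen ((M k).Step x) (M k).src (M k).tgt := by
            exact (dval_iff _ _).1 (hx k rfl)
          have h3 : ReflTransGen (StepIn (compC N M) x) (.inr ((b, c, k), (M k).src))
              (.inr ((b, c, k), (M k).tgt)) := by
            refine ReflTransGen.lift (fun p => (.inr ((b, c, k), p) : CNode κ S T)) ?_ _ _ h1
            rintro p q ⟨l, hl', hx'⟩
            exact ⟨l, Or.inr (Or.inr (Or.inr ⟨b, c, k, p, q, l, hl, hl', rfl⟩)), hx'⟩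
          exact (ih.tail ⟨none, Or.inr (Or.inl ⟨b, c, k, hl, rfl⟩), by simp⟩).trans
            (h3.tail ⟨none, Or.inr (Or.inr (Or.inl ⟨b, c, k, hl, rfl⟩)), by simp⟩)
    exact key _ h

theorem linked_symm {V ι : Type} (C : Set (V × V × Option ι)) (x : ι → Bool) {a b : V}
    (h : LinkedIn C x a b) : LinkedIn C x b a := by
  obtain ⟨l, h1, h2⟩ := h
  exact ⟨l, h1.symm, h2⟩

theorem net_linked_symm {x : ι → Bool} (M : Net ι T) {a b : Fin T} (h : M.Linked x a b) :
    M.Linked x b a := by
  obtain ⟨l, h1, h2⟩ := h
  exact ⟨l, h1.symm, h2⟩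

theorem net_rtg_symm {x : ι → Bool} (M : Net ι T) {a b : Fin T}
    (h : ReflTransGen (M.Linked x) a b) : ReflTransGen (M.Linked x) b a := by
  induction h with
  | refl => exact ReflTransGen.refl
  | tail _ hs ih => exact ReflTransGen.head (net_linked_symm M hs) ih

theorem comp_val (x : ι → Bool) :
    ReflTransGen (LinkedIn (compC N M) x) (.inl N.src) (.inl N.tgt) ↔
      ReflTransGen (N.Linked fun k => (M k).val x) N.src N.tgt := by
  constructor
  · intro h
    -- a node of a copy is reached from one of the two ends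
    have hk : ∀ (a b : Fin S) (k : κ), (a, b, some k) ∈ N.contacts →
        ReflTransGen ((M k).Linked x) (M k).src (M k).tgt →
        N.Linked (fun k => (M k).val x) a b := by
      intro a b k hc h
      refine ⟨some k, Or.inl hc, ?_⟩
      intro e he
      rw [Option.mem_def, Option.some.injEq] at he
      subst he
      exact (val_iff _ _).2 h
    have inv : ∀ v, ReflTransGen (LinkedIn (compC N M) x) (.inl N.src) v →
        match v with
        | .inl a => ReflTransGen (N.Linked fun k => (M k).val x) N.src a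
        | .inr ((a, b, k), p) => (a, b, some k) ∈ N.contacts ∧
            ((ReflTransGen (N.Linked fun k => (M k).val x) N.src a ∧
              ReflTransGen ((M k).Linked x) (M k).src p) ∨
            (ReflTransGen (N.Linked fun k => (M k).val x) N.src b ∧
              ReflTransGen ((M k).Linked x) (M k).tgt p)) := by
      intro v hv
      induction hv with
      | refl => exact ReflTransGen.refl
      | tail _ hs ih =>
        obtain ⟨l, hl, hx⟩ := hs
        rcases hl with hl | hl
        · rcases hl with ⟨a, b, hc, he⟩ | ⟨a, b, k, hc, he⟩ | ⟨a, b, k, hc, he⟩ |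
            ⟨a, b, k, p, q, l', hc, hc', he⟩
          · simp only [Prod.mk.injEq] at he
            obtain ⟨rfl, rfl, rfl⟩ := he
            exact ReflTransGen.tail ih ⟨none, Or.inl hc, by simp⟩
          · simp only [Prod.mk.injEq] at he
            obtain ⟨rfl, rfl, rfl⟩ := he
            exact ⟨hc, Or.inl ⟨ih, ReflTransGen.refl⟩⟩
          · simp only [Prod.mk.injEq] at he
            obtain ⟨rfl, rfl, rfl⟩ := he
            rcases ih.2 with ⟨h1, h2⟩ | ⟨h1, -⟩
            · exact ReflTransGen.tail h1 (hk a b k hc h2)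
            · exact h1
          · simp only [Prod.mk.injEq] at he
            obtain ⟨rfl, rfl, rfl⟩ := he
            refine ⟨hc, ?_⟩
            rcases ih.2 with ⟨h1, h2⟩ | ⟨h1, h2⟩
            · exact Or.inl ⟨h1, h2.tail ⟨l, Or.inl hc', hx⟩⟩
            · exact Or.inr ⟨h1, h2.tail ⟨l, Or.inl hc', hx⟩⟩
        · rcases hl with ⟨a, b, hc, he⟩ | ⟨a, b, k, hc, he⟩ | ⟨a, b, k, hc, he⟩ |
            ⟨a, b, k, p, q, l', hc, hc', he⟩
          · simp only [Prod.mk.injEq] at he
            obtain ⟨rfl, rfl, rfl⟩ := he
            exact ReflTransGen.tail ih ⟨none, Or.inr hc, by simp⟩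
          · simp only [Prod.mk.injEq] at he
            obtain ⟨rfl, rfl, rfl⟩ := he
            rcases ih.2 with ⟨h1, -⟩ | ⟨h1, h2⟩
            · exact h1
            · exact ReflTransGen.tail h1
                (net_linked_symm N (hk a b k hc (net_rtg_symm (M k) h2)))
          · simp only [Prod.mk.injEq] at he
            obtain ⟨rfl, rfl, rfl⟩ := he
            exact ⟨hc, Or.inr ⟨ih, ReflTransGen.refl⟩⟩
          · simp only [Prod.mk.injEq] at he
            obtain ⟨rfl, rfl, rfl⟩ := he
            refine ⟨hc, ?_⟩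
            rcases ih.2 with ⟨h1, h2⟩ | ⟨h1, h2⟩
            · exact Or.inl ⟨h1, h2.tail ⟨l, Or.inr hc', hx⟩⟩
            · exact Or.inr ⟨h1, h2.tail ⟨l, Or.inr hc', hx⟩⟩
    exact inv _ h
  · intro h
    have hcopy : ∀ (a b : Fin S) (k : κ), (a, b, some k) ∈ N.contacts → (M k).val x = true →
        ReflTransGen (LinkedIn (compC N M) x) (.inl a) (.inl b) := by
      intro a b k hc hv
      have h1 : ReflTransGen ((M k).Linked x) (M k).src (M k).tgt := by
        exact (val_iff _ _).1 hv
      have h3 : ReflTransGen (LinkedIn (compC N M) x) (.inr ((a, b, k), (M k).src))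
          (.inr ((a, b, k), (M k).tgt)) := by
        refine ReflTransGen.lift (fun p => (.inr ((a, b, k), p) : CNode κ S T)) ?_ _ _ h1
        rintro p q ⟨l, (hl' | hl'), hx'⟩
        · exact ⟨l, Or.inl (Or.inr (Or.inr (Or.inr ⟨a, b, k, p, q, l, hc, hl', rfl⟩))), hx'⟩
        · exact ⟨l, Or.inr (Or.inr (Or.inr (Or.inr ⟨a, b, k, q, p, l, hc, hl', rfl⟩))), hx'⟩
      exact (ReflTransGen.single ⟨none, Or.inl (Or.inr (Or.inl ⟨a, b, k, hc, rfl⟩)), by simp⟩).trans
        (h3.tail ⟨none, Or.inl (Or.inr (Or.inr (Or.inl ⟨a, b, k, hc, rfl⟩))), by simp⟩)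
    have hsymm : ∀ v w : CNode κ S T, ReflTransGen (LinkedIn (compC N M) x) v w →
        ReflTransGen (LinkedIn (compC N M) x) w v := by
      intro v w hvw
      induction hvw with
      | refl => exact ReflTransGen.refl
      | tail _ hs ih => exact ReflTransGen.head (linked_symm _ x hs) ih
    have key : ∀ b, ReflTransGen (N.Linked fun k => (M k).val x) N.src b →
        ReflTransGen (LinkedIn (compC N M) x) (.inl N.src) (.inl b) := by
      intro b hb
      induction hb with
      | refl => exact ReflTransGen.refl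
      | @tail b c _ hs ih =>
        obtain ⟨l, hl, hx⟩ := hs
        rcases l with _ | k
        · rcases hl with hl | hl
          · exact ih.tail ⟨none, Or.inl (Or.inl ⟨b, c, hl, rfl⟩), by simp⟩
          · exact ih.tail ⟨none, Or.inr (Or.inl ⟨c, b, hl, rfl⟩), by simp⟩
        · rcases hl with hl | hl
          · exact ih.trans (hcopy b c k hl (hx k rfl))
          · exact ih.trans (hsymm _ _ (hcopy c b k hl (hx k rfl)))
    exact key _ h

end

theorem card_CNode (κ : Type) [Fintype κ] (S T : ℕ) :
    Fintype.card (CNode κ S T) = S + S * S * Fintype.card κ * T := by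
  simp only [CNode, Fintype.card_sum, Fintype.card_prod, Fintype.card_fin]
  ring

/-- **Composition of networks with undirected contacts.** -/
theorem netClass_comp {ι κ : Type} [Fintype κ] {S T : ℕ} {F : (κ → Bool) → Bool}
    (hF : (Gen.netClass S).mem κ F) {G : κ → (ι → Bool) → Bool}
    (hG : ∀ k, (Gen.netClass T).mem ι (G k)) :
    (Gen.netClass (S + S * S * Fintype.card κ * T)).mem ι fun x => F fun k => G k x := by
  classical
  obtain ⟨N, hN⟩ := hF
  choose M hM using hG
  obtain ⟨L, hL, -⟩ := exists_net (compC N M) (.inl N.src) (.inl N.tgt)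
    (card_CNode κ S T).le
  refine ⟨L, fun x => ?_⟩
  have h : (fun k => (M k).val x) = fun k => G k x := funext fun k => hM k x
  rw [Bool.eq_iff_iff, hL, comp_val, h]
  show _ ↔ F (fun k => G k x) = true
  rw [← hN, val_iff]

/-- **Composition of networks with directed contacts.** -/
theorem dnetClass_comp {ι κ : Type} [Fintype κ] {S T : ℕ} {F : (κ → Bool) → Bool}
    (hF : (Gen.dnetClass S).mem κ F) {G : κ → (ι → Bool) → Bool}
    (hG : ∀ k, (Gen.dnetClass T).mem ι (G k)) :
    (Gen.dnetClass (S + S * S * Fintype.card κ * T)).mem ι fun x => F fun k => G k x := by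
  classical
  obtain ⟨N, hN⟩ := hF
  choose M hM using hG
  obtain ⟨L, -, hL⟩ := exists_net (compC N M) (.inl N.src) (.inl N.tgt)
    (card_CNode κ S T).le
  refine ⟨L, fun x => ?_⟩
  have h : (fun k => (M k).dval x) = fun k => G k x := funext fun k => hM k x
  rw [Bool.eq_iff_iff, hL, comp_dval, h]
  show _ ↔ F (fun k => G k x) = true
  rw [← hN, dval_iff]

end Pool.Agent.NTN
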