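import Pool.Agent.NTN.Compose
import Pool.Agent.NTN.ThrNet
import Pool.Agent.NTN.AvgClass
import Pool.Agent.NWE.Defs

/-!
# The converse: `n + 1` changes suffice for every function of nonuniform (non)deterministic log space

Every function `f` of `n` variables computed by a switching network on the literals is computed by
one round of `n` queries to the threshold functions, whose answers change at most `n` times along
every increasing sequence, and one last query. All queries are monotone networks of polynomial size: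
on the inputs with exactly `m` ones the negated variable `¬ x_i` is the threshold `m` of the other
variables.
-/

set_option autoImplicit false

namespace Pool.Agent.NTN

open Pool.Agent.TeleNeg Pool.Agent.NTR Pool.Agent.NWE Finset

/-- The number of ones. -/
def wt {n : ℕ} (x : Fin n → Bool) : ℕ := (univ.filter fun i => x i = true).card

/-- The threshold function: at least `m` of the variables in `A` are true. -/
def thr {n : ℕ} (A : Finset (Fin n)) (m : ℕ) (x : Fin n → Bool) : Bool :=
  decide (m ≤ (A.filter fun i => x i = true).card)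

theorem wt_le {n : ℕ} (x : Fin n → Bool) : wt x ≤ n := by
  refine (card_le_univ _).trans ?_
  rw [Fintype.card_fin]

theorem wt_mono {n : ℕ} {x y : Fin n → Bool} (h : x ≤ y) : wt x ≤ wt y := by
  refine card_le_card fun i hi => ?_
  rw [mem_filter] at hi ⊢
  exact ⟨hi.1, Bool.le_iff_imp.mp (h i) hi.2⟩

/-- On the slice a negated variable is a threshold of the other variables. -/
theorem thr_erase {n : ℕ} (x : Fin n → Bool) (i : Fin n) : thr (univ.erase i) (wt x) x = !x i := by
  have h1 : (univ.erase i).filter (fun i => x i = true)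
      = (univ.filter fun i => x i = true).erase i := by
    ext a
    simp only [mem_filter, mem_erase, mem_univ, true_and, and_true]
  unfold thr wt
  rw [h1]
  cases hx : x i
  · have h2 : i ∉ univ.filter fun i => x i = true := by simp [hx]
    rw [erase_eq_of_notMem h2]
    simp
  · have h2 : i ∈ univ.filter fun i => x i = true := by simp [hx]
    have h3 := card_pos.2 ⟨i, h2⟩
    rw [card_erase_of_mem h2, Bool.not_true, decide_eq_false_iff_not]
    omega

theorem countP_range (n m : ℕ) :
    (List.range n).countP (fun j => decide (j + 1 ≤ m)) = min n m := by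
  induction n with
  | zero => simp
  | succ n ih =>
    rw [List.range_succ, List.countP_append, ih, List.countP_singleton]
    by_cases h : n + 1 ≤ m
    · simp only [h, decide_true, if_true]
      omega
    · simp only [h, decide_false]
      simp only [Bool.false_eq_true, if_false]
      omega

/-- Along an increasing sequence a function of the number of ones changes at most `n` times. -/
theorem changesOn_wt {n : ℕ} {W : Type} (w : ℕ → W) (U : Finset (Fin n)) :
    ChangesOn U (fun x => w (wt x)) (n + 1) := by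
  classical
  intro x hx _ N
  have h1 : ∀ N : ℕ, {k | k < N ∧ w (wt (x k)) ≠ w (wt (x (k + 1)))}.ncard + wt (x 0)
      ≤ wt (x N) := by
    intro N
    induction N with
    | zero =>
      have h2 : {k | k < 0 ∧ w (wt (x k)) ≠ w (wt (x (k + 1)))} = (∅ : Set ℕ) := by
        ext k
        simp
      rw [h2, Set.ncard_empty, zero_add]
    | succ N ih =>
      have h3 : wt (x N) ≤ wt (x (N + 1)) := wt_mono (hx (Nat.le_succ N))
      by_cases h4 : w (wt (x N)) = w (wt (x (N + 1)))
      · have h5 : {k | k < N + 1 ∧ w (wt (x k)) ≠ w (wt (x (k + 1)))} =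
            {k | k < N ∧ w (wt (x k)) ≠ w (wt (x (k + 1)))} := by
          ext k
          constructor
          · rintro ⟨h6, h7⟩
            refine ⟨?_, h7⟩
            rcases Nat.lt_succ_iff_lt_or_eq.1 h6 with h8 | rfl
            · exact h8
            · exact absurd h4 h7
          · rintro ⟨h6, h7⟩
            exact ⟨by omega, h7⟩
        rw [h5]
        exact ih.trans h3
      · have h5 : {k | k < N + 1 ∧ w (wt (x k)) ≠ w (wt (x (k + 1)))} ⊆
            insert N {k | k < N ∧ w (wt (x k)) ≠ w (wt (x (k + 1)))} := by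
          rintro k ⟨h6, h7⟩
          rcases Nat.lt_succ_iff_lt_or_eq.1 h6 with h8 | rfl
          · exact Set.mem_insert_of_mem _ ⟨h8, h7⟩
          · exact Set.mem_insert _ _
        have h6 : wt (x N) ≠ wt (x (N + 1)) := fun h => h4 (by rw [h])
        have hfin : {k | k < N ∧ w (wt (x k)) ≠ w (wt (x (k + 1)))}.Finite :=
          (Set.finite_lt_nat N).subset fun k hk => hk.1
        have h7 := Set.ncard_le_ncard h5 (hfin.insert N)
        have h8 := Set.ncard_insert_le N {k | k < N ∧ w (wt (x k)) ≠ w (wt (x (k + 1)))}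
        omega
  change {k | k < N ∧ w (wt (x k)) ≠ w (wt (x (k + 1)))}.ncard < n + 1
  have h2 := h1 N
  have h3 := wt_le (x N)
  omega

/-- **The converse**, for a class of monotone functions which contains the thresholds and the
functions `F` with the negated variables replaced by thresholds. -/
theorem tries_of_slices (K : Gen.MonoClass) {n : ℕ} (f : (Fin n → Bool) → Bool)
    (F : (Fin n ⊕ Fin n → Bool) → Bool) (hF : ∀ x, F (lits x) = f x)
    (hT : ∀ j < n, K.mem (Fin n) (thr univ (j + 1)))
    (hP : ∀ m, K.mem (Fin n) fun x => F (Sum.elim x fun i => thr (univ.erase i) m x)) :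
    Tries K univ [n] 1 (n + 1) f := by
  classical
  obtain ⟨ans, hans⟩ : ∃ ans : ℕ → List Bool, ans = fun m =>
      (List.range n).map fun j => decide (j + 1 ≤ m) := ⟨_, rfl⟩
  have hcount : ∀ x : Fin n → Bool, (ans (wt x)).count true = wt x := by
    intro x
    rw [hans, List.count, List.countP_map]
    have h := countP_range n (wt x)
    rw [min_eq_right (wt_le x)] at h
    refine Eq.trans ?_ h
    congr 1
    funext j
    simp
  have hA : ∀ x : Fin n → Bool,
      answers x [fun _ => (List.range n).map fun j => thr (univ : Finset (Fin n)) (j + 1)] []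
        = ans (wt x) := by
    intro x
    rw [hans, answers, answers, List.nil_append, List.map_map]
    rfl
  refine ⟨fun _ => [fun _ => (List.range n).map fun j => thr univ (j + 1)],
    fun _ v _ x => F (Sum.elim x fun i => thr (univ.erase i) (v.count true) x),
    fun _ _ z => z 0, fun _ _ _ => ⟨rfl, rfl, rfl⟩, fun x => ?_, fun _ v _ => hP _, ?_, fun x => ?_⟩
  · refine List.Forall₂.cons (fun v => ⟨?_, fun G hG => ?_⟩) List.Forall₂.nil
    · rw [List.length_map, List.length_range]
    · obtain ⟨j, hj, rfl⟩ := List.mem_map.1 hG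
      exact hT j (List.mem_range.1 hj)
  · have h : (fun x : Fin n → Bool => answers x
        [fun _ => (List.range n).map fun j => thr (univ : Finset (Fin n)) (j + 1)] [])
        = fun x => ans (wt x) := funext hA
    rw [h]
    exact changesOn_wt ans univ
  · show f x = F (Sum.elim x fun i => thr (univ.erase i) ((answers x
      [fun _ => (List.range n).map fun j => thr (univ : Finset (Fin n)) (j + 1)] []).count true) x)
    rw [hA, hcount, ← hF]
    congr 1
    funext s
    rcases s with i | i
    · rfl
    · show (!x i) = thr (univ.erase i) (wt x) x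
      rw [thr_erase]

/-- A variable is computed by a network with two nodes. -/
theorem exists_varNet {ι : Type} {S : ℕ} (hS : 2 ≤ S) (i : ι) :
    ∃ M : Net ι S, (∀ x, M.val x = x i) ∧ ∀ x, M.dval x = x i := by
  obtain ⟨M, h1, h2⟩ := exists_net (V := Bool) ({(false, true, some i)} :
    Set (Bool × Bool × Option ι)) false true (S := S) (by rw [Fintype.card_bool]; exact hS)
  have key1 : ∀ x : ι → Bool, ∀ v : Bool, Relation.ReflTransGen (LinkedIn
      ({(false, true, some i)} : Set (Bool × Bool × Option ι)) x) false v → v = true → x i = true := by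
    intro x v hv
    induction hv with
    | refl => intro h; exact absurd h (by decide)
    | tail _ hs _ =>
      intro _
      obtain ⟨l, hl, hx⟩ := hs
      rcases hl with hl | hl
      · rw [Set.mem_singleton_iff, Prod.mk.injEq, Prod.mk.injEq] at hl
        exact hx i hl.2.2
      · rw [Set.mem_singleton_iff, Prod.mk.injEq, Prod.mk.injEq] at hl
        exact hx i hl.2.2
  have key2 : ∀ x : ι → Bool, ∀ v : Bool, Relation.ReflTransGen (StepIn
      ({(false, true, some i)} : Set (Bool × Bool × Option ι)) x) false v → v = true → x i = true := by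
    intro x v hv
    induction hv with
    | refl => intro h; exact absurd h (by decide)
    | tail _ hs _ =>
      intro _
      obtain ⟨l, hl, hx⟩ := hs
      rw [Set.mem_singleton_iff, Prod.mk.injEq, Prod.mk.injEq] at hl
      exact hx i hl.2.2
  refine ⟨M, fun x => ?_, fun x => ?_⟩
  · rw [Bool.eq_iff_iff, h1]
    refine ⟨fun h => key1 x true h rfl, fun h => Relation.ReflTransGen.single
      ⟨some i, Or.inl rfl, ?_⟩⟩
    intro e he
    rw [Option.mem_def, Option.some.injEq] at he
    rw [← he]
    exact h
  · rw [Bool.eq_iff_iff, h2]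
    refine ⟨fun h => key2 x true h rfl, fun h => Relation.ReflTransGen.single
      ⟨some i, rfl, ?_⟩⟩
    intro e he
    rw [Option.mem_def, Option.some.injEq] at he
    rw [← he]
    exact h

theorem thr_list {n : ℕ} (A : Finset (Fin n)) (m : ℕ) (u : Fin n → Bool) :
    thr A m u = true ↔ m ≤ (A.toList.map fun i (x : Fin n → Bool) => x i).countP fun H => H u := by
  rw [thr, decide_eq_true_eq, List.countP_map]
  have h0 : ((fun H : (Fin n → Bool) → Bool => H u) ∘ fun i (x : Fin n → Bool) => x i)
      = fun i => decide (u i = true) := by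
    funext i
    simp
  have h : List.countP (fun i => decide (u i = true)) A.toList
      = (A.filter fun i => u i = true).card := by
    rw [← Multiset.coe_countP, Finset.coe_toList, Finset.card_def, Finset.filter_val,
      ← Multiset.countP_eq_card_filter]
  rw [h0, h]

/-- The number of nodes of the networks for the thresholds. -/
theorem thr_size {n : ℕ} (hn : 1 ≤ n) : ∃ i j : ℕ, 2 * n + 1 ≤ 4 * 2 ^ i ∧ 3 * n ≤ 2 ^ j ∧
    lsz 2 (2 * i + j + 2) ≤ 2 ^ 16 * n ^ 9 := by
  obtain ⟨i, j, h1, h2, h3, h4⟩ := exists_levels hn hn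
  refine ⟨i, j, h1, h2, ?_⟩
  have h5 := lsz_eq 2 (2 * i + j + 2)
  have h6 : 2 ^ i ≤ n := by omega
  have h7 : 8 ^ (2 * i + j + 2) * (2 + 2) = 256 * ((2 ^ i) ^ 6 * (2 ^ j) ^ 3) := by
    have h8 : (8 : ℕ) = 2 ^ 3 := by norm_num
    rw [h8, ← pow_mul, ← pow_mul, ← pow_mul]
    have h9 : (3 * (2 * i + j + 2)) = i * 6 + j * 3 + 6 := by ring
    rw [h9, pow_add, pow_add]
    ring
  have h8 : (2 ^ i) ^ 6 * (2 ^ j) ^ 3 ≤ n ^ 6 * (6 * n) ^ 3 :=
    Nat.mul_le_mul (Nat.pow_le_pow_left h6 6) (Nat.pow_le_pow_left h4 3)
  have h9 : 256 * (n ^ 6 * (6 * n) ^ 3) = 55296 * n ^ 9 := by ring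
  have h10 : 55296 * n ^ 9 ≤ 2 ^ 16 * n ^ 9 := Nat.mul_le_mul_right _ (by norm_num)
  have h11 : 256 * ((2 ^ i) ^ 6 * (2 ^ j) ^ 3) ≤ 256 * (n ^ 6 * (6 * n) ^ 3) :=
    Nat.mul_le_mul_left _ h8
  omega

theorem thr_net {n : ℕ} (hn : 1 ≤ n) (A : Finset (Fin n)) (m : ℕ) :
    (Gen.netClass (2 ^ 16 * n ^ 9)).mem (Fin n) (thr A m) := by
  obtain ⟨i, j, h1, h2, h3⟩ := thr_size hn
  refine netClass_le h3 (netClass_thr le_rfl (A.toList.map fun i (x : Fin n → Bool) => x i) m
    (fun u => thr_list A m u) (fun H hH => ?_) i j ?_ ?_)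
  · obtain ⟨k, -, rfl⟩ := List.mem_map.1 hH
    obtain ⟨M, hM, -⟩ := exists_varNet (S := 2) le_rfl k
    exact ⟨M, hM⟩
  · rw [List.length_map, Finset.length_toList]
    have := card_le_univ A
    rw [Fintype.card_fin] at this
    omega
  · rw [Fintype.card_fin]
    exact h2

theorem thr_dnet {n : ℕ} (hn : 1 ≤ n) (A : Finset (Fin n)) (m : ℕ) :
    (Gen.dnetClass (2 ^ 16 * n ^ 9)).mem (Fin n) (thr A m) := by
  obtain ⟨i, j, h1, h2, h3⟩ := thr_size hn
  refine dnetClass_le h3 (dnetClass_thr le_rfl (A.toList.map fun i (x : Fin n → Bool) => x i) m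
    (fun u => thr_list A m u) (fun H hH => ?_) i j ?_ ?_)
  · obtain ⟨k, -, rfl⟩ := List.mem_map.1 hH
    obtain ⟨M, -, hM⟩ := exists_varNet (S := 2) le_rfl k
    exact ⟨M, hM⟩
  · rw [List.length_map, Finset.length_toList]
    have := card_le_univ A
    rw [Fintype.card_fin] at this
    omega
  · rw [Fintype.card_fin]
    exact h2

theorem conv_size (n S : ℕ) : S + S * S * (n + n) * (2 ^ 16 * n ^ 9) ≤
    2 ^ 17 * (S + 1) ^ 2 * (n + 1) ^ 10 := by
  have h1 : S + S * S * (n + n) * (2 ^ 16 * n ^ 9) = S + 2 ^ 17 * (S ^ 2 * n ^ 10) := by ring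
  have h2 : S ^ 2 * n ^ 10 + S ≤ (S + 1) ^ 2 * (n + 1) ^ 10 := by
    have h3 : n ^ 10 ≤ (n + 1) ^ 10 := Nat.pow_le_pow_left (Nat.le_succ n) 10
    have h4 : 1 ≤ (n + 1) ^ 10 := Nat.one_le_pow _ _ (Nat.succ_pos n)
    calc S ^ 2 * n ^ 10 + S ≤ S ^ 2 * (n + 1) ^ 10 + S * (n + 1) ^ 10 :=
          add_le_add (Nat.mul_le_mul_left _ h3) (Nat.le_mul_of_pos_right _ h4)
      _ ≤ (S + 1) ^ 2 * (n + 1) ^ 10 := by
          rw [← add_mul]
          exact Nat.mul_le_mul_right _ (by nlinarith)
  rw [h1, mul_assoc]
  omega

theorem thr_size_le {n : ℕ} (S : ℕ) : 2 ^ 16 * n ^ 9 ≤ 2 ^ 17 * (S + 1) ^ 2 * (n + 1) ^ 10 := by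
  have h1 : n ^ 9 ≤ (n + 1) ^ 10 :=
    (Nat.pow_le_pow_left (Nat.le_succ n) 9).trans (Nat.pow_le_pow_right (Nat.succ_pos n) (by norm_num))
  have h2 : 2 ^ 16 ≤ 2 ^ 17 * (S + 1) ^ 2 := by
    have : 1 ≤ (S + 1) ^ 2 := Nat.one_le_pow _ _ (Nat.succ_pos S)
    omega
  exact Nat.mul_le_mul h2 h1

/-- **The converse for switching networks**: every function of `n` variables with a switching
network with `S` nodes on the literals is computed by one round of `n` queries and one last query
to monotone switching networks with at most `2 ^ 17 (S + 1) ^ 2 (n + 1) ^ 10` nodes, and the answers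
of the round change at most `n` times along every increasing sequence. -/
theorem converse {n S : ℕ} (f : (Fin n → Bool) → Bool) (N : Net (Fin n ⊕ Fin n) S)
    (hN : ∀ x, N.val (lits x) = f x) :
    Tries (Gen.netClass (2 ^ 17 * (S + 1) ^ 2 * (n + 1) ^ 10)) univ [n] 1 (n + 1) f := by
  refine tries_of_slices _ f (fun z => N.val z) hN (fun j hj => ?_) fun m => ?_
  · exact netClass_le (thr_size_le S) (thr_net (by omega) univ (j + 1))
  · have h1 : ∀ k : Fin n ⊕ Fin n, (Gen.netClass (2 ^ 16 * n ^ 9)).mem (Fin n)
        ((fun k x => Sum.elim x (fun i => thr (univ.erase i) m x) k :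
          Fin n ⊕ Fin n → (Fin n → Bool) → Bool) k) := by
      rintro (i | i)
      · obtain ⟨M, hM, -⟩ := exists_varNet (S := 2 ^ 16 * n ^ 9) (by
          have : 1 ≤ n ^ 9 := Nat.one_le_pow _ _ i.pos
          omega) i
        exact ⟨M, hM⟩
      · exact thr_net i.pos (univ.erase i) m
    have h2 := netClass_comp (F := fun z => N.val z) ⟨N, fun _ => rfl⟩ h1
    refine netClass_le ?_ h2
    rw [Fintype.card_sum, Fintype.card_fin]
    exact conv_size n S

/-- **The converse for directed networks** (nondeterministic branching programs). -/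
theorem dconverse {n S : ℕ} (f : (Fin n → Bool) → Bool) (N : Net (Fin n ⊕ Fin n) S)
    (hN : ∀ x, N.dval (lits x) = f x) :
    Tries (Gen.dnetClass (2 ^ 17 * (S + 1) ^ 2 * (n + 1) ^ 10)) univ [n] 1 (n + 1) f := by
  refine tries_of_slices _ f (fun z => N.dval z) hN (fun j hj => ?_) fun m => ?_
  · exact dnetClass_le (thr_size_le S) (thr_dnet (by omega) univ (j + 1))
  · have h1 : ∀ k : Fin n ⊕ Fin n, (Gen.dnetClass (2 ^ 16 * n ^ 9)).mem (Fin n)
        ((fun k x => Sum.elim x (fun i => thr (univ.erase i) m x) k :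
          Fin n ⊕ Fin n → (Fin n → Bool) → Bool) k) := by
      rintro (i | i)
      · obtain ⟨M, -, hM⟩ := exists_varNet (S := 2 ^ 16 * n ^ 9) (by
          have : 1 ≤ n ^ 9 := Nat.one_le_pow _ _ i.pos
          omega) i
        exact ⟨M, hM⟩
      · exact thr_dnet i.pos (univ.erase i) m
    have h2 := dnetClass_comp (F := fun z => N.dval z) ⟨N, fun _ => rfl⟩ h1
    refine dnetClass_le ?_ h2
    rw [Fintype.card_sum, Fintype.card_fin]
    exact conv_size n S

end Pool.Agent.NTN
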