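import Pool.Agent.NTR.Main

/-!
# Duality: conjunctions of copies
-/

namespace Pool.Agent.NTN

open Pool.Agent.NegLim Pool.Agent.NTR Finset

/-- The dual wire, if `n` gates have been computed before. -/
def dualWire {V : Type} (n : ℕ) : Wire V → Wire V
  | .var v => .var v
  | .const b => .const (!b)
  | .gate i => if i < n then .gate i else .const true

/-- The dual gate, if `n` gates have been computed before. -/
def dualGate {V : Type} (n : ℕ) : Gate V → Gate V
  | .and a b => .or (dualWire n a) (dualWire n b)
  | .or a b => .and (dualWire n a) (dualWire n b)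
  | .not a => .not (dualWire n a)

/-- The dual circuit, if `n` gates have been computed before. -/
def dualCirc {V : Type} : ℕ → Circuit V → Circuit V
  | _, [] => []
  | n, g :: C => dualGate n g :: dualCirc (n + 1) C

theorem dualWire_val {V : Type} (x : V → Bool) (l : List Bool) (a : Wire V) :
    (dualWire l.length a).val x (l.map not) = !(a.val (fun v => !x v) l) := by
  cases a with
  | var v => simp [dualWire, Wire.val]
  | const b => simp [dualWire, Wire.val]
  | gate i =>
    by_cases h : i < l.length
    · simp only [dualWire, if_pos h, Wire.val]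
      rw [List.getD_eq_getElem _ _ (by simpa using h), List.getD_eq_getElem _ _ h,
        List.getElem_map]
    · simp only [dualWire, if_neg h, Wire.val]
      rw [List.getD_eq_default _ _ (not_lt.mp h)]
      rfl

theorem dualGate_val {V : Type} (x : V → Bool) (l : List Bool) (a : Gate V) :
    (dualGate l.length a).val x (l.map not) = !(a.val (fun v => !x v) l) := by
  cases a with
  | and a b => simp only [dualGate, Gate.val, dualWire_val, Bool.not_and]
  | or a b => simp only [dualGate, Gate.val, dualWire_val, Bool.not_or]
  | not a => simp only [dualGate, Gate.val, dualWire_val]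

theorem dualCirc_vals {V : Type} (x : V → Bool) (C : Circuit V) : ∀ l : List Bool,
    gateVals x (dualCirc l.length C) (l.map not) = (gateVals (fun v => !x v) C l).map not := by
  induction C with
  | nil => intro l; rfl
  | cons a C ih =>
    intro l
    have h1 := ih (l ++ [a.val (fun v => !x v) l])
    rw [List.length_append, List.length_singleton, List.map_append, List.map_singleton] at h1
    simp only [dualCirc, gateVals]
    rw [dualGate_val, h1]

theorem dualCirc_length {V : Type} (C : Circuit V) : ∀ n, (dualCirc n C).length = C.length := by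
  induction C with
  | nil => intro n; rfl
  | cons a C ih => intro n; simp [dualCirc, ih]

theorem dualGate_isNot {V : Type} (n : ℕ) (a : Gate V) : (dualGate n a).isNot = a.isNot := by
  cases a <;> rfl

theorem dualCirc_negs {V : Type} (C : Circuit V) :
    ∀ n, Circuit.negs (dualCirc n C) = Circuit.negs C := by
  induction C with
  | nil => intro n; rfl
  | cons a C ih =>
    intro n
    have := ih (n + 1)
    unfold Circuit.negs at this ⊢
    rw [dualCirc, List.countP_cons, List.countP_cons, this, dualGate_isNot]

theorem gateVals_len {V : Type} (x : V → Bool) (C : Circuit V) : ∀ l : List Bool,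
    (gateVals x C l).length = l.length + C.length := by
  induction C with
  | nil => intro l; rfl
  | cons a C ih =>
    intro l
    rw [gateVals, ih, List.length_append, List.length_singleton, List.length_cons]
    omega

/-- The value of the dual circuit. -/
theorem dual_val {V : Type} (C : Circuit V) (out : Wire V) (x : V → Bool) :
    Circuit.val (dualCirc 0 C) x (dualWire C.length out) = !Circuit.val C (fun v => !x v) out := by
  have h1 := dualCirc_vals x C []
  have h2 := dualWire_val x (gateVals (fun v => !x v) C []) out
  rw [gateVals_len] at h2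
  simp only [List.length_nil, List.map_nil, zero_add] at h1 h2
  unfold Circuit.val
  rw [h1, h2]

theorem filter_dual {V : Type} (C : Circuit V) : ∀ (n : ℕ) (l : List Bool),
    ((List.zip (dualCirc n C) (l.map not)).filter (fun p => p.1.isNot)).map Prod.snd
      = (((List.zip C l).filter (fun p => p.1.isNot)).map Prod.snd).map not := by
  induction C with
  | nil => intro n l; rfl
  | cons a C ih =>
    intro n l
    cases l with
    | nil => rfl
    | cons b l =>
      rw [dualCirc, List.map_cons, List.zip_cons_cons, List.zip_cons_cons, List.filter_cons,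
        List.filter_cons, dualGate_isNot]
      split_ifs
      · rw [List.map_cons, List.map_cons, List.map_cons, ih]
      · rw [ih]

/-- The values of the NOT gates of the dual circuit. -/
theorem dual_notVals {V : Type} (C : Circuit V) (x : V → Bool) :
    Circuit.notVals (dualCirc 0 C) x = (Circuit.notVals C (fun v => !x v)).map not := by
  have h1 := dualCirc_vals x C []
  simp only [List.length_nil, List.map_nil] at h1
  unfold Circuit.notVals
  rw [h1, filter_dual]

theorem not_antitone {V : Type} {x y : V → Bool} (h : x ≤ y) :
    (fun v => !y v) ≤ fun v => !x v := by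
  intro v
  have := h v
  cases hx : x v <;> cases hy : y v <;> simp_all

/-- The number of changes on `U` is the same after all variables are negated. -/
theorem changesOn_dual {ι W : Type} {U : Finset ι} {w : (ι → Bool) → W} {r : ℕ}
    (hw : ChangesOn U w r) : ChangesOn U (fun x => w fun v => !x v) r := by
  intro x hx hU n
  have h1 := hw (fun k v => !x (n - k) v)
    (fun i j hij => not_antitone (hx (Nat.sub_le_sub_left hij n)))
    (by
      intro k v hv
      rw [hU (n - k) v hv, hU (n - 0) v hv]) n
  refine lt_of_le_of_lt ?_ h1
  have hfin : {k | k < n ∧ w (fun v => !x (n - k) v) ≠ w (fun v => !x (n - (k + 1)) v)}.Finite :=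
    (Set.finite_Iio n).subset fun k hk => hk.1
  refine Set.ncard_le_ncard_of_injOn (fun k => n - 1 - k) ?_ ?_ hfin
  · rintro k ⟨hk, hne⟩
    refine ⟨by omega, ?_⟩
    have e1 : n - (n - 1 - k) = k + 1 := by omega
    have e2 : n - (n - 1 - k + 1) = k := by omega
    rw [e1, e2]
    exact hne.symm
  · intro a ha b hb hab
    have h1 := ha.1
    have h2 := hb.1
    simp only at hab
    omega

theorem changesOn_inj {ι W W' : Type} {U : Finset ι} {w : (ι → Bool) → W} {r : ℕ}
    (hw : ChangesOn U w r) (e : W → W') : ChangesOn U (fun x => e (w x)) r := by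
  intro x hx hU n
  refine lt_of_le_of_lt ?_ (hw x hx hU n)
  refine Set.ncard_le_ncard ?_ ((Set.finite_Iio n).subset fun k hk => hk.1)
  rintro k ⟨hk, hne⟩
  exact ⟨hk, fun h => hne (by simp only; rw [h])⟩

theorem sumElim_not {κ : Type} (y : κ → Bool) (s : κ ⊕ Bool) :
    (!Sum.elim y id (Sum.map id not s)) = Sum.elim (fun k => !y k) id s := by
  cases s with
  | inl k => rfl
  | inr c => simp

theorem dual_restriction {ι β : Type} (g : (β → Bool) → Bool) {r : ℕ}
    (f : (ι → Bool) → Prop) (φ : ι → (Fin r × β) ⊕ Bool)
    (hφ : ∀ y : Fin r × β → Bool, f (fun v => Sum.elim y id (φ v)) ↔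
      ∀ i, g (fun b => y (i, b)) = true) (y : Fin r × β → Bool) :
    (¬ f fun v => !Sum.elim y id (Sum.map id not (φ v))) ↔
      ∃ i, (!g fun b => !y (i, b)) = true := by
  have h1 : (fun v => !Sum.elim y id (Sum.map id not (φ v)))
      = fun v => Sum.elim (fun k => !y k) id (φ v) := funext fun v => sumElim_not y (φ v)
  rw [h1, hφ, not_forall]
  refine exists_congr fun i => ?_
  simp

theorem dual_mono {β : Type} {g : (β → Bool) → Bool} (hg : Monotone g) :
    Monotone fun u : β → Bool => !g fun b => !u b := by
  intro u v huv
  have h1 := hg (not_antitone huv)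
  simp only
  revert h1
  cases g (fun b => !u b) <;> cases g (fun b => !v b) <;> decide

/-- **Circuits, conjunctions.** -/
theorem circuits_main_and {ι β : Type} [Finite β] (g : (β → Bool) → Bool) (hg : Monotone g) {r : ℕ}
    (f : (ι → Bool) → Prop) (U : Finset ι) (φ : ι → (Fin r × β) ⊕ Bool)
    (hφU : ∀ v, v ∉ U → ∃ c, φ v = .inr c)
    (hφ : ∀ y : Fin r × β → Bool, f (fun v => Sum.elim y id (φ v)) ↔
      ∀ i, g (fun b => y (i, b)) = true)
    (C : Circuit ι) (out : Wire ι) (hC : ChangesOn U (fun x => Circuit.notVals C x) r)
    (hf : ∀ x : ι → Bool, Circuit.val C x out = true ↔ f x) :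
    ∃ (M : Circuit β) (o : Wire β), Circuit.negs M = 0 ∧ Circuit.size M ≤ Circuit.size C ∧
      ∀ u : β → Bool, Circuit.val M u o = g u := by
  obtain ⟨M, o, h1, h2, h3⟩ := circuits_main (fun u => !g fun b => !u b) (dual_mono hg)
    (fun x => ¬ f fun v => !x v) U (fun v => Sum.map id not (φ v))
    (by
      intro v hv
      obtain ⟨c, hc⟩ := hφU v hv
      exact ⟨!c, by rw [hc]; rfl⟩)
    (dual_restriction g f φ hφ) (dualCirc 0 C) (dualWire C.length out)
    (by
      have h := changesOn_inj (changesOn_dual hC) (List.map not)
      intro x hx hU n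
      have h4 := h x hx hU n
      simp only [dual_notVals]
      exact h4)
    (by
      intro x
      rw [dual_val, ← hf]
      simp)
  refine ⟨dualCirc 0 M, dualWire M.length o, ?_, ?_, fun u => ?_⟩
  · rw [dualCirc_negs, h1]
  · have e1 : Circuit.size (dualCirc 0 M) = Circuit.size M := dualCirc_length M 0
    have e2 : Circuit.size (dualCirc 0 C) = Circuit.size C := dualCirc_length C 0
    rw [e1, ← e2]
    exact h2
  · rw [dual_val, h3]
    simp

/-- The dual class. -/
def dualClass (K : Gen.MonoClass) : Gen.MonoClass where
  mem ι F := K.mem ι fun x => !F fun v => !x v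
  mono := by
    intro ι F hF
    have h1 := dual_mono (K.mono ι _ hF)
    simpa using h1
  subst := by
    intro ι κ F φ hF
    have h1 := K.subst ι κ _ (fun i => Sum.map id not (φ i)) hF
    have h2 : (fun y : κ → Bool => !F fun i => !Sum.elim y id (Sum.map id not (φ i)))
        = fun y => !F fun i => Sum.elim (fun k => !y k) id (φ i) :=
      funext fun y => by
        have : (fun i => !Sum.elim y id (Sum.map id not (φ i)))
          = fun i => Sum.elim (fun k => !y k) id (φ i) := funext fun i => sumElim_not y (φ i)
        rw [this]
    rw [← h2]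
    exact h1

/-- Dual queries. -/
def dualQ {ι : Type} (qs : List (List Bool → List ((ι → Bool) → Bool))) :
    List (List Bool → List ((ι → Bool) → Bool)) :=
  qs.map fun q v => (q (v.map not)).map fun F x => !F fun i => !x i

theorem answers_dual {ι : Type} (x : ι → Bool) (qs : List (List Bool → List ((ι → Bool) → Bool))) :
    ∀ v, answers x (dualQ qs) (v.map not) = (answers (fun i => !x i) qs v).map not := by
  induction qs with
  | nil => intro v; rfl
  | cons q qs ih =>
    intro v
    have h1 := ih (v ++ (q v).map fun F => F fun i => !x i)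
    rw [List.map_append] at h1
    unfold dualQ at h1 ⊢
    rw [List.map_cons, answers, answers, ← h1]
    congr 2
    rw [List.map_map, List.map_map, List.map_map]
    have h2 : (v.map (not ∘ not)) = v := by
      have : (not ∘ not) = (id : Bool → Bool) := by funext b; simp
      rw [this, List.map_id]
    rw [h2]
    rfl

theorem finds_dual {K : Gen.MonoClass} {ι : Type} {U : Finset ι} {ts : List ℕ} {r : ℕ}
    {f : (ι → Bool) → Prop} (h : Finds K U ts r f) :
    Finds (dualClass K) U ts r fun x => ¬ f fun v => !x v := by
  obtain ⟨Q, P, hQP, hts, hP, hch, hf⟩ := h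
  have hans : ∀ x : ι → Bool, answers x (dualQ (Q fun v => !x v)) []
      = (answers (fun v => !x v) (Q fun v => !x v) []).map not := fun x => by
    have := answers_dual x (Q fun v => !x v) []
    simpa using this
  refine ⟨fun x => dualQ (Q fun v => !x v),
    fun x v z => !P (fun v => !x v) (v.map not) fun i => !z i, ?_, ?_, ?_, ?_, ?_⟩
  · intro x y hxy
    obtain ⟨h1, h2⟩ := hQP (fun v => !x v) (fun v => !y v) fun v hv => by
      rw [hxy v hv]
    refine ⟨?_, ?_⟩
    · show dualQ _ = dualQ _
      rw [h1]
    · show (fun (v : List Bool) (z : ι → Bool) => !P (fun v => !x v) (v.map not) fun i => !z i) = _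
      rw [h2]
  · intro x
    unfold dualQ
    rw [List.forall₂_map_left_iff]
    refine (hts fun v => !x v).imp fun q t h v => ?_
    obtain ⟨h1, h2⟩ := h (v.map not)
    refine ⟨by rw [List.length_map]; exact h1, fun F hF => ?_⟩
    obtain ⟨F', hF', rfl⟩ := List.mem_map.1 hF
    show K.mem ι fun x => !!F' fun v => !!x v
    simpa using h2 F' hF'
  · intro x v
    show K.mem ι fun z => !!P (fun v => !x v) (v.map not) fun i => !!z i
    simpa using hP (fun v => !x v) (v.map not)
  · have h := changesOn_inj (changesOn_dual hch) (List.map not)
    intro x hx hU n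
    have h4 := h x hx hU n
    simp only [hans]
    exact h4
  · intro x
    rw [hans]
    show (!P (fun v => !x v) (((answers (fun v => !x v) (Q fun v => !x v) []).map not).map not)
      fun i => !x i) = true ↔ ¬ f fun v => !x v
    rw [← hf, List.map_map]
    have h2 : ((answers (fun v => !x v) (Q fun v => !x v) []).map (not ∘ not))
        = answers (fun v => !x v) (Q fun v => !x v) [] := by
      have : (not ∘ not) = (id : Bool → Bool) := by funext b; simp
      rw [this, List.map_id]
    rw [h2]
    simp

/-- **Classes of functions, conjunctions.** -/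
theorem classes_main_and (K : Gen.MonoClass) {ι β : Type} (g : (β → Bool) → Bool)
    (hg : g (fun _ => true) = true) {r : ℕ}
    (f : (ι → Bool) → Prop) (U : Finset ι) (φ : ι → (Fin r × β) ⊕ Bool)
    (hφU : ∀ v, v ∉ U → ∃ c, φ v = .inr c)
    (hφ : ∀ y : Fin r × β → Bool, f (fun v => Sum.elim y id (φ v)) ↔
      ∀ i, g (fun b => y (i, b)) = true)
    (ts : List ℕ) (hF : Finds K U ts r f) :
    ∃ Gs : List ((β → Bool) → Bool), Gs.length ≤ ts.sum + 1 ∧
      (∀ G ∈ Gs, K.mem β G) ∧ ∀ u, g u = true ↔ ∀ G ∈ Gs, G u = true := by
  obtain ⟨Gs, h1, h2, h3⟩ := classes_main (dualClass K) (fun u => !g fun b => !u b)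
    (by simpa using hg) (fun x => ¬ f fun v => !x v) U (fun v => Sum.map id not (φ v))
    (by
      intro v hv
      obtain ⟨c, hc⟩ := hφU v hv
      exact ⟨!c, by rw [hc]; rfl⟩)
    (dual_restriction g f φ hφ) ts (finds_dual hF)
  refine ⟨Gs.map fun G u => !G fun b => !u b, by rw [List.length_map]; exact h1, ?_, fun u => ?_⟩
  · intro G hG
    obtain ⟨G', hG', rfl⟩ := List.mem_map.1 hG
    exact h2 G' hG'
  · have h4 := h3 fun b => !u b
    simp only [Bool.not_not] at h4
    rw [← not_iff_not]
    simp only [List.mem_map, forall_exists_index, and_imp, forall_apply_eq_imp_iff₂, not_forall,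
      exists_prop]
    simp only [Bool.not_eq_true, Bool.not_eq_false'] at h4 ⊢
    rw [← h4]
    simp

end Pool.Agent.NTN
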