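import Mathlib
import Pool.Agent.NegLim.Defs

/-!
# Clique with all edges free: a disjunction of quadratically many clique functions
-/

set_option autoImplicit false

namespace Pool.Agent.NTN

open Pool.Agent.NegLim Finset

section Embed

variable {V P : Type} {N : ℕ} (J : V → Fin N) (Un : Finset (Fin N)) (lit : V → V → P ⊕ Bool)

open Classical in
/-- The gadget vertex at a vertex. -/
noncomputable def decV (x : Fin N) : Option V :=
  if h : ∃ g, J g = x then some h.choose else none

theorem decV_J (hJ : Function.Injective J) (g : V) : decV J (J g) = some g := by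
  unfold decV
  have h : ∃ g', J g' = J g := ⟨g, rfl⟩
  rw [dif_pos h]
  congr 1
  exact hJ h.choose_spec

theorem decV_none {x : Fin N} (h : ¬ ∃ g, J g = x) : decV J x = none := by
  unfold decV
  rw [dif_neg h]

open Classical in
/-- The label of a pair of vertices. -/
noncomputable def labV (x x' : Fin N) : P ⊕ Bool :=
  match decV J x, decV J x' with
  | some g, some g' => lit g g'
  | some _, none => .inr (decide (x' ∈ Un))
  | none, some _ => .inr (decide (x ∈ Un))
  | none, none => .inr (decide (x ∈ Un ∧ x' ∈ Un))

theorem labV_symm (hs : ∀ g g', lit g g' = lit g' g) (x x' : Fin N) :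
    labV J Un lit x x' = labV J Un lit x' x := by
  unfold labV
  cases decV J x <;> cases decV J x'
  · simp only [and_comm]
  · rfl
  · rfl
  · exact hs _ _

/-- Cliques in a graph made of a gadget, universal vertices and isolated vertices. -/
theorem clique_embed (hJ : Function.Injective J) (hUn : ∀ x ∈ Un, ¬ ∃ g, J g = x)
    (hs : ∀ g g', lit g g' = lit g' g) (K' : ℕ) (hK : 2 ≤ K' + Un.card) (y : P → Bool) :
    HasClique (K' + Un.card) (fun v => Sum.elim y id (labV J Un lit v.1.1 v.1.2)) ↔
      ∃ T : Finset V, T.card = K' ∧ ∀ g ∈ T, ∀ g' ∈ T, g ≠ g' →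
        Sum.elim y id (lit g g') = true := by
  classical
  have : Finite V := Finite.of_injective J hJ
  let _ : Fintype V := Fintype.ofFinite _
  constructor
  · rintro ⟨S, hS, hadj⟩
    have hadj' : ∀ x ∈ S, ∀ x' ∈ S, x ≠ x' →
        Sum.elim y id (labV J Un lit x x') = true := by
      intro x hx x' hx' hne
      rcases lt_or_gt_of_ne hne with h1 | h1
      · exact hadj x hx x' hx' h1
      · rw [labV_symm J Un lit hs]
        exact hadj x' hx' x hx h1
    have hout : ∀ x ∈ S, (∃ g, J g = x) ∨ x ∈ Un := by
      intro x hx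
      by_contra hcon
      rw [not_or] at hcon
      obtain ⟨x', hx', hne⟩ : ∃ x' ∈ S, x' ≠ x := by
        by_contra h2
        push Not at h2
        have h3 : S ⊆ {x} := fun w hw => by simp [h2 w hw]
        have h4 := Finset.card_le_card h3
        rw [Finset.card_singleton] at h4
        omega
      have h2 := hadj' x hx x' hx' hne.symm
      unfold labV at h2
      rw [decV_none J hcon.1] at h2
      generalize decV J x' = o at h2
      cases o <;> simp [hcon.2] at h2
    set T : Finset V := univ.filter fun g => J g ∈ S with hT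
    have hTadj : ∀ g ∈ T, ∀ g' ∈ T, g ≠ g' → Sum.elim y id (lit g g') = true := by
      intro g hg g' hg' hne
      have h1 := hadj' _ (Finset.mem_filter.1 hg).2 _ (Finset.mem_filter.1 hg').2
        (fun h => hne (hJ h))
      unfold labV at h1
      rw [decV_J J hJ, decV_J J hJ] at h1
      exact h1
    have hTcard : K' ≤ T.card := by
      have h1 : S ⊆ T.image J ∪ Un := by
        intro x hx
        rcases hout x hx with ⟨g, rfl⟩ | h
        · exact Finset.mem_union_left _ (Finset.mem_image_of_mem _
            (Finset.mem_filter.2 ⟨Finset.mem_univ _, hx⟩))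
        · exact Finset.mem_union_right _ h
      have h2 := (Finset.card_le_card h1).trans (Finset.card_union_le _ _)
      have h3 : (T.image J).card ≤ T.card := Finset.card_image_le
      omega
    obtain ⟨T', hT', hc⟩ := Finset.exists_subset_card_eq hTcard
    exact ⟨T', hc, fun g hg g' hg' => hTadj g (hT' hg) g' (hT' hg')⟩
  · rintro ⟨T, hT, hadj⟩
    refine ⟨T.image J ∪ Un, ?_, ?_⟩
    · rw [Finset.card_union_of_disjoint, Finset.card_image_of_injective _ hJ, hT]
      rw [Finset.disjoint_left]
      intro x hx hxU
      obtain ⟨g, -, rfl⟩ := Finset.mem_image.1 hx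
      exact hUn _ hxU ⟨g, rfl⟩
    · intro x hx x' hx' hlt
      have hne := hlt.ne
      show Sum.elim y id (labV J Un lit x x') = true
      unfold labV
      rcases Finset.mem_union.1 hx with hx | hx
      · obtain ⟨g, hg, rfl⟩ := Finset.mem_image.1 hx
        rw [decV_J J hJ]
        rcases Finset.mem_union.1 hx' with hx' | hx'
        · obtain ⟨g', hg', rfl⟩ := Finset.mem_image.1 hx'
          rw [decV_J J hJ]
          exact hadj g hg g' hg' fun h => hne (by rw [h])
        · rw [decV_none J (hUn _ hx')]
          simp [hx']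
      · rw [decV_none J (hUn _ hx)]
        rcases Finset.mem_union.1 hx' with hx' | hx'
        · obtain ⟨g', hg', rfl⟩ := Finset.mem_image.1 hx'
          rw [decV_J J hJ]
          simp [hx]
        · rw [decV_none J (hUn _ hx')]
          simp [hx, hx']

end Embed

/-- The vertices of the grid: the side, the block, the position, the vertex. -/
structure QV (r h n : ℕ) where
  /-- the side -/
  s : Bool
  /-- the block -/
  i : Fin r
  /-- the position -/
  t : Fin h
  /-- the vertex -/
  u : Fin n

/-- The block of the grid of a left and a right vertex. -/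
def blk {r h n : ℕ} (g g' : QV r h n) : Fin r × Fin r := if g.s then (g.i, g'.i) else (g'.i, g.i)

theorem blk_symm {r h n : ℕ} {g g' : QV r h n} (hs : g.s ≠ g'.s) : blk g g' = blk g' g := by
  unfold blk
  cases h1 : g.s <;> cases h2 : g'.s <;> simp_all

/-- The label of a pair of vertices of the grid: a variable or a constant. -/
def litQ {r h n : ℕ} (g g' : QV r h n) : ((Fin r × Fin r) × Edge n) ⊕ Bool :=
  if g.s = g'.s then .inr (decide (g.i = g'.i ∧ g.t ≠ g'.t))
  else if g.t = g'.t then .inr (decide (g.u = g'.u))
  else if h : g.u < g'.u then .inl (blk g g', ⟨(g.u, g'.u), h⟩)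
  else if h : g'.u < g.u then .inl (blk g g', ⟨(g'.u, g.u), h⟩)
  else .inr false

theorem litQ_symm {r h n : ℕ} (g g' : QV r h n) : litQ g g' = litQ g' g := by
  unfold litQ
  by_cases h1 : g.s = g'.s
  · rw [if_pos h1, if_pos h1.symm]
    congr 1
    exact decide_eq_decide.mpr ⟨fun h => ⟨h.1.symm, h.2.symm⟩, fun h => ⟨h.1.symm, h.2.symm⟩⟩
  · rw [if_neg h1, if_neg (Ne.symm h1)]
    by_cases h2 : g.t = g'.t
    · rw [if_pos h2, if_pos h2.symm]
      congr 1
      exact decide_eq_decide.mpr eq_comm
    · rw [if_neg h2, if_neg (Ne.symm h2)]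
      by_cases h3 : g.u < g'.u
      · rw [dif_pos h3, dif_neg (not_lt.2 h3.le), dif_pos h3, blk_symm h1]
      · by_cases h4 : g'.u < g.u
        · rw [dif_neg h3, dif_pos h4, dif_pos h4, blk_symm h1]
        · rw [dif_neg h3, dif_neg h4, dif_neg h4, dif_neg h3]

/-- **The grid.** A clique with two vertices for each position is a clique of one block. -/
theorem grid_iff {r h n : ℕ} (hh : 2 ≤ h) (y : (Fin r × Fin r) × Edge n → Bool) :
    (∃ T : Finset (QV r h n), T.card = 2 * h ∧ ∀ g ∈ T, ∀ g' ∈ T, g ≠ g' →
        Sum.elim y id (litQ g g') = true) ↔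
      ∃ p : Fin r × Fin r, HasClique h fun e => y (p, e) := by
  classical
  constructor
  · rintro ⟨T, hT, hadj⟩
    have hinj : Set.InjOn (fun g : QV r h n => (g.s, g.t)) (T : Set (QV r h n)) := by
      intro g hg g' hg' hgg
      by_contra hne
      have h1 := hadj g hg g' hg' hne
      simp only [Prod.mk.injEq] at hgg
      unfold litQ at h1
      rw [if_pos hgg.1] at h1
      simp [hgg.2] at h1
    have hsurj : T.image (fun g : QV r h n => (g.s, g.t)) = univ := by
      apply Finset.eq_univ_of_card
      rw [Finset.card_image_of_injOn hinj, hT]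
      simp only [Fintype.card_prod, Fintype.card_bool, Fintype.card_fin]
    have hcell : ∀ s t, ∃ g ∈ T, g.s = s ∧ g.t = t := by
      intro s t
      have h1 : (s, t) ∈ T.image (fun g : QV r h n => (g.s, g.t)) := by
        rw [hsurj]
        exact Finset.mem_univ _
      obtain ⟨g, hg, h2⟩ := Finset.mem_image.1 h1
      simp only [Prod.mk.injEq] at h2
      exact ⟨g, hg, h2.1, h2.2⟩
    choose G hG hGs hGt using hcell
    have hne : ∀ s t s' t', (s, t) ≠ (s', t') → G s t ≠ G s' t' := by
      intro s t s' t' h1 h2
      apply h1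
      have e1 := hGs s t
      have e2 := hGt s t
      rw [h2] at e1 e2
      rw [hGs] at e1
      rw [hGt] at e2
      rw [e1, e2]
    -- one block on each side
    have hblock : ∀ s t t', (G s t).i = (G s t').i := by
      intro s t t'
      by_cases htt : t = t'
      · rw [htt]
      · have h1 := hadj _ (hG s t) _ (hG s t') (hne _ _ _ _ (by simp [htt]))
        unfold litQ at h1
        rw [if_pos (by rw [hGs, hGs])] at h1
        simp only [Sum.elim_inr, id, decide_eq_true_eq] at h1
        exact h1.1
    have hsame : ∀ t, (G true t).u = (G false t).u := by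
      intro t
      have h1 := hadj _ (hG true t) _ (hG false t) (hne _ _ _ _ (by simp))
      unfold litQ at h1
      rw [if_neg (by rw [hGs, hGs]; simp), if_pos (by rw [hGt, hGt])] at h1
      simpa using h1
    let t₀ : Fin h := ⟨0, by omega⟩
    let σ : Fin h → Fin n := fun t => (G true t).u
    have hcross : ∀ t t', t ≠ t' → ∃ hlt : σ t ≠ σ t', ∀ hl : σ t < σ t',
        y (((G true t₀).i, (G false t₀).i), ⟨(σ t, σ t'), hl⟩) = true := by
      intro t t' htt
      have h1 := hadj _ (hG true t) _ (hG false t') (hne _ _ _ _ (by simp))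
      unfold litQ at h1
      rw [if_neg (by rw [hGs, hGs]; simp), if_neg (by rw [hGt, hGt]; exact htt)] at h1
      have e1 : (G false t').u = σ t' := (hsame t').symm
      have e2 : blk (G true t) (G false t') = ((G true t₀).i, (G false t₀).i) := by
        unfold blk
        rw [hGs, hblock true t t₀, hblock false t' t₀]
        rfl
      refine ⟨fun h2 => ?_, fun hl => ?_⟩
      · have h3 : ¬ (G true t).u < (G false t').u := by
          rw [e1]
          exact (h2 ▸ lt_irrefl (σ t) : ¬ σ t < σ t')
        have h4 : ¬ (G false t').u < (G true t).u := by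
          rw [e1]
          exact (h2 ▸ lt_irrefl (σ t) : ¬ σ t' < σ t)
        rw [dif_neg h3, dif_neg h4] at h1
        simp at h1
      · have h3 : (G true t).u < (G false t').u := by
          rw [e1]
          exact hl
        rw [dif_pos h3, e2] at h1
        simp only [Sum.elim_inl] at h1
        have e4 : (⟨(σ t, σ t'), hl⟩ : Edge n) = ⟨((G true t).u, (G false t').u), h3⟩ :=
          Subtype.ext (Prod.ext rfl e1.symm)
        rw [e4]
        exact h1
    have hσ : Function.Injective σ := by
      intro t t' h1
      by_contra h2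
      exact (hcross t t' h2).1 h1
    refine ⟨((G true t₀).i, (G false t₀).i), univ.image σ, ?_, ?_⟩
    · rw [Finset.card_image_of_injective _ hσ, Finset.card_univ, Fintype.card_fin]
    · intro u hu v hv huv
      obtain ⟨t, -, rfl⟩ := Finset.mem_image.1 hu
      obtain ⟨t', -, rfl⟩ := Finset.mem_image.1 hv
      exact (hcross t t' (fun h => huv.ne (by rw [h]))).2 huv
  · rintro ⟨⟨i, j⟩, S, hS, hadj⟩
    let σ : Fin h → Fin n := fun t => S.orderEmbOfFin hS t
    have hσ : Function.Injective σ := (S.orderEmbOfFin hS).injective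
    have hσS : ∀ t, σ t ∈ S := fun t => Finset.orderEmbOfFin_mem _ _ _
    let pick : Bool × Fin h → QV r h n := fun c => ⟨c.1, if c.1 then i else j, c.2, σ c.2⟩
    have hpick : Function.Injective pick := by
      rintro ⟨s, t⟩ ⟨s', t'⟩ h1
      simp only [pick, QV.mk.injEq] at h1
      exact Prod.ext h1.1 h1.2.2.1
    refine ⟨univ.image pick, ?_, ?_⟩
    · rw [Finset.card_image_of_injective _ hpick, Finset.card_univ, Fintype.card_prod,
        Fintype.card_bool, Fintype.card_fin]
    · intro g hg g' hg' hne
      obtain ⟨⟨s, t⟩, -, rfl⟩ := Finset.mem_image.1 hg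
      obtain ⟨⟨s', t'⟩, -, rfl⟩ := Finset.mem_image.1 hg'
      have hne' : (s, t) ≠ (s', t') := fun h => hne (by rw [h])
      simp only [pick, litQ]
      by_cases h1 : s = s'
      · subst h1
        have h2 : t ≠ t' := fun h => hne' (by rw [h])
        simp [h2]
      · rw [if_neg h1]
        by_cases h2 : t = t'
        · rw [if_pos h2, h2]
          simp
        · rw [if_neg h2]
          have hb : blk (pick (s, t)) (pick (s', t')) = (i, j) := by
            unfold blk
            cases s <;> cases s'
            · exact absurd rfl h1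
            · simp [pick]
            · simp [pick]
            · exact absurd rfl h1
          simp only [pick] at hb
          rcases lt_trichotomy (σ t) (σ t') with h3 | h3 | h3
          · rw [dif_pos h3, hb]
            exact hadj _ (hσS t) _ (hσS t') h3
          · exact absurd (hσ h3) h2
          · rw [dif_neg (not_lt.2 h3.le), dif_pos h3, hb]
            exact hadj _ (hσS t') _ (hσS t) h3

/-- The vertices of the grid as a product. -/
def qvEquiv (r h n : ℕ) : QV r h n ≃ Bool × Fin r × Fin h × Fin n where
  toFun g := (g.s, g.i, g.t, g.u)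
  invFun p := ⟨p.1, p.2.1, p.2.2.1, p.2.2.2⟩
  left_inv _ := rfl
  right_inv _ := rfl

/-- **Clique with all edges free**: `r ^ 2` blocks. -/
theorem clique_grid {r n N : ℕ} (hn : 4 ≤ n) (hr : 1 ≤ r) (hN : 2 * (r * n ^ 2) ≤ N) :
    ∃ φ : Edge N → (Fin (r * r) × Edge n) ⊕ Bool,
      ∀ y : Fin (r * r) × Edge n → Bool, HasClique (N / 2) (fun v => Sum.elim y id (φ v)) ↔
        ∃ i, HasClique (n / 2) fun e => y (i, e) := by
  classical
  set h := n / 2 with hh
  have hcard : Fintype.card (Bool × Fin r × Fin h × Fin n) = 2 * (r * (h * n)) := by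
    simp only [Fintype.card_prod, Fintype.card_bool, Fintype.card_fin]
  have hle : 2 * (r * (h * n)) ≤ r * n ^ 2 := by
    have h1 : 2 * h ≤ n := by omega
    calc 2 * (r * (h * n)) = r * ((2 * h) * n) := by ring
      _ ≤ r * (n * n) := Nat.mul_le_mul_left _ (Nat.mul_le_mul_right _ h1)
      _ = r * n ^ 2 := by ring
  have hnn : 2 * h ≤ r * n ^ 2 := by
    have h1 : 2 * h ≤ n := by omega
    have h2 : n ≤ n ^ 2 := Nat.le_self_pow (by norm_num) _
    have h3 : 1 * n ^ 2 ≤ r * n ^ 2 := Nat.mul_le_mul_right _ hr
    omega
  obtain ⟨ρ⟩ : Nonempty ((Bool × Fin r × Fin h × Fin n) ↪ Fin N) := by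
    apply Function.Embedding.nonempty_of_card_le
    rw [hcard, Fintype.card_fin]
    omega
  let J : QV r h n → Fin N := fun g => ρ (qvEquiv r h n g)
  have hJ : Function.Injective J := ρ.injective.comp (qvEquiv r h n).injective
  set W : Finset (Fin N) := univ.image ρ with hW
  have hWc : W.card ≤ r * n ^ 2 := by
    refine Finset.card_image_le.trans ?_
    rw [Finset.card_univ, hcard]
    exact hle
  obtain ⟨Un, hUn1, hUn2⟩ := Finset.exists_subset_card_eq
    (s := Wᶜ) (n := N / 2 - 2 * h) (by
      rw [Finset.card_compl, Fintype.card_fin]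
      omega)
  have hUn : ∀ x ∈ Un, ¬ ∃ g, J g = x := by
    rintro x hx ⟨g, rfl⟩
    exact (Finset.mem_compl.1 (hUn1 hx)) (Finset.mem_image_of_mem _ (Finset.mem_univ _))
  have hsum : 2 * h + Un.card = N / 2 := by
    rw [hUn2]
    omega
  have hemb := fun z => clique_embed J Un (litQ (r := r) (h := h) (n := n)) hJ hUn litQ_symm
    (2 * h) (by omega) z
  rw [hsum] at hemb
  refine ⟨fun v => Sum.map (fun q => (finProdFinEquiv q.1, q.2)) id
    (labV J Un litQ v.1.1 v.1.2), fun y => ?_⟩
  have h1 := (hemb fun q => y (finProdFinEquiv q.1, q.2)).trans (grid_iff (by omega) _)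
  have h2 : (fun v : Edge N => Sum.elim y id (Sum.map (fun q => (finProdFinEquiv q.1, q.2)) id
      (labV J Un (litQ (r := r) (h := h) (n := n)) v.1.1 v.1.2))) =
      fun v => Sum.elim (fun q : (Fin r × Fin r) × Edge n => y (finProdFinEquiv q.1, q.2)) id
        (labV J Un litQ v.1.1 v.1.2) := by
    funext v
    cases labV J Un (litQ (r := r) (h := h) (n := n)) v.1.1 v.1.2 <;> rfl
  rw [h2, h1]
  constructor
  · rintro ⟨p, hp⟩
    exact ⟨finProdFinEquiv p, hp⟩
  · rintro ⟨i, hi⟩
    refine ⟨finProdFinEquiv.symm i, ?_⟩
    simpa only [Equiv.apply_symm_apply] using hi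

end Pool.Agent.NTN
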