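import Pool.Agent.NTN.CliqueAvg
import Pool.Agent.NTN.GridRestr

/-!
# Cliques on average, all edges free: quadratically many changes
-/

set_option autoImplicit false

namespace Pool.Agent.NTN

open Pool.Agent.NegLim Pool.Agent.NTR Pool.Agent.TeleNeg Finset
open scoped BigOperators

theorem orSet_dnet {β : Type} {S q S₀ : ℕ} (h : q * S + 2 ≤ S₀) {H : (β → Bool) → Bool}
    (hH : H ∈ orSet (Gen.dnetClass S) β q) : (Gen.dnetClass S₀).mem β H := by
  obtain ⟨Gs, h1, h2, h3⟩ := hH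
  choose N hN using fun k : Fin Gs.length => h2 (Gs.get k) (List.get_mem _ _)
  obtain ⟨M, -, hM⟩ := exists_orNet N
  refine dnetClass_le (le_trans (Nat.add_le_add_right (Nat.mul_le_mul_right _ h1) 2) h)
    ⟨M, fun x => ?_⟩
  rw [Bool.eq_iff_iff, hM, h3]
  constructor
  · rintro ⟨k, hk⟩
    rw [hN k] at hk
    exact ⟨_, List.get_mem _ _, hk⟩
  · rintro ⟨G, hG, hGx⟩
    obtain ⟨k, rfl⟩ := List.get_of_mem hG
    exact ⟨k, by rw [hN k]; exact hGx⟩

/-- Disjunctions of directed networks are small circuits without NOT gates. -/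
theorem orSet_cSet_card {β : Type} [Fintype β] {s w S q : ℕ} (hw : s + 4 ≤ w)
    (hc : Fintype.card β ≤ 2 ^ (2 * w)) (h : q * S ≤ 2 ^ s) :
    orSet (Gen.dnetClass S) β q ⊆ cSet β (2 ^ (4 * w)) := by
  intro H hH
  obtain ⟨N, hN⟩ := orSet_dnet (S₀ := 2 ^ s + 2) (Nat.add_le_add_right h 2) hH
  obtain ⟨C, o, h1, h2, h3⟩ := dnet_circuit N
  exact ⟨C, o, h1, h2.trans (dnet_gates_card hw hc), fun u => by rw [h3, hN]⟩

open Classical in
/-- **Average case, one distribution, disjunctions of cliques: the common part.** -/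
theorem clique_or_both {ι : Type} [Fintype ι] [DecidableEq ι] {s n w r : ℕ} (hw : s + 4 ≤ w)
    (h4 : 4 * n ≤ 2 ^ w) (hbig : 2 ^ 37 * (8 * w) ^ 4 * (Nat.log 2 n + 1) ^ 6 ≤ n ^ 2)
    (hr : 1 ≤ r) (f : (ι → Bool) → Prop) (U : Finset ι)
    (hφ : ∃ φ : ι → (Fin r × Edge n) ⊕ Bool,
      (∀ v, v ∉ U → ∃ c, φ v = .inr c) ∧
      ∀ x : Fin r × Edge n → Bool,
        f (fun v => Sum.elim x id (φ v)) ↔ ∃ i, HasClique (n / 2) fun e => x (i, e)) :
    ∃ μ : (ι → Bool) → ℝ, (∀ x, 0 ≤ μ x) ∧ ∑ x, μ x = 1 ∧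
      (∀ x x', μ x ≠ 0 → μ x' ≠ 0 → ∀ v, v ∉ U → x v = x' v) ∧
      (∀ (T b : ℕ) (C : Circuit ι) (out : Fin T → Wire ι) (h : (Fin T → Bool) → Bool),
        C.size + T ≤ 2 ^ s → ChangesOn U (fun x => C.notVals x) b →
        ∑ x with (h (fun i => C.val x (out i)) = true ↔ f x), μ x
          ≤ 1 / 2 + (1 / 2) ^ s + (T + 1) * b / (2 * r)) ∧
      ∀ (S : ℕ) (ts : List ℕ) (T b : ℕ) (A : (ι → Bool) → Bool),
        (ts.sum + T) * S ≤ 2 ^ s → Tries (Gen.dnetClass S) U ts T b A →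
        ∑ x with (A x = true ↔ f x), μ x
          ≤ 1 / 2 + (1 / 2) ^ s + (T + 1) * b / (2 * r) := by
  obtain ⟨φ, h1, h2⟩ := hφ
  have h5 : (0 : ℝ) < (1 / 2) ^ w := by positivity
  have h6 : ((1 / 2 : ℝ)) ^ w < 1 := pow_lt_one₀ (by norm_num) (by norm_num) (by omega)
  have hlog : Nat.log 2 n ≤ 8 * w := by
    have h7 : n ≤ 2 ^ w := by omega
    have h8 : Nat.log 2 n ≤ Nat.log 2 (2 ^ w) := Nat.log_mono_right h7
    rw [Nat.log_pow (by norm_num)] at h8
    omega
  have hmono : Monotone fun u : Edge n → Bool => decide (HasClique (n / 2) u) := by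
    intro u v huv hu
    rw [decide_eq_true_eq] at hu ⊢
    exact hasClique_mono huv hu
  have hcardR : (Fintype.card (Edge n) : ℝ) ≤ (n : ℝ) ^ 2 := by exact_mod_cast card_edge_le n
  obtain ⟨μ, m1, m2, m3, m4, m5⟩ := both_or (U := U) hr
    (fun u : Edge n → Bool => decide (HasClique (n / 2) u))
    hmono f φ h1 (fun x => by rw [h2 x]; simp) h5 h6 (3 * n ^ 2 * 4 ^ w)
    (2 ^ (4 * w)) (by
      have h7 : ((1 / 2 : ℝ) ^ w) ^ 2 = 1 / 4 ^ w := by
        rw [← pow_mul, mul_comm, pow_mul, show (1 / 2 : ℝ) ^ 2 = 1 / 4 by norm_num, one_div_pow]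
      rw [h7]
      push_cast
      have h8 : (3 * (n : ℝ) ^ 2 * 4 ^ w) * (1 / 4 ^ w) = 3 * (n : ℝ) ^ 2 := by
        field_simp
      rw [h8]
      linarith) (by
      intro M o h7 h8
      refine (inst_numbers n w h4).trans_le ?_
      exact clique_bound n (8 * w) (by omega) hlog hbig M o h7 fun u => by
        rw [h8 u, decide_eq_true_eq])
  have h9 : ((1 / 2 : ℝ)) ^ w ≤ (1 / 2) ^ s :=
    pow_le_pow_of_le_one (by norm_num) (by norm_num) (by omega)
  have h10 : (0 : ℝ) ≤ (1 / 2) ^ s := by positivity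
  refine ⟨μ, m1, m2, fun x x' hx hx' v hv => ?_, fun T b C out h hC hb => ?_,
    fun S ts T b A hS hA => ?_⟩
  · obtain ⟨c, hc⟩ := h1 v hv
    rw [m3 x hx v c hc, m3 x' hx' v c hc]
  · have h11 := m4 T b C out h (hC.trans (Nat.pow_le_pow_right (by norm_num) (by omega))) hb
    refine h11.trans ?_
    linarith
  · have h12 : Fintype.card (Edge n) ≤ 2 ^ (2 * w) := by
      have h13 : n ≤ 2 ^ w := by omega
      calc Fintype.card (Edge n) ≤ n ^ 2 := card_edge_le n
        _ ≤ (2 ^ w) ^ 2 := Nat.pow_le_pow_left h13 2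
        _ = 2 ^ (2 * w) := by rw [← pow_mul, mul_comm]
    have h11 := m5 (Gen.dnetClass S) ts T b A (orSet_cSet_card hw h12 hS) hA
    refine h11.trans ?_
    linarith

open Classical in
/-- **Clique with all edges free, average case, circuits and directed networks.** -/
theorem clique_grid_average {s N : ℕ} (hs : 1 ≤ s) (hN : 1 ≤ N) :
    ∃ μ : (Edge N → Bool) → ℝ, (∀ x, 0 ≤ μ x) ∧ ∑ x, μ x = 1 ∧
      (∀ (T b : ℕ) (C : Circuit (Edge N)) (out : Fin T → Wire (Edge N))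
        (h : (Fin T → Bool) → Bool),
        C.size + T ≤ 2 ^ s → ChangesOn Finset.univ (fun x => C.notVals x) b →
        ∑ x with (h (fun i => C.val x (out i)) = true ↔ HasClique (N / 2) x), μ x
          ≤ 1 / 2 + (1 / 2) ^ s + (T + 1) * b * (ccz s / N) ^ 2) ∧
      ∀ (S : ℕ) (ts : List ℕ) (T b : ℕ) (A : (Edge N → Bool) → Bool),
        (ts.sum + T) * S ≤ 2 ^ s → Tries (Gen.dnetClass S) Finset.univ ts T b A →
        ∑ x with (A x = true ↔ HasClique (N / 2) x), μ x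
          ≤ 1 / 2 + (1 / 2) ^ s + (T + 1) * b * (ccz s / N) ^ 2 := by
  have hN' : (0 : ℝ) < N := by exact_mod_cast hN
  have hcz : ccz s = 4 * nsz s ^ 2 := ccz_eq s
  rcases Nat.lt_or_ge N (2 * nsz s ^ 2) with hlt | hge
  · -- the trivial case
    have h2 : (1 : ℝ) ≤ (ccz s / N) ^ 2 := by
      apply one_le_pow₀
      rw [one_le_div hN']
      have h3 : N ≤ ccz s := by omega
      exact_mod_cast h3
    have h5 : (0 : ℝ) ≤ (1 / 2) ^ s := by positivity
    have key : ∀ (T b : ℕ), 0 < b →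
        (1 : ℝ) ≤ 1 / 2 + (1 / 2) ^ s + (T + 1) * b * (ccz s / N) ^ 2 := by
      intro T b hb
      have h3 : (1 : ℝ) ≤ (T + 1) * b := by
        have e1 : (1 : ℝ) ≤ b := by exact_mod_cast hb
        have e2 : (0 : ℝ) ≤ T := by positivity
        nlinarith
      have h4 : (1 : ℝ) ≤ (T + 1) * b * (ccz s / N) ^ 2 :=
        one_le_mul_of_one_le_of_one_le h3 h2
      linarith
    have hμ : ∀ (P : (Edge N → Bool) → Prop) [DecidablePred P],
        ∑ x with P x, (if x = (fun _ => false) then (1 : ℝ) else 0) ≤ 1 := by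
      intro P _
      have h1 : ∑ x with P x, (if x = (fun _ => false) then (1 : ℝ) else 0)
          ≤ ∑ x : Edge N → Bool, (if x = (fun _ => false) then (1 : ℝ) else 0) :=
        Finset.sum_le_sum_of_subset_of_nonneg (Finset.filter_subset _ _) (by
          intro x _ _
          split_ifs <;> norm_num)
      rw [Finset.sum_ite_eq' Finset.univ] at h1
      simpa using h1
    refine ⟨fun x => if x = (fun _ => false) then 1 else 0, fun x => ?_, ?_, ?_, ?_⟩
    · dsimp only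
      split_ifs <;> norm_num
    · rw [Finset.sum_ite_eq' Finset.univ]
      simp
    · intro T b C out h hC hb
      exact (hμ _).trans (key T b (changesOn_pos' hb))
    · intro S ts T b A hS hA
      obtain ⟨Q, P, h, -, -, -, hch, -⟩ := hA
      exact (hμ _).trans (key T b (changesOn_pos' hch))
  · have hn : 2 ^ 60 ≤ nsz s := nsz_pos hs
    have hn2 : 0 < 2 * nsz s ^ 2 := by positivity
    set ρ := N / (2 * nsz s ^ 2) with hρ
    have hρ1 : 1 ≤ ρ := (Nat.one_le_div_iff hn2).2 hge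
    obtain ⟨φ, hφ⟩ := clique_grid (r := ρ) (n := nsz s) (N := N)
      ((by norm_num : 4 ≤ 2 ^ 60).trans hn) hρ1 (by
        have h1 := Nat.mul_div_le N (2 * nsz s ^ 2)
        calc 2 * (ρ * nsz s ^ 2) = 2 * nsz s ^ 2 * ρ := by ring
          _ ≤ N := h1)
    obtain ⟨μ, m1, m2, m3, m4, m5⟩ := clique_or_both (s := s) (n := nsz s) (w := 67 * s)
      (r := ρ * ρ) (by omega) (four_nsz_le hs) (nsz_big hs) (Nat.mul_pos hρ1 hρ1)
      (HasClique (N / 2)) Finset.univ ⟨φ, fun v hv => absurd (Finset.mem_univ v) hv, hφ⟩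
    have hρ' : (0 : ℝ) < ρ := by exact_mod_cast hρ1
    have h1 : (N : ℝ) ≤ ccz s * ρ := by
      have h2 : N < 2 * nsz s ^ 2 * (ρ + 1) := Nat.lt_mul_div_succ N hn2
      have h3 : 2 * nsz s ^ 2 ≤ 2 * nsz s ^ 2 * ρ := Nat.le_mul_of_pos_right _ hρ1
      have h4 : N ≤ ccz s * ρ := by
        rw [hcz]
        calc N ≤ 2 * nsz s ^ 2 * (ρ + 1) := h2.le
          _ = 2 * nsz s ^ 2 * ρ + 2 * nsz s ^ 2 := by ring
          _ ≤ 2 * nsz s ^ 2 * ρ + 2 * nsz s ^ 2 * ρ := Nat.add_le_add_left h3 _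
          _ = 4 * nsz s ^ 2 * ρ := by ring
      exact_mod_cast h4
    have h6 : 1 / ((ρ : ℝ) * ρ) ≤ (ccz s / N) ^ 2 := by
      have h7 : 1 / (ρ : ℝ) ≤ ccz s / N := by
        rw [div_le_div_iff₀ hρ' hN', one_mul]
        exact h1
      calc 1 / ((ρ : ℝ) * ρ) = (1 / (ρ : ℝ)) ^ 2 := by
            rw [div_pow, one_pow, sq]
        _ ≤ (ccz s / N) ^ 2 := pow_le_pow_left₀ (by positivity) h7 2
    have h5 : ∀ T b : ℕ, 1 / 2 + (1 / 2) ^ s + ((T : ℝ) + 1) * b / (2 * (ρ * ρ : ℕ))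
        ≤ 1 / 2 + (1 / 2) ^ s + (T + 1) * b * (ccz s / N) ^ 2 := by
      intro T b
      refine add_le_add le_rfl ?_
      have h8 : (0 : ℝ) ≤ (T + 1) * b := by positivity
      calc ((T : ℝ) + 1) * b / (2 * (ρ * ρ : ℕ))
          = (T + 1) * b * (1 / ((ρ : ℝ) * ρ)) / 2 := by
            push_cast
            field_simp
        _ ≤ (T + 1) * b * (1 / ((ρ : ℝ) * ρ)) := by
            apply half_le_self
            positivity
        _ ≤ (T + 1) * b * (ccz s / N) ^ 2 := mul_le_mul_of_nonneg_left h6 h8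
    exact ⟨μ, m1, m2, fun T b C out h hC hb => (m4 T b C out h hC hb).trans (h5 T b),
      fun S ts T b A hS hA => (m5 S ts T b A hS hA).trans (h5 T b)⟩

end Pool.Agent.NTN
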