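import Pool.Agent.NTN.Inst
import Pool.Agent.NTN.Principle
import Pool.Agent.NTN.Restr
import Pool.Agent.GB24.Inst

/-!
# Matchings and reachability: NOT gates and queries change often on every set of variables with
# many disjoint edges
-/

set_option autoImplicit false

namespace Pool.Agent.NTN

open Pool.Agent.NegLim Pool.Agent.NTR Pool.Agent.TeleNeg Pool.Agent.PMB Pool.Agent.GB24 Finset

/-- **Perfect matching, circuits.** -/
theorem pm_circuits_U {s m k : ℕ} (hs : 1 ≤ s) (U : Finset (Fin m × Fin m))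
    (hU : DisjointEdges k U) (C : Circuit (Fin m × Fin m)) (out : Wire (Fin m × Fin m))
    (hf : ∀ x, Circuit.val C x out = true ↔ HasPM x)
    (hC : ChangesOn U (fun x => Circuit.notVals C x) (k / csz s)) : 2 ^ s ≤ Circuit.size C := by
  obtain ⟨e, heU, he⟩ := hU
  exact pm_circuits hs U e heU
    (fun i j hij => by by_contra hne; exact (he i j hne).1 hij)
    (fun i j hij => by by_contra hne; exact (he i j hne).2 hij) C out hf hC

/-- **3-dimensional matching, circuits.** -/
theorem tdm_circuits_U {s m k : ℕ} (hs : 1 ≤ s) (U : Finset (Fin m × Fin m × Fin m))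
    (hU : DisjointTriples k U)
    (C : Circuit (Fin m × Fin m × Fin m)) (out : Wire (Fin m × Fin m × Fin m))
    (hf : ∀ x, Circuit.val C x out = true ↔ Has3DM x)
    (hC : ChangesOn U (fun x => Circuit.notVals C x) (k / csz s)) : 2 ^ s ≤ Circuit.size C := by
  obtain ⟨e, heU, he⟩ := hU
  exact tdm_circuits hs U e heU
    (fun i j hij => by by_contra hne; exact (he i j hne).1 hij)
    (fun i j hij => by by_contra hne; exact (he i j hne).2.1 hij)
    (fun i j hij => by by_contra hne; exact (he i j hne).2.2 hij) C out hf hC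

/-- **Perfect matching, directed networks.** -/
theorem pm_dnets_U {s m k S : ℕ} (hs : 1 ≤ s) (U : Finset (Fin m × Fin m))
    (hU : DisjointEdges k U) (ts : List ℕ)
    (hF : Finds (Gen.dnetClass S) U ts (k / csz s) HasPM) : 2 ^ s ≤ (ts.sum + 1) * S := by
  obtain ⟨e, heU, he⟩ := hU
  exact pm_dnets hs U e heU
    (fun i j hij => by by_contra hne; exact (he i j hne).1 hij)
    (fun i j hij => by by_contra hne; exact (he i j hne).2 hij) ts hF

/-- **3-dimensional matching, directed networks.** -/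
theorem tdm_dnets_U {s m k S : ℕ} (hs : 1 ≤ s) (U : Finset (Fin m × Fin m × Fin m))
    (hU : DisjointTriples k U) (ts : List ℕ)
    (hF : Finds (Gen.dnetClass S) U ts (k / csz s) Has3DM) : 2 ^ s ≤ (ts.sum + 1) * S := by
  obtain ⟨e, heU, he⟩ := hU
  exact tdm_dnets hs U e heU
    (fun i j hij => by by_contra hne; exact (he i j hne).1 hij)
    (fun i j hij => by by_contra hne; exact (he i j hne).2.1 hij)
    (fun i j hij => by by_contra hne; exact (he i j hne).2.2 hij) ts hF

/-- **Reachability, switching networks.** -/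
theorem conn_nets_U {p N k S : ℕ} (hp : 6 ≤ p) (hN : 0 < N)
    (U : Finset (Fin (N + 1) × Fin (N + 1))) (hU : DisjointArcs k U) (ts : List ℕ)
    (hF : Finds (Gen.netClass S) U ts (k / 2 ^ (11 * p + 4)) Conn) :
    2 ^ p ^ 2 ≤ (ts.sum + 1) * S := by
  classical
  have : Finite (Arc 6 (2 ^ p - 1) (2 ^ (5 * p))) :=
    Finite.of_equiv _ (arcEquiv 6 (2 ^ p - 1) (2 ^ (5 * p))).symm
  let _ : Fintype (Arc 6 (2 ^ p - 1) (2 ^ (5 * p))) := Fintype.ofFinite _
  have hcard : Fintype.card (Arc 6 (2 ^ p - 1) (2 ^ (5 * p))) ≤ 6 * 2 ^ (11 * p) := by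
    rw [← Nat.card_eq_fintype_card]
    exact card_arc_le 6 p (by omega)
  have h0 : 2 * (k / 2 ^ (11 * p + 4)) * Fintype.card (Arc 6 (2 ^ p - 1) (2 ^ (5 * p))) ≤ k := by
    have h1 : k / 2 ^ (11 * p + 4) * 2 ^ (11 * p + 4) ≤ k := Nat.div_mul_le_self _ _
    refine le_trans ?_ h1
    calc 2 * (k / 2 ^ (11 * p + 4)) * Fintype.card (Arc 6 (2 ^ p - 1) (2 ^ (5 * p)))
        ≤ 2 * (k / 2 ^ (11 * p + 4)) * (6 * 2 ^ (11 * p)) := Nat.mul_le_mul_left _ hcard
      _ = k / 2 ^ (11 * p + 4) * (12 * 2 ^ (11 * p)) := by ring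
      _ ≤ k / 2 ^ (11 * p + 4) * (2 ^ 4 * 2 ^ (11 * p)) :=
          Nat.mul_le_mul_left _ (Nat.mul_le_mul_right _ (by norm_num))
      _ = k / 2 ^ (11 * p + 4) * 2 ^ (11 * p + 4) := by rw [← pow_add, add_comm 4]
  obtain ⟨φ, h1, h2⟩ := conn_blocks_U U hU h0 hN
  obtain ⟨Gs, h3, h4, h5⟩ := classes_or_all (Gen.netClass S)
    (fun u : Arc 6 (2 ^ p - 1) (2 ^ (5 * p)) → Bool => decide (Reach u)) (by
      intro u v huv
      rw [Bool.le_iff_imp]
      simp only [decide_eq_true_eq]
      exact reach_mono huv) Conn U φ h1 (fun y => by rw [h2 y]; simp) ts hF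
  exact clean_bound hp (inst_reach Gs h3 h4 fun u => by rw [← h5 u]; simp)

end Pool.Agent.NTN
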