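import Pool.Agent.NTN.Maj

/-!
# Networks substituted into a network

If the contacts of a network `N` with `S` nodes are labelled by `κ` and for every label `a` a network
`M a` with `S'` nodes is given, then replacing the contacts labelled `a` by copies of `M a` gives a
network with `S + S * (S * |κ|) * S'` nodes which computes `N` of the functions computed by the
networks `M a`. This holds for undirected and for directed contacts.
-/

set_option autoImplicit false

namespace Pool.Agent.NTN

open Pool.Agent.TeleNeg Pool.Agent.NTR Relation

variable {ι κ : Type} {S S' : ℕ}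

/-- the nodes of the composed network -/
abbrev SNode (κ : Type) (S S' : ℕ) : Type := Fin S ⊕ (Fin S × Fin S × κ) × Fin S'

/-- the contacts of the composed network -/
inductive SubC (N : Net κ S) (M : κ → Net ι S') : SNode κ S S' → SNode κ S S' → Option ι → Prop
  | base (u v : Fin S) (h : (u, v, none) ∈ N.contacts) : SubC N M (Sum.inl u) (Sum.inl v) none
  | enter (u v : Fin S) (a : κ) (h : (u, v, some a) ∈ N.contacts) :
      SubC N M (Sum.inl u) (Sum.inr ((u, v, a), (M a).src)) none
  | inner (u v : Fin S) (a : κ) (w w' : Fin S') (l : Option ι) (h : (u, v, some a) ∈ N.contacts)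
      (h' : (w, w', l) ∈ (M a).contacts) :
      SubC N M (Sum.inr ((u, v, a), w)) (Sum.inr ((u, v, a), w')) l
  | exit (u v : Fin S) (a : κ) (h : (u, v, some a) ∈ N.contacts) :
      SubC N M (Sum.inr ((u, v, a), (M a).tgt)) (Sum.inl v) none

/-- a closed contact of the composed network -/
def SStep (N : Net κ S) (M : κ → Net ι S') (x : ι → Bool) (p q : SNode κ S S') : Prop :=
  ∃ l : Option ι, SubC N M p q l ∧ ∀ e ∈ l, x e = true

theorem lift_inner {N : Net κ S} {M : κ → Net ι S'} {x : ι → Bool} {u v : Fin S} {a : κ}
    (h : (u, v, some a) ∈ N.contacts) {w w' : Fin S'} (hw : ReflTransGen ((M a).Step x) w w') :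
    ReflTransGen (SStep N M x) (Sum.inr ((u, v, a), w)) (Sum.inr ((u, v, a), w')) := by
  induction hw with
  | refl => exact ReflTransGen.refl
  | tail _ hs ih =>
    obtain ⟨l, hl, hx⟩ := hs
    exact ih.tail ⟨l, SubC.inner u v a _ _ l h hl, hx⟩

theorem sreach_iff (N : Net κ S) (M : κ → Net ι S') (x : ι → Bool) :
    ReflTransGen (SStep N M x) (Sum.inl N.src) (Sum.inl N.tgt) ↔
      N.DAccepts fun a => (M a).dval x := by
  constructor
  · intro h
    have inv : ∀ q, ReflTransGen (SStep N M x) (Sum.inl N.src) q →
        (∀ u, q = Sum.inl u → ReflTransGen (N.Step fun a => (M a).dval x) N.src u) ∧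
        ∀ u v a w, q = Sum.inr ((u, v, a), w) → ReflTransGen (N.Step fun a => (M a).dval x) N.src u ∧
          ReflTransGen ((M a).Step x) (M a).src w := by
      intro q hq
      induction hq with
      | refl =>
        refine ⟨fun u hu => ?_, fun u v a w hu => ?_⟩
        · obtain rfl := Sum.inl_injective hu
          exact ReflTransGen.refl
        · cases hu
      | tail _ hs ih =>
        obtain ⟨l, hl, hx⟩ := hs
        obtain ⟨ih1, ih2⟩ := ih
        cases hl with
        | base u v h =>
          refine ⟨fun u' hu => ?_, fun u v a w hu => ?_⟩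
          · obtain rfl := Sum.inl_injective hu
            exact (ih1 u rfl).tail ⟨none, h, by simp⟩
          · cases hu
        | enter u v a h =>
          refine ⟨fun u' hu => ?_, fun u' v' a' w' hu => ?_⟩
          · cases hu
          · have e := Sum.inr_injective hu
            simp only [Prod.mk.injEq] at e
            obtain ⟨⟨rfl, rfl, rfl⟩, rfl⟩ := e
            exact ⟨ih1 _ rfl, ReflTransGen.refl⟩
        | inner u v a w w' l h h' =>
          refine ⟨fun u' hu => ?_, fun u' v' a' w'' hu => ?_⟩
          · cases hu
          · have e := Sum.inr_injective hu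
            simp only [Prod.mk.injEq] at e
            obtain ⟨⟨rfl, rfl, rfl⟩, rfl⟩ := e
            obtain ⟨i1, i2⟩ := ih2 _ _ _ _ rfl
            exact ⟨i1, i2.tail ⟨_, h', hx⟩⟩
        | exit u v a h =>
          refine ⟨fun u' hu => ?_, fun u' v' a' w' hu => ?_⟩
          · obtain rfl := Sum.inl_injective hu
            obtain ⟨i1, i2⟩ := ih2 _ _ _ _ rfl
            refine i1.tail ⟨some a, h, ?_⟩
            intro b hb
            obtain rfl : a = b := by simpa using hb
            show (M a).dval x = true
            simp only [Net.dval, decide_eq_true_eq]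
            exact i2
          · cases hu
    exact (inv _ h).1 _ rfl
  · intro h
    have h1 : ∀ u, ReflTransGen (N.Step fun a => (M a).dval x) N.src u →
        ReflTransGen (SStep N M x) (Sum.inl N.src) (Sum.inl u) := by
      intro u hu
      induction hu with
      | refl => exact ReflTransGen.refl
      | @tail u v _ hs ih =>
        obtain ⟨l, hl, hx⟩ := hs
        cases l with
        | none => exact ih.tail ⟨none, SubC.base _ _ hl, by simp⟩
        | some a =>
          have h2 : (M a).DAccepts x := by
            have := hx a rfl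
            simpa only [Net.dval, decide_eq_true_eq] using this
          have h3 : ReflTransGen (SStep N M x) (Sum.inl u) (Sum.inl v) :=
            (ReflTransGen.head ⟨none, SubC.enter u v a hl, by simp⟩ (lift_inner hl h2)).tail
              ⟨none, SubC.exit u v a hl, by simp⟩
          exact ih.trans h3
    exact h1 _ h

/-- two nodes of the composed network joined by a closed contact -/
def SLink (N : Net κ S) (M : κ → Net ι S') (x : ι → Bool) (p q : SNode κ S S') : Prop :=
  ∃ l : Option ι, (SubC N M p q l ∨ SubC N M q p l) ∧ ∀ e ∈ l, x e = true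

theorem linked_symm {T : ℕ} (N : Net ι T) (x : ι → Bool) {p q : Fin T} (h : N.Linked x p q) :
    N.Linked x q p := by
  obtain ⟨l, hl, hx⟩ := h
  exact ⟨l, hl.symm, hx⟩

theorem rtg_symm {α : Type} {R : α → α → Prop} (hR : ∀ p q, R p q → R q p) {p q : α}
    (h : ReflTransGen R p q) : ReflTransGen R q p := by
  induction h with
  | refl => exact ReflTransGen.refl
  | tail _ hs ih => exact ReflTransGen.head (hR _ _ hs) ih

theorem lift_inner' {N : Net κ S} {M : κ → Net ι S'} {x : ι → Bool} {u v : Fin S} {a : κ}
    (h : (u, v, some a) ∈ N.contacts) {w w' : Fin S'} (hw : ReflTransGen ((M a).Linked x) w w') :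
    ReflTransGen (SLink N M x) (Sum.inr ((u, v, a), w)) (Sum.inr ((u, v, a), w')) := by
  induction hw with
  | refl => exact ReflTransGen.refl
  | tail _ hs ih =>
    obtain ⟨l, hl, hx⟩ := hs
    rcases hl with hl | hl
    · exact ih.tail ⟨l, Or.inl (SubC.inner u v a _ _ l h hl), hx⟩
    · exact ih.tail ⟨l, Or.inr (SubC.inner u v a _ _ l h hl), hx⟩

theorem slink_iff (N : Net κ S) (M : κ → Net ι S') (x : ι → Bool) :
    ReflTransGen (SLink N M x) (Sum.inl N.src) (Sum.inl N.tgt) ↔
      N.Accepts fun a => (M a).val x := by
  have hlink : ∀ {u v : Fin S} {a : κ}, (u, v, some a) ∈ N.contacts →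
      ReflTransGen ((M a).Linked x) (M a).src (M a).tgt →
      N.Linked (fun a => (M a).val x) u v := by
    intro u v a h h1
    refine ⟨some a, Or.inl h, ?_⟩
    intro b hb
    obtain rfl : a = b := by simpa using hb
    show (M a).val x = true
    simp only [Net.val, decide_eq_true_eq]
    exact h1
  constructor
  · intro h
    have inv : ∀ q, ReflTransGen (SLink N M x) (Sum.inl N.src) q →
        (∀ u, q = Sum.inl u → ReflTransGen (N.Linked fun a => (M a).val x) N.src u) ∧
        ∀ u v a w, q = Sum.inr ((u, v, a), w) → (u, v, some a) ∈ N.contacts ∧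
          ((ReflTransGen (N.Linked fun a => (M a).val x) N.src u ∧
            ReflTransGen ((M a).Linked x) (M a).src w) ∨
          (ReflTransGen (N.Linked fun a => (M a).val x) N.src v ∧
            ReflTransGen ((M a).Linked x) (M a).tgt w)) := by
      intro q hq
      induction hq with
      | refl =>
        refine ⟨fun u hu => ?_, fun u v a w hu => ?_⟩
        · obtain rfl := Sum.inl_injective hu
          exact ReflTransGen.refl
        · cases hu
      | tail _ hs ih =>
        obtain ⟨l, hl, hx⟩ := hs
        obtain ⟨ih1, ih2⟩ := ih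
        rcases hl with hl | hl
        · cases hl with
          | base u v h =>
            refine ⟨fun u' hu => ?_, fun u v a w hu => ?_⟩
            · obtain rfl := Sum.inl_injective hu
              exact (ih1 u rfl).tail ⟨none, Or.inl h, by simp⟩
            · cases hu
          | enter u v a h =>
            refine ⟨fun u' hu => ?_, fun u' v' a' w' hu => ?_⟩
            · cases hu
            · have e := Sum.inr_injective hu
              simp only [Prod.mk.injEq] at e
              obtain ⟨⟨rfl, rfl, rfl⟩, rfl⟩ := e
              exact ⟨h, Or.inl ⟨ih1 _ rfl, ReflTransGen.refl⟩⟩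
          | inner u v a w w' l h h' =>
            refine ⟨fun u' hu => ?_, fun u' v' a' w'' hu => ?_⟩
            · cases hu
            · have e := Sum.inr_injective hu
              simp only [Prod.mk.injEq] at e
              obtain ⟨⟨rfl, rfl, rfl⟩, rfl⟩ := e
              obtain ⟨i0, ⟨i1, i2⟩ | ⟨i1, i2⟩⟩ := ih2 _ _ _ _ rfl
              · exact ⟨h, Or.inl ⟨i1, i2.tail ⟨_, Or.inl h', hx⟩⟩⟩
              · exact ⟨h, Or.inr ⟨i1, i2.tail ⟨_, Or.inl h', hx⟩⟩⟩
          | exit u v a h =>
            refine ⟨fun u' hu => ?_, fun u' v' a' w' hu => ?_⟩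
            · obtain rfl := Sum.inl_injective hu
              obtain ⟨i0, ⟨i1, i2⟩ | ⟨i1, i2⟩⟩ := ih2 _ _ _ _ rfl
              · exact i1.tail (hlink h i2)
              · exact i1
            · cases hu
        · cases hl with
          | base u v h =>
            refine ⟨fun u' hu => ?_, fun u v a w hu => ?_⟩
            · obtain rfl := Sum.inl_injective hu
              exact (ih1 v rfl).tail ⟨none, Or.inr h, by simp⟩
            · cases hu
          | enter u v a h =>
            refine ⟨fun u' hu => ?_, fun u' v' a' w' hu => ?_⟩
            · obtain rfl := Sum.inl_injective hu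
              obtain ⟨i0, ⟨i1, i2⟩ | ⟨i1, i2⟩⟩ := ih2 _ _ _ _ rfl
              · exact i1
              · exact i1.tail (linked_symm _ _ (hlink h
                  (rtg_symm (fun _ _ h => linked_symm _ _ h) i2)))
            · cases hu
          | inner u v a w w' l h h' =>
            refine ⟨fun u' hu => ?_, fun u' v' a' w'' hu => ?_⟩
            · cases hu
            · have e := Sum.inr_injective hu
              simp only [Prod.mk.injEq] at e
              obtain ⟨⟨rfl, rfl, rfl⟩, rfl⟩ := e
              obtain ⟨i0, ⟨i1, i2⟩ | ⟨i1, i2⟩⟩ := ih2 _ _ _ _ rfl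
              · exact ⟨h, Or.inl ⟨i1, i2.tail ⟨_, Or.inr h', hx⟩⟩⟩
              · exact ⟨h, Or.inr ⟨i1, i2.tail ⟨_, Or.inr h', hx⟩⟩⟩
          | exit u v a h =>
            refine ⟨fun u' hu => ?_, fun u' v' a' w' hu => ?_⟩
            · cases hu
            · have e := Sum.inr_injective hu
              simp only [Prod.mk.injEq] at e
              obtain ⟨⟨rfl, rfl, rfl⟩, rfl⟩ := e
              exact ⟨h, Or.inr ⟨ih1 _ rfl, ReflTransGen.refl⟩⟩
    exact (inv _ h).1 _ rfl
  · intro h
    have hp : ∀ {u v : Fin S} {a : κ}, (u, v, some a) ∈ N.contacts → (M a).Accepts x →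
        ReflTransGen (SLink N M x) (Sum.inl u) (Sum.inl v) := by
      intro u v a hl h2
      exact (ReflTransGen.head ⟨none, Or.inl (SubC.enter u v a hl), by simp⟩
        (lift_inner' hl h2)).tail ⟨none, Or.inl (SubC.exit u v a hl), by simp⟩
    have hsymm : ∀ p q, SLink N M x p q → SLink N M x q p := by
      rintro p q ⟨l, hl, hx⟩
      exact ⟨l, hl.symm, hx⟩
    have h1 : ∀ u, ReflTransGen (N.Linked fun a => (M a).val x) N.src u →
        ReflTransGen (SLink N M x) (Sum.inl N.src) (Sum.inl u) := by
      intro u hu
      induction hu with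
      | refl => exact ReflTransGen.refl
      | @tail u v _ hs ih =>
        obtain ⟨l, hl, hx⟩ := hs
        cases l with
        | none =>
          rcases hl with hl | hl
          · exact ih.tail ⟨none, Or.inl (SubC.base _ _ hl), by simp⟩
          · exact ih.tail ⟨none, Or.inr (SubC.base _ _ hl), by simp⟩
        | some a =>
          have h2 : (M a).Accepts x := by
            have := hx a rfl
            simpa only [Net.val, decide_eq_true_eq] using this
          rcases hl with hl | hl
          · exact ih.trans (hp hl h2)
          · exact ih.trans (rtg_symm hsymm (hp hl h2))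
    exact h1 _ h

/-- **Networks substituted into a network.** -/
theorem exists_subst [Fintype κ] (N : Net κ S) (M : κ → Net ι S') :
    ∃ P : Net ι (S + S * (S * Fintype.card κ) * S'),
      (∀ x, P.val x = N.val fun a => (M a).val x) ∧
      ∀ x, P.dval x = N.dval fun a => (M a).dval x := by
  classical
  have hcard : Fintype.card (SNode κ S S') = S + S * (S * Fintype.card κ) * S' := by
    simp only [Fintype.card_sum, Fintype.card_prod, Fintype.card_fin]
  set e := Fintype.equivFinOfCardEq hcard with he
  refine ⟨{ contacts := {c | SubC N M (e.symm c.1) (e.symm c.2.1) c.2.2}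
            src := e (Sum.inl N.src)
            tgt := e (Sum.inl N.tgt) }, fun x => ?_, fun x => ?_⟩
  · unfold Net.val
    refine decide_eq_decide.mpr ?_
    refine Iff.trans ?_ (slink_iff N M x)
    refine lift_iff e e.injective (T := SLink N M x) (fun p q => ?_) _ _
    constructor
    · rintro ⟨l, hl, hx⟩
      exact ⟨e.symm p, e.symm q, by simp, by simp, l, hl, hx⟩
    · rintro ⟨a, b, rfl, rfl, l, hl, hx⟩
      refine ⟨l, ?_, hx⟩
      simpa using hl
  · unfold Net.dval
    refine decide_eq_decide.mpr ?_
    refine Iff.trans ?_ (sreach_iff N M x)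
    refine lift_iff e e.injective (T := SStep N M x) (fun p q => ?_) _ _
    constructor
    · rintro ⟨l, hl, hx⟩
      exact ⟨e.symm p, e.symm q, by simp, by simp, l, hl, hx⟩
    · rintro ⟨a, b, rfl, rfl, l, hl, hx⟩
      refine ⟨l, ?_, hx⟩
      simpa using hl

end Pool.Agent.NTN
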