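import Pool.Agent.NTR.Has
import Pool.Agent.NTR.FullDefs
import Pool.Agent.NegLim.State

/-!
# Slices: `|U|` changes of the NOT gates on `U` suffice for every function
-/

set_option autoImplicit false

namespace Pool.Agent.NTN

open Pool.Agent.NegLim Pool.Agent.NTR Finset

section

variable {V : Type}

/-- The number of variables in `W` which are true. -/
def cnt (W : Finset V) (x : V → Bool) : ℕ := (W.filter fun v => x v = true).card

/-- The inputs are equal outside `U` and in the same slice of `U`. -/
def Slc (U : Finset V) (x y : V → Bool) : Prop := (∀ v, v ∉ U → x v = y v) ∧ cnt U x = cnt U y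

/-- Some circuit with at most `n` gates, whose NOT gates depend only on the variables outside `U`
and on the slice of `U`, computes all functions of the family. -/
def HasS (U : Finset V) (n : ℕ) (Φ : Set ((V → Bool) → Prop)) : Prop :=
  ∃ C : Circuit V, (∀ x y, Slc U x y → C.notVals x = C.notVals y) ∧ C.size ≤ n ∧
    ∀ F ∈ Φ, ∃ w : Wire V, Bel C.length w ∧ ∀ x, C.val x w = true ↔ F x

variable {U : Finset V} {n m : ℕ} {Φ Ψ : Set ((V → Bool) → Prop)}

theorem HasS.mono (h : HasS U n Φ) (hnm : n ≤ m) (hs : Ψ ⊆ Φ) : HasS U m Ψ := by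
  obtain ⟨C, h1, h2, h3⟩ := h
  exact ⟨C, h1, h2.trans hnm, fun F hF => h3 F (hs hF)⟩

theorem hasS_bas (U : Finset V) : HasS U 0 (bas V) := by
  refine ⟨[], fun x y _ => by simp [Circuit.notVals], by simp [Circuit.size], ?_⟩
  rintro F (⟨v, rfl⟩ | rfl | rfl)
  · exact ⟨.var v, trivial, fun x => by simp [Circuit.val, Wire.val]⟩
  · exact ⟨.const true, trivial, fun x => by simp [Circuit.val, Wire.val]⟩
  · exact ⟨.const false, trivial, fun x => by simp [Circuit.val, Wire.val]⟩

/-- One more gate. -/
theorem HasS.gate (h : HasS U n Φ) {G : (V → Bool) → Prop}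
    (hG : ∀ C : Circuit V, (∀ F ∈ Φ, ∃ w : Wire V, Bel C.length w ∧ ∀ x, C.val x w = true ↔ F x) →
      ∃ g : Gate V, (∀ x, g.val x (gateVals x C []) = true ↔ G x) ∧
        (g.isNot = true → ∀ x y, Slc U x y → (G x ↔ G y))) :
    HasS U (n + 1) (insert G Φ) := by
  obtain ⟨C, h1, h2, h3⟩ := h
  obtain ⟨g, hg, hn⟩ := hG C h3
  refine ⟨C ++ [g], fun x y hxy => ?_, ?_, ?_⟩
  · rw [notVals_snoc, notVals_snoc, h1 x y hxy]
    congr 1
    split_ifs with h4
    · have h5 := hn h4 x y hxy
      rw [← hg x, ← hg y] at h5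
      rw [Bool.eq_iff_iff.2 h5]
    · rfl
  · unfold Circuit.size at h2 ⊢
    simp only [List.length_append, List.length_cons, List.length_nil]
    omega
  · rintro E (rfl | hE)
    · refine ⟨.gate C.length, by simp [Bel], fun x => ?_⟩
      have hl : (gateVals x C []).length = C.length := by rw [gv_length]; simp
      have e1 := hg x
      unfold Circuit.val
      rw [gv_snoc]
      simp only [Wire.val]
      rw [List.getD_eq_getElem _ _ (by rw [List.length_append, hl]; simp),
        List.getElem_append_right (by rw [hl])]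
      simp only [hl, Nat.sub_self, List.getElem_cons_zero]
      exact e1
    · obtain ⟨c, hc, hcv⟩ := h3 E hE
      refine ⟨c, hc.mono (by simp), fun x => ?_⟩
      rw [← hcv x]
      unfold Circuit.val
      rw [gv_snoc, wv_append]
      rw [gv_length]
      simpa using hc

theorem HasS.and (h : HasS U n Φ) {F G : (V → Bool) → Prop} (hF : F ∈ Φ) (hG : G ∈ Φ) :
    HasS U (n + 1) (insert (fun x => F x ∧ G x) Φ) := by
  refine h.gate fun C hC => ?_
  obtain ⟨a, -, ha⟩ := hC F hF
  obtain ⟨b, -, hb⟩ := hC G hG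
  refine ⟨.and a b, fun x => ?_, fun h1 => absurd h1 (by simp [Gate.isNot])⟩
  rw [← ha x, ← hb x]
  simp [Gate.val, Circuit.val]

theorem HasS.or (h : HasS U n Φ) {F G : (V → Bool) → Prop} (hF : F ∈ Φ) (hG : G ∈ Φ) :
    HasS U (n + 1) (insert (fun x => F x ∨ G x) Φ) := by
  refine h.gate fun C hC => ?_
  obtain ⟨a, -, ha⟩ := hC F hF
  obtain ⟨b, -, hb⟩ := hC G hG
  refine ⟨.or a b, fun x => ?_, fun h1 => absurd h1 (by simp [Gate.isNot])⟩
  rw [← ha x, ← hb x]
  simp [Gate.val, Circuit.val]

theorem HasS.not (h : HasS U n Φ) {F : (V → Bool) → Prop} (hF : F ∈ Φ)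
    (hS : ∀ x y, Slc U x y → (F x ↔ F y)) : HasS U (n + 1) (insert (fun x => ¬ F x) Φ) := by
  refine h.gate fun C hC => ?_
  obtain ⟨a, -, ha⟩ := hC F hF
  refine ⟨.not a, fun x => ?_, fun _ x y hxy => not_congr (hS x y hxy)⟩
  rw [← ha x]
  simp [Gate.val, Circuit.val]

/-- One family after another. -/
theorem HasS.iter {K : Type} {c : ℕ} (h : HasS U n Φ) (s : Finset K)
    (A : K → Set ((V → Bool) → Prop))
    (hA : ∀ k ∈ s, ∀ (m : ℕ) (Ψ : Set ((V → Bool) → Prop)), Φ ⊆ Ψ → HasS U m Ψ →
      HasS U (m + c) (Ψ ∪ A k)) :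
    HasS U (n + c * s.card) (Φ ∪ {F | ∃ k ∈ s, F ∈ A k}) := by
  classical
  induction s using Finset.induction_on with
  | empty =>
    refine h.mono (by simp) ?_
    rintro E (hE | ⟨k, hk, _⟩)
    · exact hE
    · exact absurd hk (Finset.notMem_empty k)
  | insert k s hk ih =>
    have h1 := ih fun i hi => hA i (Finset.mem_insert_of_mem hi)
    have h2 := hA k (Finset.mem_insert_self k s) _ _ Set.subset_union_left h1
    refine h2.mono (by rw [Finset.card_insert_of_notMem hk]; ring_nf; omega) ?_
    rintro E (hE | ⟨i, hi, hE⟩)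
    · exact Or.inl (Or.inl hE)
    · rcases Finset.mem_insert.mp hi with rfl | hi
      · exact Or.inr hE
      · exact Or.inl (Or.inr ⟨i, hi, hE⟩)

theorem const_mem_bas' (P : Prop) : (fun _ : V → Bool => P) ∈ bas V := by
  by_cases h : P
  · exact Or.inr (Or.inl (by simp [h]))
  · exact Or.inr (Or.inr (by simp [h]))

/-- The threshold functions. -/
def thr (W : Finset V) (j : ℕ) (x : V → Bool) : Prop := j ≤ cnt W x

theorem cnt_insert [DecidableEq V] {W : Finset V} {v : V} (hv : v ∉ W) (x : V → Bool) :
    cnt (insert v W) x = cnt W x + if x v = true then 1 else 0 := by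
  unfold cnt
  rw [Finset.filter_insert]
  split_ifs with h
  · rw [Finset.card_insert_of_notMem (fun h1 => hv (Finset.mem_filter.1 h1).1)]
  · rfl

theorem hasS_thr [DecidableEq V] (h : HasS U n Φ) (hb : bas V ⊆ Φ) (W : Finset V) (k : ℕ) :
    HasS U (n + 2 * k * W.card) (Φ ∪ {F | ∃ j, j ≤ k ∧ F = thr W j}) := by
  induction W using Finset.induction_on with
  | empty =>
    refine h.mono (by simp) ?_
    rintro E (hE | ⟨j, -, rfl⟩)
    · exact hE
    · refine hb ?_
      have h1 : (thr (∅ : Finset V) j) = fun _ : V → Bool => j ≤ 0 := by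
        funext x
        simp [thr, cnt]
      rw [h1]
      exact const_mem_bas' _
  | insert v W hv ih =>
    have h1 := ih.iter (c := 2) (Finset.range k) (fun j => {thr (insert v W) (j + 1)}) (by
      intro j hj m Ψ hΨ hm
      rw [Finset.mem_range] at hj
      have e1 : (fun x : V → Bool => x v = true) ∈ Ψ := hΨ (Or.inl (hb (Or.inl ⟨v, rfl⟩)))
      have e2 : thr W j ∈ Ψ := hΨ (Or.inr ⟨j, hj.le, rfl⟩)
      have e3 : thr W (j + 1) ∈ Ψ := hΨ (Or.inr ⟨j + 1, hj, rfl⟩)
      have h2 := hm.and e1 e2
      have h3 := h2.or (Or.inl rfl) (Or.inr e3)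
      refine h3.mono le_rfl ?_
      rintro E (hE | hE)
      · exact Or.inr (Or.inr hE)
      · refine Or.inl ?_
        rw [Set.mem_singleton_iff.1 hE]
        funext x
        refine propext ?_
        unfold thr
        rw [cnt_insert hv]
        split_ifs with h4
        · constructor
          · intro h5
            exact Or.inl ⟨h4, by omega⟩
          · rintro (⟨-, h5⟩ | h5) <;> omega
        · constructor
          · intro h5
            exact Or.inr (by omega)
          · rintro (⟨h6, -⟩ | h5)
            · exact absurd h6 h4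
            · omega)
    refine h1.mono ?_ ?_
    · rw [Finset.card_range, Finset.card_insert_of_notMem hv]
      ring_nf
      omega
    · rintro E (hE | ⟨j, hj, rfl⟩)
      · exact Or.inl (Or.inl hE)
      · rcases j with _ | j
        · refine Or.inl (Or.inl (hb ?_))
          have h2 : (thr (insert v W) 0) = fun _ : V → Bool => True := by
            funext x
            simp [thr]
          rw [h2]
          exact const_mem_bas' _
        · exact Or.inr ⟨j, Finset.mem_range.2 hj, rfl⟩

/-- The functions available: variables, constants, thresholds of `U` and of `U` without one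
variable, negations of the variables outside `U` and of the thresholds of `U`. -/
structure Avail [DecidableEq V] (U : Finset V) (Φ : Set ((V → Bool) → Prop)) : Prop where
  bas : bas V ⊆ Φ
  thr : ∀ j, j ≤ U.card + 1 → thr U j ∈ Φ
  thr1 : ∀ v ∈ U, ∀ j, j ≤ U.card → NTN.thr (U.erase v) j ∈ Φ
  nvar : ∀ v, v ∉ U → (fun x : V → Bool => ¬ x v = true) ∈ Φ
  nthr : ∀ j, j ≤ U.card → (fun x : V → Bool => ¬ NTN.thr U (j + 1) x) ∈ Φ

theorem Avail.mono [DecidableEq V] (h : Avail U Φ) (hs : Φ ⊆ Ψ) : Avail U Ψ :=
  ⟨h.bas.trans hs, fun j hj => hs (h.thr j hj), fun v hv j hj => hs (h.thr1 v hv j hj),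
    fun v hv => hs (h.nvar v hv), fun j hj => hs (h.nthr j hj)⟩

theorem thr_slc (j : ℕ) (x y : V → Bool) (h : Slc U x y) : thr U j x ↔ thr U j y := by
  unfold thr
  rw [h.2]

theorem exists_avail [Fintype V] [DecidableEq V] (U : Finset V) :
    ∃ Φ : Set ((V → Bool) → Prop), Avail U Φ ∧
      HasS U (2 * (U.card + 1) * U.card + 2 * U.card ^ 3 + Fintype.card V + (U.card + 1)) Φ := by
  set k := U.card with hk
  have h1 := hasS_thr (hasS_bas U) subset_rfl U (k + 1)
  have h2 := h1.iter (c := 2 * k * k) U (fun v => {F | ∃ j, j ≤ k ∧ F = thr (U.erase v) j}) (by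
    intro v hv m Ψ hΨ hm
    refine (hasS_thr hm (Set.subset_union_left.trans hΨ) (U.erase v) k).mono ?_ subset_rfl
    refine Nat.add_le_add_left (Nat.mul_le_mul_left _ ?_) _
    exact Finset.card_le_card (Finset.erase_subset _ _))
  have h3 := h2.iter (c := 1) (univ \ U) (fun v => {fun x : V → Bool => ¬ x v = true}) (by
    intro v hv m Ψ hΨ hm
    rw [Finset.mem_sdiff] at hv
    refine (hm.not (F := fun x => x v = true)
      (hΨ (Or.inl (Or.inl (Or.inl ⟨v, rfl⟩)))) ?_).mono le_rfl ?_
    · intro x y hxy
      rw [hxy.1 v hv.2]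
    · rintro E (hE | hE)
      · exact Or.inr hE
      · exact Or.inl (Set.mem_singleton_iff.1 hE))
  have h4 := h3.iter (c := 1) (Finset.range (k + 1))
    (fun j => {fun x : V → Bool => ¬ thr U (j + 1) x}) (by
    intro j hj m Ψ hΨ hm
    rw [Finset.mem_range] at hj
    refine (hm.not (F := thr U (j + 1))
      (hΨ (Or.inl (Or.inl (Or.inr ⟨j + 1, by omega, rfl⟩)))) ?_).mono le_rfl ?_
    · exact thr_slc _
    · rintro E (hE | hE)
      · exact Or.inr hE
      · exact Or.inl (Set.mem_singleton_iff.1 hE))
  refine ⟨_, ⟨?_, ?_, ?_, ?_, ?_⟩, h4.mono ?_ subset_rfl⟩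
  · exact fun F hF => Or.inl (Or.inl (Or.inl (Or.inl hF)))
  · exact fun j hj => Or.inl (Or.inl (Or.inl (Or.inr ⟨j, hj, rfl⟩)))
  · exact fun v hv j hj => Or.inl (Or.inl (Or.inr ⟨v, hv, ⟨j, hj, rfl⟩⟩))
  · exact fun v hv => Or.inl (Or.inr ⟨v, Finset.mem_sdiff.2 ⟨Finset.mem_univ _, hv⟩, rfl⟩)
  · exact fun j hj => Or.inr ⟨j, Finset.mem_range.2 (Nat.lt_succ_of_le hj), rfl⟩
  · have h5 : (univ \ U).card ≤ Fintype.card V := Finset.card_le_univ _
    rw [Finset.card_range, ← hk]
    have h6 : 2 * k * k * k = 2 * k ^ 3 := by ring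
    rw [h6]
    omega

/-- The circuit `C` on the slice `j`: every gate has two monotone descriptions. -/
theorem hasS_slice [DecidableEq V] {j : ℕ} (hj : j ≤ U.card) (C : Circuit V) :
    ∀ (n : ℕ) (Φ : Set ((V → Bool) → Prop)), Avail U Φ → HasS U n Φ →
    ∃ P Q : ℕ → (V → Bool) → Prop,
      HasS U (n + 2 * C.length) (Φ ∪ {F | ∃ i, F = P i ∨ F = Q i}) ∧
      ∀ x, cnt U x = j → ∀ i, (P i x ↔ (gateVals x C []).getD i false = true) ∧
        (Q i x ↔ (gateVals x C []).getD i false = false) := by
  induction C using List.reverseRecOn with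
  | nil =>
    intro n Φ hA h
    refine ⟨fun _ _ => False, fun _ _ => True, h.mono (by simp) ?_, fun x _ i => ?_⟩
    · rintro E (hE | ⟨i, rfl | rfl⟩)
      · exact hE
      · exact hA.bas (const_mem_bas' _)
      · exact hA.bas (const_mem_bas' _)
    · simp [gateVals]
  | append_singleton C g ih =>
    intro n Φ hA h
    obtain ⟨P, Q, h1, h2⟩ := ih n Φ hA h
    set Φ' := Φ ∪ {F | ∃ i, F = P i ∨ F = Q i} with hΦ'
    have hA' : Avail U Φ' := hA.mono Set.subset_union_left
    -- wires
    have hw : ∀ a : Wire V, ∃ F ∈ Φ', ∃ G ∈ Φ', ∀ x, cnt U x = j →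
        (F x ↔ a.val x (gateVals x C []) = true) ∧ (G x ↔ a.val x (gateVals x C []) = false) := by
      intro a
      cases a with
      | var v =>
        by_cases hv : v ∈ U
        · refine ⟨fun x => x v = true, hA'.bas (Or.inl ⟨v, rfl⟩), thr (U.erase v) j,
            hA'.thr1 v hv j hj, fun x hx => ⟨Iff.rfl, ?_⟩⟩
          have h3 : cnt U x = cnt (U.erase v) x + if x v = true then 1 else 0 := by
            have h4 := cnt_insert (Finset.notMem_erase v U) x
            rwa [Finset.insert_erase hv] at h4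
          simp only [thr, Wire.val]
          rw [hx] at h3
          cases h5 : x v
          · rw [h5] at h3
            simp only [Bool.false_eq_true, if_false] at h3
            simp only [iff_true]
            omega
          · rw [h5] at h3
            simp only [if_true] at h3
            simp only [Bool.true_eq_false, iff_false]
            omega
        · exact ⟨fun x => x v = true, hA'.bas (Or.inl ⟨v, rfl⟩), _, hA'.nvar v hv,
            fun x hx => ⟨Iff.rfl, by simp [Wire.val]⟩⟩
      | const b =>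
        exact ⟨fun _ => b = true, hA'.bas (const_mem_bas' _), fun _ => b = false,
          hA'.bas (const_mem_bas' _), fun x _ => ⟨Iff.rfl, Iff.rfl⟩⟩
      | gate i =>
        exact ⟨P i, Or.inr ⟨i, Or.inl rfl⟩, Q i, Or.inr ⟨i, Or.inr rfl⟩, fun x hx => h2 x hx i⟩
    -- the new gate
    obtain ⟨F, G, h3, h4⟩ : ∃ F G : (V → Bool) → Prop,
        HasS U (n + 2 * C.length + 2) (insert F (insert G Φ')) ∧ ∀ x, cnt U x = j →
          (F x ↔ g.val x (gateVals x C []) = true) ∧
          (G x ↔ g.val x (gateVals x C []) = false) := by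
      cases g with
      | and a b =>
        obtain ⟨F, hF, G, hG, ha⟩ := hw a
        obtain ⟨F', hF', G', hG', hb⟩ := hw b
        refine ⟨fun x => F x ∧ F' x, fun x => G x ∨ G' x,
          ((h1.or hG hG').and (Or.inr hF) (Or.inr hF')).mono le_rfl subset_rfl, fun x hx => ?_⟩
        show (F x ∧ F' x ↔ _) ∧ (G x ∨ G' x ↔ _)
        rw [(ha x hx).1, (ha x hx).2, (hb x hx).1, (hb x hx).2]
        simp only [Gate.val]
        cases a.val x (gateVals x C []) <;> cases b.val x (gateVals x C []) <;> simp
      | or a b =>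
        obtain ⟨F, hF, G, hG, ha⟩ := hw a
        obtain ⟨F', hF', G', hG', hb⟩ := hw b
        refine ⟨fun x => F x ∨ F' x, fun x => G x ∧ G' x,
          ((h1.and hG hG').or (Or.inr hF) (Or.inr hF')).mono le_rfl subset_rfl, fun x hx => ?_⟩
        show (F x ∨ F' x ↔ _) ∧ (G x ∧ G' x ↔ _)
        rw [(ha x hx).1, (ha x hx).2, (hb x hx).1, (hb x hx).2]
        simp only [Gate.val]
        cases a.val x (gateVals x C []) <;> cases b.val x (gateVals x C []) <;> simp
      | not a =>
        obtain ⟨F, hF, G, hG, ha⟩ := hw a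
        refine ⟨G, F, h1.mono (by omega) ?_, fun x hx => ?_⟩
        · rintro E (rfl | rfl | hE)
          · exact hG
          · exact hF
          · exact hE
        · rw [(ha x hx).1, (ha x hx).2]
          simp [Gate.val]
    refine ⟨fun i => if i = C.length then F else P i, fun i => if i = C.length then G else Q i,
      h3.mono ?_ ?_, fun x hx i => ?_⟩
    · rw [List.length_append]
      simp only [List.length_cons, List.length_nil]
      omega
    · rintro E (hE | ⟨i, hE⟩)
      · exact Or.inr (Or.inr (Or.inl hE))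
      · dsimp only at hE
        by_cases hi : i = C.length
        · rw [if_pos hi, if_pos hi] at hE
          rcases hE with rfl | rfl
          · exact Or.inl rfl
          · exact Or.inr (Or.inl rfl)
        · rw [if_neg hi, if_neg hi] at hE
          exact Or.inr (Or.inr (Or.inr ⟨i, hE⟩))
    · have hl : (gateVals x C []).length = C.length := by rw [gv_length]; simp
      rw [gv_snoc]
      dsimp only
      by_cases hi : i = C.length
      · rw [if_pos hi, if_pos hi]
        have h5 : (gateVals x C [] ++ [g.val x (gateVals x C [])]).getD i false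
            = g.val x (gateVals x C []) := by
          rw [List.getD_eq_getElem _ _ (by rw [List.length_append, hl, hi]; simp),
            List.getElem_append_right (by rw [hl, hi])]
          simp only [hl, hi, Nat.sub_self, List.getElem_cons_zero]
        rw [h5]
        exact h4 x hx
      · rw [if_neg hi, if_neg hi]
        have h5 : (gateVals x C [] ++ [g.val x (gateVals x C [])]).getD i false
            = (gateVals x C []).getD i false := by
          rcases Nat.lt_or_ge i C.length with h6 | h6
          · rw [List.getD_eq_getElem _ _ (by rw [List.length_append, hl]; simp; omega),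
              List.getElem_append_left (by rw [hl]; exact h6),
              List.getD_eq_getElem _ _ (by rw [hl]; exact h6)]
          · rw [List.getD_eq_default _ _ (by rw [List.length_append, hl]; simp; omega),
              List.getD_eq_default _ _ (by rw [hl]; exact h6)]
        rw [h5]
        exact h2 x hx i

/-- The output of `C` on the slice `j`. -/
theorem hasS_out [DecidableEq V] {j : ℕ} (hj : j ≤ U.card) (C : Circuit V) (out : Wire V)
    (hA : Avail U Φ) (h : HasS U n Φ) :
    ∃ F : (V → Bool) → Prop, HasS U (n + 2 * C.length) (insert F Φ) ∧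
      ∀ x, cnt U x = j → (F x ↔ C.val x out = true) := by
  obtain ⟨P, Q, h1, h2⟩ := hasS_slice hj C n Φ hA h
  cases out with
  | var v =>
    refine ⟨fun x => x v = true, h1.mono le_rfl ?_, fun x _ => Iff.rfl⟩
    rintro E (rfl | hE)
    · exact Or.inl (hA.bas (Or.inl ⟨v, rfl⟩))
    · exact Or.inl hE
  | const b =>
    refine ⟨fun _ => b = true, h1.mono le_rfl ?_, fun x _ => Iff.rfl⟩
    rintro E (rfl | hE)
    · exact Or.inl (hA.bas (const_mem_bas' _))
    · exact Or.inl hE
  | gate i =>
    refine ⟨P i, h1.mono le_rfl ?_, fun x hx => (h2 x hx i).1⟩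
    rintro E (rfl | hE)
    · exact Or.inr ⟨i, Or.inl rfl⟩
    · exact Or.inl hE

/-- The outputs of `C` on the slices `0, ..., m - 1`. -/
theorem hasS_outs [DecidableEq V] (C : Circuit V) (out : Wire V) (hA : Avail U Φ)
    (h : HasS U n Φ) : ∀ m, m ≤ U.card + 1 →
    ∃ F : ℕ → (V → Bool) → Prop, HasS U (n + m * (2 * C.length)) (Φ ∪ {G | ∃ j < m, G = F j}) ∧
      ∀ j < m, ∀ x, cnt U x = j → (F j x ↔ C.val x out = true) := by
  intro m
  induction m with
  | zero =>
    intro _
    refine ⟨fun _ _ => True, h.mono (by simp) ?_, fun j hj => absurd hj (Nat.not_lt_zero _)⟩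
    rintro E (hE | ⟨j, hj, -⟩)
    · exact hE
    · exact absurd hj (Nat.not_lt_zero _)
  | succ m ih =>
    intro hm
    obtain ⟨F, h1, h2⟩ := ih (by omega)
    obtain ⟨G, h3, h4⟩ := hasS_out (j := m) (by omega) C out (hA.mono Set.subset_union_left) h1
    refine ⟨fun j => if j = m then G else F j, h3.mono ?_ ?_, fun j hj x hx => ?_⟩
    · have h5 : (m + 1) * (2 * C.length) = m * (2 * C.length) + 2 * C.length := by ring
      omega
    · rintro E (hE | ⟨j, hj, hE⟩)
      · exact Or.inr (Or.inl hE)
      · dsimp only at hE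
        by_cases hjm : j = m
        · rw [if_pos hjm] at hE
          exact Or.inl hE
        · rw [if_neg hjm] at hE
          exact Or.inr (Or.inr ⟨j, by omega, hE⟩)
    · dsimp only
      by_cases hjm : j = m
      · rw [if_pos hjm]
        exact h4 x (by rw [hx, hjm])
      · rw [if_neg hjm]
        exact h2 j (by omega) x hx

/-- The choice of the slice. -/
theorem hasS_choice [DecidableEq V] (F : ℕ → (V → Bool) → Prop) (hA : Avail U Φ)
    (h : HasS U n Φ) : ∀ m, m ≤ U.card + 1 → (∀ j < m, F j ∈ Φ) →
    HasS U (n + 3 * m)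
      (insert (fun x => ∃ j, j < m ∧ thr U j x ∧ ¬ thr U (j + 1) x ∧ F j x) Φ) := by
  intro m
  induction m with
  | zero =>
    intro _ _
    refine h.mono (by simp) ?_
    rintro E (rfl | hE)
    · have h1 : (fun x : V → Bool => ∃ j, j < 0 ∧ thr U j x ∧ ¬ thr U (j + 1) x ∧ F j x)
          = fun _ => False := by
        funext x
        simp
      rw [h1]
      exact hA.bas (const_mem_bas' _)
    · exact hE
  | succ m ih =>
    intro hm hF
    have h1 := ih (by omega) fun j hj => hF j (by omega)
    have h2 := h1.and (Or.inr (hA.nthr m (by omega))) (Or.inr (hF m (by omega)))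
    have h3 := h2.and (Or.inr (Or.inr (hA.thr m (by omega)))) (Or.inl rfl)
    have h4 := h3.or (Or.inl rfl) (Or.inr (Or.inr (Or.inl rfl)))
    refine h4.mono (by omega) ?_
    rintro E (rfl | hE)
    · refine Or.inl ?_
      funext x
      refine propext ⟨?_, ?_⟩
      · rintro ⟨j, hj, h5⟩
        rcases Nat.lt_succ_iff_lt_or_eq.1 hj with h6 | rfl
        · exact Or.inr ⟨j, h6, h5⟩
        · exact Or.inl h5
      · rintro (h5 | ⟨j, hj, h5⟩)
        · exact ⟨m, Nat.lt_succ_self m, h5⟩
        · exact ⟨j, by omega, h5⟩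
    · exact Or.inr (Or.inr (Or.inr (Or.inr hE)))

theorem cnt_le (U : Finset V) (x : V → Bool) : cnt U x ≤ U.card := Finset.card_filter_le _ _

/-- Functions of the slice change at most `|U|` times. -/
theorem changesOn_slc {W : Type} (w : (V → Bool) → W) (hw : ∀ x y, Slc U x y → w x = w y) :
    ChangesOn U w (U.card + 1) := by
  intro x hx hU n
  have hcm : ∀ k, cnt U (x k) ≤ cnt U (x (k + 1)) := by
    intro k
    refine Finset.card_le_card fun v hv => ?_
    rw [Finset.mem_filter] at hv ⊢
    exact ⟨hv.1, Bool.le_iff_imp.1 (hx (Nat.le_succ k) v) hv.2⟩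
  have key : ∀ m, {k | k < m ∧ w (x k) ≠ w (x (k + 1))}.ncard + cnt U (x 0) ≤ cnt U (x m) := by
    intro m
    induction m with
    | zero => simp
    | succ m ih =>
      by_cases h : w (x m) = w (x (m + 1))
      · have h1 : {k | k < m + 1 ∧ w (x k) ≠ w (x (k + 1))}
            = {k | k < m ∧ w (x k) ≠ w (x (k + 1))} := by
          ext k
          constructor
          · rintro ⟨h2, h3⟩
            refine ⟨?_, h3⟩
            rcases Nat.lt_succ_iff_lt_or_eq.1 h2 with h4 | rfl
            · exact h4
            · exact absurd h h3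
          · rintro ⟨h2, h3⟩
            exact ⟨by omega, h3⟩
        rw [h1]
        exact ih.trans (hcm m)
      · have h1 : {k | k < m + 1 ∧ w (x k) ≠ w (x (k + 1))}
            ⊆ insert m {k | k < m ∧ w (x k) ≠ w (x (k + 1))} := by
          rintro k ⟨h2, h3⟩
          rcases Nat.lt_succ_iff_lt_or_eq.1 h2 with h4 | rfl
          · exact Or.inr ⟨h4, h3⟩
          · exact Or.inl rfl
        have hfin : {k | k < m ∧ w (x k) ≠ w (x (k + 1))}.Finite :=
          (Set.finite_lt_nat m).subset fun k hk => hk.1
        have h2 := Set.ncard_le_ncard h1 (hfin.insert m)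
        have h3 := Set.ncard_insert_le m {k | k < m ∧ w (x k) ≠ w (x (k + 1))}
        have h4 : cnt U (x m) ≠ cnt U (x (m + 1)) := by
          intro h5
          refine h (hw _ _ ⟨fun v hv => ?_, h5⟩)
          rw [hU m v hv, hU (m + 1) v hv]
        have h5 := hcm m
        omega
  have h1 := key n
  have h2 := cnt_le U (x n)
  omega

/-- **Slices.** Every function `f` with a circuit has, for every set `U` of variables, a circuit of
polynomial size whose NOT gates change their values at most `|U|` times on `U`. -/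
theorem exists_slices [Fintype V] [DecidableEq V] (C : Circuit V) (out : Wire V)
    (U : Finset V) : ∃ (D : Circuit V) (o : Wire V),
      D.size ≤ 2 * (U.card + 1) * C.size + 4 * (U.card + 1) ^ 3 + Fintype.card V ∧
      (∀ x, D.val x o = C.val x out) ∧ ChangesOn U (fun x => D.notVals x) (U.card + 1) := by
  obtain ⟨Φ, hA, h1⟩ := exists_avail U
  obtain ⟨F, h2, h3⟩ := hasS_outs C out hA h1 (U.card + 1) le_rfl
  have h4 := hasS_choice F (hA.mono Set.subset_union_left) h2 (U.card + 1) le_rfl
    fun j hj => Or.inr ⟨j, hj, rfl⟩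
  obtain ⟨D, hD1, hD2, hD3⟩ := h4
  obtain ⟨o, -, ho⟩ := hD3 _ (Or.inl rfl)
  refine ⟨D, o, hD2.trans ?_, fun x => ?_, changesOn_slc _ hD1⟩
  · unfold Circuit.size
    set k := U.card
    have h5 : 2 * (k + 1) * k + 2 * k ^ 3 + (k + 1) + 3 * (k + 1) ≤ 4 * (k + 1) ^ 3 := by
      have h6 : 4 * (k + 1) ^ 3 = 2 * (k + 1) * k + 2 * k ^ 3 + (k + 1) + 3 * (k + 1)
          + (2 * k ^ 3 + 10 * k ^ 2 + 6 * k) := by ring
      omega
    have h7 : (k + 1) * (2 * C.length) = 2 * (k + 1) * C.length := by ring
    omega
  · rw [Bool.eq_iff_iff, ho x]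
    constructor
    · rintro ⟨j, hj, h5, h6, h7⟩
      unfold thr at h5 h6
      exact (h3 j hj x (by omega)).1 h7
    · intro h5
      refine ⟨cnt U x, Nat.lt_succ_of_le (cnt_le U x), ?_, ?_, ?_⟩
      · exact le_refl _
      · unfold thr
        omega
      · exact (h3 _ (Nat.lt_succ_of_le (cnt_le U x)) x rfl).2 h5

end

end Pool.Agent.NTN
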