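import Mathlib

set_option autoImplicit false

/-!
# Random labels: many centres see all labels of many blocks
-/

namespace Pool.Agent.NTN

open Finset

theorem succ_pow_ge (a k : ℕ) : a ^ (k + 1) + (k + 1) * a ^ k ≤ (a + 1) ^ (k + 1) := by
  induction k with
  | zero => simp
  | succ k ih =>
    calc a ^ (k + 1 + 1) + (k + 1 + 1) * a ^ (k + 1)
        ≤ (a ^ (k + 1) + (k + 1) * a ^ k) * (a + 1) := by
          have h : (a ^ (k + 1) + (k + 1) * a ^ k) * (a + 1) =
              a ^ (k + 1 + 1) + (k + 1 + 1) * a ^ (k + 1) + (k + 1) * a ^ k := by ring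
          rw [h]
          exact Nat.le_add_right _ _
      _ ≤ (a + 1) ^ (k + 1) * (a + 1) := Nat.mul_le_mul_right _ ih
      _ = (a + 1) ^ (k + 1 + 1) := (pow_succ _ _).symm

/-- `2 (L - 1)^L ≤ L^L`. -/
theorem two_mul_pred_pow {L : ℕ} (hL : 1 ≤ L) : 2 * (L - 1) ^ L ≤ L ^ L := by
  obtain ⟨a, rfl⟩ : ∃ a, L = a + 1 := ⟨L - 1, by omega⟩
  rw [Nat.add_sub_cancel]
  refine le_trans ?_ (succ_pow_ge a a)
  rw [two_mul]
  refine Nat.add_le_add_left ?_ _
  rw [pow_succ, mul_comm]
  exact Nat.mul_le_mul_right _ (Nat.le_succ a)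

/-- `2^m (L - 1)^D ≤ L^D` if `m L ≤ D`. -/
theorem pow_mul_pred_pow {L m D : ℕ} (hL : 1 ≤ L) (hD : L * m ≤ D) :
    2 ^ m * (L - 1) ^ D ≤ L ^ D := by
  obtain ⟨r, rfl⟩ := Nat.exists_eq_add_of_le hD
  calc 2 ^ m * (L - 1) ^ (L * m + r) = (2 * (L - 1) ^ L) ^ m * (L - 1) ^ r := by
        rw [pow_add, pow_mul, mul_pow, mul_assoc]
    _ ≤ (L ^ L) ^ m * L ^ r :=
        Nat.mul_le_mul (Nat.pow_le_pow_left (two_mul_pred_pow hL) m)
          (Nat.pow_le_pow_left (Nat.sub_le L 1) r)
    _ = L ^ (L * m + r) := by rw [pow_add, pow_mul]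

theorem label_numbers {n J D E : ℕ} (hn : 2 ≤ n) (hE : 1 ≤ E) (hE2 : E ≤ n ^ 2) (hJ : 1 ≤ J)
    (hD : 8 * n ^ 2 * (Nat.log 2 n + 1) * J ≤ D) :
    4 * E * (2 * (J * E) - 1) ^ D ≤ (2 * (J * E)) ^ D := by
  have hL : 1 ≤ 2 * (J * E) := Nat.mul_pos (by norm_num) (Nat.mul_pos hJ hE)
  have h1 : 2 * (J * E) * (4 * (Nat.log 2 n + 1)) ≤ D := by
    refine le_trans ?_ hD
    calc 2 * (J * E) * (4 * (Nat.log 2 n + 1)) ≤ 2 * (J * n ^ 2) * (4 * (Nat.log 2 n + 1)) := by
          gcongr
      _ = 8 * n ^ 2 * (Nat.log 2 n + 1) * J := by ring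
  have h2 : 4 * E ≤ 2 ^ (4 * (Nat.log 2 n + 1)) := by
    have h3 : n < 2 ^ (Nat.log 2 n + 1) := Nat.lt_pow_succ_log_self (by norm_num) n
    calc 4 * E ≤ 2 ^ 2 * (2 ^ (Nat.log 2 n + 1)) ^ 2 := by
          refine Nat.mul_le_mul (by norm_num) (hE2.trans ?_)
          exact Nat.pow_le_pow_left h3.le 2
      _ = 2 ^ (2 + (Nat.log 2 n + 1) * 2) := by rw [← pow_mul, ← pow_add]
      _ ≤ 2 ^ (4 * (Nat.log 2 n + 1)) := Nat.pow_le_pow_right (by norm_num) (by omega)
  exact (Nat.mul_le_mul_right _ h2).trans (pow_mul_pred_pow hL h1)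

section

variable {V L : Type} [Fintype V] [DecidableEq V] [Fintype L] [DecidableEq L]

/-- The number of labellings which avoid the label `a` on `B`. -/
theorem card_avoid (B : Finset V) (a : L) :
    (univ.filter fun ω : V → L => ∀ v ∈ B, ω v ≠ a).card
      = (Fintype.card L - 1) ^ B.card * Fintype.card L ^ (Fintype.card V - B.card) := by
  have h : (univ.filter fun ω : V → L => ∀ v ∈ B, ω v ≠ a)
      = Fintype.piFinset fun v => if v ∈ B then univ.erase a else univ := by
    ext ω
    simp only [mem_filter, mem_univ, true_and, Fintype.mem_piFinset]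
    constructor
    · intro h v
      by_cases hv : v ∈ B
      · rw [if_pos hv]
        exact mem_erase.2 ⟨h v hv, mem_univ _⟩
      · rw [if_neg hv]
        exact mem_univ _
    · intro h v hv
      have h1 := h v
      rw [if_pos hv] at h1
      exact (mem_erase.1 h1).1
  rw [h, Fintype.card_piFinset]
  have h2 : ∀ v, (if v ∈ B then univ.erase a else univ : Finset L).card
      = if v ∈ B then Fintype.card L - 1 else Fintype.card L := by
    intro v
    split_ifs
    · rw [card_erase_of_mem (mem_univ _), card_univ]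
    · rw [card_univ]
  rw [prod_congr rfl fun v _ => h2 v, prod_ite, prod_const, prod_const, filter_mem_eq_inter,
    univ_inter, filter_notMem_eq_sdiff, card_sdiff_of_subset (subset_univ _), card_univ]

/-- The number of labellings whose value at `x` is in `S`. -/
theorem card_at (x : V) (S : Finset L) :
    (univ.filter fun ω : V → L => ω x ∈ S).card
      = S.card * Fintype.card L ^ (Fintype.card V - 1) := by
  have h : (univ.filter fun ω : V → L => ω x ∈ S)
      = Fintype.piFinset fun v => if v ∈ ({x} : Finset V) then S else univ := by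
    ext ω
    simp only [mem_filter, mem_univ, true_and, Fintype.mem_piFinset, mem_singleton]
    constructor
    · intro h v
      by_cases hv : v = x
      · rw [if_pos hv, hv]
        exact h
      · rw [if_neg hv]
        exact mem_univ _
    · intro h
      have h1 := h x
      rwa [if_pos rfl] at h1
  rw [h, Fintype.card_piFinset]
  have h2 : ∀ v, (if v ∈ ({x} : Finset V) then S else univ : Finset L).card
      = if v ∈ ({x} : Finset V) then S.card else Fintype.card L := by
    intro v
    split_ifs
    · rfl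
    · rw [card_univ]
  rw [prod_congr rfl fun v _ => h2 v, prod_ite, prod_const, prod_const, filter_mem_eq_inter,
    univ_inter, filter_notMem_eq_sdiff, card_sdiff_of_subset (subset_univ _), card_univ,
    card_singleton, pow_one]

end

/-- **Random labels.** Every vertex gets the label `none` or a pair of a block `j` and `e ∈ E`. For
some labelling at least a quarter of the pairs of a centre `x ∈ X` and a block `j` are good: `x` has
the label `none`, and for every `e` some `v ∈ B x` has the label `(j, e)`. -/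
theorem exists_labels {V E : Type} [Fintype V] [DecidableEq V] [Fintype E] [DecidableEq E]
    [Nonempty E] {J D : ℕ} (hJ : 1 ≤ J) (X : Finset V) (B : V → Finset V)
    (hx : ∀ x ∈ X, x ∉ B x) (hB : ∀ x ∈ X, D ≤ (B x).card)
    (hD : 4 * Fintype.card E * (2 * (J * Fintype.card E) - 1) ^ D
      ≤ (2 * (J * Fintype.card E)) ^ D) :
    ∃ c : V → Option (Fin J × E), X.card * J ≤ 4 * (Finset.univ.filter fun p : V × Fin J =>
      p.1 ∈ X ∧ c p.1 = none ∧ ∀ e, ∃ v ∈ B p.1, c v = some (p.2, e)).card := by
  classical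
  let Lb := Bool × (Fin J × E)
  obtain ⟨L, hL⟩ : ∃ L, L = 2 * (J * Fintype.card E) := ⟨_, rfl⟩
  have hLc : Fintype.card Lb = L := by
    rw [hL]
    simp only [Lb, Fintype.card_prod, Fintype.card_bool, Fintype.card_fin]
  have hE : 0 < Fintype.card E := Fintype.card_pos
  have hL0 : 0 < L := by
    rw [hL]
    exact Nat.mul_pos (by norm_num) (Nat.mul_pos hJ hE)
  rw [← hL] at hD
  -- the label of a value
  let lab : Lb → Option (Fin J × E) := fun a => if a.1 then some a.2 else none
  let good : (V → Lb) → V × Fin J → Prop := fun ω p =>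
    lab (ω p.1) = none ∧ ∀ e, ∃ v ∈ B p.1, lab (ω v) = some (p.2, e)
  obtain ⟨Ω, hΩ⟩ : ∃ Ω, Ω = L ^ Fintype.card V := ⟨_, rfl⟩
  have hΩ0 : 0 < Ω := by rw [hΩ]; positivity
  have hΩc : Fintype.card (V → Lb) = Ω := by rw [Fintype.card_fun, hLc, hΩ]
  -- every pair is good for a quarter of the labellings
  have key : ∀ p : V × Fin J, p.1 ∈ X → Ω ≤ 4 * (univ.filter fun ω : V → Lb => good ω p).card := by
    rintro ⟨x, j⟩ hxX
    change x ∈ X at hxX
    have hV : 1 ≤ Fintype.card V := Fintype.card_pos_iff.2 ⟨x⟩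
    have h1 : 2 * (univ.filter fun ω : V → Lb => ω x ∈
        (univ.filter fun a : Lb => a.1 = false)).card = Ω := by
      rw [card_at, hLc]
      have h2 : (univ.filter fun a : Lb => a.1 = false).card = J * Fintype.card E := by
        have h3 : (univ.filter fun a : Lb => a.1 = false)
            = ({false} : Finset Bool) ×ˢ (univ : Finset (Fin J × E)) := by
          ext ⟨b, je⟩
          simp [Lb]
        rw [h3, card_product, card_singleton, one_mul, card_univ, Fintype.card_prod,
          Fintype.card_fin]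
      rw [h2, ← mul_assoc, ← hL, hΩ, ← pow_succ']
      congr 1
      omega
    have h4 : ∀ e, 4 * Fintype.card E * (univ.filter fun ω : V → Lb =>
        ∀ v ∈ B x, ω v ≠ (true, (j, e))).card ≤ Ω := by
      intro e
      rw [card_avoid, hLc]
      have h5 : D ≤ (B x).card := hB x hxX
      have h6 : (B x).card ≤ Fintype.card V := card_le_univ _
      calc 4 * Fintype.card E * ((L - 1) ^ (B x).card * L ^ (Fintype.card V - (B x).card))
          = 4 * Fintype.card E * (L - 1) ^ D *
            ((L - 1) ^ ((B x).card - D) * L ^ (Fintype.card V - (B x).card)) := by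
            have h7 : (L - 1) ^ (B x).card = (L - 1) ^ D * (L - 1) ^ ((B x).card - D) := by
              rw [← pow_add]
              congr 1
              omega
            rw [h7]
            ring
        _ ≤ L ^ D * (L ^ ((B x).card - D) * L ^ (Fintype.card V - (B x).card)) :=
            Nat.mul_le_mul hD (Nat.mul_le_mul_right _ (Nat.pow_le_pow_left (Nat.sub_le L 1) _))
        _ = Ω := by
            rw [hΩ, ← pow_add, ← pow_add]
            congr 1
            omega
    have h8 : (univ.filter fun ω : V → Lb => ω x ∈ (univ.filter fun a : Lb => a.1 = false)) ⊆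
        (univ.filter fun ω : V → Lb => good ω (x, j)) ∪
          univ.biUnion fun e : E => univ.filter fun ω : V → Lb => ∀ v ∈ B x,
            ω v ≠ (true, (j, e)) := by
      intro ω hω
      rw [mem_filter, mem_filter] at hω
      rw [mem_union]
      by_cases hg : good ω (x, j)
      · exact Or.inl (mem_filter.2 ⟨mem_univ _, hg⟩)
      · refine Or.inr ?_
        have h9 : lab (ω x) = none := by
          show (if (ω x).1 then some (ω x).2 else none) = none
          rw [hω.2.2]
          rfl
        have h10 : ¬∀ e, ∃ v ∈ B x, lab (ω v) = some (j, e) := fun h => hg ⟨h9, h⟩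
        push Not at h10
        obtain ⟨e, he⟩ := h10
        rw [mem_biUnion]
        refine ⟨e, mem_univ _, mem_filter.2 ⟨mem_univ _, fun v hv hcon => he v hv ?_⟩⟩
        rw [hcon]
        rfl
    have h11 := (card_le_card h8).trans (card_union_le _ _)
    have h12 : 4 * (univ.biUnion fun e : E => univ.filter fun ω : V → Lb => ∀ v ∈ B x,
        ω v ≠ (true, (j, e))).card ≤ Ω := by
      have h13 : Fintype.card E * (4 * (univ.biUnion fun e : E => univ.filter fun ω : V → Lb =>
          ∀ v ∈ B x, ω v ≠ (true, (j, e))).card) ≤ Fintype.card E * Ω := by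
        calc Fintype.card E * (4 * (univ.biUnion fun e : E => univ.filter fun ω : V → Lb =>
              ∀ v ∈ B x, ω v ≠ (true, (j, e))).card)
            ≤ Fintype.card E * (4 * ∑ e : E, (univ.filter fun ω : V → Lb => ∀ v ∈ B x,
              ω v ≠ (true, (j, e))).card) := by
              gcongr
              exact card_biUnion_le
          _ = ∑ e : E, 4 * Fintype.card E * (univ.filter fun ω : V → Lb => ∀ v ∈ B x,
              ω v ≠ (true, (j, e))).card := by
              rw [← mul_sum]
              ring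
          _ ≤ ∑ _e : E, Ω := sum_le_sum fun e _ => h4 e
          _ = Fintype.card E * Ω := by rw [sum_const, card_univ, smul_eq_mul]
      exact Nat.le_of_mul_le_mul_left h13 hE
    omega
  -- some labelling has many good pairs
  by_contra hcon
  push Not at hcon
  have h1 : ∀ ω : V → Lb, 4 * ((X ×ˢ (univ : Finset (Fin J))).filter fun p => good ω p).card
      < X.card * J := by
    intro ω
    refine lt_of_le_of_lt (Nat.mul_le_mul_left 4 (card_le_card ?_)) (hcon fun v => lab (ω v))
    intro p hp
    rw [mem_filter, mem_product] at hp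
    exact mem_filter.2 ⟨mem_univ _, hp.1.1, hp.2.1, hp.2.2⟩
  have h2 : ∑ ω : V → Lb, 4 * ((X ×ˢ (univ : Finset (Fin J))).filter fun p => good ω p).card
      < ∑ _ω : V → Lb, X.card * J :=
    sum_lt_sum_of_nonempty (card_pos.1 (by rw [card_univ, hΩc]; exact hΩ0)) fun ω _ => h1 ω
  rw [sum_const, card_univ, hΩc, smul_eq_mul, ← mul_sum] at h2
  have h3 : ∑ ω : V → Lb, ((X ×ˢ (univ : Finset (Fin J))).filter fun p => good ω p).card
      = ∑ p ∈ X ×ˢ (univ : Finset (Fin J)), (univ.filter fun ω : V → Lb => good ω p).card := by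
    simp only [card_filter]
    exact sum_comm
  rw [h3, mul_sum] at h2
  have h4 : X.card * J * Ω ≤ ∑ p ∈ X ×ˢ (univ : Finset (Fin J)),
      4 * (univ.filter fun ω : V → Lb => good ω p).card := by
    calc X.card * J * Ω = ∑ _p ∈ X ×ˢ (univ : Finset (Fin J)), Ω := by
          rw [sum_const, card_product, card_univ, Fintype.card_fin, smul_eq_mul]
      _ ≤ _ := sum_le_sum fun p hp => key p (mem_product.1 hp).1
  rw [mul_comm Ω] at h2
  exact absurd h2 (not_lt.2 h4)

end Pool.Agent.NTN
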