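import Pool.Agent.NTN.CliqueRestr

/-!
# Every set of edges contains many disjoint edges or many stars
-/

set_option autoImplicit false

namespace Pool.Agent.NTN

open Pool.Agent.NegLim Finset

open Classical in
/-- The neighbours of `x` in the graph `U` inside `Y`. -/
noncomputable def nbrs {N : ℕ} (U : Finset (Edge N)) (Y : Finset (Fin N)) (x : Fin N) :
    Finset (Fin N) :=
  Y.filter fun v => (∃ h : x < v, (⟨(x, v), h⟩ : Edge N) ∈ U) ∨
    ∃ h : v < x, (⟨(v, x), h⟩ : Edge N) ∈ U

/-- The vertex `v` is an endpoint of `e`. -/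
def touches {N : ℕ} (v : Fin N) (e : Edge N) : Prop := e.1.1 = v ∨ e.1.2 = v

instance {N : ℕ} (v : Fin N) (e : Edge N) : Decidable (touches v e) := by
  unfold touches; infer_instance

/-- The edges at `v` inside `Y` are at most as many as the neighbours. -/
theorem card_touches_le {N : ℕ} {U H : Finset (Edge N)} {Y : Finset (Fin N)} (hHU : H ⊆ U)
    (hY : ∀ e ∈ H, e.1.1 ∈ Y ∧ e.1.2 ∈ Y) (v : Fin N) :
    (H.filter (touches v)).card ≤ (nbrs U Y v).card := by
  classical
  refine Finset.card_le_card_of_injOn (fun e => if e.1.1 = v then e.1.2 else e.1.1) ?_ ?_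
  · intro e he
    rw [Finset.mem_coe, Finset.mem_filter] at he
    obtain ⟨he, ht⟩ := he
    obtain ⟨h1, h2⟩ := hY e he
    rw [Finset.mem_coe]
    unfold nbrs
    rw [Finset.mem_filter]
    simp only
    split_ifs with h
    · refine ⟨h2, Or.inl ⟨h ▸ e.2, ?_⟩⟩
      subst h
      exact hHU he
    · have h3 : e.1.2 = v := ht.resolve_left h
      refine ⟨h1, Or.inr ⟨h3 ▸ e.2, ?_⟩⟩
      subst h3
      exact hHU he
  · intro e he f hf hef
    rw [Finset.mem_coe, Finset.mem_filter] at he hf
    have he2 := e.2
    have hf2 := f.2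
    have te := he.2
    have tf := hf.2
    unfold touches at te tf
    simp only at hef
    split_ifs at hef with h1 h2 h2
    · exact Subtype.ext (Prod.ext (h1.trans h2.symm) hef)
    · have h3 := tf.resolve_left h2
      exfalso
      rw [h1, hef] at he2
      rw [h3] at hf2
      exact lt_asymm he2 hf2
    · have h3 := te.resolve_left h1
      exfalso
      rw [h3, hef] at he2
      rw [h2] at hf2
      exact lt_asymm he2 hf2
    · exact Subtype.ext (Prod.ext hef ((te.resolve_left h1).trans (tf.resolve_left h2).symm))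

/-- A greedy matching in a graph of bounded degree. -/
theorem greedy {N D : ℕ} : ∀ (n : ℕ) (L : Finset (Edge N)), L.card ≤ n →
    (∀ v, (L.filter (touches v)).card ≤ D) →
    ∃ m, L.card ≤ 2 * D * m ∧ DisjointPairs m L := by
  classical
  intro n
  induction n with
  | zero =>
    intro L hL _
    refine ⟨0, by omega, fun i => i.elim0, fun i => i.elim0, fun i => i.elim0⟩
  | succ n ih =>
    intro L hL hdeg
    rcases L.eq_empty_or_nonempty with rfl | ⟨e, he⟩
    · exact ⟨0, by simp, fun i => i.elim0, fun i => i.elim0, fun i => i.elim0⟩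
    set L' := L.filter fun f => ¬ (touches e.1.1 f ∨ touches e.1.2 f) with hL'
    have hsub : L' ⊆ L := Finset.filter_subset _ _
    have heL' : e ∉ L' := by
      rw [hL', Finset.mem_filter]
      exact fun h => h.2 (Or.inl (Or.inl rfl))
    have hlt : L'.card < L.card := Finset.card_lt_card ⟨hsub, fun h => heL' (h he)⟩
    obtain ⟨m, hm, f, hf1, hf2⟩ := ih L' (by omega) fun v =>
      (Finset.card_le_card (Finset.filter_subset_filter _ hsub)).trans (hdeg v)
    have hcard : L.card ≤ L'.card + 2 * D := by
      have h1 : L ⊆ L' ∪ (L.filter (touches e.1.1) ∪ L.filter (touches e.1.2)) := by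
        intro g hg
        by_cases h : touches e.1.1 g ∨ touches e.1.2 g
        · rcases h with h | h
          · exact Finset.mem_union_right _ (Finset.mem_union_left _ (Finset.mem_filter.mpr ⟨hg, h⟩))
          · exact Finset.mem_union_right _ (Finset.mem_union_right _ (Finset.mem_filter.mpr ⟨hg, h⟩))
        · exact Finset.mem_union_left _ (Finset.mem_filter.mpr ⟨hg, h⟩)
      have h2 := (Finset.card_le_card h1).trans (Finset.card_union_le _ _)
      have h3 := Finset.card_union_le (L.filter (touches e.1.1)) (L.filter (touches e.1.2))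
      have h4 := hdeg e.1.1
      have h5 := hdeg e.1.2
      omega
    have hsep : ∀ g ∈ L', e.1.1 ≠ g.1.1 ∧ e.1.1 ≠ g.1.2 ∧ e.1.2 ≠ g.1.1 ∧ e.1.2 ≠ g.1.2 := by
      intro g hg
      rw [hL', Finset.mem_filter] at hg
      obtain ⟨-, hg⟩ := hg
      unfold touches at hg
      push Not at hg
      exact ⟨hg.1.1.symm, hg.1.2.symm, hg.2.1.symm, hg.2.2.symm⟩
    refine ⟨m + 1, by rw [mul_add, mul_one]; omega, Fin.cons e f, ?_, ?_⟩
    · intro i
      refine Fin.cases ?_ (fun j => ?_) i
      · rw [Fin.cons_zero]; exact he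
      · rw [Fin.cons_succ]; exact hsub (hf1 j)
    · intro i j hij
      induction i using Fin.cases with
      | zero =>
        induction j using Fin.cases with
        | zero => exact absurd rfl hij
        | succ j =>
          rw [Fin.cons_zero, Fin.cons_succ]
          exact hsep _ (hf1 j)
      | succ i =>
        induction j using Fin.cases with
        | zero =>
          rw [Fin.cons_zero, Fin.cons_succ]
          obtain ⟨h1, h2, h3, h4⟩ := hsep _ (hf1 i)
          exact ⟨h1.symm, h3.symm, h2.symm, h4.symm⟩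
        | succ j =>
          rw [Fin.cons_succ, Fin.cons_succ]
          exact hf2 i j fun h => hij (by rw [h])

theorem DisjointPairs.mono {N m : ℕ} {L U : Finset (Edge N)} (h : DisjointPairs m L)
    (hLU : L ⊆ U) : DisjointPairs m U := by
  obtain ⟨e, he, he2⟩ := h
  exact ⟨e, fun i => hLU (he i), he2⟩

/-- A residue class modulo eight. -/
theorem card_class_le (N r : ℕ) :
    8 * (Finset.univ.filter fun v : Fin N => v.1 % 8 = r).card ≤ N + 7 := by
  have h : (Finset.univ.filter fun v : Fin N => v.1 % 8 = r).card ≤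
      (Finset.range ((N + 7) / 8)).card := by
    refine Finset.card_le_card_of_injOn (fun v => v.1 / 8) ?_ ?_
    · intro v _
      have := v.2
      simp only [Finset.coe_range, Set.mem_Iio]
      omega
    · intro v hv w hw hvw
      simp only [Finset.coe_filter, Finset.mem_univ, true_and, Set.mem_ofPred_eq] at hv hw
      simp only at hvw
      apply Fin.ext
      omega
  rw [Finset.card_range] at h
  omega

/-- Pigeonhole. -/
theorem exists_fiber {α β : Type} [Fintype β] [DecidableEq β] [Nonempty β] (U : Finset α)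
    (f : α → β) : ∃ b, U.card ≤ Fintype.card β * (U.filter fun a => f a = b).card := by
  classical
  have h := Finset.card_eq_sum_card_fiberwise (s := U) (t := Finset.univ) (f := f)
    fun _ _ => Finset.mem_coe.mpr (Finset.mem_univ _)
  obtain ⟨b, -, hb⟩ := Finset.exists_le_of_sum_le (s := (Finset.univ : Finset β))
    (f := fun _ => U.card) (g := fun b => Fintype.card β * (U.filter fun a => f a = b).card)
    Finset.univ_nonempty (by
      rw [← Finset.mul_sum, ← h, Finset.sum_const, smul_eq_mul, Finset.card_univ])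
  exact ⟨b, hb⟩

/-- **Disjoint edges or stars.** A set `U` of edges contains at least `|U| / (256 D₀)` disjoint
edges, or there are `D ≥ D₀` and at least `|U| / (256 (1 + log N) D)` vertices with at least `D`
neighbours in `U`, all inside a set `Y` of about a quarter of the vertices. -/
theorem stars_or_matching {N D₀ : ℕ} (hD : 1 ≤ D₀) (U : Finset (Edge N)) :
    (∃ m, U.card ≤ 256 * D₀ * m ∧ DisjointPairs m U) ∨
    ∃ (D : ℕ) (X Y : Finset (Fin N)), D₀ ≤ D ∧ X ⊆ Y ∧ 4 * Y.card ≤ N + 7 ∧
      (∀ x ∈ X, D ≤ (nbrs U Y x).card) ∧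
      U.card ≤ 256 * (Nat.log 2 N + 1) * D * X.card := by
  classical
  obtain ⟨r, hr⟩ := exists_fiber (β := Fin 8 × Fin 8) U
    fun e => (⟨e.1.1.1 % 8, Nat.mod_lt _ (by norm_num)⟩, ⟨e.1.2.1 % 8, Nat.mod_lt _ (by norm_num)⟩)
  have hc : Fintype.card (Fin 8 × Fin 8) = 64 := by simp
  rw [hc] at hr
  set H := U.filter fun e => ((⟨e.1.1.1 % 8, Nat.mod_lt _ (by norm_num)⟩,
    ⟨e.1.2.1 % 8, Nat.mod_lt _ (by norm_num)⟩) : Fin 8 × Fin 8) = r with hH
  set Y : Finset (Fin N) := (Finset.univ.filter fun v : Fin N => v.1 % 8 = r.1.1) ∪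
    Finset.univ.filter fun v : Fin N => v.1 % 8 = r.2.1 with hYdef
  have hHU : H ⊆ U := Finset.filter_subset _ _
  have hY : ∀ e ∈ H, e.1.1 ∈ Y ∧ e.1.2 ∈ Y := by
    intro e he
    rw [hH, Finset.mem_filter] at he
    have h1 := he.2
    rw [Prod.ext_iff, Fin.ext_iff, Fin.ext_iff] at h1
    simp only at h1
    rw [hYdef, Finset.mem_union, Finset.mem_union, Finset.mem_filter, Finset.mem_filter,
      Finset.mem_filter, Finset.mem_filter]
    exact ⟨Or.inl ⟨Finset.mem_univ _, h1.1⟩, Or.inr ⟨Finset.mem_univ _, h1.2⟩⟩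
  have hYc : 4 * Y.card ≤ N + 7 := by
    have h1 := Finset.card_union_le (Finset.univ.filter fun v : Fin N => v.1 % 8 = r.1.1)
      (Finset.univ.filter fun v : Fin N => v.1 % 8 = r.2.1)
    rw [← hYdef] at h1
    have h2 := card_class_le N r.1.1
    have h3 := card_class_le N r.2.1
    omega
  set d : Fin N → ℕ := fun x => (nbrs U Y x).card with hd
  set Lo := H.filter fun e => d e.1.1 < D₀ ∧ d e.1.2 < D₀ with hLo
  set Hi := H.filter fun e => ¬ (d e.1.1 < D₀ ∧ d e.1.2 < D₀) with hHi
  have hsplit : Lo.card + Hi.card = H.card :=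
    Finset.card_filter_add_card_filter_not _
  rcases le_or_gt Hi.card Lo.card with hcase | hcase
  · -- many edges between vertices of small degree
    left
    obtain ⟨m, hm, hm2⟩ := greedy (D := D₀) Lo.card Lo le_rfl fun v => by
      by_cases hv : d v < D₀
      · refine le_trans ?_ hv.le
        refine (Finset.card_le_card (Finset.filter_subset_filter _ ?_)).trans
          (card_touches_le hHU hY v)
        exact Finset.filter_subset _ _
      · rw [Finset.card_eq_zero.mpr]
        · exact Nat.zero_le _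
        · rw [Finset.filter_eq_empty_iff]
          intro e he ht
          rw [hLo, Finset.mem_filter] at he
          rcases ht with h | h
          · exact hv (h ▸ he.2.1)
          · exact hv (h ▸ he.2.2)
    refine ⟨m, ?_, hm2.mono ((Finset.filter_subset _ _).trans hHU)⟩
    have h2 : 256 * D₀ * m = 128 * (2 * D₀ * m) := by ring
    rw [h2]
    omega
  · -- many edges at vertices of large degree
    right
    set G := Y.filter fun x => D₀ ≤ d x with hG
    have h1 : Hi.card ≤ ∑ x ∈ G, d x := by
      have h2 : Hi ⊆ G.biUnion fun x => H.filter (touches x) := by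
        intro e he
        rw [hHi, Finset.mem_filter] at he
        obtain ⟨he, hne⟩ := he
        rw [Finset.mem_biUnion]
        by_cases h3 : d e.1.1 < D₀
        · have h4 : D₀ ≤ d e.1.2 := by
            by_contra h5
            exact hne ⟨h3, not_le.mp h5⟩
          exact ⟨e.1.2, Finset.mem_filter.mpr ⟨(hY e he).2, h4⟩,
            Finset.mem_filter.mpr ⟨he, Or.inr rfl⟩⟩
        · exact ⟨e.1.1, Finset.mem_filter.mpr ⟨(hY e he).1, not_lt.mp h3⟩,
            Finset.mem_filter.mpr ⟨he, Or.inl rfl⟩⟩
      refine (Finset.card_le_card h2).trans (Finset.card_biUnion_le.trans ?_)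
      exact Finset.sum_le_sum fun x _ => card_touches_le hHU hY x
    have hdN : ∀ x, d x ≤ N := fun x => by
      refine (Finset.card_le_univ _).trans ?_
      rw [Fintype.card_fin]
    have hmaps : ∀ x ∈ G, Nat.log 2 (d x / D₀) ∈ Finset.range (Nat.log 2 N + 1) := by
      intro x _
      rw [Finset.mem_range, Nat.lt_succ_iff]
      exact Nat.log_mono_right ((Nat.div_le_self _ _).trans (hdN x))
    have h2 := Finset.sum_fiberwise_of_maps_to hmaps d
    obtain ⟨i, -, hi⟩ := Finset.exists_le_of_sum_le (s := Finset.range (Nat.log 2 N + 1))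
      (f := fun _ => ∑ x ∈ G, d x)
      (g := fun i => (Nat.log 2 N + 1) * ∑ x ∈ G.filter fun x => Nat.log 2 (d x / D₀) = i, d x)
      ⟨0, Finset.mem_range.mpr (Nat.succ_pos _)⟩ (by
        rw [← Finset.mul_sum, h2, Finset.sum_const, smul_eq_mul, Finset.card_range])
    set X := G.filter fun x => Nat.log 2 (d x / D₀) = i with hX
    have hXd : ∀ x ∈ X, 2 ^ i * D₀ ≤ d x ∧ d x ≤ 2 * (2 ^ i * D₀) := by
      intro x hx
      rw [hX, Finset.mem_filter, hG, Finset.mem_filter] at hx
      obtain ⟨⟨-, h3⟩, h4⟩ := hx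
      have h5 : d x / D₀ ≠ 0 := by
        have := (Nat.one_le_div_iff hD).mpr h3
        omega
      have h6 := Nat.pow_log_le_self 2 h5
      have h7 := Nat.lt_pow_succ_log_self (b := 2) (by norm_num) (d x / D₀)
      rw [h4] at h6 h7
      rw [Nat.div_lt_iff_lt_mul (by omega)] at h7
      refine ⟨(Nat.le_div_iff_mul_le (by omega)).mp h6, ?_⟩
      rw [pow_succ] at h7
      linarith
    refine ⟨2 ^ i * D₀, X, Y, Nat.le_mul_of_pos_left _ (by positivity), ?_, hYc,
      fun x hx => (hXd x hx).1, ?_⟩
    · exact (Finset.filter_subset _ _).trans (Finset.filter_subset _ _)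
    · have h3 : ∑ x ∈ X, d x ≤ X.card * (2 * (2 ^ i * D₀)) := by
        rw [← smul_eq_mul]
        exact Finset.sum_le_card_nsmul _ _ _ fun x hx => (hXd x hx).2
      have h4 : Hi.card ≤ (Nat.log 2 N + 1) * (X.card * (2 * (2 ^ i * D₀))) :=
        h1.trans (hi.trans (Nat.mul_le_mul_left _ h3))
      have h5 : 256 * (Nat.log 2 N + 1) * (2 ^ i * D₀) * X.card =
          128 * ((Nat.log 2 N + 1) * (X.card * (2 * (2 ^ i * D₀)))) := by ring
      rw [h5]
      omega

end Pool.Agent.NTN
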