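import Pool.Agent.NTN.CliqueRestr
import Pool.Agent.NTN.GridRestr
import Pool.Agent.NTN.StarDeg

/-!
# Clique with the edges of stars free: a disjunction of clique functions
-/

set_option autoImplicit false

namespace Pool.Agent.NTN

open Pool.Agent.NegLim Finset

/-- The vertices of the gadget. -/
inductive SV (Y : Type) (J h n : ℕ) : Type
  | y (v : Y) : SV Y J h n
  | p (j : Fin J) (t : Fin h) (u : Fin n) : SV Y J h n
  | d (j : Fin J) (e : Edge n) (s : Bool) : SV Y J h n

/-- The possible members of a block. -/
abbrev Mem (h n : ℕ) : Type := (Fin h × Fin n) ⊕ (Edge n × Option Bool)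

/-- Two members of one block may be in one clique. -/
def compat {h n : ℕ} : Mem h n → Mem h n → Prop
  | .inl a, .inl b => a.1 ≠ b.1 ∧ a.2 ≠ b.2
  | .inl a, .inr b => ∀ s, b.2 = some s → a.2 ≠ ept b.1 s
  | .inr b, .inl a => ∀ s, b.2 = some s → a.2 ≠ ept b.1 s
  | .inr a, .inr b => a.1 ≠ b.1

theorem compat_symm {h n : ℕ} {m m' : Mem h n} : compat m m' ↔ compat m' m := by
  cases m <;> cases m' <;> simp only [compat]
  · exact ⟨fun h => ⟨h.1.symm, h.2.symm⟩, fun h => ⟨h.1.symm, h.2.symm⟩⟩
  · exact ne_comm

/-- The cell of a member. -/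
def cellM {h n : ℕ} : Mem h n → Fin h ⊕ Edge n
  | .inl a => .inl a.1
  | .inr b => .inr b.1

theorem compat_cell {h n : ℕ} {m m' : Mem h n} (hc : compat m m') : cellM m ≠ cellM m' := by
  cases m <;> cases m' <;> simp only [compat] at hc <;> simp only [cellM]
  · intro h1
    exact hc.1 (Sum.inl.inj h1)
  · simp
  · simp
  · intro h1
    exact hc (Sum.inr.inj h1)

section

variable {Y : Type} {J h n r : ℕ} (c : Y → Option (Fin J × Edge n)) (ζ : Fin r → Y × Fin J)
  (ν : Fin r → Edge n → Y)

/-- The shape of a vertex: a centre, or a member of a block. -/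
def shape : SV Y J h n → Option (Fin J × Mem h n)
  | .y v => (c v).map fun a => (a.1, .inr (a.2, none))
  | .p j t u => some (j, .inl (t, u))
  | .d j e s => some (j, .inr (e, some s))

open Classical in
/-- The label of the pair of a centre and a leaf. -/
noncomputable def varS (x v : Y) : (Fin r × Edge n) ⊕ Bool :=
  if hq : ∃ q : Fin r × Edge n, (ζ q.1).1 = x ∧ ν q.1 q.2 = v then .inl hq.choose else .inr false

/-- The label of the pair of a centre and a member. -/
noncomputable def cenS : SV Y J h n → SV Y J h n → (Fin r × Edge n) ⊕ Bool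
  | .y x, .y v => varS ζ ν x v
  | _, _ => .inr true

open Classical in
/-- The label of a pair of vertices. -/
noncomputable def litS (g g' : SV Y J h n) : (Fin r × Edge n) ⊕ Bool :=
  match shape c g, shape c g' with
  | none, none => .inr false
  | none, some _ => cenS ζ ν g g'
  | some _, none => cenS ζ ν g' g
  | some a, some b => .inr (decide (a.1 = b.1 ∧ compat a.2 b.2))

theorem litS_symm (g g' : SV Y J h n) : litS c ζ ν g g' = litS c ζ ν g' g := by
  unfold litS
  rcases shape c g with _ | a <;> rcases shape c g' with _ | b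
  · rfl
  · rfl
  · rfl
  · simp only
    congr 1
    refine decide_eq_decide.mpr ?_
    rw [compat_symm (m := a.2), eq_comm (a := a.1)]

variable {c ζ ν}

theorem varS_eq (hζ : Function.Injective ζ) (hν : ∀ i e, c (ν i e) = some ((ζ i).2, e))
    {x v : Y} {q : Fin r × Edge n} (h1 : (ζ q.1).1 = x) (h2 : ν q.1 q.2 = v) :
    varS ζ ν x v = .inl q := by
  unfold varS
  have hq : ∃ q : Fin r × Edge n, (ζ q.1).1 = x ∧ ν q.1 q.2 = v := ⟨q, h1, h2⟩
  rw [dif_pos hq]
  congr 1
  obtain ⟨h3, h4⟩ := hq.choose_spec
  have e1 := hν q.1 q.2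
  have e2 := hν hq.choose.1 hq.choose.2
  rw [h2] at e1
  rw [h4, e1] at e2
  simp only [Option.some.injEq, Prod.mk.injEq] at e2
  have e3 : ζ hq.choose.1 = ζ q.1 := Prod.ext (by rw [h3, h1]) e2.1.symm
  exact Prod.ext (hζ e3) e2.2.symm

theorem varS_true {x v : Y} {y : Fin r × Edge n → Bool}
    (hy : Sum.elim y id (varS ζ ν x v) = true) :
    ∃ q : Fin r × Edge n, (ζ q.1).1 = x ∧ ν q.1 q.2 = v ∧ y q = true := by
  unfold varS at hy
  split_ifs at hy with hq
  · exact ⟨hq.choose, hq.choose_spec.1, hq.choose_spec.2, hy⟩
  · simp at hy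

theorem leaf_of_shape {g : SV Y J h n} {j : Fin J} {e : Edge n}
    (hg : shape c g = some (j, .inr (e, none))) : ∃ v, g = .y v ∧ c v = some (j, e) := by
  cases g with
  | y v =>
    refine ⟨v, rfl, ?_⟩
    simp only [shape] at hg
    rcases hv : c v with _ | a
    · rw [hv] at hg
      simp at hg
    · rw [hv] at hg
      simp only [Option.map_some, Option.some.injEq, Prod.mk.injEq, Sum.inr.injEq] at hg
      rw [← hg.1, ← hg.2.1]
  | p j t u => simp [shape] at hg
  | d j e s => simp [shape] at hg

theorem centre_of_shape {g : SV Y J h n} (hg : shape c g = none) : ∃ x, g = .y x ∧ c x = none := by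
  cases g with
  | y v =>
    refine ⟨v, rfl, ?_⟩
    simp only [shape] at hg
    simpa using hg
  | p j t u => simp [shape] at hg
  | d j e s => simp [shape] at hg

/-- **The gadget for stars.** -/
theorem star_iff (hh : 2 ≤ h) (hζ : Function.Injective ζ) (hc : ∀ i, c (ζ i).1 = none)
    (hν : ∀ i e, c (ν i e) = some ((ζ i).2, e)) (y : Fin r × Edge n → Bool) :
    (∃ T : Finset (SV Y J h n), T.card = 1 + (h + Fintype.card (Edge n)) ∧
        ∀ g ∈ T, ∀ g' ∈ T, g ≠ g' → Sum.elim y id (litS c ζ ν g g') = true) ↔
      ∃ i, HasClique h fun e => y (i, e) := by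
  classical
  constructor
  · rintro ⟨T, hT, hadj⟩
    have hinj : Set.InjOn (fun g : SV Y J h n => (shape c g).map fun a => cellM a.2)
        (T : Set (SV Y J h n)) := by
      intro g hg g' hg' hgg
      by_contra hne
      have h1 := hadj g hg g' hg' hne
      simp only at hgg
      unfold litS at h1
      rcases hs : shape c g with _ | a <;> rcases hs' : shape c g' with _ | b
      · rw [hs, hs'] at h1
        simp at h1
      · rw [hs, hs'] at hgg
        simp at hgg
      · rw [hs, hs'] at hgg
        simp at hgg
      · rw [hs, hs'] at hgg h1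
        simp only [Option.map_some, Option.some.injEq] at hgg
        simp only [Sum.elim_inr, id, decide_eq_true_eq] at h1
        exact compat_cell h1.2 hgg
    have hsurj : T.image (fun g : SV Y J h n => (shape c g).map fun a => cellM a.2) = univ := by
      apply Finset.eq_univ_of_card
      rw [Finset.card_image_of_injOn hinj, hT, Fintype.card_option, Fintype.card_sum,
        Fintype.card_fin]
      omega
    have hcell : ∀ k : Option (Fin h ⊕ Edge n), ∃ g ∈ T,
        (shape c g).map (fun a => cellM a.2) = k := by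
      intro k
      have h1 : k ∈ T.image (fun g : SV Y J h n => (shape c g).map fun a => cellM a.2) := by
        rw [hsurj]
        exact Finset.mem_univ _
      exact Finset.mem_image.1 h1
    -- the centre
    obtain ⟨g₀, hg₀, hk₀⟩ := hcell none
    obtain ⟨x, rfl, hx⟩ := centre_of_shape (g := g₀) (by simpa using hk₀)
    have hxs : shape c (.y x : SV Y J h n) = none := by simp [shape, hx]
    -- members of T have one block
    have hmem : ∀ g ∈ T, ∀ g' ∈ T, g ≠ g' → ∀ a b, shape c g = some a → shape c g' = some b →
        a.1 = b.1 ∧ compat a.2 b.2 := by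
      intro g hg g' hg' hne a b ha hb
      have h1 := hadj g hg g' hg' hne
      unfold litS at h1
      rw [ha, hb] at h1
      simpa using h1
    -- positions
    have hpos : ∀ t : Fin h, ∃ g ∈ T, ∃ (j : Fin J) (u : Fin n),
        shape c g = some (j, .inl (t, u)) := by
      intro t
      obtain ⟨g, hg, hk⟩ := hcell (some (.inl t))
      rcases hs : shape c g with _ | ⟨j, m⟩
      · rw [hs] at hk
        simp at hk
      · rw [hs] at hk
        rcases m with ⟨t', u⟩ | ⟨e, o⟩
        · simp only [Option.map_some, cellM, Option.some.injEq, Sum.inl.injEq] at hk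
          subst hk
          exact ⟨g, hg, j, u, hs⟩
        · simp [cellM] at hk
    choose G hG jj σ hGs using hpos
    have hedge : ∀ e : Edge n, ∃ g ∈ T, ∃ (j : Fin J) (o : Option Bool),
        shape c g = some (j, .inr (e, o)) := by
      intro e
      obtain ⟨g, hg, hk⟩ := hcell (some (.inr e))
      rcases hs : shape c g with _ | ⟨j, m⟩
      · rw [hs] at hk
        simp at hk
      · rw [hs] at hk
        rcases m with ⟨t', u⟩ | ⟨e', o⟩
        · simp [cellM] at hk
        · simp only [Option.map_some, cellM, Option.some.injEq, Sum.inr.injEq] at hk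
          subst hk
          exact ⟨g, hg, j, o, hs⟩
    let t₀ : Fin h := ⟨0, by omega⟩
    have hGne : ∀ t t', t ≠ t' → G t ≠ G t' := by
      intro t t' htt h1
      have h2 := hGs t
      rw [h1, hGs t'] at h2
      simp only [Option.some.injEq, Prod.mk.injEq, Sum.inl.injEq] at h2
      exact htt h2.2.1.symm
    have hjj : ∀ t, jj t = jj t₀ := by
      intro t
      by_cases htt : t = t₀
      · rw [htt]
      · exact (hmem _ (hG t) _ (hG t₀) (hGne _ _ htt) _ _ (hGs t) (hGs t₀)).1
    have hσ : Function.Injective σ := by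
      intro t t' h1
      by_contra h2
      exact (hmem _ (hG t) _ (hG t') (hGne _ _ h2) _ _ (hGs t) (hGs t')).2.2 h1
    -- edges inside the chosen set
    have hin : ∀ t t' (hl : σ t < σ t'), ∃ i, ζ i = (x, jj t₀) ∧
        y (i, ⟨(σ t, σ t'), hl⟩) = true := by
      intro t t' hl
      obtain ⟨g, hg, j, o, hs⟩ := hedge ⟨(σ t, σ t'), hl⟩
      have hne : ∀ t, G t ≠ g := by
        intro t h1
        have h2 := hGs t
        rw [h1, hs] at h2
        simp at h2
      have h3 := hmem _ (hG t) _ hg (hne t) _ _ (hGs t) hs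
      have h4 := hmem _ (hG t') _ hg (hne t') _ _ (hGs t') hs
      have hj : j = jj t₀ := h3.1.symm.trans (hjj t)
      have ho : o = none := by
        rcases o with _ | s
        · rfl
        · exfalso
          have h5 := h3.2 s rfl
          have h6 := h4.2 s rfl
          cases s with
          | true => exact h5 (by simp [ept])
          | false => exact h6 (by simp [ept])
      subst ho
      subst hj
      obtain ⟨v, rfl, hv⟩ := leaf_of_shape hs
      have hxv : (.y x : SV Y J h n) ≠ .y v := by
        intro h5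
        rw [h5, hs] at hxs
        simp at hxs
      have h5 := hadj _ hg₀ _ hg hxv
      unfold litS at h5
      rw [hxs, hs] at h5
      simp only [cenS] at h5
      obtain ⟨⟨i, e⟩, h6, h7, h8⟩ := varS_true h5
      simp only at h6 h7
      have h9 := hν i e
      rw [h7, hv] at h9
      simp only [Option.some.injEq, Prod.mk.injEq] at h9
      refine ⟨i, Prod.ext h6 h9.1.symm, ?_⟩
      rw [h9.2]
      exact h8
    -- the block
    let t₁ : Fin h := ⟨1, by omega⟩
    have h01 : σ t₀ ≠ σ t₁ := fun h1 => by
      have := hσ h1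
      simp [t₀, t₁] at this
    obtain ⟨i, hi⟩ : ∃ i, ζ i = (x, jj t₀) := by
      rcases lt_or_gt_of_ne h01 with h1 | h1
      · obtain ⟨i, hi, -⟩ := hin _ _ h1
        exact ⟨i, hi⟩
      · obtain ⟨i, hi, -⟩ := hin _ _ h1
        exact ⟨i, hi⟩
    refine ⟨i, univ.image σ, ?_, ?_⟩
    · rw [Finset.card_image_of_injective _ hσ, Finset.card_univ, Fintype.card_fin]
    · intro u hu v hv huv
      obtain ⟨t, -, rfl⟩ := Finset.mem_image.1 hu
      obtain ⟨t', -, rfl⟩ := Finset.mem_image.1 hv
      obtain ⟨i', hi', h1⟩ := hin t t' huv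
      have h2 : i' = i := hζ (by rw [hi', hi])
      rw [← h2]
      exact h1
  · rintro ⟨i, S, hS, hadj⟩
    let σ : Fin h → Fin n := fun t => S.orderEmbOfFin hS t
    have hσ : Function.Injective σ := (S.orderEmbOfFin hS).injective
    have hσS : ∀ t, σ t ∈ S := fun t => Finset.orderEmbOfFin_mem _ _ _
    set x := (ζ i).1 with hx
    set j := (ζ i).2 with hj
    let o : Edge n → Option Bool := fun e =>
      if e.1.1 ∈ S ∧ e.1.2 ∈ S then none else if e.1.1 ∈ S then some false else some true
    have ho : ∀ e s, o e = some s → ept e s ∉ S := by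
      intro e s h1
      simp only [o] at h1
      split_ifs at h1 with h2 h3
      · simp only [Option.some.injEq] at h1
        subst h1
        simp only [ept]
        exact fun h4 => h2 ⟨h3, h4⟩
      · simp only [Option.some.injEq] at h1
        subst h1
        simpa [ept] using h3
    let pickE : Edge n → SV Y J h n := fun e =>
      match o e with
      | none => .y (ν i e)
      | some s => .d j e s
    let pick : Option (Fin h ⊕ Edge n) → SV Y J h n := fun k =>
      match k with
      | none => .y x
      | some (.inl t) => .p j t (σ t)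
      | some (.inr e) => pickE e
    have hs0 : shape c (pick none) = none := by simp [pick, shape, hx, hc i]
    have hs1 : ∀ t, shape c (pick (some (.inl t))) = some (j, .inl (t, σ t)) := fun t => rfl
    have hs2 : ∀ e, shape c (pick (some (.inr e))) = some (j, .inr (e, o e)) := by
      intro e
      simp only [pick, pickE]
      rcases he : o e with _ | s
      · simp [shape, hν i e, hj]
      · rfl
    have hcell : ∀ k, (shape c (pick k)).map (fun a => cellM a.2) = k := by
      intro k
      rcases k with _ | t | e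
      · rw [hs0]
        rfl
      · rw [hs1]
        rfl
      · rw [hs2]
        rfl
    have hpick : Function.Injective pick := fun k k' h1 => by
      rw [← hcell k, ← hcell k', h1]
    -- a centre and a member
    have hcm : ∀ k, Sum.elim y id (cenS ζ ν (pick none) (pick (some k))) = true := by
      intro k
      rcases k with t | e
      · rfl
      · simp only [pick, pickE]
        rcases he : o e with _ | s
        · simp only [cenS]
          rw [varS_eq hζ hν (q := (i, e)) rfl rfl]
          have h1 : e.1.1 ∈ S ∧ e.1.2 ∈ S := by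
            by_contra h2
            simp only [o, if_neg h2] at he
            split_ifs at he
          exact hadj e.1.1 h1.1 e.1.2 h1.2 e.2
        · rfl
    -- two members
    have hmm : ∀ k k' : Fin h ⊕ Edge n, k ≠ k' →
        litS c ζ ν (pick (some k)) (pick (some k')) = .inr true := by
      intro k k' hne
      unfold litS
      rcases k with t | e <;> rcases k' with t' | e'
      · rw [hs1, hs1]
        have h1 : t ≠ t' := fun h2 => hne (by rw [h2])
        simp only [compat]
        congr 1
        rw [decide_eq_true_eq]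
        exact ⟨trivial, h1, fun h2 => h1 (hσ h2)⟩
      · rw [hs1, hs2]
        simp only [compat]
        congr 1
        rw [decide_eq_true_eq]
        exact ⟨trivial, fun s hs h2 => ho e' s hs (h2 ▸ hσS t)⟩
      · rw [hs2, hs1]
        simp only [compat]
        congr 1
        rw [decide_eq_true_eq]
        exact ⟨trivial, fun s hs h2 => ho e s hs (h2 ▸ hσS t')⟩
      · rw [hs2, hs2]
        have h1 : e ≠ e' := fun h2 => hne (by rw [h2])
        simp only [compat]
        congr 1
        rw [decide_eq_true_eq]
        exact ⟨trivial, h1⟩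
    refine ⟨univ.image pick, ?_, ?_⟩
    · rw [Finset.card_image_of_injective _ hpick, Finset.card_univ, Fintype.card_option,
        Fintype.card_sum, Fintype.card_fin]
      omega
    · intro g hg g' hg' hne
      obtain ⟨k, -, rfl⟩ := Finset.mem_image.1 hg
      obtain ⟨k', -, rfl⟩ := Finset.mem_image.1 hg'
      rcases k with _ | k <;> rcases k' with _ | k'
      · exact absurd rfl hne
      · have h1 : litS c ζ ν (pick none) (pick (some k')) = cenS ζ ν (pick none) (pick (some k')) := by
          unfold litS
          rw [hs0]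
          rcases k' with t | e
          · rw [hs1]
          · rw [hs2]
        rw [h1]
        exact hcm k'
      · rw [litS_symm]
        have h1 : litS c ζ ν (pick none) (pick (some k)) = cenS ζ ν (pick none) (pick (some k)) := by
          unfold litS
          rw [hs0]
          rcases k with t | e
          · rw [hs1]
          · rw [hs2]
        rw [h1]
        exact hcm k
      · rw [hmm k k' (fun h1 => hne (by rw [h1]))]
        rfl

end

theorem decV_some {V : Type} {N : ℕ} {J : V → Fin N} {x : Fin N} {g : V}
    (h : decV J x = some g) : J g = x := by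
  unfold decV at h
  split_ifs at h with h1
  · simp only [Option.some.injEq] at h
    rw [← h]
    exact h1.choose_spec

theorem varS_inl {Y : Type} {J n r : ℕ} {ζ : Fin r → Y × Fin J} {ν : Fin r → Edge n → Y}
    {x v : Y} {q : Fin r × Edge n} (hq : varS ζ ν x v = .inl q) :
    (ζ q.1).1 = x ∧ ν q.1 q.2 = v := by
  unfold varS at hq
  split_ifs at hq with h1
  · simp only [Sum.inl.injEq] at hq
    rw [← hq]
    exact h1.choose_spec

/-- A label which is a variable belongs to a centre and a leaf. -/
theorem litS_inl {Y : Type} {J h n r : ℕ} {c : Y → Option (Fin J × Edge n)}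
    {ζ : Fin r → Y × Fin J} {ν : Fin r → Edge n → Y} {g g' : SV Y J h n} {q : Fin r × Edge n}
    (hq : litS c ζ ν g g' = .inl q) :
    (g = .y (ζ q.1).1 ∧ g' = .y (ν q.1 q.2)) ∨ (g' = .y (ζ q.1).1 ∧ g = .y (ν q.1 q.2)) := by
  have key : ∀ g g' : SV Y J h n, cenS ζ ν g g' = .inl q →
      g = .y (ζ q.1).1 ∧ g' = .y (ν q.1 q.2) := by
    intro g g' h1
    cases g with
    | y x =>
      cases g' with
      | y v =>
        simp only [cenS] at h1
        obtain ⟨h2, h3⟩ := varS_inl h1
        rw [h2, h3]
        exact ⟨rfl, rfl⟩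
      | p j t u => simp [cenS] at h1
      | d j e s => simp [cenS] at h1
    | p j t u => simp [cenS] at h1
    | d j e s => simp [cenS] at h1
  unfold litS at hq
  rcases hs : shape c g with _ | a <;> rcases hs' : shape c g' with _ | b
  · rw [hs, hs'] at hq
    simp at hq
  · rw [hs, hs'] at hq
    exact Or.inl (key _ _ hq)
  · rw [hs, hs'] at hq
    exact Or.inr (key _ _ hq)
  · rw [hs, hs'] at hq
    simp at hq

/-- **Clique with the edges of stars free.** -/
theorem clique_stars {N n J r : ℕ} (hn : 4 ≤ n) (hJ : 1 ≤ J) (U : Finset (Edge N))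
    (Y : Finset (Fin N)) (hY : 4 * Y.card ≤ N + 7) (hroom : 12 * (J * n ^ 2) + 7 ≤ N)
    (c : Fin N → Option (Fin J × Edge n)) (ζ : Fin r → Fin N × Fin J)
    (hζ : Function.Injective ζ) (hζY : ∀ i, (ζ i).1 ∈ Y) (hc : ∀ i, c (ζ i).1 = none)
    (ν : Fin r → Edge n → Fin N) (hνn : ∀ i e, ν i e ∈ nbrs U Y (ζ i).1)
    (hν : ∀ i e, c (ν i e) = some ((ζ i).2, e)) :
    ∃ φ : Edge N → (Fin r × Edge n) ⊕ Bool, (∀ v, v ∉ U → ∃ b, φ v = .inr b) ∧
      ∀ y : Fin r × Edge n → Bool, HasClique (N / 2) (fun v => Sum.elim y id (φ v)) ↔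
        ∃ i, HasClique (n / 2) fun e => y (i, e) := by
  classical
  set h := n / 2 with hh
  set E := Fintype.card (Edge n) with hEdef
  have hE : E ≤ n ^ 2 := by
    refine (Fintype.card_subtype_le _).trans (le_of_eq ?_)
    simp [sq]
  have h16 : 4 * n ≤ n ^ 2 := by
    rw [sq]
    exact Nat.mul_le_mul_right _ hn
  have hJn : 1 * n ^ 2 ≤ J * n ^ 2 := Nat.mul_le_mul_right _ hJ
  have hJh : J * (h * n) ≤ J * n ^ 2 := by
    refine Nat.mul_le_mul_left _ ?_
    rw [sq]
    exact Nat.mul_le_mul_right _ (Nat.div_le_self _ _)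
  have hJE : J * E ≤ J * n ^ 2 := Nat.mul_le_mul_left _ hE
  let YT : Type := {x : Fin N // x ∈ Y}
  let c' : YT → Option (Fin J × Edge n) := fun v => c v.1
  let ζ' : Fin r → YT × Fin J := fun i => (⟨(ζ i).1, hζY i⟩, (ζ i).2)
  have hνY : ∀ i e, ν i e ∈ Y := fun i e => (Finset.mem_filter.1 (hνn i e)).1
  let ν' : Fin r → Edge n → YT := fun i e => ⟨ν i e, hνY i e⟩
  have hζ' : Function.Injective ζ' := by
    intro i i' h1
    have e1 : (ζ i).1 = (ζ i').1 := congrArg (fun z : YT × Fin J => z.1.1) h1
    have e2 : (ζ i).2 = (ζ i').2 := congrArg (fun z : YT × Fin J => z.2) h1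
    exact hζ (Prod.ext e1 e2)
  obtain ⟨ρ⟩ : Nonempty (((Fin J × Fin h × Fin n) ⊕ (Fin J × Edge n × Bool)) ↪
      {x : Fin N // x ∉ Y}) := by
    apply Function.Embedding.nonempty_of_card_le
    have h1 : Fintype.card {x : Fin N // x ∉ Y} = N - Y.card := by
      rw [Fintype.card_subtype_compl, Fintype.card_fin, Fintype.card_coe]
    rw [h1]
    simp only [Fintype.card_sum, Fintype.card_prod, Fintype.card_fin, Fintype.card_bool]
    rw [← hEdef]
    have h2 : J * (E * 2) = 2 * (J * E) := by ring
    omega
  let Jm : SV YT J h n → Fin N := fun g => match g with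
    | .y v => v.1
    | .p j t u => (ρ (.inl (j, t, u))).1
    | .d j e s => (ρ (.inr (j, e, s))).1
  have hρ : ∀ w w', (ρ w).1 = (ρ w').1 → w = w' := fun w w' h1 => ρ.injective (Subtype.ext h1)
  have hne : ∀ (v : YT) w, v.1 ≠ (ρ w).1 := fun v w h1 => (ρ w).2 (h1 ▸ v.2)
  have hJm : Function.Injective Jm := by
    intro g g' h1
    cases g with
    | y v =>
      cases g' with
      | y v' => rw [Subtype.ext (h1 : v.1 = v'.1)]
      | p j t u => exact absurd h1 (hne _ _)
      | d j e s => exact absurd h1 (hne _ _)
    | p j t u =>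
      cases g' with
      | y v' => exact absurd h1.symm (hne _ _)
      | p j' t' u' =>
        have h2 := hρ _ _ h1
        simp only [Sum.inl.injEq, Prod.mk.injEq] at h2
        rw [h2.1, h2.2.1, h2.2.2]
      | d j' e s => exact absurd (hρ _ _ h1) (by simp)
    | d j e s =>
      cases g' with
      | y v' => exact absurd h1.symm (hne _ _)
      | p j' t' u' => exact absurd (hρ _ _ h1) (by simp)
      | d j' e' s' =>
        have h2 := hρ _ _ h1
        simp only [Sum.inr.injEq, Prod.mk.injEq] at h2
        rw [h2.1, h2.2.1, h2.2.2]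
  set W : Finset (Fin N) := Y ∪ univ.image (fun w => (ρ w).1) with hW
  have hWc : W.card ≤ Y.card + (J * (h * n) + 2 * (J * E)) := by
    have h1 : (univ.image (fun w => (ρ w).1)).card ≤ J * (h * n) + 2 * (J * E) := by
      refine Finset.card_image_le.trans (le_of_eq ?_)
      rw [Finset.card_univ]
      simp only [Fintype.card_sum, Fintype.card_prod, Fintype.card_fin, Fintype.card_bool]
      ring
    exact (Finset.card_union_le _ _).trans (Nat.add_le_add_left h1 _)
  have hJW : ∀ g, Jm g ∈ W := by
    intro g
    cases g with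
    | y v => exact Finset.mem_union_left _ v.2
    | p j t u => exact Finset.mem_union_right _ (Finset.mem_image.2 ⟨_, Finset.mem_univ _, rfl⟩)
    | d j e s => exact Finset.mem_union_right _ (Finset.mem_image.2 ⟨_, Finset.mem_univ _, rfl⟩)
  have hWcc : Wᶜ.card = N - W.card := by
    rw [Finset.card_compl, Fintype.card_fin]
  obtain ⟨Un, hUn1, hUn2⟩ := Finset.exists_subset_card_eq
    (s := Wᶜ) (n := N / 2 - (1 + (h + E))) (by
      rw [hWcc]
      omega)
  have hUn : ∀ x ∈ Un, ¬ ∃ g, Jm g = x := by
    rintro x hx ⟨g, rfl⟩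
    exact (Finset.mem_compl.1 (hUn1 hx)) (hJW g)
  have hsum : 1 + (h + E) + Un.card = N / 2 := by
    rw [hUn2]
    omega
  have hemb := fun z => clique_embed Jm Un (litS c' ζ' ν') hJm hUn (litS_symm c' ζ' ν')
    (1 + (h + E)) (by omega) z
  rw [hsum] at hemb
  refine ⟨fun v => labV Jm Un (litS c' ζ' ν') v.1.1 v.1.2, fun v hv => ?_, fun y => ?_⟩
  · rcases hq : labV Jm Un (litS c' ζ' ν') v.1.1 v.1.2 with q | b
    · exfalso
      unfold labV at hq
      rcases h1 : decV Jm v.1.1 with _ | g <;> rcases h2 : decV Jm v.1.2 with _ | g'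
      · rw [h1, h2] at hq
        simp at hq
      · rw [h1, h2] at hq
        simp at hq
      · rw [h1, h2] at hq
        simp at hq
      · rw [h1, h2] at hq
        have h3 := decV_some h1
        have h4 := decV_some h2
        have h5 := hνn q.1 q.2
        unfold nbrs at h5
        rw [Finset.mem_filter] at h5
        rcases litS_inl hq with ⟨h6, h7⟩ | ⟨h6, h7⟩
        · have e1 : v.1.1 = (ζ q.1).1 := by rw [← h3, h6]
          have e2 : v.1.2 = ν q.1 q.2 := by rw [← h4, h7]
          rcases h5.2 with ⟨h8, h9⟩ | ⟨h8, h9⟩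
          · exact hv (by
              have e3 : v = ⟨((ζ q.1).1, ν q.1 q.2), h8⟩ := Subtype.ext (Prod.ext e1 e2)
              rw [e3]
              exact h9)
          · have h10 := v.2
            rw [e1, e2] at h10
            exact absurd h10 (not_lt.2 h8.le)
        · have e1 : v.1.2 = (ζ q.1).1 := by rw [← h4, h6]
          have e2 : v.1.1 = ν q.1 q.2 := by rw [← h3, h7]
          rcases h5.2 with ⟨h8, h9⟩ | ⟨h8, h9⟩
          · have h10 := v.2
            rw [e1, e2] at h10
            exact absurd h10 (not_lt.2 h8.le)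
          · exact hv (by
              have e3 : v = ⟨(ν q.1 q.2, (ζ q.1).1), h8⟩ := Subtype.ext (Prod.ext e2 e1)
              rw [e3]
              exact h9)
    · exact ⟨b, hq⟩
  · exact (hemb y).trans (star_iff (by omega) hζ' hc
      (fun i e => hν i e) y)

end Pool.Agent.NTN
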