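import Pool.Agent.NTN.GridAvg
import Pool.Agent.NTN.StarLabel
import Pool.Agent.NTN.StarRestr

/-!
# Cliques on average, every set of edges
-/

set_option autoImplicit false

namespace Pool.Agent.NTN

open Pool.Agent.NegLim Pool.Agent.NTR Pool.Agent.TeleNeg Finset
open scoped BigOperators

/-- The degree from which on vertices are centres of stars. -/
def dsz (s : ℕ) : ℕ := 8 * nsz s ^ 2 * (Nat.log 2 (nsz s) + 1)

/-- The constant for arbitrary sets of edges. -/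
def acz (s : ℕ) : ℕ := (2 ^ 130 * s ^ 4 * (Nat.log 2 s + 1) ^ 7) ^ 2

theorem dsz_pos {s : ℕ} (hs : 1 ≤ s) : 1 ≤ dsz s := by
  have h1 := nsz_pos hs
  have h2 : 0 < nsz s := lt_of_lt_of_le (by norm_num) h1
  unfold dsz
  exact Nat.succ_le_of_lt (by positivity)

theorem dsz_le {s : ℕ} (hs : 1 ≤ s) : dsz s ≤ 2 ^ 8 * ccz s * (Nat.log 2 s + 1) := by
  have h1 := log_nsz_le hs
  have h2 : Nat.log 2 (nsz s) + 1 ≤ 2 ^ 7 * (Nat.log 2 s + 1) := by
    norm_num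
    omega
  unfold dsz
  rw [ccz_eq]
  calc 8 * nsz s ^ 2 * (Nat.log 2 (nsz s) + 1)
      ≤ 8 * nsz s ^ 2 * (2 ^ 7 * (Nat.log 2 s + 1)) := Nat.mul_le_mul_left _ h2
    _ = 2 ^ 8 * (4 * nsz s ^ 2) * (Nat.log 2 s + 1) := by ring

theorem ccz_dsz_le {s : ℕ} (hs : 1 ≤ s) : ccz s * (256 * dsz s) ≤ acz s := by
  have h1 : 1 ≤ Nat.log 2 s + 1 := Nat.le_add_left _ _
  have h2 : 2 ^ 8 * ccz s * (Nat.log 2 s + 1) = 2 ^ 130 * s ^ 4 * (Nat.log 2 s + 1) ^ 7 := by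
    unfold ccz
    ring
  have h3 : ccz s * 256 ≤ 2 ^ 130 * s ^ 4 * (Nat.log 2 s + 1) ^ 7 := by
    rw [← h2]
    calc ccz s * 256 = 2 ^ 8 * ccz s * 1 := by ring
      _ ≤ 2 ^ 8 * ccz s * (Nat.log 2 s + 1) := Nat.mul_le_mul_left _ h1
  calc ccz s * (256 * dsz s) = ccz s * 256 * dsz s := by ring
    _ ≤ (2 ^ 130 * s ^ 4 * (Nat.log 2 s + 1) ^ 7) * (2 ^ 130 * s ^ 4 * (Nat.log 2 s + 1) ^ 7) :=
        Nat.mul_le_mul h3 (h2 ▸ dsz_le hs)
    _ = acz s := by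
        unfold acz
        rw [sq]

theorem dsz_acz {s : ℕ} (hs : 1 ≤ s) : 1024 * dsz s ≤ acz s := by
  have h1 : 4 ≤ ccz s := by
    rw [ccz_eq]
    have h2 := nsz_pos hs
    have h3 : 1 ≤ nsz s ^ 2 := Nat.one_le_pow _ _ (lt_of_lt_of_le (by norm_num) h2)
    omega
  calc 1024 * dsz s = 4 * (256 * dsz s) := by ring
    _ ≤ ccz s * (256 * dsz s) := Nat.mul_le_mul_right _ h1
    _ ≤ acz s := ccz_dsz_le hs

theorem not_mem_nbrs {N : ℕ} (U : Finset (Edge N)) (Y : Finset (Fin N)) (x : Fin N) :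
    x ∉ nbrs U Y x := by
  unfold nbrs
  rw [Finset.mem_filter]
  rintro ⟨-, ⟨h, -⟩ | ⟨h, -⟩⟩
  · exact lt_irrefl _ h
  · exact lt_irrefl _ h

/-- An enumeration of a finite set of pairs, with choices. -/
theorem pick_pairs {V W E : Type} (G : Finset (V × W)) (R : V × W → E → V → Prop)
    (h : ∀ p ∈ G, ∀ e, ∃ v, R p e v) :
    ∃ (ζ : Fin G.card → V × W) (ν : Fin G.card → E → V), Function.Injective ζ ∧
      (∀ i, ζ i ∈ G) ∧ ∀ i e, R (ζ i) e (ν i e) := by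
  have h1 : ∀ i : Fin G.card, ∀ e, ∃ v, R (G.equivFin.symm i).1 e v := fun i =>
    h _ (G.equivFin.symm i).2
  choose ν hν using h1
  exact ⟨fun i => (G.equivFin.symm i).1, ν,
    fun i i' h2 => G.equivFin.symm.injective (Subtype.ext h2),
    fun i => (G.equivFin.symm i).2, hν⟩

/-- **Labels**, with the set of good pairs. -/
theorem exists_labels' {V E : Type} [Fintype V] [DecidableEq V] [Fintype E] [DecidableEq E]
    [Nonempty E] {J D : ℕ} (hJ : 1 ≤ J) (X : Finset V) (B : V → Finset V)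
    (hx : ∀ x ∈ X, x ∉ B x) (hB : ∀ x ∈ X, D ≤ (B x).card)
    (hD : 4 * Fintype.card E * (2 * (J * Fintype.card E) - 1) ^ D
      ≤ (2 * (J * Fintype.card E)) ^ D) :
    ∃ (c : V → Option (Fin J × E)) (G : Finset (V × Fin J)), X.card * J ≤ 4 * G.card ∧
      ∀ p ∈ G, p.1 ∈ X ∧ c p.1 = none ∧ ∀ e, ∃ v ∈ B p.1, c v = some (p.2, e) := by
  obtain ⟨c, hc⟩ := exists_labels hJ X B hx hB hD
  exact ⟨c, _, hc, fun p hp => (Finset.mem_filter.1 hp).2⟩

/-- **Labels**, the form used. -/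
theorem exists_pairs {n N D J : ℕ} (hn : 2 ≤ n) (U : Finset (Edge N)) (X Y : Finset (Fin N))
    (hJ : 1 ≤ J) (hJD : 8 * n ^ 2 * (Nat.log 2 n + 1) * J ≤ D)
    (hX : ∀ x ∈ X, D ≤ (nbrs U Y x).card) :
    ∃ (c : Fin N → Option (Fin J × Edge n)) (r : ℕ) (ζ : Fin r → Fin N × Fin J)
      (ν : Fin r → Edge n → Fin N), X.card * J ≤ 4 * r ∧ Function.Injective ζ ∧
      (∀ i, (ζ i).1 ∈ X) ∧ (∀ i, c (ζ i).1 = none) ∧
      (∀ i e, ν i e ∈ nbrs U Y (ζ i).1) ∧ ∀ i e, c (ν i e) = some ((ζ i).2, e) := by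
  classical
  have hne : Nonempty (Edge n) :=
    ⟨⟨(⟨0, by omega⟩, ⟨1, by omega⟩), by simp [Fin.lt_def]⟩⟩
  have hN : 4 * Fintype.card (Edge n) * (2 * (J * Fintype.card (Edge n)) - 1) ^ D
      ≤ (2 * (J * Fintype.card (Edge n))) ^ D :=
    label_numbers (n := n) hn Fintype.card_pos (card_edge_le n) hJ hJD
  obtain ⟨c, G, hGc, hG⟩ := exists_labels' (E := Edge n) hJ X (nbrs U Y)
    (fun x _ => not_mem_nbrs U Y x) hX hN
  obtain ⟨ζ, ν, h1, h2, h3⟩ := pick_pairs G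
    (fun p (e : Edge n) v => v ∈ nbrs U Y p.1 ∧ c v = some (p.2, e))
    (fun p hp e => (hG p hp).2.2 e)
  exact ⟨c, G.card, ζ, ν, hGc, h1, fun i => (hG _ (h2 i)).1, fun i => (hG _ (h2 i)).2.1,
    fun i e => (h3 i e).1, fun i e => (h3 i e).2⟩

/-- **Clique restricted to many stars.** -/
theorem clique_stars_U {n N D d₀ : ℕ} (hn4 : 4 ≤ n) (hd₀ : d₀ = 8 * n ^ 2 * (Nat.log 2 n + 1))
    (U : Finset (Edge N)) (X Y : Finset (Fin N))
    (hD : d₀ ≤ D) (hXY : X ⊆ Y) (hY : 4 * Y.card ≤ N + 7)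
    (hX : ∀ x ∈ X, D ≤ (nbrs U Y x).card) (hne : X.Nonempty) :
    ∃ r, 1 ≤ r ∧ D * X.card ≤ 8 * d₀ * r ∧
      ∃ φ : Edge N → (Fin r × Edge n) ⊕ Bool, (∀ v, v ∉ U → ∃ b, φ v = .inr b) ∧
        ∀ y : Fin r × Edge n → Bool,
          HasClique (N / 2) (fun v => Sum.elim y id (φ v)) ↔
            ∃ i, HasClique (n / 2) fun e => y (i, e) := by
  have hd : 1 ≤ d₀ := by
    rw [hd₀]
    exact Nat.succ_le_of_lt (by positivity)
  obtain ⟨J, hJdef⟩ : ∃ J, J = D / d₀ := ⟨_, rfl⟩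
  have hJ : 1 ≤ J := hJdef ▸ (Nat.one_le_div_iff hd).2 hD
  have hJD : d₀ * J ≤ D := hJdef ▸ Nat.mul_div_le D d₀
  have hDJ : D ≤ 2 * d₀ * J := by
    have h1 : D < d₀ * (J + 1) := hJdef ▸ Nat.lt_mul_div_succ D hd
    have h2 : d₀ ≤ d₀ * J := Nat.le_mul_of_pos_right _ hJ
    calc D ≤ d₀ * (J + 1) := h1.le
      _ = d₀ * J + d₀ := by ring
      _ ≤ d₀ * J + d₀ * J := Nat.add_le_add_left h2 _
      _ = 2 * d₀ * J := by ring
  have hX1 : 1 ≤ X.card := Finset.card_pos.2 hne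
  have hXJ : 1 ≤ X.card * J := Nat.mul_pos hX1 hJ
  have hroom : 12 * (J * n ^ 2) + 7 ≤ N := by
    obtain ⟨x, hx⟩ := hne
    have h1 : D ≤ Y.card := (hX x hx).trans (Finset.card_le_card (Finset.filter_subset _ _))
    have h2 : 8 * (J * n ^ 2) ≤ d₀ * J := by
      rw [hd₀]
      calc 8 * (J * n ^ 2) = 8 * n ^ 2 * 1 * J := by ring
        _ ≤ 8 * n ^ 2 * (Nat.log 2 n + 1) * J :=
          Nat.mul_le_mul_right _ (Nat.mul_le_mul_left _ (Nat.le_add_left _ _))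
    have h3 : 1 ≤ J * n ^ 2 := Nat.mul_pos hJ (by positivity)
    omega
  obtain ⟨c, r, ζ, ν, hr, hζ, hζX, hc, hν1, hν2⟩ := exists_pairs (by omega) U X Y hJ
    (hd₀ ▸ hJD) hX
  refine ⟨r, by omega, ?_, clique_stars hn4 hJ U Y hY hroom c ζ hζ (fun i => hXY (hζX i)) hc ν
    hν1 hν2⟩
  calc D * X.card ≤ 2 * d₀ * J * X.card := Nat.mul_le_mul_right _ hDJ
    _ = 2 * d₀ * (X.card * J) := by ring
    _ ≤ 2 * d₀ * (4 * r) := Nat.mul_le_mul_left _ hr
    _ = 8 * d₀ * r := by ring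

open Classical in
/-- **Clique, every set of edges, average case, circuits and directed networks.** -/
theorem clique_average_all {s N : ℕ} (hs : 1 ≤ s) (U : Finset (Edge N)) (hU : U.Nonempty) :
    ∃ μ : (Edge N → Bool) → ℝ, (∀ x, 0 ≤ μ x) ∧ ∑ x, μ x = 1 ∧
      (∀ x x', μ x ≠ 0 → μ x' ≠ 0 → ∀ v, v ∉ U → x v = x' v) ∧
      (∀ (T b : ℕ) (C : Circuit (Edge N)) (out : Fin T → Wire (Edge N))
        (h : (Fin T → Bool) → Bool),
        C.size + T ≤ 2 ^ s → ChangesOn U (fun x => C.notVals x) b →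
        ∑ x with (h (fun i => C.val x (out i)) = true ↔ HasClique (N / 2) x), μ x
          ≤ 1 / 2 + (1 / 2) ^ s + (T + 1) * b * (acz s * (Nat.log 2 N + 1)) / U.card) ∧
      ∀ (S : ℕ) (ts : List ℕ) (T b : ℕ) (A : (Edge N → Bool) → Bool),
        (ts.sum + T) * S ≤ 2 ^ s → Tries (Gen.dnetClass S) U ts T b A →
        ∑ x with (A x = true ↔ HasClique (N / 2) x), μ x
          ≤ 1 / 2 + (1 / 2) ^ s + (T + 1) * b * (acz s * (Nat.log 2 N + 1)) / U.card := by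
  have hk : 0 < U.card := Finset.card_pos.2 hU
  have hkR : (0 : ℝ) < U.card := by exact_mod_cast hk
  rcases stars_or_matching (dsz_pos hs) U with ⟨m, hm, hdis⟩ | ⟨D, X, Y, hD, hXY, hY, hX, hkX⟩
  · -- many disjoint edges
    have hm1 : 1 ≤ m := by
      rcases Nat.eq_zero_or_pos m with h | h
      · rw [h, mul_zero] at hm
        omega
      · exact h
    have hmR : (0 : ℝ) < m := by exact_mod_cast hm1
    obtain ⟨μ, m1, m2, m3, m4, m5⟩ := clique_average_both hs hm1 U hdis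
    have h1 : ccz s * U.card ≤ acz s * (Nat.log 2 N + 1) * m := by
      calc ccz s * U.card ≤ ccz s * (256 * dsz s * m) := Nat.mul_le_mul_left _ hm
        _ = ccz s * (256 * dsz s) * 1 * m := by ring
        _ ≤ acz s * (Nat.log 2 N + 1) * m :=
          Nat.mul_le_mul_right _ (Nat.mul_le_mul (ccz_dsz_le hs) (Nat.le_add_left _ _))
    have h2 : (ccz s : ℝ) * U.card ≤ acz s * (Nat.log 2 N + 1) * m := by exact_mod_cast h1
    have h5 : ∀ T b : ℕ, 1 / 2 + (1 / 2) ^ s + ((T : ℝ) + 1) * b * ccz s / m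
        ≤ 1 / 2 + (1 / 2) ^ s + (T + 1) * b * (acz s * (Nat.log 2 N + 1)) / U.card := by
      intro T b
      refine add_le_add le_rfl ?_
      rw [div_le_div_iff₀ hmR hkR]
      have h6 : (0 : ℝ) ≤ (T + 1) * b := by positivity
      calc ((T : ℝ) + 1) * b * ccz s * U.card = (T + 1) * b * (ccz s * U.card) := by ring
        _ ≤ (T + 1) * b * (acz s * (Nat.log 2 N + 1) * m) := mul_le_mul_of_nonneg_left h2 h6
        _ = (T + 1) * b * (acz s * (Nat.log 2 N + 1)) * m := by ring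
    exact ⟨μ, m1, m2, m3, fun T b C out h hC hb => (m4 T b C out h hC hb).trans (h5 T b),
      fun S ts T b A hS hA => (m5 S ts T b A hS hA).trans (h5 T b)⟩
  · -- many stars
    have hne : X.Nonempty := by
      rw [Finset.nonempty_iff_ne_empty]
      rintro rfl
      rw [Finset.card_empty, mul_zero] at hkX
      omega
    obtain ⟨r, hr, hrk, φ, hφ1, hφ2⟩ := clique_stars_U (n := nsz s) (d₀ := dsz s)
      ((by norm_num : 4 ≤ 2 ^ 60).trans (nsz_pos hs)) rfl U X Y hD hXY hY hX hne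
    obtain ⟨μ, m1, m2, m3, m4, m5⟩ := clique_or_both (s := s) (n := nsz s) (w := 67 * s)
      (r := r) (by omega) (four_nsz_le hs) (nsz_big hs) hr (HasClique (N / 2)) U ⟨φ, hφ1, hφ2⟩
    have hrR : (0 : ℝ) < r := by exact_mod_cast hr
    have h1 : U.card ≤ acz s * (Nat.log 2 N + 1) * (2 * r) := by
      calc U.card ≤ 256 * (Nat.log 2 N + 1) * D * X.card := hkX
        _ = 256 * (Nat.log 2 N + 1) * (D * X.card) := by ring
        _ ≤ 256 * (Nat.log 2 N + 1) * (8 * dsz s * r) := Nat.mul_le_mul_left _ hrk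
        _ = 1024 * dsz s * ((Nat.log 2 N + 1) * (2 * r)) := by ring
        _ ≤ acz s * ((Nat.log 2 N + 1) * (2 * r)) := Nat.mul_le_mul_right _ (dsz_acz hs)
        _ = acz s * (Nat.log 2 N + 1) * (2 * r) := by ring
    have h2 : (U.card : ℝ) ≤ acz s * (Nat.log 2 N + 1) * (2 * r) := by exact_mod_cast h1
    have h5 : ∀ T b : ℕ, 1 / 2 + (1 / 2) ^ s + ((T : ℝ) + 1) * b / (2 * r)
        ≤ 1 / 2 + (1 / 2) ^ s + (T + 1) * b * (acz s * (Nat.log 2 N + 1)) / U.card := by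
      intro T b
      refine add_le_add le_rfl ?_
      rw [div_le_div_iff₀ (by positivity) hkR]
      have h6 : (0 : ℝ) ≤ (T + 1) * b := by positivity
      calc ((T : ℝ) + 1) * b * U.card
          ≤ (T + 1) * b * (acz s * (Nat.log 2 N + 1) * (2 * r)) := mul_le_mul_of_nonneg_left h2 h6
        _ = (T + 1) * b * (acz s * (Nat.log 2 N + 1)) * (2 * r) := by ring
    exact ⟨μ, m1, m2, m3, fun T b C out h hC hb => (m4 T b C out h hC hb).trans (h5 T b),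
      fun S ts T b A hS hA => (m5 S ts T b A hS hA).trans (h5 T b)⟩

end Pool.Agent.NTN
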