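import Pool.Agent.NTN.WideSlices

/-!
# Wide slices with few NOT gates: `log (|U| / d) + 1` NOT gates which see `U` suffice for functions
monotone in `U` (`d = 1`: for all functions)
-/

set_option autoImplicit false
set_option linter.unusedSectionVars false

namespace Pool.Agent.NTN

namespace Wn

open Pool.Agent.NegLim Pool.Agent.NTR Pool.Agent.NTN.Wsl Finset

section

variable {V : Type}

/-- Some circuit with the property `Pr` and at most `n` gates computes all functions of the
family. -/
def Has (Pr : Circuit V → Prop) (n : ℕ) (Φ : Set ((V → Bool) → Prop)) : Prop :=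
  ∃ C : Circuit V, Pr C ∧ C.size ≤ n ∧
    ∀ F ∈ Φ, ∃ w : Wire V, Bel C.length w ∧ ∀ x, C.val x w = true ↔ F x

/-- The property is stable under AND and OR gates. -/
def Stb (Pr : Circuit V → Prop) : Prop :=
  ∀ (C : Circuit V) (g : Gate V), Pr C → g.isNot = false → Pr (C ++ [g])

variable {Pr Pr' : Circuit V → Prop} {n m : ℕ} {Φ Ψ : Set ((V → Bool) → Prop)}

theorem Has.mono (h : Has Pr n Φ) (hnm : n ≤ m) (hs : Ψ ⊆ Φ) : Has Pr m Ψ := by
  obtain ⟨C, h1, h2, h3⟩ := h
  exact ⟨C, h1, h2.trans hnm, fun F hF => h3 F (hs hF)⟩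

theorem has_bas (hP : Pr []) : Has Pr 0 (bas V) := by
  refine ⟨[], hP, by simp [Circuit.size], ?_⟩
  rintro F (⟨v, rfl⟩ | rfl | rfl)
  · exact ⟨.var v, trivial, fun x => by simp [Circuit.val, Wire.val]⟩
  · exact ⟨.const true, trivial, fun x => by simp [Circuit.val, Wire.val]⟩
  · exact ⟨.const false, trivial, fun x => by simp [Circuit.val, Wire.val]⟩

/-- One more gate. -/
theorem Has.gate (h : Has Pr n Φ) {G : (V → Bool) → Prop}
    (hG : ∀ C : Circuit V, Pr C →
      (∀ F ∈ Φ, ∃ w : Wire V, Bel C.length w ∧ ∀ x, C.val x w = true ↔ F x) →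
      ∃ g : Gate V, (∀ x, g.val x (gateVals x C []) = true ↔ G x) ∧ Pr' (C ++ [g])) :
    Has Pr' (n + 1) (insert G Φ) := by
  obtain ⟨C, h1, h2, h3⟩ := h
  obtain ⟨g, hg, hn⟩ := hG C h1 h3
  refine ⟨C ++ [g], hn, ?_, ?_⟩
  · unfold Circuit.size at h2 ⊢
    simp only [List.length_append, List.length_cons, List.length_nil]
    omega
  · rintro E (rfl | hE)
    · refine ⟨.gate C.length, by simp [Bel], fun x => ?_⟩
      have hl : (gateVals x C []).length = C.length := by rw [gv_length]; simp
      have e1 := hg x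
      unfold Circuit.val
      rw [gv_snoc]
      simp only [Wire.val]
      rw [List.getD_eq_getElem _ _ (by rw [List.length_append, hl]; simp),
        List.getElem_append_right (by rw [hl])]
      simp only [hl, Nat.sub_self, List.getElem_cons_zero]
      exact e1
    · obtain ⟨c, hc, hcv⟩ := h3 E hE
      refine ⟨c, hc.mono (by simp), fun x => ?_⟩
      rw [← hcv x]
      unfold Circuit.val
      rw [gv_snoc, wv_append]
      rw [gv_length]
      simpa using hc

theorem Has.and (hPr : Stb Pr) (h : Has Pr n Φ) {F G : (V → Bool) → Prop} (hF : F ∈ Φ)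
    (hG : G ∈ Φ) : Has Pr (n + 1) (insert (fun x => F x ∧ G x) Φ) := by
  refine h.gate fun C hC' hC => ?_
  obtain ⟨a, -, ha⟩ := hC F hF
  obtain ⟨b, -, hb⟩ := hC G hG
  refine ⟨.and a b, fun x => ?_, hPr C _ hC' rfl⟩
  rw [← ha x, ← hb x]
  simp [Gate.val, Circuit.val]

theorem Has.or (hPr : Stb Pr) (h : Has Pr n Φ) {F G : (V → Bool) → Prop} (hF : F ∈ Φ)
    (hG : G ∈ Φ) : Has Pr (n + 1) (insert (fun x => F x ∨ G x) Φ) := by
  refine h.gate fun C hC' hC => ?_
  obtain ⟨a, -, ha⟩ := hC F hF
  obtain ⟨b, -, hb⟩ := hC G hG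
  refine ⟨.or a b, fun x => ?_, hPr C _ hC' rfl⟩
  rw [← ha x, ← hb x]
  simp [Gate.val, Circuit.val]

theorem Has.not (h : Has Pr n Φ) {F : (V → Bool) → Prop} (hF : F ∈ Φ)
    (hS : ∀ (C : Circuit V) (a : Wire V), Pr C → (∀ x, C.val x a = true ↔ F x) →
      Pr' (C ++ [.not a])) : Has Pr' (n + 1) (insert (fun x => ¬ F x) Φ) := by
  refine h.gate fun C hC' hC => ?_
  obtain ⟨a, -, ha⟩ := hC F hF
  refine ⟨.not a, fun x => ?_, hS C a hC' ha⟩
  rw [← ha x]
  simp [Gate.val, Circuit.val]

/-- One family after another. -/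
theorem Has.iter {K : Type} {c : ℕ} (h : Has Pr n Φ) (s : Finset K)
    (A : K → Set ((V → Bool) → Prop))
    (hA : ∀ k ∈ s, ∀ (m : ℕ) (Ψ : Set ((V → Bool) → Prop)), Φ ⊆ Ψ → Has Pr m Ψ →
      Has Pr (m + c) (Ψ ∪ A k)) :
    Has Pr (n + c * s.card) (Φ ∪ {F | ∃ k ∈ s, F ∈ A k}) := by
  classical
  induction s using Finset.induction_on with
  | empty =>
    refine h.mono (by simp) ?_
    rintro E (hE | ⟨k, hk, _⟩)
    · exact hE
    · exact absurd hk (Finset.notMem_empty k)
  | insert k s hk ih =>
    have h1 := ih fun i hi => hA i (Finset.mem_insert_of_mem hi)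
    have h2 := hA k (Finset.mem_insert_self k s) _ _ Set.subset_union_left h1
    refine h2.mono (by rw [Finset.card_insert_of_notMem hk]; ring_nf; omega) ?_
    rintro E (hE | ⟨i, hi, hE⟩)
    · exact Or.inl (Or.inl hE)
    · rcases Finset.mem_insert.mp hi with rfl | hi
      · exact Or.inr hE
      · exact Or.inl (Or.inr ⟨i, hi, hE⟩)

/-- One function after another. -/
theorem Has.iterE {K : Type} {c : ℕ} (h : Has Pr n Φ) (s : Finset K)
    (G : K → ((V → Bool) → Prop) → Prop)
    (hA : ∀ k ∈ s, ∀ (m : ℕ) (Ψ : Set ((V → Bool) → Prop)), Φ ⊆ Ψ → Has Pr m Ψ →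
      ∃ P, G k P ∧ Has Pr (m + c) (insert P Ψ)) :
    ∃ Φ' : Set ((V → Bool) → Prop), Φ ⊆ Φ' ∧ Has Pr (n + c * s.card) Φ' ∧
      ∀ k ∈ s, ∃ P ∈ Φ', G k P := by
  classical
  induction s using Finset.induction_on with
  | empty =>
    exact ⟨Φ, subset_rfl, h.mono (by simp) subset_rfl,
      fun k hk => absurd hk (Finset.notMem_empty k)⟩
  | insert k s hk ih =>
    obtain ⟨Φ', h1, h2, h3⟩ := ih fun i hi => hA i (Finset.mem_insert_of_mem hi)
    obtain ⟨P, h4, h5⟩ := hA k (Finset.mem_insert_self k s) _ _ h1 h2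
    refine ⟨insert P Φ', h1.trans (Set.subset_insert _ _),
      h5.mono (by rw [Finset.card_insert_of_notMem hk]; ring_nf; omega) subset_rfl,
      fun i hi => ?_⟩
    rcases Finset.mem_insert.mp hi with rfl | hi
    · exact ⟨P, Set.mem_insert _ _, h4⟩
    · obtain ⟨P', h6, h7⟩ := h3 i hi
      exact ⟨P', Set.mem_insert_of_mem _ h6, h7⟩

theorem has_thr [DecidableEq V] (hPr : Stb Pr) (h : Has Pr n Φ) (hb : bas V ⊆ Φ) (W : Finset V) (k : ℕ) :
    Has Pr (n + 2 * k * W.card) (Φ ∪ {F | ∃ j, j ≤ k ∧ F = thr W j}) := by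
  induction W using Finset.induction_on with
  | empty =>
    refine h.mono (by simp) ?_
    rintro E (hE | ⟨j, -, rfl⟩)
    · exact hE
    · refine hb ?_
      have h1 : (thr (∅ : Finset V) j) = fun _ : V → Bool => j ≤ 0 := by
        funext x
        simp [thr, cnt]
      rw [h1]
      exact const_mem_bas' _
  | insert v W hv ih =>
    have h1 := ih.iter (c := 2) (Finset.range k) (fun j => {thr (insert v W) (j + 1)}) (by
      intro j hj m Ψ hΨ hm
      rw [Finset.mem_range] at hj
      have e1 : (fun x : V → Bool => x v = true) ∈ Ψ := hΨ (Or.inl (hb (Or.inl ⟨v, rfl⟩)))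
      have e2 : thr W j ∈ Ψ := hΨ (Or.inr ⟨j, hj.le, rfl⟩)
      have e3 : thr W (j + 1) ∈ Ψ := hΨ (Or.inr ⟨j + 1, hj, rfl⟩)
      have h2 := hm.and hPr e1 e2
      have h3 := h2.or hPr (Or.inl rfl) (Or.inr e3)
      refine h3.mono le_rfl ?_
      rintro E (hE | hE)
      · exact Or.inr (Or.inr hE)
      · refine Or.inl ?_
        rw [Set.mem_singleton_iff.1 hE]
        funext x
        refine propext ?_
        unfold thr
        rw [cnt_insert hv]
        split_ifs with h4
        · constructor
          · intro h5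
            exact Or.inl ⟨h4, by omega⟩
          · rintro (⟨-, h5⟩ | h5) <;> omega
        · constructor
          · intro h5
            exact Or.inr (by omega)
          · rintro (⟨h6, -⟩ | h5)
            · exact absurd h6 h4
            · omega)
    refine h1.mono ?_ ?_
    · rw [Finset.card_range, Finset.card_insert_of_notMem hv]
      ring_nf
      omega
    · rintro E (hE | ⟨j, hj, rfl⟩)
      · exact Or.inl (Or.inl hE)
      · rcases j with _ | j
        · refine Or.inl (Or.inl (hb ?_))
          have h2 : (thr (insert v W) 0) = fun _ : V → Bool => True := by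
            funext x
            simp [thr]
          rw [h2]
          exact const_mem_bas' _
        · exact Or.inr ⟨j, Finset.mem_range.2 hj, rfl⟩

/-- The circuit `C` on two rails: every gate has two monotone descriptions. -/
theorem has_rail (hPr : Stb Pr) (p q : V → (V → Bool) → Prop) (C : Circuit V) :
    ∀ (n : ℕ) (Φ : Set ((V → Bool) → Prop)), bas V ⊆ Φ → (∀ v, p v ∈ Φ) → (∀ v, q v ∈ Φ) →
    Has Pr n Φ →
    ∃ P Q : ℕ → (V → Bool) → Prop,
      Has Pr (n + 2 * C.length) (Φ ∪ {F | ∃ i, F = P i ∨ F = Q i}) ∧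
      ∀ x z,
        (Dom p q x z → ∀ i, ((gateVals z C []).getD i false = true → P i x) ∧
          ((gateVals z C []).getD i false = false → Q i x)) ∧
        (Sub p q x z → ∀ i, (P i x → (gateVals z C []).getD i false = true) ∧
          (Q i x → (gateVals z C []).getD i false = false)) := by
  induction C using List.reverseRecOn with
  | nil =>
    intro n Φ hb hp hq h
    refine ⟨fun _ _ => False, fun _ _ => True, h.mono (by simp) ?_, fun x z => ⟨fun _ i => ?_,
      fun _ i => ?_⟩⟩
    · rintro E (hE | ⟨i, rfl | rfl⟩)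
      · exact hE
      · exact hb (const_mem_bas' _)
      · exact hb (const_mem_bas' _)
    · simp [gateVals]
    · simp [gateVals]
  | append_singleton C g ih =>
    intro n Φ hb hp hq h
    obtain ⟨P, Q, h1, h2⟩ := ih n Φ hb hp hq h
    set Φ' := Φ ∪ {F | ∃ i, F = P i ∨ F = Q i} with hΦ'
    -- wires
    have hw : ∀ a : Wire V, ∃ F ∈ Φ', ∃ G ∈ Φ', ∀ x z,
        (Dom p q x z → (a.val z (gateVals z C []) = true → F x) ∧
          (a.val z (gateVals z C []) = false → G x)) ∧
        (Sub p q x z → (F x → a.val z (gateVals z C []) = true) ∧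
          (G x → a.val z (gateVals z C []) = false)) := by
      intro a
      cases a with
      | var v =>
        exact ⟨p v, Or.inl (hp v), q v, Or.inl (hq v), fun x z => ⟨fun h3 => h3 v, fun h3 => h3 v⟩⟩
      | const b =>
        refine ⟨fun _ => b = true, Or.inl (hb (const_mem_bas' _)), fun _ => b = false,
          Or.inl (hb (const_mem_bas' _)), fun x z => ⟨fun _ => ⟨id, id⟩, fun _ => ⟨id, id⟩⟩⟩
      | gate i =>
        exact ⟨P i, Or.inr ⟨i, Or.inl rfl⟩, Q i, Or.inr ⟨i, Or.inr rfl⟩,
          fun x z => ⟨fun h3 => (h2 x z).1 h3 i, fun h3 => (h2 x z).2 h3 i⟩⟩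
    -- the new gate
    obtain ⟨F, G, h3, h4⟩ : ∃ F G : (V → Bool) → Prop,
        Has Pr (n + 2 * C.length + 2) (insert F (insert G Φ')) ∧ ∀ x z,
          (Dom p q x z → (g.val z (gateVals z C []) = true → F x) ∧
            (g.val z (gateVals z C []) = false → G x)) ∧
          (Sub p q x z → (F x → g.val z (gateVals z C []) = true) ∧
            (G x → g.val z (gateVals z C []) = false)) := by
      cases g with
      | and a b =>
        obtain ⟨F, hF, G, hG, ha⟩ := hw a
        obtain ⟨F', hF', G', hG', hb'⟩ := hw b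
        refine ⟨fun x => F x ∧ F' x, fun x => G x ∨ G' x,
          ((h1.or hPr hG hG').and hPr (Or.inr hF) (Or.inr hF')).mono le_rfl subset_rfl, fun x z => ?_⟩
        have ha' := ha x z
        have hb'' := hb' x z
        simp only [Gate.val]
        revert ha' hb''
        cases a.val z (gateVals z C []) <;> cases b.val z (gateVals z C []) <;>
          simp <;> tauto
      | or a b =>
        obtain ⟨F, hF, G, hG, ha⟩ := hw a
        obtain ⟨F', hF', G', hG', hb'⟩ := hw b
        refine ⟨fun x => F x ∨ F' x, fun x => G x ∧ G' x,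
          ((h1.and hPr hG hG').or hPr (Or.inr hF) (Or.inr hF')).mono le_rfl subset_rfl, fun x z => ?_⟩
        have ha' := ha x z
        have hb'' := hb' x z
        simp only [Gate.val]
        revert ha' hb''
        cases a.val z (gateVals z C []) <;> cases b.val z (gateVals z C []) <;>
          simp <;> tauto
      | not a =>
        obtain ⟨F, hF, G, hG, ha⟩ := hw a
        refine ⟨G, F, h1.mono (by omega) ?_, fun x z => ?_⟩
        · rintro E (rfl | rfl | hE)
          · exact hG
          · exact hF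
          · exact hE
        · have ha' := ha x z
          simp only [Gate.val]
          revert ha'
          cases a.val z (gateVals z C []) <;> simp
    refine ⟨fun i => if i = C.length then F else P i, fun i => if i = C.length then G else Q i,
      h3.mono ?_ ?_, fun x z => ?_⟩
    · rw [List.length_append]
      simp only [List.length_cons, List.length_nil]
      omega
    · rintro E (hE | ⟨i, hE⟩)
      · exact Or.inr (Or.inr (Or.inl hE))
      · dsimp only at hE
        by_cases hi : i = C.length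
        · rw [if_pos hi, if_pos hi] at hE
          rcases hE with rfl | rfl
          · exact Or.inl rfl
          · exact Or.inr (Or.inl rfl)
        · rw [if_neg hi, if_neg hi] at hE
          exact Or.inr (Or.inr (Or.inr ⟨i, hE⟩))
    · have hl : (gateVals z C []).length = C.length := by rw [gv_length]; simp
      have key : ∀ i, (gateVals z (C ++ [g]) []).getD i false =
          if i = C.length then g.val z (gateVals z C []) else (gateVals z C []).getD i false := by
        intro i
        rw [gv_snoc]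
        by_cases hi : i = C.length
        · rw [if_pos hi, List.getD_eq_getElem _ _ (by rw [List.length_append, hl, hi]; simp),
            List.getElem_append_right (by rw [hl, hi])]
          simp only [hl, hi, Nat.sub_self, List.getElem_cons_zero]
        · rw [if_neg hi]
          rcases Nat.lt_or_ge i C.length with h6 | h6
          · rw [List.getD_eq_getElem _ _ (by rw [List.length_append, hl]; simp; omega),
              List.getElem_append_left (by rw [hl]; exact h6),
              List.getD_eq_getElem _ _ (by rw [hl]; exact h6)]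
          · rw [List.getD_eq_default _ _ (by rw [List.length_append, hl]; simp; omega),
              List.getD_eq_default _ _ (by rw [hl]; exact h6)]
      refine ⟨fun hd i => ?_, fun hd i => ?_⟩
      · rw [key]
        dsimp only
        by_cases hi : i = C.length
        · rw [if_pos hi, if_pos hi, if_pos hi]
          exact (h4 x z).1 hd
        · rw [if_neg hi, if_neg hi, if_neg hi]
          exact (h2 x z).1 hd i
      · rw [key]
        dsimp only
        by_cases hi : i = C.length
        · rw [if_pos hi, if_pos hi, if_pos hi]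
          exact (h4 x z).2 hd
        · rw [if_neg hi, if_neg hi, if_neg hi]
          exact (h2 x z).2 hd i

/-- The output of `C` on the first rail. -/
theorem has_out (hPr : Stb Pr) (p q : V → (V → Bool) → Prop) (C : Circuit V) (out : Wire V)
    (hb : bas V ⊆ Φ) (hp : ∀ v, p v ∈ Φ) (hq : ∀ v, q v ∈ Φ) (h : Has Pr n Φ) :
    ∃ P : (V → Bool) → Prop, Has Pr (n + 2 * C.length) (insert P Φ) ∧
      ∀ x z, (Dom p q x z → C.val z out = true → P x) ∧
        (Sub p q x z → P x → C.val z out = true) := by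
  obtain ⟨P, Q, h1, h2⟩ := has_rail hPr p q C n Φ hb hp hq h
  cases out with
  | var v =>
    refine ⟨p v, h1.mono le_rfl ?_, fun x z => ⟨fun h3 => (h3 v).1, fun h3 => (h3 v).1⟩⟩
    rintro E (rfl | hE)
    · exact Or.inl (hp v)
    · exact Or.inl hE
  | const b =>
    refine ⟨fun _ => b = true, h1.mono le_rfl ?_, fun x z => ⟨fun _ => id, fun _ => id⟩⟩
    rintro E (rfl | hE)
    · exact Or.inl (hb (const_mem_bas' _))
    · exact Or.inl hE
  | gate i =>
    refine ⟨P i, h1.mono le_rfl ?_,
      fun x z => ⟨fun h3 => ((h2 x z).1 h3 i).1, fun h3 => ((h2 x z).2 h3 i).1⟩⟩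
    rintro E (rfl | hE)
    · exact Or.inr ⟨i, Or.inl rfl⟩
    · exact Or.inl hE

end

section

variable {V : Type} [DecidableEq V]

/-- `P` separates the inputs with value `1` in the slice from those with value `0`. -/
structure Good (U : Finset V) (f : (V → Bool) → Bool) (w r : ℕ) (I : Finset V)
    (P : (V → Bool) → Prop) : Prop where
  one : ∀ x, (0 < r → f (up I x) = true) → w ≤ cnt (U \ I) x → P x
  zero : ∀ x, (∀ a ∈ I, x a = true) → (0 < r → f x = false) → cnt U x < w + (I.card + r) → ¬ P x

/-- The functions available. -/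
structure Avail (U : Finset V) (d : ℕ) (Φ : Set ((V → Bool) → Prop)) : Prop where
  bas : bas V ⊆ Φ
  thr : ∀ j, j ≤ U.card → NTN.thr U j ∈ Φ
  thr1 : ∀ I ⊆ U, I.card = d → ∀ j, j ≤ U.card → NTN.thr (U \ I) j ∈ Φ
  nvar : ∀ v, v ∉ U → (fun x : V → Bool => ¬ x v = true) ∈ Φ
  nthr : ∀ j, j ≤ U.card / d → (fun x : V → Bool => ¬ NTN.thr U (d * (j + 1)) x) ∈ Φ

theorem Avail.mono {U : Finset V} {d : ℕ} {Φ Ψ : Set ((V → Bool) → Prop)} (h : Avail U d Φ)
    (hs : Φ ⊆ Ψ) : Avail U d Ψ :=
  ⟨h.bas.trans hs, fun j hj => hs (h.thr j hj), fun I hI hc j hj => hs (h.thr1 I hI hc j hj),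
    fun v hv => hs (h.nvar v hv), fun j hj => hs (h.nthr j hj)⟩

variable {U : Finset V} {n d : ℕ} {Φ : Set ((V → Bool) → Prop)}

/-- The first level. -/
theorem good_zero (f : (V → Bool) → Bool) (w : ℕ) {I : Finset V} (hI : I ⊆ U) :
    Good U f w 0 I (thr (U \ I) w) where
  one x _ h := h
  zero x hx _ h1 h2 := by
    have h3 := cnt_sdiff I hI x hx
    unfold thr at h2
    omega

/-- One set of the next level. -/
theorem step_one {Pr : Circuit V → Prop} (hPr : Stb Pr) {w r : ℕ} (C : Circuit V) (out : Wire V)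
    (hmono : 0 < r → ∀ x y : V → Bool, (∀ v, v ∉ U → x v = y v) → x ≤ y → C.val x out = true →
      C.val y out = true)
    (hA : Avail U d Φ) {I : Finset V} (hI : I ⊆ U)
    (hL : ∀ a ∈ U, a ∉ I → ∃ P ∈ Φ, Good U (fun x => C.val x out) w r (insert a I) P)
    (h : Has Pr n Φ) :
    ∃ P, Good U (fun x => C.val x out) w (r + 1) I P ∧
      Has Pr (n + 2 * C.length) (insert P Φ) := by
  classical
  have hex : ∀ v : V, ∃ P ∈ Φ, (v ∈ U → v ∉ I →
      Good U (fun x => C.val x out) w r (insert v I) P) := by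
    intro v
    by_cases h1 : v ∈ U ∧ v ∉ I
    · obtain ⟨P, h2, h3⟩ := hL v h1.1 h1.2
      exact ⟨P, h2, fun _ _ => h3⟩
    · exact ⟨fun _ => True, hA.bas (const_mem_bas' _), fun h2 h3 => absurd ⟨h2, h3⟩ h1⟩
  choose G hG hG' using hex
  obtain ⟨P, h1, h2⟩ := has_out (Pr := Pr) hPr (n := n) (Φ := Φ)
    (fun v x => if v ∈ I then True else x v = true)
    (fun v x => if v ∈ I then False else if v ∈ U then G v x else ¬ x v = true) C out hA.bas
    (by
      intro v
      by_cases hv : v ∈ I
      · simp only [if_pos hv]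
        exact hA.bas (const_mem_bas' _)
      · simp only [if_neg hv]
        exact hA.bas (Or.inl ⟨v, rfl⟩))
    (by
      intro v
      by_cases hv : v ∈ I
      · simp only [if_pos hv]
        exact hA.bas (const_mem_bas' _)
      · by_cases hv' : v ∈ U
        · simp only [if_neg hv, if_pos hv']
          exact hG v
        · simp only [if_neg hv, if_neg hv']
          exact hA.nvar v hv') h
  refine ⟨P, ⟨fun x hx hw => ?_, fun x hx hf hc hP => ?_⟩, h1⟩
  · replace hx : C.val (up I x) out = true := hx (Nat.succ_pos r)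
    refine (h2 x (up I x)).1 (fun v => ⟨fun hz => ?_, fun hz => ?_⟩) hx
    · by_cases hv : v ∈ I
      · simp only [if_pos hv]
      · simp only [if_neg hv]
        rwa [up, if_neg hv] at hz
    · have hv : v ∉ I := by
        intro hv
        rw [up, if_pos hv] at hz
        exact Bool.noConfusion hz
      rw [up, if_neg hv] at hz
      by_cases hv' : v ∈ U
      · simp only [if_neg hv, if_pos hv']
        refine (hG' v hv' hv).one x (fun hr => ?_) ?_
        · refine hmono hr (up I x) _ (fun u hu => ?_) (fun u => ?_) hx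
          · have h3 : u ≠ v := fun h4 => hu (h4 ▸ hv')
            simp only [up, Finset.mem_insert, h3, false_or]
          · simp only [up, Finset.mem_insert]
            by_cases h3 : u ∈ I
            · simp [h3]
            · by_cases h4 : u = v
              · simp [h4]
              · simp [h3, h4]
        · rw [cnt_off x hz]
          exact hw
      · simp only [if_neg hv, if_neg hv', hz]
        exact Bool.false_ne_true
  · replace hf : C.val x out = false := hf (Nat.succ_pos r)
    have h3 := (h2 x x).2 (fun v => ⟨fun hp => ?_, fun hq => ?_⟩) hP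
    · rw [hf] at h3
      exact Bool.false_ne_true h3
    · by_cases hv : v ∈ I
      · exact hx v hv
      · simpa only [if_neg hv] using hp
    · by_cases hv : v ∈ I
      · simp only [if_pos hv] at hq
      · by_cases hv' : v ∈ U
        · simp only [if_neg hv, if_pos hv'] at hq
          by_contra hcon
          have hxv : x v = true := by simpa using hcon
          refine (hG' v hv' hv).zero x (fun a ha => ?_) (fun _ => hf) ?_ hq
          · rcases Finset.mem_insert.1 ha with rfl | ha
            · exact hxv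
            · exact hx a ha
          · rw [Finset.card_insert_of_notMem hv]
            omega
        · simpa only [if_neg hv, if_neg hv', Bool.not_eq_true] using hq

/-- The levels. -/
theorem levels {Pr : Circuit V → Prop} (hPr : Stb Pr) {w : ℕ} (hw : w ≤ U.card) (C : Circuit V)
    (out : Wire V)
    (hmono : 1 < d → ∀ x y : V → Bool, (∀ v, v ∉ U → x v = y v) → x ≤ y → C.val x out = true →
      C.val y out = true)
    (hA : Avail U d Φ) (h : Has Pr n Φ) : ∀ m, m ≤ d →
    ∃ Φ' : Set ((V → Bool) → Prop), Φ ⊆ Φ' ∧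
      Has Pr (n + 2 * C.length * ∑ i ∈ Finset.range m, U.card ^ (d - (i + 1))) Φ' ∧
      ∀ I ⊆ U, I.card + m = d → ∃ P ∈ Φ', Good U (fun x => C.val x out) w m I P := by
  intro m
  induction m with
  | zero =>
    intro _
    refine ⟨Φ, subset_rfl, h.mono (by simp) subset_rfl, fun I hI hc => ?_⟩
    exact ⟨thr (U \ I) w, hA.thr1 I hI (by omega) w hw, good_zero _ w hI⟩
  | succ m ih =>
    intro hm
    obtain ⟨Φ', h1, h2, h3⟩ := ih (by omega)
    obtain ⟨Φ'', h4, h5, h6⟩ := h2.iterE (c := 2 * C.length) (U.powersetCard (d - (m + 1)))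
      (fun I P => Good U (fun x => C.val x out) w (m + 1) I P) (by
        intro I hI m' Ψ hΨ hm'
        rw [Finset.mem_powersetCard] at hI
        refine step_one hPr C out (fun hr => hmono (by omega)) (hA.mono (h1.trans hΨ)) hI.1
          (fun a ha haI => ?_) hm'
        obtain ⟨P, h7, h8⟩ := h3 (insert a I) (Finset.insert_subset ha hI.1) (by
          rw [Finset.card_insert_of_notMem haI, hI.2]
          omega)
        exact ⟨P, hΨ h7, h8⟩)
    refine ⟨Φ'', h1.trans h4, h5.mono ?_ subset_rfl, fun I hI hc => ?_⟩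
    · rw [Finset.sum_range_succ, mul_add, ← add_assoc, Finset.card_powersetCard]
      exact Nat.add_le_add_left (Nat.mul_le_mul_left _ (Nat.choose_le_pow _ _)) _
    · exact h6 I (Finset.mem_powersetCard.2 ⟨hI, by omega⟩)

/-- `a` NOT gates do not see `U`, `t` NOT gates see only the number of the slice of width `d`. -/
def Pw (U : Finset V) (d a t : ℕ) (C : Circuit V) : Prop :=
  (∀ x y, Wide U d x y → C.notVals x = C.notVals y) ∧ C.negs ≤ a + t ∧
  ∃ J : Finset ℕ, J.card ≤ t ∧ ∀ i, i ∉ J → ∀ x y : V → Bool, (∀ v, v ∉ U → x v = y v) →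
    (C.notVals x)[i]? = (C.notVals y)[i]?

theorem negs_snoc (C : Circuit V) (g : Gate V) :
    (C ++ [g]).negs = C.negs + if g.isNot = true then 1 else 0 := by
  unfold Circuit.negs
  rw [List.countP_append, List.countP_singleton]

theorem notVals_length (C : Circuit V) (x : V → Bool) : (C.notVals x).length = C.negs := by
  induction C using List.reverseRecOn with
  | nil => simp [Circuit.notVals, Circuit.negs]
  | append_singleton C g ih =>
    rw [notVals_snoc, negs_snoc, List.length_append, ih]
    split_ifs <;> rfl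

theorem stb_Pw (U : Finset V) (d a t : ℕ) : Stb (Pw U d a t) := by
  rintro C g ⟨h1, h2, J, h3, h4⟩ hg
  have h5 : ∀ x, (C ++ [g]).notVals x = C.notVals x := by
    intro x
    rw [notVals_snoc, hg]
    simp
  refine ⟨fun x y hxy => by rw [h5, h5, h1 x y hxy], ?_, J, h3, fun i hi x y hxy => ?_⟩
  · rw [negs_snoc, hg]
    simpa using h2
  · rw [h5, h5]
    exact h4 i hi x y hxy

theorem Pw.nil (U : Finset V) (d : ℕ) : Pw U d 0 0 [] :=
  ⟨fun _ _ _ => by simp [Circuit.notVals], by simp [Circuit.negs], ∅, by simp,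
    fun _ _ _ _ _ => by simp [Circuit.notVals]⟩

/-- One more NOT gate which does not see `U`. -/
theorem Pw.blind {U : Finset V} {d a t : ℕ} {C : Circuit V} (h : Pw U d a t C) {g : Gate V}
    (hg : g.isNot = true)
    (hb : ∀ x y : V → Bool, (∀ v, v ∉ U → x v = y v) →
      g.val x (gateVals x C []) = g.val y (gateVals y C [])) : Pw U d (a + 1) t (C ++ [g]) := by
  obtain ⟨h1, h2, J, h3, h4⟩ := h
  have h5 : ∀ x, (C ++ [g]).notVals x = C.notVals x ++ [g.val x (gateVals x C [])] := by
    intro x
    rw [notVals_snoc, if_pos hg]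
  refine ⟨fun x y hxy => ?_, ?_, J, h3, fun i hi x y hxy => ?_⟩
  · rw [h5, h5, h1 x y hxy, hb x y hxy.1]
  · rw [negs_snoc, if_pos hg]
    omega
  · rw [h5, h5, hb x y hxy]
    rcases Nat.lt_or_ge i C.negs with h6 | h6
    · rw [List.getElem?_append_left (by rw [notVals_length]; exact h6),
        List.getElem?_append_left (by rw [notVals_length]; exact h6)]
      exact h4 i hi x y hxy
    · rw [List.getElem?_append_right (by rw [notVals_length]; exact h6),
        List.getElem?_append_right (by rw [notVals_length]; exact h6), notVals_length,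
        notVals_length]

/-- One more NOT gate which sees only the number of the slice. -/
theorem Pw.wide {U : Finset V} {d a t : ℕ} {C : Circuit V} (h : Pw U d a t C) {g : Gate V}
    (hg : g.isNot = true)
    (hb : ∀ x y : V → Bool, Wide U d x y →
      g.val x (gateVals x C []) = g.val y (gateVals y C [])) : Pw U d a (t + 1) (C ++ [g]) := by
  obtain ⟨h1, h2, J, h3, h4⟩ := h
  have h5 : ∀ x, (C ++ [g]).notVals x = C.notVals x ++ [g.val x (gateVals x C [])] := by
    intro x
    rw [notVals_snoc, if_pos hg]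
  refine ⟨fun x y hxy => ?_, ?_, insert C.negs J, (Finset.card_insert_le _ _).trans (by omega),
    fun i hi x y hxy => ?_⟩
  · rw [h5, h5, h1 x y hxy, hb x y hxy]
  · rw [negs_snoc, if_pos hg]
    omega
  · rw [Finset.mem_insert, not_or] at hi
    rw [h5, h5]
    rcases Nat.lt_trichotomy i C.negs with h6 | h6 | h6
    · rw [List.getElem?_append_left (by rw [notVals_length]; exact h6),
        List.getElem?_append_left (by rw [notVals_length]; exact h6)]
      exact h4 i hi.2 x y hxy
    · exact absurd h6 hi.1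
    · rw [List.getElem?_eq_none (by rw [List.length_append, notVals_length]; simp; omega),
        List.getElem?_eq_none (by rw [List.length_append, notVals_length]; simp; omega)]

/-- The weighted number of the NOT gates `s, ..., t - 1` which are true. -/
def nw (U : Finset V) (d t s : ℕ) (x : V → Bool) : ℕ :=
  2 ^ s * (2 ^ (t - s) - 1 - cnt U x / d / 2 ^ s)

theorem nw_step {U : Finset V} {d t s : ℕ} (hs : s < t) (x : V → Bool)
    (hx : cnt U x / d < 2 ^ t) :
    (2 ^ t - 2 ^ s ≤ cnt U x / d + nw U d t (s + 1) x ∧ nw U d t s x = nw U d t (s + 1) x) ∨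
    (¬ 2 ^ t - 2 ^ s ≤ cnt U x / d + nw U d t (s + 1) x ∧
      nw U d t s x = nw U d t (s + 1) x + 2 ^ s) := by
  unfold nw
  generalize cnt U x / d = a at hx
  obtain ⟨u, rfl⟩ : ∃ u, t = s + 1 + u := ⟨t - (s + 1), by omega⟩
  have e1 : s + 1 + u - s = u + 1 := by omega
  have e2 : s + 1 + u - (s + 1) = u := by omega
  rw [e1, e2]
  have e3 : (2 : ℕ) ^ (s + 1 + u) = 2 ^ s * (2 * 2 ^ u) := by
    rw [pow_add, pow_succ]
    ring
  have e4 : (2 : ℕ) ^ (s + 1) = 2 ^ s * 2 := pow_succ 2 s
  have e5 : (2 : ℕ) ^ (u + 1) = 2 * 2 ^ u := pow_succ' 2 u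
  rw [e3] at hx ⊢
  rw [e4, e5, ← Nat.div_div_eq_div_mul]
  have hp : 0 < (2 : ℕ) ^ s := by positivity
  have hu : 0 < (2 : ℕ) ^ u := by positivity
  generalize hP : (2 : ℕ) ^ s = P at *
  generalize hQ : (2 : ℕ) ^ u = Q at *
  have h1 := Nat.div_add_mod a P
  have h2 := Nat.mod_lt a hp
  have h3 : a / P < 2 * Q := by
    rw [Nat.div_lt_iff_lt_mul hp]
    calc a < P * (2 * Q) := hx
      _ = 2 * Q * P := by ring
  generalize hb : a / P = b at *
  generalize hc : a % P = c at *
  have h4 := Nat.div_add_mod b 2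
  have h5 := Nat.mod_lt b (show 0 < 2 by norm_num)
  have h6 : b / 2 < Q := by omega
  generalize b / 2 = e at *
  obtain ⟨R, hR⟩ : ∃ R, Q = e + 1 + R := ⟨Q - (e + 1), by omega⟩
  have h7 : Q - 1 - e = R := by omega
  rcases (show b % 2 = 0 ∨ b % 2 = 1 by omega) with h8 | h8
  · right
    rw [h8] at h4
    have h9 : 2 * Q - 1 - b = 2 * R + 1 := by omega
    have h10 : P * (2 * Q) = P * (2 * e) + P * (2 * R) + P * 2 := by rw [hR]; ring
    have h11 : P * b = P * (2 * e) := by rw [← h4, add_zero]
    have h12 : P * 2 * R = P * (2 * R) := by ring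
    have h13 : P * (2 * R + 1) = P * (2 * R) + P := by ring
    rw [h7, h9, h12, h13, h10]
    constructor
    · omega
    · rfl
  · left
    rw [h8] at h4
    have h9 : 2 * Q - 1 - b = 2 * R := by omega
    have h10 : P * (2 * Q) = P * (2 * e) + P * (2 * R) + P * 2 := by rw [hR]; ring
    have h11 : P * b = P * (2 * e) + P := by rw [← h4]; ring
    have h12 : P * 2 * R = P * (2 * R) := by ring
    rw [h7, h9, h12, h10]
    constructor
    · omega
    · rfl

theorem nw_top (U : Finset V) (d t : ℕ) (x : V → Bool) : nw U d t t x = 0 := by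
  unfold nw
  rw [Nat.sub_self, pow_zero]
  simp

theorem nw_zero (U : Finset V) (d t : ℕ) (x : V → Bool) :
    nw U d t 0 x = 2 ^ t - 1 - cnt U x / d := by
  unfold nw
  rw [pow_zero, one_mul, Nat.sub_zero, Nat.div_one]

/-- The families of the levels of the inverter. -/
theorem inverter {U : Finset V} {d a t : ℕ} (hb : bas V ⊆ Φ)
    (ht : ∀ x : V → Bool, cnt U x / d < 2 ^ t)
    (hT : ∀ c, c ≤ 2 ^ t → (fun x : V → Bool => c ≤ cnt U x / d) ∈ Φ)
    (h : Has (Pw U d a 0) n Φ) : ∀ u, u ≤ t →
    ∃ Φ' : Set ((V → Bool) → Prop), Φ ⊆ Φ' ∧ Has (Pw U d a u) (n + (5 + 4 * 2 ^ t) * u) Φ' ∧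
      (∀ c, c ≤ 2 ^ t → (fun x : V → Bool => c ≤ cnt U x / d + nw U d t (t - u) x) ∈ Φ') ∧
      ∀ c, c ≤ 2 ^ t → (fun x : V → Bool => c ≤ nw U d t (t - u) x) ∈ Φ' := by
  intro u
  induction u with
  | zero =>
    intro _
    refine ⟨Φ, subset_rfl, h.mono (by simp) subset_rfl, fun c hc => ?_, fun c hc => ?_⟩
    · have h1 : (fun x : V → Bool => c ≤ cnt U x / d + nw U d t (t - 0) x) =
          fun x => c ≤ cnt U x / d := by
        funext x
        rw [Nat.sub_zero, nw_top, add_zero]
      rw [h1]
      exact hT c hc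
    · have h1 : (fun x : V → Bool => c ≤ nw U d t (t - 0) x) = fun _ => c ≤ 0 := by
        funext x
        rw [Nat.sub_zero, nw_top]
      rw [h1]
      exact hb (const_mem_bas' _)
  | succ u ih =>
    intro hu
    obtain ⟨Φ', h1, h2, h3, h4⟩ := ih (by omega)
    obtain ⟨s, hs⟩ : ∃ s, t - (u + 1) = s := ⟨_, rfl⟩
    have hs1 : t - u = s + 1 := by omega
    have hst : s < t := by omega
    have hp2 : 0 < 2 ^ s := by positivity
    rw [hs]
    rw [hs1] at h3 h4
    set Z : (V → Bool) → Prop := fun x => 2 ^ t - 2 ^ s ≤ cnt U x / d + nw U d t (s + 1) x with hZ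
    have h5 : Has (Pw U d a (u + 1)) (n + (5 + 4 * 2 ^ t) * u + 1)
        (insert (fun x => ¬ Z x) Φ') := by
      refine h2.not (h3 _ (Nat.sub_le _ _)) fun C b hC hb' => hC.wide rfl fun x y hxy => ?_
      show (!b.val x (gateVals x C [])) = !b.val y (gateVals y C [])
      have e1 : C.val x b = C.val y b := by
        rw [Bool.eq_iff_iff, hb' x, hb' y]
        show (2 ^ t - 2 ^ s ≤ cnt U x / d + nw U d t (s + 1) x) ↔
          (2 ^ t - 2 ^ s ≤ cnt U y / d + nw U d t (s + 1) y)
        unfold nw
        rw [hxy.2]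
      unfold Circuit.val at e1
      rw [e1]
    have hPr := stb_Pw U d a (u + 1)
    have key : ∀ (B : ℕ → (V → Bool) → Prop) (m : ℕ) (Ψ : Set ((V → Bool) → Prop)),
        (fun x => ¬ Z x) ∈ Ψ → (∀ c, c ≤ 2 ^ t → B c ∈ Ψ) → Has (Pw U d a (u + 1)) m Ψ →
        Has (Pw U d a (u + 1)) (m + 2 * (2 ^ t + 1)) (Ψ ∪ {F | ∃ c ∈ Finset.range (2 ^ t + 1),
          F ∈ ({fun x => (¬ Z x ∧ B (c - 2 ^ s) x) ∨ B c x} : Set ((V → Bool) → Prop))}) := by
      intro B m Ψ h6 h7 h8
      have h9 := h8.iter (c := 2) (Finset.range (2 ^ t + 1))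
        (fun c => {fun x => (¬ Z x ∧ B (c - 2 ^ s) x) ∨ B c x}) (by
        intro c hc m' Ψ' hΨ' hm'
        rw [Finset.mem_range] at hc
        have e1 := hm'.and hPr (hΨ' h6) (hΨ' (h7 (c - 2 ^ s) ((Nat.sub_le _ _).trans (by omega))))
        have e2 := e1.or hPr (Or.inl rfl) (Or.inr (hΨ' (h7 c (by omega))))
        refine e2.mono le_rfl ?_
        rintro E (hE | hE)
        · exact Or.inr (Or.inr hE)
        · exact Or.inl (Set.mem_singleton_iff.1 hE))
      rw [Finset.card_range] at h9
      exact h9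
    have h6 := key (fun c x => c ≤ cnt U x / d + nw U d t (s + 1) x) _ _ (Or.inl rfl)
      (fun c hc => Or.inr (h3 c hc)) h5
    have h7 := key (fun c x => c ≤ nw U d t (s + 1) x) _ _ (Or.inl (Or.inl rfl))
      (fun c hc => Or.inl (Or.inr (h4 c hc))) h6
    refine ⟨_, ?_, h7.mono ?_ subset_rfl, fun c hc => ?_, fun c hc => ?_⟩
    · exact fun F hF => Or.inl (Or.inl (Or.inr (h1 hF)))
    · have e1 : (5 + 4 * 2 ^ t) * (u + 1) = (5 + 4 * 2 ^ t) * u + (5 + 4 * 2 ^ t) := by ring
      omega
    · refine Or.inl (Or.inr ⟨c, Finset.mem_range.2 (by omega), ?_⟩)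
      rw [Set.mem_singleton_iff]
      funext x
      refine propext ?_
      rw [hZ]
      dsimp only
      rcases nw_step hst x (ht x) with ⟨e1, e2⟩ | ⟨e1, e2⟩
      · rw [e2]
        constructor
        · exact fun e3 => Or.inr e3
        · rintro (⟨e3, -⟩ | e3)
          · exact absurd e1 e3
          · exact e3
      · rw [e2]
        constructor
        · exact fun e3 => Or.inl ⟨e1, Nat.sub_le_iff_le_add.2 (by rw [add_assoc]; exact e3)⟩
        · rintro (⟨-, e3⟩ | e3) <;> omega
    · refine Or.inr ⟨c, Finset.mem_range.2 (by omega), ?_⟩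
      rw [Set.mem_singleton_iff]
      funext x
      refine propext ?_
      rw [hZ]
      dsimp only
      rcases nw_step hst x (ht x) with ⟨e1, e2⟩ | ⟨e1, e2⟩
      · rw [e2]
        constructor
        · exact fun e3 => Or.inr e3
        · rintro (⟨e3, -⟩ | e3)
          · exact absurd e1 e3
          · exact e3
      · rw [e2]
        constructor
        · exact fun e3 => Or.inl ⟨e1, by omega⟩
        · rintro (⟨-, e3⟩ | e3) <;> omega

/-- The NOT gates which do not see `U`. -/
theorem has_blind (U : Finset V) (d : ℕ) (s : Finset V) (hs : ∀ v ∈ s, v ∉ U) (hb : bas V ⊆ Φ)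
    (h : Has (Pw U d 0 0) n Φ) :
    Has (Pw U d s.card 0) (n + s.card) (Φ ∪ {F | ∃ v ∈ s, F = fun x : V → Bool => ¬ x v = true}) := by
  induction s using Finset.induction_on with
  | empty =>
    refine h.mono (by simp) ?_
    rintro E (hE | ⟨v, hv, -⟩)
    · exact hE
    · exact absurd hv (Finset.notMem_empty v)
  | insert v s hv ih =>
    have h1 := ih fun w hw => hs w (Finset.mem_insert_of_mem hw)
    have h2 : Has (Pw U d (s.card + 1) 0) (n + s.card + 1)
        (insert (fun x : V → Bool => ¬ x v = true)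
          (Φ ∪ {F | ∃ v ∈ s, F = fun x : V → Bool => ¬ x v = true})) := by
      refine h1.not (F := fun x => x v = true) (Or.inl (hb (Or.inl ⟨v, rfl⟩)))
        fun C b hC hb' => hC.blind rfl fun x y hxy => ?_
      show (!b.val x (gateVals x C [])) = !b.val y (gateVals y C [])
      have e1 : C.val x b = C.val y b := by
        rw [Bool.eq_iff_iff, hb' x, hb' y, hxy v (hs v (Finset.mem_insert_self v s))]
      unfold Circuit.val at e1
      rw [e1]
    rw [Finset.card_insert_of_notMem hv]
    refine h2.mono (by omega) ?_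
    rintro E (hE | ⟨w, hw, hE⟩)
    · exact Or.inr (Or.inl hE)
    · rcases Finset.mem_insert.1 hw with rfl | hw
      · exact Or.inl hE
      · exact Or.inr (Or.inr ⟨w, hw, hE⟩)

theorem exists_avail [Fintype V] (U : Finset V) (hd : 1 ≤ d) :
    ∃ Φ : Set ((V → Bool) → Prop), Avail U d Φ ∧
      Has (Pw U d (Fintype.card V - U.card) (Nat.log 2 (U.card / d) + 1))
        (2 * U.card * U.card + 2 * U.card * U.card * U.card ^ d +
        Fintype.card V + (5 + 4 * (2 * (U.card + 1))) * (U.card + 1)) Φ := by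
  set k := U.card with hk
  have hst0 := stb_Pw U d 0 0
  have h1 := has_thr hst0 (has_bas (Pw.nil U d)) subset_rfl U k
  rw [← hk] at h1
  have h2 := h1.iter (c := 2 * k * k) (U.powersetCard d)
    (fun I => {F | ∃ j, j ≤ k ∧ F = thr (U \ I) j}) (by
    intro I hI m Ψ hΨ hm
    refine (has_thr hst0 hm (Set.subset_union_left.trans hΨ) (U \ I) k).mono ?_ subset_rfl
    refine Nat.add_le_add_left (Nat.mul_le_mul_left _ ?_) _
    exact Finset.card_le_card Finset.sdiff_subset)
  have hb2 : bas V ⊆ (bas V ∪ {F | ∃ j, j ≤ k ∧ F = thr U j}) ∪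
      {F | ∃ I ∈ U.powersetCard d, F ∈ {F : (V → Bool) → Prop | ∃ j, j ≤ k ∧ F = thr (U \ I) j}} :=
    fun F hF => Or.inl (Or.inl hF)
  have h3 := has_blind U d (univ \ U) (fun v hv => (Finset.mem_sdiff.1 hv).2) hb2 h2
  have hcU : (univ \ U).card = Fintype.card V - k := by
    rw [Finset.card_sdiff_of_subset (Finset.subset_univ U), Finset.card_univ]
  rw [hcU] at h3
  set t := Nat.log 2 (k / d) + 1 with ht
  have ht2 : k / d < 2 ^ t := Nat.lt_pow_succ_log_self (by norm_num) _
  have hlt : ∀ x : V → Bool, cnt U x / d < 2 ^ t := fun x =>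
    lt_of_le_of_lt (Nat.div_le_div_right (cnt_le U x)) ht2
  obtain ⟨Φ', g1, g2, -, g4⟩ := inverter (t := t) (fun F hF => Or.inl (hb2 hF)) hlt (fun c _ => by
    rcases Nat.lt_or_ge k (d * c) with h5 | h5
    · have h6 : (fun x : V → Bool => c ≤ cnt U x / d) = fun _ => False := by
        funext x
        refine propext ⟨fun h7 => ?_, fun h7 => h7.elim⟩
        have h8 := cnt_le U x
        have h9 := (Nat.mul_le_mul_left d h7).trans (Nat.mul_div_le (cnt U x) d)
        omega
      rw [h6]
      exact Or.inl (hb2 (const_mem_bas' _))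
    · have h6 : (fun x : V → Bool => c ≤ cnt U x / d) = thr U (d * c) := by
        funext x
        unfold thr
        rw [Nat.le_div_iff_mul_le (by omega), mul_comm]
      rw [h6]
      exact Or.inl (Or.inl (Or.inr ⟨_, h5, rfl⟩))) h3 t le_rfl
  rw [Nat.sub_self] at g4
  refine ⟨Φ', ⟨?_, ?_, ?_, ?_, ?_⟩, g2.mono ?_ subset_rfl⟩
  · exact fun F hF => g1 (Or.inl (hb2 hF))
  · exact fun j hj => g1 (Or.inl (Or.inl (Or.inr ⟨j, hj, rfl⟩)))
  · exact fun I hI hc j hj => g1 (Or.inl (Or.inr ⟨I, Finset.mem_powersetCard.2 ⟨hI, hc⟩,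
      ⟨j, hj, rfl⟩⟩))
  · exact fun v hv => g1 (Or.inr ⟨v, Finset.mem_sdiff.2 ⟨Finset.mem_univ _, hv⟩, rfl⟩)
  · intro j hj
    have h5 := g4 (2 ^ t - 1 - j) ((Nat.sub_le _ _).trans (Nat.sub_le _ _))
    have h6 : (fun x : V → Bool => ¬ thr U (d * (j + 1)) x) =
        fun x => 2 ^ t - 1 - j ≤ nw U d t 0 x := by
      funext x
      refine propext ?_
      rw [nw_zero]
      have h7 := hlt x
      have h8 : thr U (d * (j + 1)) x ↔ j + 1 ≤ cnt U x / d := by
        unfold thr
        rw [Nat.le_div_iff_mul_le (by omega), mul_comm]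
      rw [h8]
      generalize cnt U x / d = a at *
      omega
    rw [h6]
    exact h5
  · have h6 : (U.powersetCard d).card ≤ k ^ d := by
      rw [Finset.card_powersetCard]
      exact Nat.choose_le_pow _ _
    have h7 : 2 * k * k * (U.powersetCard d).card ≤ 2 * k * k * k ^ d := Nat.mul_le_mul_left _ h6
    have h8 : k / d ≤ k := Nat.div_le_self _ _
    have h9 : 2 ^ t ≤ 2 * (k + 1) := by
      rw [ht, pow_succ']
      refine Nat.mul_le_mul_left _ ?_
      rcases Nat.eq_zero_or_pos (k / d) with h10 | h10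
      · rw [h10]
        simp
      · exact (Nat.pow_log_le_self 2 h10.ne').trans (by omega)
    have h10 : t ≤ k + 1 := by
      rw [ht]
      exact Nat.succ_le_succ ((Nat.log_le_self 2 _).trans h8)
    have h11 : (5 + 4 * 2 ^ t) * t ≤ (5 + 4 * (2 * (k + 1))) * (k + 1) :=
      Nat.mul_le_mul (by omega) h10
    have h12 : k ≤ Fintype.card V := Finset.card_le_univ _
    omega

/-- The choice of the slice. -/
theorem choice {Pr : Circuit V → Prop} (hPr : Stb Pr) (F : ℕ → (V → Bool) → Prop)
    (hA : Avail U d Φ) (h : Has Pr n Φ) :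
    ∀ m, m ≤ U.card / d + 1 → (∀ j < m, F j ∈ Φ) →
    Has Pr (n + 3 * m) (insert (fun x => ∃ j, j < m ∧ thr U (d * j) x ∧
      ¬ thr U (d * (j + 1)) x ∧ F j x) Φ) := by
  intro m
  induction m with
  | zero =>
    intro _ _
    refine h.mono (by simp) ?_
    rintro E (rfl | hE)
    · have h1 : (fun x : V → Bool => ∃ j, j < 0 ∧ thr U (d * j) x ∧ ¬ thr U (d * (j + 1)) x ∧
          F j x) = fun _ => False := by
        funext x
        simp
      rw [h1]
      exact hA.bas (const_mem_bas' _)
    · exact hE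
  | succ m ih =>
    intro hm hF
    have h1 := ih (by omega) fun j hj => hF j (by omega)
    have h2 := h1.and hPr (Or.inr (hA.nthr m (by omega))) (Or.inr (hF m (by omega)))
    have hdm : d * m ≤ U.card := by
      have e1 : d * m ≤ d * (U.card / d) := Nat.mul_le_mul_left _ (by omega)
      exact e1.trans (Nat.mul_div_le _ _)
    have h3 := h2.and hPr (Or.inr (Or.inr (hA.thr (d * m) hdm))) (Or.inl rfl)
    have h4 := h3.or hPr (Or.inl rfl) (Or.inr (Or.inr (Or.inl rfl)))
    refine h4.mono (by omega) ?_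
    rintro E (rfl | hE)
    · refine Or.inl ?_
      funext x
      refine propext ⟨?_, ?_⟩
      · rintro ⟨j, hj, h5⟩
        rcases Nat.lt_succ_iff_lt_or_eq.1 hj with h6 | rfl
        · exact Or.inr ⟨j, h6, h5⟩
        · exact Or.inl h5
      · rintro (h5 | ⟨j, hj, h5⟩)
        · exact ⟨m, Nat.lt_succ_self m, h5⟩
        · exact ⟨j, by omega, h5⟩
    · exact Or.inr (Or.inr (Or.inr (Or.inr hE)))

/-- **Wide slices with few NOT gates.** Let `1 ≤ d` and let `C` compute a function which is
monotone in the variables of `U` if `1 < d`. There is a circuit for the same function, `(|U| + 1) ^ d`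
times as large, whose NOT gates change their values at most `|U| / d` times on `U`, and only
`log₂ (|U| / d) + 1` of whose NOT gates see `U`; it has at most `log₂ (|U| / d) + 1` NOT gates more
than there are variables outside `U`. -/
theorem exists_wide_nots [Fintype V] (C : Circuit V) (out : Wire V) (U : Finset V)
    (hd : 1 ≤ d) (hmono : 1 < d → ∀ x y : V → Bool, (∀ v, v ∉ U → x v = y v) → x ≤ y →
      C.val x out = true → C.val y out = true) :
    ∃ (D : Circuit V) (o : Wire V),
      D.size ≤ 2 * (U.card + 1) ^ d * C.size + 20 * (U.card + 1) ^ (d + 2) + Fintype.card V ∧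
      (∀ x, D.val x o = C.val x out) ∧ ChangesOn U (fun x => D.notVals x) (U.card / d + 1) ∧
      D.negs ≤ (Fintype.card V - U.card) + (Nat.log 2 (U.card / d) + 1) ∧
      ∃ J : Finset ℕ, J.card ≤ Nat.log 2 (U.card / d) + 1 ∧ ∀ i, i ∉ J → ∀ x y : V → Bool,
        (∀ v, v ∉ U → x v = y v) → (D.notVals x)[i]? = (D.notVals y)[i]? := by
  obtain ⟨Φ, hA, h1⟩ := exists_avail U hd
  set k := U.card with hk
  have hPr := stb_Pw U d (Fintype.card V - k) (Nat.log 2 (k / d) + 1)
  have hwj : ∀ j, j ≤ k / d → d * j ≤ k := by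
    intro j hj
    exact (Nat.mul_le_mul_left _ hj).trans (Nat.mul_div_le _ _)
  obtain ⟨Φ', h2, h3, h4⟩ := h1.iterE
    (c := 2 * C.length * ∑ i ∈ Finset.range d, k ^ (d - (i + 1)))
    (Finset.range (k / d + 1)) (fun j P => Good U (fun x => C.val x out) (d * j) d ∅ P) (by
      intro j hj m Ψ hΨ hm
      rw [Finset.mem_range] at hj
      obtain ⟨Φ'', h5, h6, h7⟩ := levels hPr (hwj j (by omega)) C out hmono (hA.mono hΨ) hm d le_rfl
      obtain ⟨P, h8, h9⟩ := h7 ∅ (Finset.empty_subset _) (by simp)
      exact ⟨P, h9, h6.mono le_rfl (Set.insert_subset h8 h5)⟩)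
  have hex : ∀ j, ∃ P ∈ Φ', (j < k / d + 1 → Good U (fun x => C.val x out) (d * j) d ∅ P) := by
    intro j
    by_cases hj : j < k / d + 1
    · obtain ⟨P, h5, h6⟩ := h4 j (Finset.mem_range.2 hj)
      exact ⟨P, h5, fun _ => h6⟩
    · exact ⟨fun _ => True, h2 (hA.bas (const_mem_bas' _)), fun h5 => absurd h5 hj⟩
  choose F hF hF' using hex
  obtain ⟨D, ⟨hD1, hD4, hD5⟩, hD2, hD3⟩ := choice hPr F (hA.mono h2) h3 (k / d + 1) le_rfl
    fun j _ => hF j
  obtain ⟨o, -, ho⟩ := hD3 _ (Or.inl rfl)
  refine ⟨D, o, hD2.trans ?_, fun x => ?_, changesOn_wide _ hD1, hD4, hD5⟩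
  · rw [Finset.card_range]
    unfold Circuit.size
    obtain ⟨e, rfl⟩ : ∃ e, d = e + 1 := ⟨d - 1, by omega⟩
    have h5 : ∑ i ∈ Finset.range (e + 1), k ^ (e + 1 - (i + 1)) ≤ (k + 1) ^ e := by
      refine le_trans (le_of_eq ?_) (sum_pow_le k e)
      refine Finset.sum_congr rfl fun i _ => ?_
      congr 1
      omega
    have h6 : k / (e + 1) + 1 ≤ k + 1 := Nat.succ_le_succ (Nat.div_le_self _ _)
    have h7 : 2 * C.length * (∑ i ∈ Finset.range (e + 1), k ^ (e + 1 - (i + 1))) *
        (k / (e + 1) + 1) ≤ 2 * (k + 1) ^ (e + 1) * C.length := by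
      calc 2 * C.length * (∑ i ∈ Finset.range (e + 1), k ^ (e + 1 - (i + 1))) *
            (k / (e + 1) + 1) ≤ 2 * C.length * (k + 1) ^ e * (k + 1) :=
            Nat.mul_le_mul (Nat.mul_le_mul_left _ h5) h6
        _ = 2 * (k + 1) ^ (e + 1) * C.length := by ring
    have h8 : 2 * k * k + 2 * k * k * k ^ (e + 1) + (5 + 4 * (2 * (k + 1))) * (k + 1) +
        3 * (k + 1) ≤ 20 * (k + 1) ^ (e + 1 + 2) := by
      have h9 : k ^ (e + 1) ≤ (k + 1) ^ (e + 1) := Nat.pow_le_pow_left (Nat.le_succ k) _
      have h10 : 1 ≤ (k + 1) ^ (e + 1) := Nat.one_le_pow _ _ (Nat.succ_pos k)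
      have h11 : (k + 1) ^ (e + 1 + 2) = (k + 1) ^ (e + 1) * ((k + 1) * (k + 1)) := by ring
      rw [h11]
      nlinarith [Nat.mul_le_mul_left (2 * k * k) h9,
        Nat.mul_le_mul_left (18 * k * k + 40 * k + 20) h10]
    omega
  · rw [Bool.eq_iff_iff, ho x]
    constructor
    · rintro ⟨j, hj, h5, h6, h7⟩
      unfold thr at h5 h6
      by_contra hcon
      have hf : C.val x out = false := by simpa using hcon
      refine (hF' j hj).zero x (fun a ha => absurd ha (Finset.notMem_empty a)) (fun _ => hf) ?_ h7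
      rw [Finset.card_empty]
      have h8 : d * (j + 1) = d * j + d := by ring
      omega
    · intro h5
      have h6 : cnt U x / d < k / d + 1 := Nat.lt_succ_of_le (Nat.div_le_div_right (cnt_le U x))
      refine ⟨cnt U x / d, h6, Nat.mul_div_le _ _, ?_, ?_⟩
      · unfold thr
        rw [not_le]
        exact Nat.lt_mul_div_succ _ (by omega)
      · refine (hF' _ h6).one x ?_ ?_
        · have h7 : up ∅ x = x := by
            funext v
            simp [up]
          rw [h7]
          exact fun _ => h5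
        · rw [Finset.sdiff_empty]
          exact Nat.mul_div_le _ _

end

end Wn

end Pool.Agent.NTN
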