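import Pool.Agent.NTN.Slices

/-!
# Wide slices: `|U| / d` changes of the NOT gates on `U` suffice for monotone functions
-/

set_option autoImplicit false
set_option linter.unusedSectionVars false

namespace Pool.Agent.NTN

namespace Wsl

open Pool.Agent.NegLim Pool.Agent.NTR Finset

section

variable {V : Type}

/-- Some circuit with at most `n` gates, whose NOT gates have equal values at inputs related by
`R`, computes all functions of the family. -/
def HasR (R : (V → Bool) → (V → Bool) → Prop) (n : ℕ) (Φ : Set ((V → Bool) → Prop)) : Prop :=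
  ∃ C : Circuit V, (∀ x y, R x y → C.notVals x = C.notVals y) ∧ C.size ≤ n ∧
    ∀ F ∈ Φ, ∃ w : Wire V, Bel C.length w ∧ ∀ x, C.val x w = true ↔ F x

variable {R : (V → Bool) → (V → Bool) → Prop} {n m : ℕ} {Φ Ψ : Set ((V → Bool) → Prop)}

theorem HasR.mono (h : HasR R n Φ) (hnm : n ≤ m) (hs : Ψ ⊆ Φ) : HasR R m Ψ := by
  obtain ⟨C, h1, h2, h3⟩ := h
  exact ⟨C, h1, h2.trans hnm, fun F hF => h3 F (hs hF)⟩

theorem hasR_bas (R : (V → Bool) → (V → Bool) → Prop) : HasR R 0 (bas V) := by
  refine ⟨[], fun x y _ => by simp [Circuit.notVals], by simp [Circuit.size], ?_⟩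
  rintro F (⟨v, rfl⟩ | rfl | rfl)
  · exact ⟨.var v, trivial, fun x => by simp [Circuit.val, Wire.val]⟩
  · exact ⟨.const true, trivial, fun x => by simp [Circuit.val, Wire.val]⟩
  · exact ⟨.const false, trivial, fun x => by simp [Circuit.val, Wire.val]⟩

/-- One more gate. -/
theorem HasR.gate (h : HasR R n Φ) {G : (V → Bool) → Prop}
    (hG : ∀ C : Circuit V, (∀ F ∈ Φ, ∃ w : Wire V, Bel C.length w ∧ ∀ x, C.val x w = true ↔ F x) →
      ∃ g : Gate V, (∀ x, g.val x (gateVals x C []) = true ↔ G x) ∧
        (g.isNot = true → ∀ x y, R x y → (G x ↔ G y))) :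
    HasR R (n + 1) (insert G Φ) := by
  obtain ⟨C, h1, h2, h3⟩ := h
  obtain ⟨g, hg, hn⟩ := hG C h3
  refine ⟨C ++ [g], fun x y hxy => ?_, ?_, ?_⟩
  · rw [notVals_snoc, notVals_snoc, h1 x y hxy]
    congr 1
    split_ifs with h4
    · have h5 := hn h4 x y hxy
      rw [← hg x, ← hg y] at h5
      rw [Bool.eq_iff_iff.2 h5]
    · rfl
  · unfold Circuit.size at h2 ⊢
    simp only [List.length_append, List.length_cons, List.length_nil]
    omega
  · rintro E (rfl | hE)
    · refine ⟨.gate C.length, by simp [Bel], fun x => ?_⟩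
      have hl : (gateVals x C []).length = C.length := by rw [gv_length]; simp
      have e1 := hg x
      unfold Circuit.val
      rw [gv_snoc]
      simp only [Wire.val]
      rw [List.getD_eq_getElem _ _ (by rw [List.length_append, hl]; simp),
        List.getElem_append_right (by rw [hl])]
      simp only [hl, Nat.sub_self, List.getElem_cons_zero]
      exact e1
    · obtain ⟨c, hc, hcv⟩ := h3 E hE
      refine ⟨c, hc.mono (by simp), fun x => ?_⟩
      rw [← hcv x]
      unfold Circuit.val
      rw [gv_snoc, wv_append]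
      rw [gv_length]
      simpa using hc

theorem HasR.and (h : HasR R n Φ) {F G : (V → Bool) → Prop} (hF : F ∈ Φ) (hG : G ∈ Φ) :
    HasR R (n + 1) (insert (fun x => F x ∧ G x) Φ) := by
  refine h.gate fun C hC => ?_
  obtain ⟨a, -, ha⟩ := hC F hF
  obtain ⟨b, -, hb⟩ := hC G hG
  refine ⟨.and a b, fun x => ?_, fun h1 => absurd h1 (by simp [Gate.isNot])⟩
  rw [← ha x, ← hb x]
  simp [Gate.val, Circuit.val]

theorem HasR.or (h : HasR R n Φ) {F G : (V → Bool) → Prop} (hF : F ∈ Φ) (hG : G ∈ Φ) :
    HasR R (n + 1) (insert (fun x => F x ∨ G x) Φ) := by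
  refine h.gate fun C hC => ?_
  obtain ⟨a, -, ha⟩ := hC F hF
  obtain ⟨b, -, hb⟩ := hC G hG
  refine ⟨.or a b, fun x => ?_, fun h1 => absurd h1 (by simp [Gate.isNot])⟩
  rw [← ha x, ← hb x]
  simp [Gate.val, Circuit.val]

theorem HasR.not (h : HasR R n Φ) {F : (V → Bool) → Prop} (hF : F ∈ Φ)
    (hS : ∀ x y, R x y → (F x ↔ F y)) : HasR R (n + 1) (insert (fun x => ¬ F x) Φ) := by
  refine h.gate fun C hC => ?_
  obtain ⟨a, -, ha⟩ := hC F hF
  refine ⟨.not a, fun x => ?_, fun _ x y hxy => not_congr (hS x y hxy)⟩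
  rw [← ha x]
  simp [Gate.val, Circuit.val]

/-- One family after another. -/
theorem HasR.iter {K : Type} {c : ℕ} (h : HasR R n Φ) (s : Finset K)
    (A : K → Set ((V → Bool) → Prop))
    (hA : ∀ k ∈ s, ∀ (m : ℕ) (Ψ : Set ((V → Bool) → Prop)), Φ ⊆ Ψ → HasR R m Ψ →
      HasR R (m + c) (Ψ ∪ A k)) :
    HasR R (n + c * s.card) (Φ ∪ {F | ∃ k ∈ s, F ∈ A k}) := by
  classical
  induction s using Finset.induction_on with
  | empty =>
    refine h.mono (by simp) ?_
    rintro E (hE | ⟨k, hk, _⟩)
    · exact hE
    · exact absurd hk (Finset.notMem_empty k)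
  | insert k s hk ih =>
    have h1 := ih fun i hi => hA i (Finset.mem_insert_of_mem hi)
    have h2 := hA k (Finset.mem_insert_self k s) _ _ Set.subset_union_left h1
    refine h2.mono (by rw [Finset.card_insert_of_notMem hk]; ring_nf; omega) ?_
    rintro E (hE | ⟨i, hi, hE⟩)
    · exact Or.inl (Or.inl hE)
    · rcases Finset.mem_insert.mp hi with rfl | hi
      · exact Or.inr hE
      · exact Or.inl (Or.inr ⟨i, hi, hE⟩)

/-- One function after another. -/
theorem HasR.iterE {K : Type} {c : ℕ} (h : HasR R n Φ) (s : Finset K)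
    (G : K → ((V → Bool) → Prop) → Prop)
    (hA : ∀ k ∈ s, ∀ (m : ℕ) (Ψ : Set ((V → Bool) → Prop)), Φ ⊆ Ψ → HasR R m Ψ →
      ∃ P, G k P ∧ HasR R (m + c) (insert P Ψ)) :
    ∃ Φ' : Set ((V → Bool) → Prop), Φ ⊆ Φ' ∧ HasR R (n + c * s.card) Φ' ∧
      ∀ k ∈ s, ∃ P ∈ Φ', G k P := by
  classical
  induction s using Finset.induction_on with
  | empty =>
    exact ⟨Φ, subset_rfl, h.mono (by simp) subset_rfl,
      fun k hk => absurd hk (Finset.notMem_empty k)⟩
  | insert k s hk ih =>
    obtain ⟨Φ', h1, h2, h3⟩ := ih fun i hi => hA i (Finset.mem_insert_of_mem hi)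
    obtain ⟨P, h4, h5⟩ := hA k (Finset.mem_insert_self k s) _ _ h1 h2
    refine ⟨insert P Φ', h1.trans (Set.subset_insert _ _),
      h5.mono (by rw [Finset.card_insert_of_notMem hk]; ring_nf; omega) subset_rfl,
      fun i hi => ?_⟩
    rcases Finset.mem_insert.mp hi with rfl | hi
    · exact ⟨P, Set.mem_insert _ _, h4⟩
    · obtain ⟨P', h6, h7⟩ := h3 i hi
      exact ⟨P', Set.mem_insert_of_mem _ h6, h7⟩

theorem hasR_thr [DecidableEq V] (h : HasR R n Φ) (hb : bas V ⊆ Φ) (W : Finset V) (k : ℕ) :
    HasR R (n + 2 * k * W.card) (Φ ∪ {F | ∃ j, j ≤ k ∧ F = thr W j}) := by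
  induction W using Finset.induction_on with
  | empty =>
    refine h.mono (by simp) ?_
    rintro E (hE | ⟨j, -, rfl⟩)
    · exact hE
    · refine hb ?_
      have h1 : (thr (∅ : Finset V) j) = fun _ : V → Bool => j ≤ 0 := by
        funext x
        simp [thr, cnt]
      rw [h1]
      exact const_mem_bas' _
  | insert v W hv ih =>
    have h1 := ih.iter (c := 2) (Finset.range k) (fun j => {thr (insert v W) (j + 1)}) (by
      intro j hj m Ψ hΨ hm
      rw [Finset.mem_range] at hj
      have e1 : (fun x : V → Bool => x v = true) ∈ Ψ := hΨ (Or.inl (hb (Or.inl ⟨v, rfl⟩)))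
      have e2 : thr W j ∈ Ψ := hΨ (Or.inr ⟨j, hj.le, rfl⟩)
      have e3 : thr W (j + 1) ∈ Ψ := hΨ (Or.inr ⟨j + 1, hj, rfl⟩)
      have h2 := hm.and e1 e2
      have h3 := h2.or (Or.inl rfl) (Or.inr e3)
      refine h3.mono le_rfl ?_
      rintro E (hE | hE)
      · exact Or.inr (Or.inr hE)
      · refine Or.inl ?_
        rw [Set.mem_singleton_iff.1 hE]
        funext x
        refine propext ?_
        unfold thr
        rw [cnt_insert hv]
        split_ifs with h4
        · constructor
          · intro h5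
            exact Or.inl ⟨h4, by omega⟩
          · rintro (⟨-, h5⟩ | h5) <;> omega
        · constructor
          · intro h5
            exact Or.inr (by omega)
          · rintro (⟨h6, -⟩ | h5)
            · exact absurd h6 h4
            · omega)
    refine h1.mono ?_ ?_
    · rw [Finset.card_range, Finset.card_insert_of_notMem hv]
      ring_nf
      omega
    · rintro E (hE | ⟨j, hj, rfl⟩)
      · exact Or.inl (Or.inl hE)
      · rcases j with _ | j
        · refine Or.inl (Or.inl (hb ?_))
          have h2 : (thr (insert v W) 0) = fun _ : V → Bool => True := by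
            funext x
            simp [thr]
          rw [h2]
          exact const_mem_bas' _
        · exact Or.inr ⟨j, Finset.mem_range.2 hj, rfl⟩

/-- The literals of `z` are below the functions `p v`, `q v` at `x`. -/
def Dom (p q : V → (V → Bool) → Prop) (x z : V → Bool) : Prop :=
  ∀ v, (z v = true → p v x) ∧ (z v = false → q v x)

/-- The functions `p v`, `q v` at `x` are below the literals of `z`. -/
def Sub (p q : V → (V → Bool) → Prop) (x z : V → Bool) : Prop :=
  ∀ v, (p v x → z v = true) ∧ (q v x → z v = false)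

/-- The circuit `C` on two rails: every gate has two monotone descriptions. -/
theorem hasR_rail (p q : V → (V → Bool) → Prop) (C : Circuit V) :
    ∀ (n : ℕ) (Φ : Set ((V → Bool) → Prop)), bas V ⊆ Φ → (∀ v, p v ∈ Φ) → (∀ v, q v ∈ Φ) →
    HasR R n Φ →
    ∃ P Q : ℕ → (V → Bool) → Prop,
      HasR R (n + 2 * C.length) (Φ ∪ {F | ∃ i, F = P i ∨ F = Q i}) ∧
      ∀ x z,
        (Dom p q x z → ∀ i, ((gateVals z C []).getD i false = true → P i x) ∧
          ((gateVals z C []).getD i false = false → Q i x)) ∧
        (Sub p q x z → ∀ i, (P i x → (gateVals z C []).getD i false = true) ∧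
          (Q i x → (gateVals z C []).getD i false = false)) := by
  induction C using List.reverseRecOn with
  | nil =>
    intro n Φ hb hp hq h
    refine ⟨fun _ _ => False, fun _ _ => True, h.mono (by simp) ?_, fun x z => ⟨fun _ i => ?_,
      fun _ i => ?_⟩⟩
    · rintro E (hE | ⟨i, rfl | rfl⟩)
      · exact hE
      · exact hb (const_mem_bas' _)
      · exact hb (const_mem_bas' _)
    · simp [gateVals]
    · simp [gateVals]
  | append_singleton C g ih =>
    intro n Φ hb hp hq h
    obtain ⟨P, Q, h1, h2⟩ := ih n Φ hb hp hq h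
    set Φ' := Φ ∪ {F | ∃ i, F = P i ∨ F = Q i} with hΦ'
    -- wires
    have hw : ∀ a : Wire V, ∃ F ∈ Φ', ∃ G ∈ Φ', ∀ x z,
        (Dom p q x z → (a.val z (gateVals z C []) = true → F x) ∧
          (a.val z (gateVals z C []) = false → G x)) ∧
        (Sub p q x z → (F x → a.val z (gateVals z C []) = true) ∧
          (G x → a.val z (gateVals z C []) = false)) := by
      intro a
      cases a with
      | var v =>
        exact ⟨p v, Or.inl (hp v), q v, Or.inl (hq v), fun x z => ⟨fun h3 => h3 v, fun h3 => h3 v⟩⟩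
      | const b =>
        refine ⟨fun _ => b = true, Or.inl (hb (const_mem_bas' _)), fun _ => b = false,
          Or.inl (hb (const_mem_bas' _)), fun x z => ⟨fun _ => ⟨id, id⟩, fun _ => ⟨id, id⟩⟩⟩
      | gate i =>
        exact ⟨P i, Or.inr ⟨i, Or.inl rfl⟩, Q i, Or.inr ⟨i, Or.inr rfl⟩,
          fun x z => ⟨fun h3 => (h2 x z).1 h3 i, fun h3 => (h2 x z).2 h3 i⟩⟩
    -- the new gate
    obtain ⟨F, G, h3, h4⟩ : ∃ F G : (V → Bool) → Prop,
        HasR R (n + 2 * C.length + 2) (insert F (insert G Φ')) ∧ ∀ x z,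
          (Dom p q x z → (g.val z (gateVals z C []) = true → F x) ∧
            (g.val z (gateVals z C []) = false → G x)) ∧
          (Sub p q x z → (F x → g.val z (gateVals z C []) = true) ∧
            (G x → g.val z (gateVals z C []) = false)) := by
      cases g with
      | and a b =>
        obtain ⟨F, hF, G, hG, ha⟩ := hw a
        obtain ⟨F', hF', G', hG', hb'⟩ := hw b
        refine ⟨fun x => F x ∧ F' x, fun x => G x ∨ G' x,
          ((h1.or hG hG').and (Or.inr hF) (Or.inr hF')).mono le_rfl subset_rfl, fun x z => ?_⟩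
        have ha' := ha x z
        have hb'' := hb' x z
        simp only [Gate.val]
        revert ha' hb''
        cases a.val z (gateVals z C []) <;> cases b.val z (gateVals z C []) <;>
          simp <;> tauto
      | or a b =>
        obtain ⟨F, hF, G, hG, ha⟩ := hw a
        obtain ⟨F', hF', G', hG', hb'⟩ := hw b
        refine ⟨fun x => F x ∨ F' x, fun x => G x ∧ G' x,
          ((h1.and hG hG').or (Or.inr hF) (Or.inr hF')).mono le_rfl subset_rfl, fun x z => ?_⟩
        have ha' := ha x z
        have hb'' := hb' x z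
        simp only [Gate.val]
        revert ha' hb''
        cases a.val z (gateVals z C []) <;> cases b.val z (gateVals z C []) <;>
          simp <;> tauto
      | not a =>
        obtain ⟨F, hF, G, hG, ha⟩ := hw a
        refine ⟨G, F, h1.mono (by omega) ?_, fun x z => ?_⟩
        · rintro E (rfl | rfl | hE)
          · exact hG
          · exact hF
          · exact hE
        · have ha' := ha x z
          simp only [Gate.val]
          revert ha'
          cases a.val z (gateVals z C []) <;> simp
    refine ⟨fun i => if i = C.length then F else P i, fun i => if i = C.length then G else Q i,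
      h3.mono ?_ ?_, fun x z => ?_⟩
    · rw [List.length_append]
      simp only [List.length_cons, List.length_nil]
      omega
    · rintro E (hE | ⟨i, hE⟩)
      · exact Or.inr (Or.inr (Or.inl hE))
      · dsimp only at hE
        by_cases hi : i = C.length
        · rw [if_pos hi, if_pos hi] at hE
          rcases hE with rfl | rfl
          · exact Or.inl rfl
          · exact Or.inr (Or.inl rfl)
        · rw [if_neg hi, if_neg hi] at hE
          exact Or.inr (Or.inr (Or.inr ⟨i, hE⟩))
    · have hl : (gateVals z C []).length = C.length := by rw [gv_length]; simp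
      have key : ∀ i, (gateVals z (C ++ [g]) []).getD i false =
          if i = C.length then g.val z (gateVals z C []) else (gateVals z C []).getD i false := by
        intro i
        rw [gv_snoc]
        by_cases hi : i = C.length
        · rw [if_pos hi, List.getD_eq_getElem _ _ (by rw [List.length_append, hl, hi]; simp),
            List.getElem_append_right (by rw [hl, hi])]
          simp only [hl, hi, Nat.sub_self, List.getElem_cons_zero]
        · rw [if_neg hi]
          rcases Nat.lt_or_ge i C.length with h6 | h6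
          · rw [List.getD_eq_getElem _ _ (by rw [List.length_append, hl]; simp; omega),
              List.getElem_append_left (by rw [hl]; exact h6),
              List.getD_eq_getElem _ _ (by rw [hl]; exact h6)]
          · rw [List.getD_eq_default _ _ (by rw [List.length_append, hl]; simp; omega),
              List.getD_eq_default _ _ (by rw [hl]; exact h6)]
      refine ⟨fun hd i => ?_, fun hd i => ?_⟩
      · rw [key]
        dsimp only
        by_cases hi : i = C.length
        · rw [if_pos hi, if_pos hi, if_pos hi]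
          exact (h4 x z).1 hd
        · rw [if_neg hi, if_neg hi, if_neg hi]
          exact (h2 x z).1 hd i
      · rw [key]
        dsimp only
        by_cases hi : i = C.length
        · rw [if_pos hi, if_pos hi, if_pos hi]
          exact (h4 x z).2 hd
        · rw [if_neg hi, if_neg hi, if_neg hi]
          exact (h2 x z).2 hd i

/-- The output of `C` on the first rail. -/
theorem hasR_out (p q : V → (V → Bool) → Prop) (C : Circuit V) (out : Wire V)
    (hb : bas V ⊆ Φ) (hp : ∀ v, p v ∈ Φ) (hq : ∀ v, q v ∈ Φ) (h : HasR R n Φ) :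
    ∃ P : (V → Bool) → Prop, HasR R (n + 2 * C.length) (insert P Φ) ∧
      ∀ x z, (Dom p q x z → C.val z out = true → P x) ∧
        (Sub p q x z → P x → C.val z out = true) := by
  obtain ⟨P, Q, h1, h2⟩ := hasR_rail p q C n Φ hb hp hq h
  cases out with
  | var v =>
    refine ⟨p v, h1.mono le_rfl ?_, fun x z => ⟨fun h3 => (h3 v).1, fun h3 => (h3 v).1⟩⟩
    rintro E (rfl | hE)
    · exact Or.inl (hp v)
    · exact Or.inl hE
  | const b =>
    refine ⟨fun _ => b = true, h1.mono le_rfl ?_, fun x z => ⟨fun _ => id, fun _ => id⟩⟩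
    rintro E (rfl | hE)
    · exact Or.inl (hb (const_mem_bas' _))
    · exact Or.inl hE
  | gate i =>
    refine ⟨P i, h1.mono le_rfl ?_,
      fun x z => ⟨fun h3 => ((h2 x z).1 h3 i).1, fun h3 => ((h2 x z).2 h3 i).1⟩⟩
    rintro E (rfl | hE)
    · exact Or.inr ⟨i, Or.inl rfl⟩
    · exact Or.inl hE

end

section

variable {V : Type} [DecidableEq V]

/-- Equal outside `U` and in the same slice of `U` of width `d`. -/
def Wide (U : Finset V) (d : ℕ) (x y : V → Bool) : Prop :=
  (∀ v, v ∉ U → x v = y v) ∧ cnt U x / d = cnt U y / d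

/-- Turn the variables in `I` on. -/
def up (I : Finset V) (x : V → Bool) (v : V) : Bool := if v ∈ I then true else x v

/-- `P` separates the inputs with value `1` in the slice from those with value `0`. -/
structure Good (U : Finset V) (f : (V → Bool) → Bool) (w r : ℕ) (I : Finset V)
    (P : (V → Bool) → Prop) : Prop where
  one : ∀ x, f (up I x) = true → w ≤ cnt (U \ I) x → P x
  zero : ∀ x, (∀ a ∈ I, x a = true) → f x = false → cnt U x < w + (I.card + r) → ¬ P x

/-- The functions available. -/
structure Avail (U : Finset V) (d : ℕ) (Φ : Set ((V → Bool) → Prop)) : Prop where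
  bas : bas V ⊆ Φ
  thr : ∀ j, j ≤ U.card → NTN.thr U j ∈ Φ
  thr1 : ∀ I ⊆ U, I.card = d → ∀ j, j ≤ U.card → NTN.thr (U \ I) j ∈ Φ
  nvar : ∀ v, v ∉ U → (fun x : V → Bool => ¬ x v = true) ∈ Φ
  nthr : ∀ j, j ≤ U.card / d → (fun x : V → Bool => ¬ NTN.thr U (d * (j + 1)) x) ∈ Φ

theorem Avail.mono {U : Finset V} {d : ℕ} {Φ Ψ : Set ((V → Bool) → Prop)} (h : Avail U d Φ)
    (hs : Φ ⊆ Ψ) : Avail U d Ψ :=
  ⟨h.bas.trans hs, fun j hj => hs (h.thr j hj), fun I hI hc j hj => hs (h.thr1 I hI hc j hj),
    fun v hv => hs (h.nvar v hv), fun j hj => hs (h.nthr j hj)⟩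

variable {U : Finset V} {n d : ℕ} {Φ : Set ((V → Bool) → Prop)}

theorem cnt_sdiff (I : Finset V) (hI : I ⊆ U) (x : V → Bool) (hx : ∀ a ∈ I, x a = true) :
    cnt (U \ I) x + I.card = cnt U x := by
  unfold cnt
  have h1 : (U.filter fun v => x v = true) = ((U \ I).filter fun v => x v = true) ∪ I := by
    ext v
    simp only [Finset.mem_filter, Finset.mem_union, Finset.mem_sdiff]
    constructor
    · rintro ⟨h2, h3⟩
      by_cases h4 : v ∈ I
      · exact Or.inr h4
      · exact Or.inl ⟨⟨h2, h4⟩, h3⟩
    · rintro (⟨⟨h2, -⟩, h3⟩ | h2)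
      · exact ⟨h2, h3⟩
      · exact ⟨hI h2, hx v h2⟩
  rw [h1, Finset.card_union_of_disjoint]
  rw [Finset.disjoint_left]
  intro v h2 h3
  rw [Finset.mem_filter, Finset.mem_sdiff] at h2
  exact h2.1.2 h3

/-- The first level. -/
theorem good_zero (f : (V → Bool) → Bool) (w : ℕ) {I : Finset V} (hI : I ⊆ U) :
    Good U f w 0 I (thr (U \ I) w) where
  one x _ h := h
  zero x hx _ h1 h2 := by
    have h3 := cnt_sdiff I hI x hx
    unfold thr at h2
    omega

theorem cnt_off {I : Finset V} {a : V} (x : V → Bool) (ha : x a = false) :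
    cnt (U \ insert a I) x = cnt (U \ I) x := by
  unfold cnt
  congr 1
  ext v
  simp only [Finset.mem_filter, Finset.mem_sdiff, Finset.mem_insert, not_or]
  constructor
  · rintro ⟨⟨h1, -, h2⟩, h3⟩
    exact ⟨⟨h1, h2⟩, h3⟩
  · rintro ⟨⟨h1, h2⟩, h3⟩
    refine ⟨⟨h1, ?_, h2⟩, h3⟩
    rintro rfl
    rw [ha] at h3
    exact Bool.false_ne_true h3

/-- One set of the next level. -/
theorem step_one {R : (V → Bool) → (V → Bool) → Prop} {w r : ℕ} (C : Circuit V) (out : Wire V)
    (hmono : ∀ x y : V → Bool, (∀ v, v ∉ U → x v = y v) → x ≤ y → C.val x out = true →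
      C.val y out = true)
    (hA : Avail U d Φ) {I : Finset V} (hI : I ⊆ U)
    (hL : ∀ a ∈ U, a ∉ I → ∃ P ∈ Φ, Good U (fun x => C.val x out) w r (insert a I) P)
    (h : HasR R n Φ) :
    ∃ P, Good U (fun x => C.val x out) w (r + 1) I P ∧
      HasR R (n + 2 * C.length) (insert P Φ) := by
  classical
  have hex : ∀ v : V, ∃ P ∈ Φ, (v ∈ U → v ∉ I →
      Good U (fun x => C.val x out) w r (insert v I) P) := by
    intro v
    by_cases h1 : v ∈ U ∧ v ∉ I
    · obtain ⟨P, h2, h3⟩ := hL v h1.1 h1.2
      exact ⟨P, h2, fun _ _ => h3⟩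
    · exact ⟨fun _ => True, hA.bas (const_mem_bas' _), fun h2 h3 => absurd ⟨h2, h3⟩ h1⟩
  choose G hG hG' using hex
  obtain ⟨P, h1, h2⟩ := hasR_out (R := R) (n := n) (Φ := Φ)
    (fun v x => if v ∈ I then True else x v = true)
    (fun v x => if v ∈ I then False else if v ∈ U then G v x else ¬ x v = true) C out hA.bas
    (by
      intro v
      by_cases hv : v ∈ I
      · simp only [if_pos hv]
        exact hA.bas (const_mem_bas' _)
      · simp only [if_neg hv]
        exact hA.bas (Or.inl ⟨v, rfl⟩))
    (by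
      intro v
      by_cases hv : v ∈ I
      · simp only [if_pos hv]
        exact hA.bas (const_mem_bas' _)
      · by_cases hv' : v ∈ U
        · simp only [if_neg hv, if_pos hv']
          exact hG v
        · simp only [if_neg hv, if_neg hv']
          exact hA.nvar v hv') h
  refine ⟨P, ⟨fun x hx hw => ?_, fun x hx hf hc hP => ?_⟩, h1⟩
  · refine (h2 x (up I x)).1 (fun v => ⟨fun hz => ?_, fun hz => ?_⟩) hx
    · by_cases hv : v ∈ I
      · simp only [if_pos hv]
      · simp only [if_neg hv]
        rwa [up, if_neg hv] at hz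
    · have hv : v ∉ I := by
        intro hv
        rw [up, if_pos hv] at hz
        exact Bool.noConfusion hz
      rw [up, if_neg hv] at hz
      by_cases hv' : v ∈ U
      · simp only [if_neg hv, if_pos hv']
        refine (hG' v hv' hv).one x ?_ ?_
        · refine hmono (up I x) _ (fun u hu => ?_) (fun u => ?_) hx
          · have h3 : u ≠ v := fun h4 => hu (h4 ▸ hv')
            simp only [up, Finset.mem_insert, h3, false_or]
          · simp only [up, Finset.mem_insert]
            by_cases h3 : u ∈ I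
            · simp [h3]
            · by_cases h4 : u = v
              · simp [h4]
              · simp [h3, h4]
        · rw [cnt_off x hz]
          exact hw
      · simp only [if_neg hv, if_neg hv', hz]
        exact Bool.false_ne_true
  · have h3 := (h2 x x).2 (fun v => ⟨fun hp => ?_, fun hq => ?_⟩) hP
    · rw [hf] at h3
      exact Bool.false_ne_true h3
    · by_cases hv : v ∈ I
      · exact hx v hv
      · simpa only [if_neg hv] using hp
    · by_cases hv : v ∈ I
      · simp only [if_pos hv] at hq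
      · by_cases hv' : v ∈ U
        · simp only [if_neg hv, if_pos hv'] at hq
          by_contra hcon
          have hxv : x v = true := by simpa using hcon
          refine (hG' v hv' hv).zero x (fun a ha => ?_) hf ?_ hq
          · rcases Finset.mem_insert.1 ha with rfl | ha
            · exact hxv
            · exact hx a ha
          · rw [Finset.card_insert_of_notMem hv]
            omega
        · simpa only [if_neg hv, if_neg hv', Bool.not_eq_true] using hq

/-- The levels. -/
theorem levels {R : (V → Bool) → (V → Bool) → Prop} {w : ℕ} (hw : w ≤ U.card) (C : Circuit V)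
    (out : Wire V)
    (hmono : ∀ x y : V → Bool, (∀ v, v ∉ U → x v = y v) → x ≤ y → C.val x out = true →
      C.val y out = true)
    (hA : Avail U d Φ) (h : HasR R n Φ) : ∀ m, m ≤ d →
    ∃ Φ' : Set ((V → Bool) → Prop), Φ ⊆ Φ' ∧
      HasR R (n + 2 * C.length * ∑ i ∈ Finset.range m, U.card ^ (d - (i + 1))) Φ' ∧
      ∀ I ⊆ U, I.card + m = d → ∃ P ∈ Φ', Good U (fun x => C.val x out) w m I P := by
  intro m
  induction m with
  | zero =>
    intro _
    refine ⟨Φ, subset_rfl, h.mono (by simp) subset_rfl, fun I hI hc => ?_⟩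
    exact ⟨thr (U \ I) w, hA.thr1 I hI (by omega) w hw, good_zero _ w hI⟩
  | succ m ih =>
    intro hm
    obtain ⟨Φ', h1, h2, h3⟩ := ih (by omega)
    obtain ⟨Φ'', h4, h5, h6⟩ := h2.iterE (c := 2 * C.length) (U.powersetCard (d - (m + 1)))
      (fun I P => Good U (fun x => C.val x out) w (m + 1) I P) (by
        intro I hI m' Ψ hΨ hm'
        rw [Finset.mem_powersetCard] at hI
        refine step_one C out hmono (hA.mono (h1.trans hΨ)) hI.1 (fun a ha haI => ?_) hm'
        obtain ⟨P, h7, h8⟩ := h3 (insert a I) (Finset.insert_subset ha hI.1) (by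
          rw [Finset.card_insert_of_notMem haI, hI.2]
          omega)
        exact ⟨P, hΨ h7, h8⟩)
    refine ⟨Φ'', h1.trans h4, h5.mono ?_ subset_rfl, fun I hI hc => ?_⟩
    · rw [Finset.sum_range_succ, mul_add, ← add_assoc, Finset.card_powersetCard]
      exact Nat.add_le_add_left (Nat.mul_le_mul_left _ (Nat.choose_le_pow _ _)) _
    · exact h6 I (Finset.mem_powersetCard.2 ⟨hI, by omega⟩)

theorem sum_pow_le (k : ℕ) : ∀ d, ∑ i ∈ Finset.range (d + 1), k ^ (d - i) ≤ (k + 1) ^ d := by
  intro d
  induction d with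
  | zero => simp
  | succ d ih =>
    rw [Finset.sum_range_succ']
    have h1 : ∀ i ∈ Finset.range (d + 1), k ^ (d + 1 - (i + 1)) = k ^ (d - i) := by
      intro i _
      congr 1
      omega
    rw [Finset.sum_congr rfl h1, Nat.sub_zero]
    calc ∑ i ∈ Finset.range (d + 1), k ^ (d - i) + k ^ (d + 1) ≤ (k + 1) ^ d + k * (k + 1) ^ d := by
          refine add_le_add ih ?_
          rw [pow_succ']
          exact Nat.mul_le_mul_left _ (Nat.pow_le_pow_left (Nat.le_succ k) d)
      _ = (k + 1) ^ (d + 1) := by ring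

theorem exists_avail [Fintype V] (U : Finset V) (hd : 1 ≤ d) :
    ∃ Φ : Set ((V → Bool) → Prop), Avail U d Φ ∧
      HasR (Wide U d) (2 * U.card * U.card + 2 * U.card * U.card * U.card ^ d +
        Fintype.card V + (U.card + 1)) Φ := by
  set k := U.card with hk
  have h1 := hasR_thr (hasR_bas (Wide U d)) subset_rfl U k
  have h2 := h1.iter (c := 2 * k * k) (U.powersetCard d) (fun I => {F | ∃ j, j ≤ k ∧ F = thr (U \ I) j})
    (by
    intro I hI m Ψ hΨ hm
    refine (hasR_thr hm (Set.subset_union_left.trans hΨ) (U \ I) k).mono ?_ subset_rfl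
    refine Nat.add_le_add_left (Nat.mul_le_mul_left _ ?_) _
    exact Finset.card_le_card Finset.sdiff_subset)
  have h3 := h2.iter (c := 1) (univ \ U) (fun v => {fun x : V → Bool => ¬ x v = true}) (by
    intro v hv m Ψ hΨ hm
    rw [Finset.mem_sdiff] at hv
    refine (hm.not (F := fun x => x v = true)
      (hΨ (Or.inl (Or.inl (Or.inl ⟨v, rfl⟩)))) ?_).mono le_rfl ?_
    · intro x y hxy
      rw [hxy.1 v hv.2]
    · rintro E (hE | hE)
      · exact Or.inr hE
      · exact Or.inl (Set.mem_singleton_iff.1 hE))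
  have h4 := h3.iter (c := 1) (Finset.range (k / d + 1))
    (fun j => {fun x : V → Bool => ¬ thr U (d * (j + 1)) x}) (by
    intro j hj m Ψ hΨ hm
    rw [Finset.mem_range] at hj
    rcases Nat.lt_or_ge k (d * (j + 1)) with h5 | h5
    · refine hm.mono (by omega) ?_
      rintro E (hE | hE)
      · exact hE
      · rw [Set.mem_singleton_iff.1 hE]
        have h6 : (fun x : V → Bool => ¬ thr U (d * (j + 1)) x) = fun _ => True := by
          funext x
          refine propext ⟨fun _ => trivial, fun _ h7 => ?_⟩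
          have h8 := cnt_le U x
          unfold thr at h7
          omega
        rw [h6]
        exact hΨ (Or.inl (Or.inl (Or.inl (const_mem_bas' _))))
    · refine (hm.not (F := thr U (d * (j + 1)))
        (hΨ (Or.inl (Or.inl (Or.inr ⟨d * (j + 1), h5, rfl⟩)))) ?_).mono le_rfl ?_
      · intro x y hxy
        unfold thr
        rw [mul_comm, ← Nat.le_div_iff_mul_le (by omega), ← Nat.le_div_iff_mul_le (by omega), hxy.2]
      · rintro E (hE | hE)
        · exact Or.inr hE
        · exact Or.inl (Set.mem_singleton_iff.1 hE))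
  refine ⟨_, ⟨?_, ?_, ?_, ?_, ?_⟩, h4.mono ?_ subset_rfl⟩
  · exact fun F hF => Or.inl (Or.inl (Or.inl (Or.inl hF)))
  · exact fun j hj => Or.inl (Or.inl (Or.inl (Or.inr ⟨j, hj, rfl⟩)))
  · exact fun I hI hc j hj => Or.inl (Or.inl (Or.inr ⟨I, Finset.mem_powersetCard.2 ⟨hI, hc⟩,
      ⟨j, hj, rfl⟩⟩))
  · exact fun v hv => Or.inl (Or.inr ⟨v, Finset.mem_sdiff.2 ⟨Finset.mem_univ _, hv⟩, rfl⟩)
  · exact fun j hj => Or.inr ⟨j, Finset.mem_range.2 (Nat.lt_succ_of_le hj), rfl⟩
  · have h5 : (univ \ U).card ≤ Fintype.card V := Finset.card_le_univ _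
    have h6 : (U.powersetCard d).card ≤ k ^ d := by
      rw [Finset.card_powersetCard]
      exact Nat.choose_le_pow _ _
    have h7 : 2 * k * k * (U.powersetCard d).card ≤ 2 * k * k * k ^ d := Nat.mul_le_mul_left _ h6
    have h8 : k / d ≤ k := Nat.div_le_self _ _
    rw [Finset.card_range, ← hk]
    omega

/-- The choice of the slice. -/
theorem choice {R : (V → Bool) → (V → Bool) → Prop} (F : ℕ → (V → Bool) → Prop)
    (hA : Avail U d Φ) (hd : 1 ≤ d) (h : HasR R n Φ) :
    ∀ m, m ≤ U.card / d + 1 → (∀ j < m, F j ∈ Φ) →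
    HasR R (n + 3 * m) (insert (fun x => ∃ j, j < m ∧ thr U (d * j) x ∧
      ¬ thr U (d * (j + 1)) x ∧ F j x) Φ) := by
  intro m
  induction m with
  | zero =>
    intro _ _
    refine h.mono (by simp) ?_
    rintro E (rfl | hE)
    · have h1 : (fun x : V → Bool => ∃ j, j < 0 ∧ thr U (d * j) x ∧ ¬ thr U (d * (j + 1)) x ∧
          F j x) = fun _ => False := by
        funext x
        simp
      rw [h1]
      exact hA.bas (const_mem_bas' _)
    · exact hE
  | succ m ih =>
    intro hm hF
    have h1 := ih (by omega) fun j hj => hF j (by omega)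
    have h2 := h1.and (Or.inr (hA.nthr m (by omega))) (Or.inr (hF m (by omega)))
    have hdm : d * m ≤ U.card := by
      have e1 : d * m ≤ d * (U.card / d) := Nat.mul_le_mul_left _ (by omega)
      exact e1.trans (Nat.mul_div_le _ _)
    have h3 := h2.and (Or.inr (Or.inr (hA.thr (d * m) hdm))) (Or.inl rfl)
    have h4 := h3.or (Or.inl rfl) (Or.inr (Or.inr (Or.inl rfl)))
    refine h4.mono (by omega) ?_
    rintro E (rfl | hE)
    · refine Or.inl ?_
      funext x
      refine propext ⟨?_, ?_⟩
      · rintro ⟨j, hj, h5⟩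
        rcases Nat.lt_succ_iff_lt_or_eq.1 hj with h6 | rfl
        · exact Or.inr ⟨j, h6, h5⟩
        · exact Or.inl h5
      · rintro (h5 | ⟨j, hj, h5⟩)
        · exact ⟨m, Nat.lt_succ_self m, h5⟩
        · exact ⟨j, by omega, h5⟩
    · exact Or.inr (Or.inr (Or.inr (Or.inr hE)))

/-- Functions of the slice of width `d` change at most `|U| / d` times. -/
theorem changesOn_wide {W : Type} (w : (V → Bool) → W)
    (hw : ∀ x y, Wide U d x y → w x = w y) : ChangesOn U w (U.card / d + 1) := by
  intro x hx hU n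
  have hcm : ∀ k, cnt U (x k) / d ≤ cnt U (x (k + 1)) / d := by
    intro k
    refine Nat.div_le_div_right (Finset.card_le_card fun v hv => ?_)
    rw [Finset.mem_filter] at hv ⊢
    exact ⟨hv.1, Bool.le_iff_imp.1 (hx (Nat.le_succ k) v) hv.2⟩
  have key : ∀ m, {k | k < m ∧ w (x k) ≠ w (x (k + 1))}.ncard + cnt U (x 0) / d ≤
      cnt U (x m) / d := by
    intro m
    induction m with
    | zero => simp
    | succ m ih =>
      by_cases h : w (x m) = w (x (m + 1))
      · have h1 : {k | k < m + 1 ∧ w (x k) ≠ w (x (k + 1))}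
            = {k | k < m ∧ w (x k) ≠ w (x (k + 1))} := by
          ext k
          constructor
          · rintro ⟨h2, h3⟩
            refine ⟨?_, h3⟩
            rcases Nat.lt_succ_iff_lt_or_eq.1 h2 with h4 | rfl
            · exact h4
            · exact absurd h h3
          · rintro ⟨h2, h3⟩
            exact ⟨by omega, h3⟩
        rw [h1]
        exact ih.trans (hcm m)
      · have h1 : {k | k < m + 1 ∧ w (x k) ≠ w (x (k + 1))}
            ⊆ insert m {k | k < m ∧ w (x k) ≠ w (x (k + 1))} := by
          rintro k ⟨h2, h3⟩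
          rcases Nat.lt_succ_iff_lt_or_eq.1 h2 with h4 | rfl
          · exact Or.inr ⟨h4, h3⟩
          · exact Or.inl rfl
        have hfin : {k | k < m ∧ w (x k) ≠ w (x (k + 1))}.Finite :=
          (Set.finite_lt_nat m).subset fun k hk => hk.1
        have h2 := Set.ncard_le_ncard h1 (hfin.insert m)
        have h3 := Set.ncard_insert_le m {k | k < m ∧ w (x k) ≠ w (x (k + 1))}
        have h4 : cnt U (x m) / d ≠ cnt U (x (m + 1)) / d := by
          intro h5
          refine h (hw _ _ ⟨fun v hv => ?_, h5⟩)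
          rw [hU m v hv, hU (m + 1) v hv]
        have h5 := hcm m
        omega
  have h1 := key n
  have h2 : cnt U (x n) / d ≤ U.card / d := Nat.div_le_div_right (cnt_le U _)
  exact Nat.lt_succ_of_le ((Nat.le_add_right _ _).trans (h1.trans h2))

/-- **Wide slices.** Every function which is monotone in the variables of `U` and has a circuit has
a circuit whose NOT gates change their values at most `|U| / d` times on `U`. -/
theorem exists_wide [Fintype V] (C : Circuit V) (out : Wire V) (U : Finset V)
    (hmono : ∀ x y : V → Bool, (∀ v, v ∉ U → x v = y v) → x ≤ y → C.val x out = true →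
      C.val y out = true) (hd : 1 ≤ d) :
    ∃ (D : Circuit V) (o : Wire V),
      D.size ≤ 2 * (U.card + 1) ^ d * C.size + 4 * (U.card + 1) ^ (d + 2) + Fintype.card V ∧
      (∀ x, D.val x o = C.val x out) ∧ (∀ x y, Wide U d x y → D.notVals x = D.notVals y) := by
  obtain ⟨Φ, hA, h1⟩ := exists_avail U hd
  set k := U.card with hk
  have hwj : ∀ j, j ≤ k / d → d * j ≤ k := by
    intro j hj
    exact (Nat.mul_le_mul_left _ hj).trans (Nat.mul_div_le _ _)
  obtain ⟨Φ', h2, h3, h4⟩ := h1.iterE
    (c := 2 * C.length * ∑ i ∈ Finset.range d, k ^ (d - (i + 1)))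
    (Finset.range (k / d + 1)) (fun j P => Good U (fun x => C.val x out) (d * j) d ∅ P) (by
      intro j hj m Ψ hΨ hm
      rw [Finset.mem_range] at hj
      obtain ⟨Φ'', h5, h6, h7⟩ := levels (hwj j (by omega)) C out hmono (hA.mono hΨ) hm d le_rfl
      obtain ⟨P, h8, h9⟩ := h7 ∅ (Finset.empty_subset _) (by simp)
      exact ⟨P, h9, h6.mono le_rfl (Set.insert_subset h8 h5)⟩)
  have hex : ∀ j, ∃ P ∈ Φ', (j < k / d + 1 → Good U (fun x => C.val x out) (d * j) d ∅ P) := by
    intro j
    by_cases hj : j < k / d + 1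
    · obtain ⟨P, h5, h6⟩ := h4 j (Finset.mem_range.2 hj)
      exact ⟨P, h5, fun _ => h6⟩
    · exact ⟨fun _ => True, h2 (hA.bas (const_mem_bas' _)), fun h5 => absurd h5 hj⟩
  choose F hF hF' using hex
  obtain ⟨D, hD1, hD2, hD3⟩ := choice F (hA.mono h2) hd h3 (k / d + 1) le_rfl fun j _ => hF j
  obtain ⟨o, -, ho⟩ := hD3 _ (Or.inl rfl)
  refine ⟨D, o, hD2.trans ?_, fun x => ?_, hD1⟩
  · rw [Finset.card_range]
    unfold Circuit.size
    obtain ⟨e, rfl⟩ : ∃ e, d = e + 1 := ⟨d - 1, by omega⟩
    have h5 : ∑ i ∈ Finset.range (e + 1), k ^ (e + 1 - (i + 1)) ≤ (k + 1) ^ e := by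
      refine le_trans (le_of_eq ?_) (sum_pow_le k e)
      refine Finset.sum_congr rfl fun i _ => ?_
      congr 1
      omega
    have h6 : k / (e + 1) + 1 ≤ k + 1 := Nat.succ_le_succ (Nat.div_le_self _ _)
    have h7 : 2 * C.length * (∑ i ∈ Finset.range (e + 1), k ^ (e + 1 - (i + 1))) *
        (k / (e + 1) + 1) ≤ 2 * (k + 1) ^ (e + 1) * C.length := by
      calc 2 * C.length * (∑ i ∈ Finset.range (e + 1), k ^ (e + 1 - (i + 1))) *
            (k / (e + 1) + 1) ≤ 2 * C.length * (k + 1) ^ e * (k + 1) :=
            Nat.mul_le_mul (Nat.mul_le_mul_left _ h5) h6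
        _ = 2 * (k + 1) ^ (e + 1) * C.length := by ring
    have h8 : 2 * k * k + 2 * k * k * k ^ (e + 1) + (k + 1) + 3 * (k + 1) ≤
        4 * (k + 1) ^ (e + 1 + 2) := by
      have h9 : k ^ (e + 1) ≤ (k + 1) ^ (e + 1) := Nat.pow_le_pow_left (Nat.le_succ k) _
      have h10 : 1 ≤ (k + 1) ^ (e + 1) := Nat.one_le_pow _ _ (Nat.succ_pos k)
      have h11 : (k + 1) ^ (e + 1 + 2) = (k + 1) ^ (e + 1) * ((k + 1) * (k + 1)) := by ring
      rw [h11]
      nlinarith [Nat.mul_le_mul_left (2 * k * k) h9, Nat.mul_le_mul_left (2 * k * k + 8 * k + 4) h10]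
    omega
  · rw [Bool.eq_iff_iff, ho x]
    constructor
    · rintro ⟨j, hj, h5, h6, h7⟩
      unfold thr at h5 h6
      by_contra hcon
      have hf : C.val x out = false := by simpa using hcon
      refine (hF' j hj).zero x (fun a ha => absurd ha (Finset.notMem_empty a)) hf ?_ h7
      rw [Finset.card_empty]
      have h8 : d * (j + 1) = d * j + d := by ring
      omega
    · intro h5
      have h6 : cnt U x / d < k / d + 1 := Nat.lt_succ_of_le (Nat.div_le_div_right (cnt_le U x))
      refine ⟨cnt U x / d, h6, Nat.mul_div_le _ _, ?_, ?_⟩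
      · unfold thr
        rw [not_le]
        exact Nat.lt_mul_div_succ _ (by omega)
      · refine (hF' _ h6).one x ?_ ?_
        · have h7 : up ∅ x = x := by
            funext v
            simp [up]
          rw [h7]
          exact h5
        · rw [Finset.sdiff_empty]
          exact Nat.mul_div_le _ _

/-- **Wide slices**, changes of the NOT gates. -/
theorem exists_wide_slices [Fintype V] (C : Circuit V) (out : Wire V) (U : Finset V)
    (hmono : Monotone fun x => C.val x out) (hd : 1 ≤ d) :
    ∃ (D : Circuit V) (o : Wire V),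
      D.size ≤ 2 * (U.card + 1) ^ d * C.size + 4 * (U.card + 1) ^ (d + 2) + Fintype.card V ∧
      (∀ x, D.val x o = C.val x out) ∧ ChangesOn U (fun x => D.notVals x) (U.card / d + 1) := by
  obtain ⟨D, o, h1, h2, h3⟩ := exists_wide C out U
    (fun x y _ hxy hx => Bool.le_iff_imp.1 (hmono hxy) hx) hd
  exact ⟨D, o, h1, h2, changesOn_wide _ h3⟩

end

end Wsl

end Pool.Agent.NTN
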